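import Pool.Agent.Lib.MP_6e2ba5_an.Rx.AsyB

/-! # The moment identity

Let `W = V₁ - V₂`, which vanishes a.e. outside `far D y ρ`, bounded by `2M`. For large `τ`, `∫ W u₁ u₂ = 0` (`uI_J`; `iτ ∈ Reg K₀`
for `τ ≥ K₀`, compare `Main_axis_mem` in `../Main.lean`). Multiply by `z⁴/ma²`: with
`g_j = z² u_j/ma`, `g = κ q kf(·-y)`, `T = far D y ρ`: `∫_T W g₁ g₂ = 0` and `‖g_j - g‖_{L²(T)} → 0` (`asyB`), `g` bounded on `T`,
`T` of finite measure. `∫_T W g² = ∫_T W (g g - g₁ g₂)`, `g g - g₁g₂ = (g-g₁) g + g₁ (g-g₂)`, Cauchy-Schwarz: the right side tends to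
`0`. Here `q` is the ratio `muV`, which is the same for both potentials, bounded by `M` and bounded below (`muV_lower`). So
`κ² ∫ W kf(x-y)² = 0`. -/

set_option autoImplicit false

open MeasureTheory Filter Topology Set
open scoped FourierTransform SchwartzMap InnerProductSpace ENNReal BoundedContinuousFunction

noncomputable section

namespace FracScatC

open FracScat

private theorem limI_axis {K τ : ℝ} (hK : 1 ≤ K) (hτ : K ≤ τ) :
    Complex.I * (τ : ℂ) ∈ Reg K := by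
  refine ⟨by simp, ?_, ?_⟩
  · simp only [Complex.mul_im, Complex.I_re, Complex.I_im, Complex.ofReal_re, Complex.ofReal_im]
    linarith
  · rw [norm_mul, Complex.norm_I, one_mul, Complex.norm_real, Real.norm_of_nonneg (by linarith)]
    exact hτ

private theorem limI_le {a ε : ℝ} (ha : 0 ≤ a) (hε : 0 < ε) : a ≤ ε + a ^ 2 / ε := by
  rcases le_total a ε with h | h
  · have : 0 ≤ a ^ 2 / ε := by positivity
    linarith
  · have : a ≤ a ^ 2 / ε := by
      rw [le_div_iff₀ hε]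
      nlinarith
    linarith

/-- the pointwise estimate -/
private theorem limI_pt {W g g₁ g₂ : ℂ} {M G ε : ℝ} (hM : 0 ≤ M) (hG : 0 ≤ G) (hε : 0 < ε)
    (hW : ‖W‖ ≤ 2 * M) (hg : ‖g‖ ≤ G) :
    ‖W * (g * g - g₁ * g₂)‖ ≤ 2 * M * (G / ε + 1) * ‖g₁ - g‖ ^ 2 +
      2 * M * (G / ε + 1) * ‖g₂ - g‖ ^ 2 + 2 * M * (2 * G * ε) := by
  have e : g * g - g₁ * g₂ = -(g * (g₂ - g) + (g₁ - g) * g + (g₁ - g) * (g₂ - g)) := by ring
  have h1 : ‖g * g - g₁ * g₂‖ ≤ G * ‖g₂ - g‖ + ‖g₁ - g‖ * G + ‖g₁ - g‖ * ‖g₂ - g‖ := by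
    rw [e, norm_neg]
    refine (norm_add₃_le).trans ?_
    rw [norm_mul, norm_mul, norm_mul]
    have h2 : ‖g‖ * ‖g₂ - g‖ ≤ G * ‖g₂ - g‖ := mul_le_mul_of_nonneg_right hg (norm_nonneg _)
    have h3 : ‖g₁ - g‖ * ‖g‖ ≤ ‖g₁ - g‖ * G := mul_le_mul_of_nonneg_left hg (norm_nonneg _)
    linarith
  set a := ‖g₁ - g‖ with ha
  set b := ‖g₂ - g‖ with hb
  have ha0 : 0 ≤ a := norm_nonneg _
  have hb0 : 0 ≤ b := norm_nonneg _
  have h2 : G * b + a * G + a * b ≤ (G / ε + 1) * a ^ 2 + (G / ε + 1) * b ^ 2 + 2 * G * ε := by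
    have h3 := mul_le_mul_of_nonneg_left (limI_le ha0 hε) hG
    have h4 := mul_le_mul_of_nonneg_left (limI_le hb0 hε) hG
    have h5 : a * b ≤ a ^ 2 + b ^ 2 := by nlinarith [sq_nonneg (a - b), sq_nonneg a, sq_nonneg b]
    have e1 : G * (ε + a ^ 2 / ε) = G * ε + G / ε * a ^ 2 := by ring
    have e2 : G * (ε + b ^ 2 / ε) = G * ε + G / ε * b ^ 2 := by ring
    nlinarith
  have h3 : 0 ≤ ‖g * g - g₁ * g₂‖ := norm_nonneg _
  calc ‖W * (g * g - g₁ * g₂)‖ = ‖W‖ * ‖g * g - g₁ * g₂‖ := norm_mul _ _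
    _ ≤ 2 * M * ((G / ε + 1) * a ^ 2 + (G / ε + 1) * b ^ 2 + 2 * G * ε) :=
        mul_le_mul hW (h1.trans h2) h3 (by linarith)
    _ = _ := by ring

theorem limI {s : ℝ} (h0 : 3 / 4 < s) (h2 : s < 2) (h1 : s ≠ 1) {r M : ℝ} (hr : 0 < r)
    {V₁ V₂ : E3 → ℂ} {D : Set E3} {θ y : E3} {q : ℂ} (hq : q ≠ 0) (t₁ : Tip r M V₁ D θ y q)
    (t₂ : Tip r M V₂ D θ y q) {K₀ : ℝ} (hK₀ : 1 ≤ K₀)
    (hT₁ : ∀ k ∈ Reg K₀, ‖Tk s r V₁ k‖ ≤ 1 / 2) (hT₂ : ∀ k ∈ Reg K₀, ‖Tk s r V₂ k‖ ≤ 1 / 2)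
    (hF : ∀ τ : ℝ, K₀ ≤ τ → Ffun s r V₁ θ (Complex.I * τ) = Ffun s r V₂ θ (Complex.I * τ))
    {ρ : ℝ} (hρ : 0 < ρ) (hW : ∀ᵐ x ∂(volume : Measure E3), ‖x - y‖ < ρ → V₁ x = V₂ x) :
    ∫ x, (V₁ x - V₂ x) * kf s (x - y) ^ 2 = 0 := by
  obtain ⟨κ, hκ, hA⟩ := asyB h0 h2 h1
  have hM : 0 ≤ M := (norm_nonneg _).trans (t₁.pot.bounded 0)
  set W : E3 → ℂ := fun x => V₁ x - V₂ x with hWd
  set T : Set E3 := far D y ρ with hTd
  have hTm : MeasurableSet T := by
    refine t₁.compact.isClosed.measurableSet.inter ?_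
    exact measurableSet_le measurable_const (by fun_prop)
  have hTf : volume T ≠ ⊤ := by
    refine ((measure_mono inter_subset_left).trans_lt t₁.compact.measure_lt_top).ne
  have hWm : Measurable W := t₁.pot.measurable.sub t₂.pot.measurable
  have hWb : ∀ x, ‖W x‖ ≤ 2 * M := fun x => by
    have e1 := t₁.pot.bounded x
    have e2 := t₂.pot.bounded x
    calc ‖V₁ x - V₂ x‖ ≤ ‖V₁ x‖ + ‖V₂ x‖ := norm_sub_le _ _
      _ ≤ 2 * M := by linarith
  have hWz : ∀ᵐ x ∂(volume : Measure E3), x ∉ T → W x = 0 := by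
    filter_upwards [hW, t₁.supp, t₂.supp] with x a b c hx
    by_cases hxD : x ∈ D
    · have : ‖x - y‖ < ρ := by
        by_contra h
        exact hx ⟨hxD, not_lt.1 h⟩
      show V₁ x - V₂ x = 0
      rw [a this, sub_self]
    · show V₁ x - V₂ x = 0
      rw [b hxD, c hxD, sub_self]
  set G : ℝ := ‖κ‖ * M * ρ ^ (-(3 + 2 * s)) with hGd
  have hG : 0 ≤ G := by positivity
  -- it suffices to bound the integral by every positive number
  have hq0 : 0 < ‖q‖ := norm_pos_iff.2 hq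
  have hκ0 : 0 < ‖κ‖ := norm_pos_iff.2 hκ
  set c₀ : ℝ := ‖κ‖ * (‖q‖ / 2) with hc₀
  have hc₀0 : 0 < c₀ := by positivity
  have key : ∀ ε : ℝ, 0 < ε → ε ≤ 1 → ENNReal.ofReal (c₀ ^ 2) *
      ‖∫ x, (V₁ x - V₂ x) * kf s (x - y) ^ 2‖ₑ ≤
      ENNReal.ofReal (ε * (4 * M * (G + 1) + 4 * M * G * (volume T).toReal)) := by
    intro ε hε hε1
    have hε2 : (0 : ℝ≥0∞) < ENNReal.ofReal (ε ^ 2) := by
      rw [ENNReal.ofReal_pos]
      positivity
    have hA₁ := (hA hr t₁ hK₀ hT₁ hρ).eventually_le_const hε2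
    have hA₂ := (hA hr t₂ hK₀ hT₂ hρ).eventually_le_const hε2
    obtain ⟨τ, ⟨⟨hB₁, hB₂⟩, hτ⟩, hlow⟩ := (((hA₁.and hA₂).and (eventually_ge_atTop K₀)).and
      (muV_lower t₁ hq hρ)).exists
    have hmm : muV V₂ D ρ τ θ y = muV V₁ D ρ τ θ y := (muV_congr hρ τ θ hW).symm
    rw [hmm] at hB₂
    set μ : ℂ := muV V₁ D ρ τ θ y with hμ
    have hμM : ‖μ‖ ≤ M := muV_le t₁ ρ τ
    set g : E3 → ℂ := fun x => κ * μ * kf s (x - y) with hgd
    have hgm : Measurable g := by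
      exact ((kf_measurable s).comp (measurable_id.sub_const y)).const_mul _
    have hgb : ∀ x ∈ T, ‖g x‖ ≤ G := by
      intro x hx
      show ‖κ * μ * kf s (x - y)‖ ≤ G
      rw [norm_mul, norm_mul]
      exact mul_le_mul (mul_le_mul_of_nonneg_left hμM hκ0.le)
        (kf_bound (by linarith) hρ hx.2) (norm_nonneg _) (by positivity)
    -- integrability of `W g g`
    have hWgg : Integrable (fun x => W x * (g x * g x)) := by
      have h3 : Integrable (T.indicator fun _ : E3 => (2 * M * (G * G) : ℝ)) :=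
        (integrable_indicator_iff hTm).2 (integrableOn_const hTf)
      refine h3.mono' (hWm.mul (hgm.mul hgm)).aestronglyMeasurable ?_
      filter_upwards [hWz] with x hx
      by_cases hxT : x ∈ T
      · rw [indicator_of_mem hxT, norm_mul, norm_mul]
        have e1 := hgb x hxT
        exact mul_le_mul (hWb x) (mul_le_mul e1 e1 (norm_nonneg _) hG) (by positivity)
          (by linarith)
      · rw [indicator_of_notMem hxT, hx hxT, zero_mul, norm_zero]
    have hτ0 : 0 < τ := by linarith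
    have hmem := limI_axis hK₀ hτ
    have hJ := uI_J (by linarith) h2 h1 hr t₁.pot t₂.pot θ y hτ0 (hT₁ _ hmem) (hT₂ _ hmem)
      (hF τ hτ)
    set u₁ : E3 → ℂ := (uI s r V₁ θ y τ : E3 → ℂ) with hu₁
    set u₂ : E3 → ℂ := (uI s r V₂ θ y τ : E3 → ℂ) with hu₂
    set c : ℂ := zt s τ ^ 2 / ((ma D τ θ y : ℝ) : ℂ) with hc
    have hu₁m : AEStronglyMeasurable u₁ volume := (Lp.memLp _).1
    have hu₂m : AEStronglyMeasurable u₂ volume := (Lp.memLp _).1
    have hInt : Integrable (fun x => W x * (u₁ x * u₂ x)) := by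
      have h3 : Integrable (fun x => u₁ x * u₂ x) :=
        (Lp.memLp (uI s r V₁ θ y τ)).integrable_mul (Lp.memLp (uI s r V₂ θ y τ))
      exact h3.bdd_mul hWm.aestronglyMeasurable (Eventually.of_forall hWb)
    have hInt2 : Integrable (fun x => W x * ((c * u₁ x) * (c * u₂ x))) := by
      refine (hInt.const_mul (c * c)).congr (Eventually.of_forall fun x => ?_)
      simp only
      ring
    have hz : ∫ x, W x * ((c * u₁ x) * (c * u₂ x)) = 0 := by
      have e1 : (fun x => W x * ((c * u₁ x) * (c * u₂ x))) =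
          fun x => (c * c) * (W x * (u₁ x * u₂ x)) := by
        funext x
        ring
      rw [e1, integral_const_mul]
      have e2 : ∫ x, W x * (u₁ x * u₂ x) = 0 := hJ
      rw [e2, mul_zero]
    have e0 : ∫ x, W x * (g x * g x) = ∫ x, W x * (g x * g x - (c * u₁ x) * (c * u₂ x)) := by
      have e1 : (fun x => W x * (g x * g x - (c * u₁ x) * (c * u₂ x))) =
          fun x => W x * (g x * g x) - W x * ((c * u₁ x) * (c * u₂ x)) := by
        funext x
        ring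
      rw [e1, integral_sub hWgg hInt2, hz, sub_zero]
    have hcomm : ∀ (u : E3 → ℂ) x, zt s τ ^ 2 * u x / ((ma D τ θ y : ℝ) : ℂ) = c * u x :=
      fun u x => by
        rw [hc]
        ring
    have hB₁' : ∫⁻ x in T, ‖c * u₁ x - g x‖ₑ ^ 2 ≤ ENNReal.ofReal (ε ^ 2) := by
      refine le_trans (le_of_eq (lintegral_congr fun x => ?_)) hB₁
      rw [← hcomm u₁ x]
    have hB₂' : ∫⁻ x in T, ‖c * u₂ x - g x‖ₑ ^ 2 ≤ ENNReal.ofReal (ε ^ 2) := by
      refine le_trans (le_of_eq (lintegral_congr fun x => ?_)) hB₂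
      rw [← hcomm u₂ x]
    set k₁ : ℝ := 2 * M * (G / ε + 1) with hk₁
    set k₂ : ℝ := 2 * M * (2 * G * ε) with hk₂
    have hk₁0 : 0 ≤ k₁ := by positivity
    have hk₂0 : 0 ≤ k₂ := by positivity
    have hpt : ∀ᵐ x ∂(volume : Measure E3),
        ‖W x * (g x * g x - (c * u₁ x) * (c * u₂ x))‖ₑ ≤
          T.indicator (fun x => ENNReal.ofReal k₁ * ‖c * u₁ x - g x‖ₑ ^ 2 +
            (ENNReal.ofReal k₁ * ‖c * u₂ x - g x‖ₑ ^ 2 + ENNReal.ofReal k₂)) x := by
      filter_upwards [hWz] with x hx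
      by_cases hxT : x ∈ T
      · rw [indicator_of_mem hxT]
        have h3 := limI_pt (g₁ := c * u₁ x) (g₂ := c * u₂ x) hM hG hε (hWb x) (hgb x hxT)
        rw [← ofReal_norm, ← ofReal_norm, ← ofReal_norm, ← ENNReal.ofReal_pow (norm_nonneg _),
          ← ENNReal.ofReal_pow (norm_nonneg _), ← ENNReal.ofReal_mul hk₁0,
          ← ENNReal.ofReal_mul hk₁0, ← ENNReal.ofReal_add (by positivity) hk₂0,
          ← ENNReal.ofReal_add (by positivity) (by positivity)]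
        refine ENNReal.ofReal_le_ofReal (h3.trans (le_of_eq ?_))
        ring
      · rw [hx hxT, zero_mul, enorm_zero]
        exact zero_le
    have hm₁ : AEMeasurable (fun x => ENNReal.ofReal k₁ * ‖c * u₁ x - g x‖ₑ ^ 2)
        (volume.restrict T) :=
      ((((hu₁m.const_mul c).sub hgm.aestronglyMeasurable).enorm.pow_const 2).const_mul
        _).restrict
    have hm₂ : AEMeasurable (fun x => ENNReal.ofReal k₁ * ‖c * u₂ x - g x‖ₑ ^ 2)
        (volume.restrict T) :=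
      ((((hu₂m.const_mul c).sub hgm.aestronglyMeasurable).enorm.pow_const 2).const_mul
        _).restrict
    have hfirst : ENNReal.ofReal (c₀ ^ 2) * ‖∫ x, (V₁ x - V₂ x) * kf s (x - y) ^ 2‖ₑ ≤
        ‖∫ x, W x * (g x * g x)‖ₑ := by
      have e1 : (fun x => W x * (g x * g x)) =
          fun x => (κ * μ * (κ * μ)) * ((V₁ x - V₂ x) * kf s (x - y) ^ 2) := by
        funext x
        show (V₁ x - V₂ x) * (κ * μ * kf s (x - y) * (κ * μ * kf s (x - y))) = _
        ring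
      rw [e1, integral_const_mul, enorm_mul]
      refine mul_le_mul_left ?_ _
      rw [← ofReal_norm]
      refine ENNReal.ofReal_le_ofReal ?_
      rw [norm_mul, norm_mul]
      have e2 : c₀ ≤ ‖κ‖ * ‖μ‖ := mul_le_mul_of_nonneg_left hlow hκ0.le
      calc c₀ ^ 2 = c₀ * c₀ := sq _
        _ ≤ ‖κ‖ * ‖μ‖ * (‖κ‖ * ‖μ‖) := mul_le_mul e2 e2 hc₀0.le (by positivity)
    refine hfirst.trans ?_
    calc ‖∫ x, W x * (g x * g x)‖ₑ
        = ‖∫ x, W x * (g x * g x - (c * u₁ x) * (c * u₂ x))‖ₑ := by rw [e0]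
      _ ≤ ∫⁻ x, ‖W x * (g x * g x - (c * u₁ x) * (c * u₂ x))‖ₑ :=
          enorm_integral_le_lintegral_enorm _
      _ ≤ ∫⁻ x, T.indicator (fun x => ENNReal.ofReal k₁ * ‖c * u₁ x - g x‖ₑ ^ 2 +
            (ENNReal.ofReal k₁ * ‖c * u₂ x - g x‖ₑ ^ 2 + ENNReal.ofReal k₂)) x :=
          lintegral_mono_ae hpt
      _ = ENNReal.ofReal k₁ * (∫⁻ x in T, ‖c * u₁ x - g x‖ₑ ^ 2) +
            (ENNReal.ofReal k₁ * (∫⁻ x in T, ‖c * u₂ x - g x‖ₑ ^ 2) +
              ENNReal.ofReal k₂ * volume T) := by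
          rw [lintegral_indicator hTm, lintegral_add_left' hm₁, lintegral_add_left' hm₂,
            lintegral_const_mul' _ _ ENNReal.ofReal_ne_top,
            lintegral_const_mul' _ _ ENNReal.ofReal_ne_top, setLIntegral_const]
      _ ≤ ENNReal.ofReal k₁ * ENNReal.ofReal (ε ^ 2) +
            (ENNReal.ofReal k₁ * ENNReal.ofReal (ε ^ 2) +
              ENNReal.ofReal k₂ * ENNReal.ofReal (volume T).toReal) := by
          rw [ENNReal.ofReal_toReal hTf]
          gcongr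
      _ = ENNReal.ofReal (k₁ * ε ^ 2 + (k₁ * ε ^ 2 + k₂ * (volume T).toReal)) := by
          rw [← ENNReal.ofReal_mul hk₁0, ← ENNReal.ofReal_mul hk₂0,
            ← ENNReal.ofReal_add (by positivity) (by positivity),
            ← ENNReal.ofReal_add (by positivity) (by positivity)]
      _ ≤ _ := by
          refine ENNReal.ofReal_le_ofReal ?_
          have e1 : k₁ * ε ^ 2 = 2 * M * (G * ε + ε ^ 2) := by
            rw [hk₁]
            field_simp
          have e2 : ε ^ 2 ≤ ε := by nlinarith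
          have e3 : k₁ * ε ^ 2 ≤ 2 * M * (G * ε + ε) := by
            rw [e1]
            exact mul_le_mul_of_nonneg_left (by linarith) (by linarith)
          rw [hk₂]
          nlinarith
  have hzero : ENNReal.ofReal (c₀ ^ 2) * ‖∫ x, (V₁ x - V₂ x) * kf s (x - y) ^ 2‖ₑ = 0 := by
    set B : ℝ := 4 * M * (G + 1) + 4 * M * G * (volume T).toReal with hB
    have hB0 : 0 ≤ B := by positivity
    have hlim : Tendsto (fun ε : ℝ => ENNReal.ofReal (ε * B)) (𝓝[>] 0) (𝓝 0) := by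
      have h3 : Tendsto (fun ε : ℝ => ENNReal.ofReal (ε * B)) (𝓝 0)
          (𝓝 (ENNReal.ofReal (0 * B))) :=
        (ENNReal.continuous_ofReal.comp (continuous_id.mul continuous_const)).tendsto 0
      rw [zero_mul, ENNReal.ofReal_zero] at h3
      exact h3.mono_left nhdsWithin_le_nhds
    refine le_antisymm (ge_of_tendsto hlim ?_) zero_le
    filter_upwards [Ioc_mem_nhdsGT (zero_lt_one (α := ℝ))] with ε hε
    exact key ε hε.1 hε.2
  rcases mul_eq_zero.1 hzero with h | h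
  · rw [ENNReal.ofReal_eq_zero] at h
    exact absurd h (not_le.2 (by positivity))
  · exact enorm_eq_zero.1 h

end FracScatC

end
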