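import Mathlib

/-! # Sixth differences of a holomorphic function

`DiffContOnCl.circleIntegral_sub_inv_smul` (Cauchy): `M j = (2πi)⁻¹ ∮ (z-j)⁻¹ M(z) dz` for `j ≤ 6 < R`. Sum with the weights:
the partial fractions `∑ (-1)^j (6 choose j)/(z-j) = 720/(z(z-1)...(z-6))` (`field_simp; ring` for `z` not an
integer of `[0,6]`), whose norm on `‖z‖ = R` is at most `720/(R-6)^7 ≤ 720 · 2^7/R^7`; the length of the
circle is `2πR` (`circleIntegral.norm_integral_le_of_norm_le_const`). `C = 92160` is enough. -/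

set_option autoImplicit false

open MeasureTheory Filter Topology Set
open scoped FourierTransform SchwartzMap InnerProductSpace ENNReal BoundedContinuousFunction

noncomputable section

namespace FracScatC

private theorem fd6_pf (z : ℂ) (h : ∀ j : ℕ, j ≤ 6 → z ≠ (j : ℂ)) :
    ∑ j ∈ Finset.range 7, (-1 : ℂ) ^ j * (Nat.choose 6 j : ℂ) * (z - (j : ℂ))⁻¹ =
      720 / ∏ j ∈ Finset.range 7, (z - (j : ℂ)) := by
  have h0 : z ≠ 0 := by simpa using h 0 (by norm_num)
  have h1 : z - 1 ≠ 0 := sub_ne_zero.mpr (by simpa using h 1 (by norm_num))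
  have h2 : z - 2 ≠ 0 := sub_ne_zero.mpr (by simpa using h 2 (by norm_num))
  have h3 : z - 3 ≠ 0 := sub_ne_zero.mpr (by simpa using h 3 (by norm_num))
  have h4 : z - 4 ≠ 0 := sub_ne_zero.mpr (by simpa using h 4 (by norm_num))
  have h5 : z - 5 ≠ 0 := sub_ne_zero.mpr (by simpa using h 5 (by norm_num))
  have h6 : z - 6 ≠ 0 := sub_ne_zero.mpr (by simpa using h 6 (by norm_num))
  have c2 : Nat.choose 6 2 = 15 := by decide
  have c3 : Nat.choose 6 3 = 20 := by decide
  have c4 : Nat.choose 6 4 = 15 := by decide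
  have c5 : Nat.choose 6 5 = 6 := by decide
  have c1 : Nat.choose 6 1 = 6 := by decide
  have c0 : Nat.choose 6 0 = 1 := by decide
  have c6 : Nat.choose 6 6 = 1 := by decide
  simp only [Finset.sum_range_succ, Finset.prod_range_succ, Finset.sum_range_zero,
    Finset.prod_range_zero, c0, c1, c2, c3, c4, c5, c6, Nat.cast_zero, Nat.cast_one,
    Nat.cast_ofNat, sub_zero, zero_add, one_mul]
  field_simp
  ring

theorem fd6 : ∃ C : ℝ, 0 < C ∧ ∀ (R S : ℝ) (M : ℂ → ℂ), 12 ≤ R →
    DiffContOnCl ℂ M (Metric.ball 0 R) → (∀ z ∈ Metric.sphere (0 : ℂ) R, ‖M z‖ ≤ S) →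
    ‖∑ j ∈ Finset.range 7, (-1 : ℂ) ^ j * (Nat.choose 6 j : ℂ) * M (j : ℂ)‖ ≤ C * S / R ^ 6 := by
  refine ⟨92160, by norm_num, ?_⟩
  intro R S M hR hM hS
  have hR0 : 0 < R := by linarith
  have hnj : ∀ j : ℕ, j ≤ 6 → ‖(j : ℂ)‖ ≤ 6 := by
    intro j hj
    rw [Complex.norm_natCast]
    exact_mod_cast hj
  have hsub : ∀ z ∈ Metric.sphere (0 : ℂ) R, ∀ j : ℕ, j ≤ 6 → R / 2 ≤ ‖z - (j : ℂ)‖ := by
    intro z hz j hj
    have h1 : ‖z‖ = R := by simpa using hz
    have h2 := norm_sub_norm_le z (j : ℂ)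
    have h3 := hnj j hj
    linarith
  have hne : ∀ z ∈ Metric.sphere (0 : ℂ) R, ∀ j : ℕ, j ≤ 6 → z ≠ (j : ℂ) := by
    intro z hz j hj h
    have h1 := hsub z hz j hj
    rw [h, sub_self, norm_zero] at h1
    linarith
  have hMc : ContinuousOn M (Metric.sphere (0 : ℂ) R) := by
    refine hM.continuousOn.mono ?_
    rw [closure_ball 0 hR0.ne']
    exact Metric.sphere_subset_closedBall
  have hint : ∀ j ∈ Finset.range 7, CircleIntegrable
      (fun z => ((-1 : ℂ) ^ j * (Nat.choose 6 j : ℂ)) • ((z - (j : ℂ))⁻¹ • M z)) 0 R := by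
    intro j hj
    have hj' : j ≤ 6 := by
      have := Finset.mem_range.mp hj
      omega
    refine ContinuousOn.circleIntegrable hR0.le ?_
    have h1 : ContinuousOn (fun z : ℂ => (z - (j : ℂ))⁻¹) (Metric.sphere (0 : ℂ) R) := by
      refine ContinuousOn.inv₀ (by fun_prop) ?_
      intro z hz
      exact sub_ne_zero.mpr (hne z hz j hj')
    have h2 : ContinuousOn (fun z : ℂ => (z - (j : ℂ))⁻¹ • M z) (Metric.sphere (0 : ℂ) R) :=
      h1.smul hMc
    exact h2.const_smul (((-1 : ℂ) ^ j * (Nat.choose 6 j : ℂ)))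
  have hc : ∀ j ∈ Finset.range 7, (∮ z in C(0, R), (z - (j : ℂ))⁻¹ • M z) =
      (2 * Real.pi * Complex.I : ℂ) • M (j : ℂ) := by
    intro j hj
    have hj' : j ≤ 6 := by
      have := Finset.mem_range.mp hj
      omega
    refine hM.circleIntegral_sub_inv_smul ?_
    rw [Metric.mem_ball, dist_zero_right]
    have := hnj j hj'
    linarith
  have hsum : (2 * Real.pi * Complex.I : ℂ) *
      ∑ j ∈ Finset.range 7, (-1 : ℂ) ^ j * (Nat.choose 6 j : ℂ) * M (j : ℂ) =
      ∮ z in C(0, R), (720 / ∏ j ∈ Finset.range 7, (z - (j : ℂ))) • M z := by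
    have h1 : (∮ z in C(0, R), (720 / ∏ j ∈ Finset.range 7, (z - (j : ℂ))) • M z) =
        ∮ z in C(0, R), ∑ j ∈ Finset.range 7,
          ((-1 : ℂ) ^ j * (Nat.choose 6 j : ℂ)) • ((z - (j : ℂ))⁻¹ • M z) := by
      refine circleIntegral.integral_congr hR0.le ?_
      intro z hz
      beta_reduce
      rw [← fd6_pf z (hne z hz), Finset.sum_smul]
      refine Finset.sum_congr rfl fun j _ => ?_
      rw [smul_smul]
    rw [h1, circleIntegral.integral_fun_sum hint, Finset.mul_sum]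
    refine Finset.sum_congr rfl fun j hj => ?_
    rw [circleIntegral.integral_smul, hc j hj, smul_eq_mul, smul_eq_mul]
    ring
  have hS0 : 0 ≤ S := by
    have : (R : ℂ) ∈ Metric.sphere (0 : ℂ) R := by
      simp [abs_of_pos hR0]
    exact le_trans (norm_nonneg _) (hS _ this)
  have hbd : ‖∮ z in C(0, R), (720 / ∏ j ∈ Finset.range 7, (z - (j : ℂ))) • M z‖ ≤
      2 * Real.pi * R * (720 / (R / 2) ^ 7 * S) := by
    refine circleIntegral.norm_integral_le_of_norm_le_const hR0.le ?_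
    intro z hz
    rw [norm_smul, norm_div, norm_prod]
    have h1 : (R / 2) ^ 7 ≤ ∏ j ∈ Finset.range 7, ‖z - (j : ℂ)‖ := by
      calc (R / 2) ^ 7 = ∏ j ∈ Finset.range 7, (R / 2) := by
            rw [Finset.prod_const, Finset.card_range]
        _ ≤ ∏ j ∈ Finset.range 7, ‖z - (j : ℂ)‖ := by
          refine Finset.prod_le_prod (fun j _ => by positivity) ?_
          intro j hj
          refine hsub z hz j ?_
          have := Finset.mem_range.mp hj
          omega
    have h2 : (0:ℝ) < (R / 2) ^ 7 := by positivity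
    have h3 : ‖(720 : ℂ)‖ / ∏ j ∈ Finset.range 7, ‖z - (j : ℂ)‖ ≤ 720 / (R / 2) ^ 7 := by
      have h4 : ‖(720 : ℂ)‖ = 720 := by simp
      rw [h4]
      exact div_le_div_of_nonneg_left (by norm_num) h2 h1
    exact mul_le_mul h3 (hS z hz) (norm_nonneg _) (by positivity)
  rw [← hsum, norm_mul] at hbd
  have h2pi : ‖(2 * Real.pi * Complex.I : ℂ)‖ = 2 * Real.pi := by
    rw [norm_mul, norm_mul, Complex.norm_I, Complex.norm_real, mul_one]
    simp [abs_of_pos Real.pi_pos]
  rw [h2pi] at hbd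
  have hpi : 0 < 2 * Real.pi := by positivity
  have h5 : 2 * Real.pi * R * (720 / (R / 2) ^ 7 * S) = 2 * Real.pi * (92160 * S / R ^ 6) := by
    field_simp
    ring
  rw [h5] at hbd
  exact le_of_mul_le_mul_left hbd hpi

end FracScatC

end
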