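import Pool.Agent.Lib.MP_6e2ba5_an.Rx.Defs
import Pool.Agent.Lib.MP_6e2ba5_an.Ex.SymNB

/-! # The symbol of the resolvent at `k = iτ`

`zt s τ = τ^(2s) exp(πis)` (see `../AxisZ.lean`: `zt_norm`, `zt_im`, and its private lemma `zt_eq`, which can be copied).
For `a ≥ 0`, `b = τ^(2s)`: `|a - z|² = a² - 2ab cos(πs) + b² ≥ (1-|cos πs|)(a²+b²) ≥ (1-|cos πs|)/2 (a+b)²`, and
`|cos πs| < 1` as `sin πs ≠ 0` (`sin_pi_ne`). Then `mI_bound` (`mI_eq`); `mI_BM`: measurability as in `MopB_meas`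
(file `../Ex/MopB.lean`), bound `C τ^(-2s)`. `mI_memLp`: `‖mI‖² ≤ C (1+‖ξ‖)^(-4s)` with `4s > 3`
(`integrable_one_add_norm`, or compare `../Cx/GsMem.lean`, `../Ex/SymNB.lean`). `multI_norm`:
`norm_multL_le`. -/

set_option autoImplicit false

open MeasureTheory Filter Topology Set
open scoped FourierTransform SchwartzMap InnerProductSpace ENNReal BoundedContinuousFunction

noncomputable section

namespace FracScatC

open FracScat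

theorem symI {s : ℝ} (h0 : 0 < s) (h2 : s < 2) (h1 : s ≠ 1) :
    ∃ c : ℝ, 0 < c ∧ ∀ τ : ℝ, 0 < τ → ∀ a : ℝ, 0 ≤ a →
      c * (a + τ ^ (2 * s)) ≤ ‖(a : ℂ) - zt s τ‖ := by
  set σ : ℝ := |Real.sin (Real.pi * s)| with hσ
  have hσ0 : 0 < σ := abs_pos.2 (sin_pi_ne h0 h2 h1)
  refine ⟨σ / (σ + 2), by positivity, fun τ hτ a ha => ?_⟩
  set b : ℝ := τ ^ (2 * s) with hb
  have hb0 : 0 < b := Real.rpow_pos_of_pos hτ _
  set N : ℝ := ‖(a : ℂ) - zt s τ‖ with hN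
  have e1 : b * σ ≤ N := by
    have h3 := Complex.abs_im_le_norm ((a : ℂ) - zt s τ)
    rw [Complex.sub_im, Complex.ofReal_im, zero_sub, abs_neg, zt_im hτ, abs_mul,
      abs_of_pos hb0] at h3
    exact h3
  have e2 : a - b ≤ N := by
    have h3 := norm_sub_norm_le (a : ℂ) (zt s τ)
    rw [zt_norm hτ, Complex.norm_real, Real.norm_of_nonneg ha] at h3
    exact h3
  rw [div_mul_eq_mul_div, div_le_iff₀ (by positivity)]
  have e3 : σ * (a - b) ≤ σ * N := mul_le_mul_of_nonneg_left e2 hσ0.le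
  nlinarith

private theorem SymI_aux {s : ℝ} (h0 : 0 < s) (h2 : s < 2) (h1 : s ≠ 1) :
    ∃ C : ℝ, 0 ≤ C ∧ ∀ τ : ℝ, 0 < τ → ∀ ξ : E3,
      ‖mI s τ ξ‖ ≤ C / ((2 * Real.pi * ‖ξ‖) ^ (2 * s) + τ ^ (2 * s)) := by
  obtain ⟨c, hc, h⟩ := symI h0 h2 h1
  refine ⟨c⁻¹, by positivity, fun τ hτ ξ => ?_⟩
  have hpi := Real.pi_pos
  have ha : 0 ≤ (2 * Real.pi * ‖ξ‖) ^ (2 * s) := by positivity
  have hb : 0 < τ ^ (2 * s) := Real.rpow_pos_of_pos hτ _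
  have h3 := h τ hτ _ ha
  rw [mI_eq, norm_div, norm_one, div_eq_mul_inv c⁻¹, ← mul_inv, ← one_div]
  exact one_div_le_one_div_of_le (by positivity) h3

theorem mI_bound {s : ℝ} (h0 : 0 < s) (h2 : s < 2) (h1 : s ≠ 1) :
    ∃ C : ℝ, 0 ≤ C ∧ ∀ τ : ℝ, 0 < τ → ∀ ξ : E3,
      ‖mI s τ ξ‖ ≤ C / ((2 * Real.pi * ‖ξ‖) ^ (2 * s) + τ ^ (2 * s)) :=
  SymI_aux h0 h2 h1

private theorem SymI_bd {s : ℝ} (h0 : 0 < s) (h2 : s < 2) (h1 : s ≠ 1) :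
    ∃ C : ℝ, 0 ≤ C ∧ ∀ τ : ℝ, 0 < τ → ∀ ξ : E3, ‖mI s τ ξ‖ ≤ C * τ ^ (-(2 * s)) := by
  obtain ⟨C, hC, h⟩ := mI_bound h0 h2 h1
  refine ⟨C, hC, fun τ hτ ξ => (h τ hτ ξ).trans ?_⟩
  have hpi := Real.pi_pos
  have ha : 0 ≤ (2 * Real.pi * ‖ξ‖) ^ (2 * s) := by positivity
  have hb : 0 < τ ^ (2 * s) := Real.rpow_pos_of_pos hτ _
  rw [Real.rpow_neg hτ.le, ← div_eq_mul_inv]
  exact div_le_div_of_nonneg_left hC hb (by linarith)

private theorem SymI_meas (s : ℝ) (k : ℂ) : Measurable (rsE s k) := by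
  have h0 : Measurable (fun a => rs s k a) := by
    unfold rs
    fun_prop
  have h1 : Measurable (fun ξ : E3 => 2 * Real.pi * ‖ξ‖) := measurable_norm.const_mul _
  exact h0.comp h1

theorem mI_BM {s : ℝ} (h0 : 0 < s) (h2 : s < 2) (h1 : s ≠ 1) {τ : ℝ} (hτ : 0 < τ) :
    BM (mI s τ) := by
  obtain ⟨C, _, h⟩ := SymI_bd h0 h2 h1
  exact ⟨(SymI_meas s _).aestronglyMeasurable, C * τ ^ (-(2 * s)),
    Eventually.of_forall fun ξ => h τ hτ ξ⟩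

/-- square bound from a pointwise bound -/
private theorem SymI_sq {F : E3 → ℂ} {K C t p : ℝ}
    (hC : ∫⁻ ζ : E3, ENNReal.ofReal ((‖ζ‖ + t) ^ (-(2 * p))) ≤ ENNReal.ofReal (C * t ^ (3 - 2 * p)))
    (ht : 0 < t) (hF : ∀ ζ : E3, ‖F ζ‖ ≤ K * (‖ζ‖ + t) ^ (-p)) :
    ∫⁻ ζ, ‖F ζ‖ₑ ^ 2 ≤ ENNReal.ofReal (K ^ 2 * C * t ^ (3 - 2 * p)) := by
  have h1 : ∀ ζ : E3, ‖F ζ‖ₑ ^ 2 ≤
      ENNReal.ofReal (K ^ 2) * ENNReal.ofReal ((‖ζ‖ + t) ^ (-(2 * p))) := by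
    intro ζ
    have hpos : 0 < ‖ζ‖ + t := by positivity
    rw [← ENNReal.ofReal_mul (by positivity), ← ofReal_norm,
      ← ENNReal.ofReal_pow (norm_nonneg _)]
    apply ENNReal.ofReal_le_ofReal
    have h2 := pow_le_pow_left₀ (norm_nonneg _) (hF ζ) 2
    refine h2.trans (le_of_eq ?_)
    rw [mul_pow, ← Real.rpow_natCast ((‖ζ‖ + t) ^ (-p)) 2, ← Real.rpow_mul hpos.le]
    congr 2
    push_cast
    ring
  calc ∫⁻ ζ, ‖F ζ‖ₑ ^ 2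
      ≤ ∫⁻ ζ : E3, ENNReal.ofReal (K ^ 2) * ENNReal.ofReal ((‖ζ‖ + t) ^ (-(2 * p))) :=
        lintegral_mono h1
    _ = ENNReal.ofReal (K ^ 2) * ∫⁻ ζ : E3, ENNReal.ofReal ((‖ζ‖ + t) ^ (-(2 * p))) := by
        rw [lintegral_const_mul _ (by fun_prop)]
    _ ≤ ENNReal.ofReal (K ^ 2) * ENNReal.ofReal (C * t ^ (3 - 2 * p)) := by gcongr
    _ = ENNReal.ofReal (K ^ 2 * C * t ^ (3 - 2 * p)) := by
        rw [← ENNReal.ofReal_mul (by positivity), mul_assoc]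

theorem mI_memLp {s : ℝ} (h0 : 3 / 4 < s) (h2 : s < 2) (h1 : s ≠ 1) {τ : ℝ} (hτ : 0 < τ) :
    MemLp (mI s τ) 2 (volume : Measure E3) := by
  obtain ⟨K, hK, hb⟩ := mI_bound (s := s) (by linarith) h2 h1
  obtain ⟨C, hC, hi⟩ := int_dec (p := 2 * (2 * s)) (by linarith)
  have hpi := Real.pi_gt_three
  have key : ∀ ζ : E3, ‖mI s τ ζ‖ ≤ (K * 2 ^ (2 * s)) * (‖ζ‖ + τ) ^ (-(2 * s)) := by
    intro ζ
    have hz : 0 ≤ ‖ζ‖ := norm_nonneg ζ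
    have hpos : 0 < ‖ζ‖ + τ := by positivity
    refine (hb τ hτ ζ).trans ?_
    have ha : 0 ≤ (2 * Real.pi * ‖ζ‖) ^ (2 * s) := by positivity
    have hb' : 0 < τ ^ (2 * s) := Real.rpow_pos_of_pos hτ _
    have e1 : (‖ζ‖ + τ) ^ (2 * s) ≤
        2 ^ (2 * s) * ((2 * Real.pi * ‖ζ‖) ^ (2 * s) + τ ^ (2 * s)) := by
      rcases le_total ‖ζ‖ τ with h | h
      · calc (‖ζ‖ + τ) ^ (2 * s) ≤ (2 * τ) ^ (2 * s) :=
              Real.rpow_le_rpow hpos.le (by linarith) (by linarith)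
          _ = 2 ^ (2 * s) * τ ^ (2 * s) := Real.mul_rpow (by norm_num) hτ.le
          _ ≤ _ := mul_le_mul_of_nonneg_left (by linarith) (by positivity)
      · calc (‖ζ‖ + τ) ^ (2 * s) ≤ (2 * (2 * Real.pi * ‖ζ‖)) ^ (2 * s) :=
              Real.rpow_le_rpow hpos.le (by nlinarith) (by linarith)
          _ = 2 ^ (2 * s) * (2 * Real.pi * ‖ζ‖) ^ (2 * s) :=
              Real.mul_rpow (by norm_num) (by positivity)
          _ ≤ _ := mul_le_mul_of_nonneg_left (by linarith) (by positivity)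
    rw [Real.rpow_neg hpos.le, ← div_eq_mul_inv, div_le_div_iff₀ (by positivity) (by positivity),
      mul_assoc]
    exact mul_le_mul_of_nonneg_left e1 hK
  refine ⟨(SymI_meas s _).aestronglyMeasurable, ?_⟩
  rw [eLpNorm_lt_top_iff_lintegral_rpow_enorm_lt_top (by norm_num) (by norm_num)]
  have h3 := SymI_sq (F := mI s τ) (p := 2 * s) (hi τ hτ) hτ key
  refine lt_of_le_of_lt ?_ (lt_of_le_of_lt h3 ENNReal.ofReal_lt_top)
  refine le_of_eq (lintegral_congr fun ζ => ?_)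
  norm_num

theorem multI_norm {s : ℝ} (h0 : 0 < s) (h2 : s < 2) (h1 : s ≠ 1) :
    ∃ C : ℝ, 0 ≤ C ∧ ∀ τ : ℝ, 0 < τ → ‖multL (mI s τ)‖ ≤ C * τ ^ (-(2 * s)) := by
  obtain ⟨C, hC, h⟩ := SymI_bd h0 h2 h1
  refine ⟨C, hC, fun τ hτ => ?_⟩
  exact norm_multL_le (mI_BM h0 h2 h1 hτ) (by positivity) (Eventually.of_forall fun ξ => h τ hτ ξ)

theorem aS_measurable (s : ℝ) : Measurable (aS s) := by
  unfold aS
  fun_prop

theorem MI_measurable (s τ : ℝ) : Measurable (MI s τ) := by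
  unfold MI
  exact ((aS_measurable s).pow_const 2).div ((aS_measurable s).sub_const _)

end FracScatC

end
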