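import Pool.Agent.Lib.MP_6e2ba5_an.Rx.OffE

/-! # The resolvent between separated sets

`mink`: for `x ∈ T`, `‖∫ k(x-x') f(x') dx'‖² ≤ (∫⁻ ‖f‖) (∫⁻ ‖k(x-x')‖² ‖f(x')‖ dx')` (Cauchy-Schwarz with the
weight `‖f‖`; the integrand vanishes unless `x' ∈ S`, so `x-x'` is in the annulus `A`), integrate over `T` and use
Tonelli and translation invariance: `≤ (∫⁻‖f‖)² ∫⁻_A ‖k‖²`.
`offN`: by `multL_conv` (`../Ex/ModulN.lean`, `mI_BM`, `FT_GI`, `mI_memLp`) and the change of variables `z = x-x'`,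
`multL (mI s τ) f x = ∫ GI(x-x') f(x') dx'` a.e.; so the difference is `∫ (z²GI - κkf)(x-x') f(x') dx'` for a.e. `x ∈ T`
(integrability of both parts for `x ∈ T`: `kf` is bounded on the annulus, and `GI(x-·) f` is integrable as `GI`
restricted to the annulus is in `L²` and `f ∈ L²`), and `mink` with `k = z²GI - κkf`, with
`η τ = (∫⁻_A ‖z²GI-κkf‖²).toReal` (the integral is finite for every `τ ≥ 1`, as `GI ∈ L²` and `kf` is bounded on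
the annulus). `offB`: `mink` with `k = GI` and `offE2`. -/

set_option autoImplicit false

open MeasureTheory Filter Topology Set
open scoped FourierTransform SchwartzMap InnerProductSpace ENNReal BoundedContinuousFunction

noncomputable section

namespace FracScatC

open FracScat

private theorem cs_w {a b : E3 → ℝ≥0∞} (ha : AEMeasurable a volume) (hb : AEMeasurable b volume) :
    (∫⁻ x, a x * b x) ^ 2 ≤ (∫⁻ x, b x) * ∫⁻ x, a x ^ 2 * b x := by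
  have e1 : ∀ t : ℝ≥0∞, t ^ (1 / 2 : ℝ) * t ^ (1 / 2 : ℝ) = t := fun t => by
    rw [← ENNReal.rpow_add_of_nonneg _ _ (by norm_num) (by norm_num)]
    norm_num
  have e2 : ∀ t : ℝ≥0∞, (t ^ (1 / 2 : ℝ)) ^ (2 : ℝ) = t := fun t => by
    rw [← ENNReal.rpow_mul]
    norm_num
  have h1 := ENNReal.lintegral_mul_le_Lp_mul_Lq (volume : Measure E3)
    Real.HolderConjugate.two_two (f := fun x => a x * b x ^ (1 / 2 : ℝ))
    (g := fun x => b x ^ (1 / 2 : ℝ)) (ha.mul (hb.pow_const _)) (hb.pow_const _)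
  have h2 : ∫⁻ x, ((fun x => a x * b x ^ (1 / 2 : ℝ)) * fun x => b x ^ (1 / 2 : ℝ)) x =
      ∫⁻ x, a x * b x := by
    refine lintegral_congr fun x => ?_
    simp only [Pi.mul_apply]
    rw [mul_assoc, e1]
  have h3 : ∫⁻ x, (a x * b x ^ (1 / 2 : ℝ)) ^ (2 : ℝ) = ∫⁻ x, a x ^ 2 * b x := by
    refine lintegral_congr fun x => ?_
    rw [ENNReal.mul_rpow_of_nonneg _ _ (by norm_num), e2, ENNReal.rpow_two]
  have h4 : ∫⁻ x, (b x ^ (1 / 2 : ℝ)) ^ (2 : ℝ) = ∫⁻ x, b x :=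
    lintegral_congr fun x => e2 _
  rw [h2, h3, h4] at h1
  calc (∫⁻ x, a x * b x) ^ 2
      ≤ ((∫⁻ x, a x ^ 2 * b x) ^ (1 / 2 : ℝ) * (∫⁻ x, b x) ^ (1 / 2 : ℝ)) ^ 2 :=
        pow_le_pow_left' h1 2
    _ = (∫⁻ x, b x) * ∫⁻ x, a x ^ 2 * b x := by
        rw [← ENNReal.rpow_two, ENNReal.mul_rpow_of_nonneg _ _ (by norm_num), e2, e2, mul_comm]

theorem mink {k : E3 → ℂ} (hk : AEStronglyMeasurable k volume) {f : E3 → ℂ}
    (hf : AEStronglyMeasurable f volume) {S T : Set E3} (hS : MeasurableSet S) (hT : MeasurableSet T)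
    (hfS : ∀ᵐ x ∂(volume : Measure E3), x ∉ S → f x = 0) {δ R : ℝ}
    (hST : ∀ x ∈ T, ∀ x' ∈ S, δ ≤ ‖x - x'‖ ∧ ‖x - x'‖ ≤ R) :
    ∫⁻ x in T, ‖∫ x', k (x - x') * f x'‖ₑ ^ 2 ≤
      (∫⁻ x in {x : E3 | δ ≤ ‖x‖ ∧ ‖x‖ ≤ R}, ‖k x‖ₑ ^ 2) * (∫⁻ x, ‖f x‖ₑ) ^ 2 := by
  have hA : MeasurableSet {x : E3 | δ ≤ ‖x‖ ∧ ‖x‖ ≤ R} :=
    (measurableSet_le measurable_const measurable_norm).inter
      (measurableSet_le measurable_norm measurable_const)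
  obtain ⟨K, hKm, hKe⟩ := hk
  obtain ⟨F, hFm, hFe⟩ := hf
  have hmp : ∀ x : E3, MeasurePreserving (fun y : E3 => x - y) volume volume := fun x =>
    Measure.measurePreserving_sub_left volume x
  have hKc : Measurable fun x => ‖K x‖ₑ ^ 2 := hKm.enorm.pow_const 2
  have hFc : Measurable fun x => ‖F x‖ₑ := hFm.enorm
  have hfI : ∫⁻ x, ‖f x‖ₑ = ∫⁻ x, ‖F x‖ₑ := by
    refine lintegral_congr_ae ?_
    filter_upwards [hFe] with x hx
    rw [hx]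
  have hkI : ∫⁻ x in {x : E3 | δ ≤ ‖x‖ ∧ ‖x‖ ≤ R}, ‖k x‖ₑ ^ 2 =
      ∫⁻ x in {x : E3 | δ ≤ ‖x‖ ∧ ‖x‖ ≤ R}, ‖K x‖ₑ ^ 2 := by
    refine lintegral_congr_ae (ae_restrict_of_ae ?_)
    filter_upwards [hKe] with x hx
    rw [hx]
  rw [hfI, hkI]
  have hKsub : ∀ x : E3, Measurable fun x' => ‖K (x - x')‖ₑ := fun x =>
    (hKm.measurable.comp (measurable_const.sub measurable_id)).enorm
  have b1 : ∀ x, ‖∫ x', k (x - x') * f x'‖ₑ ^ 2 ≤
      (∫⁻ x', ‖F x'‖ₑ) * ∫⁻ x', ‖K (x - x')‖ₑ ^ 2 * ‖F x'‖ₑ := by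
    intro x
    have c1 : ∫ x', k (x - x') * f x' = ∫ x', K (x - x') * F x' := by
      refine integral_congr_ae ?_
      filter_upwards [(hmp x).quasiMeasurePreserving.ae hKe, hFe] with x' a b
      rw [a, b]
    rw [c1]
    refine le_trans (pow_le_pow_left' ((enorm_integral_le_lintegral_enorm _).trans ?_) 2)
      (cs_w (hKsub x).aemeasurable hFc.aemeasurable)
    simp only [enorm_mul]
    exact le_rfl
  have hm2 : Measurable (Function.uncurry fun x x' : E3 => ‖K (x - x')‖ₑ ^ 2 * ‖F x'‖ₑ) :=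
    (hKc.comp (measurable_fst.sub measurable_snd)).mul (hFc.comp measurable_snd)
  have b2 : ∀ᵐ x' ∂(volume : Measure E3), ∫⁻ x in T, ‖K (x - x')‖ₑ ^ 2 * ‖F x'‖ₑ ≤
      (∫⁻ x in {x : E3 | δ ≤ ‖x‖ ∧ ‖x‖ ≤ R}, ‖K x‖ₑ ^ 2) * ‖F x'‖ₑ := by
    filter_upwards [hfS, hFe] with x' a b
    by_cases hx : x' ∈ S
    · have hm3 : Measurable fun x : E3 => ‖K (x - x')‖ₑ ^ 2 :=
        hKc.comp (measurable_id.sub_const x')
      rw [lintegral_mul_const _ hm3]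
      refine mul_le_mul_left ?_ _
      rw [← lintegral_indicator hT, ← lintegral_indicator hA,
        ← lintegral_sub_right_eq_self
          ({x : E3 | δ ≤ ‖x‖ ∧ ‖x‖ ≤ R}.indicator fun x => ‖K x‖ₑ ^ 2) x']
      refine lintegral_mono fun x => ?_
      by_cases hxT : x ∈ T
      · rw [indicator_of_mem hxT, indicator_of_mem (show x - x' ∈ {x : E3 | δ ≤ ‖x‖ ∧ ‖x‖ ≤ R} from
          hST x hxT x' hx)]
      · rw [indicator_of_notMem hxT]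
        exact zero_le
    · rw [← b, a hx]
      simp
  calc ∫⁻ x in T, ‖∫ x', k (x - x') * f x'‖ₑ ^ 2
      ≤ ∫⁻ x in T, (∫⁻ x', ‖F x'‖ₑ) * ∫⁻ x', ‖K (x - x')‖ₑ ^ 2 * ‖F x'‖ₑ :=
        lintegral_mono fun x => b1 x
    _ = (∫⁻ x', ‖F x'‖ₑ) * ∫⁻ x in T, ∫⁻ x', ‖K (x - x')‖ₑ ^ 2 * ‖F x'‖ₑ :=
        lintegral_const_mul _ hm2.lintegral_prod_right'
    _ = (∫⁻ x', ‖F x'‖ₑ) * ∫⁻ x', ∫⁻ x in T, ‖K (x - x')‖ₑ ^ 2 * ‖F x'‖ₑ := by
        rw [lintegral_lintegral_swap hm2.aemeasurable]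
    _ ≤ (∫⁻ x', ‖F x'‖ₑ) * ∫⁻ x', (∫⁻ x in {x : E3 | δ ≤ ‖x‖ ∧ ‖x‖ ≤ R}, ‖K x‖ₑ ^ 2) *
          ‖F x'‖ₑ := mul_le_mul_right (lintegral_mono_ae b2) _
    _ = (∫⁻ x in {x : E3 | δ ≤ ‖x‖ ∧ ‖x‖ ≤ R}, ‖K x‖ₑ ^ 2) * (∫⁻ x, ‖F x‖ₑ) ^ 2 := by
        rw [lintegral_const_mul _ hFc]
        ring

private theorem annulus_lt {s : ℝ} (h0 : 0 < s) {δ R : ℝ} (hδ : 0 < δ) :
    ∫⁻ x in {x : E3 | δ ≤ ‖x‖ ∧ ‖x‖ ≤ R}, ‖kf s x‖ₑ ^ 2 < ⊤ := by
  have hA : MeasurableSet {x : E3 | δ ≤ ‖x‖ ∧ ‖x‖ ≤ R} :=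
    (measurableSet_le measurable_const measurable_norm).inter
      (measurableSet_le measurable_norm measurable_const)
  have hfin : volume {x : E3 | δ ≤ ‖x‖ ∧ ‖x‖ ≤ R} < ⊤ := by
    refine (measure_mono (?_ : _ ⊆ Metric.closedBall (0 : E3) R)).trans_lt
      measure_closedBall_lt_top
    intro x hx
    rw [mem_closedBall_zero_iff]
    exact hx.2
  calc ∫⁻ x in {x : E3 | δ ≤ ‖x‖ ∧ ‖x‖ ≤ R}, ‖kf s x‖ₑ ^ 2
      ≤ ∫⁻ x in {x : E3 | δ ≤ ‖x‖ ∧ ‖x‖ ≤ R}, ENNReal.ofReal (δ ^ (-(3 + 2 * s))) ^ 2 := by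
        refine setLIntegral_mono' hA fun x hx => ?_
        refine pow_le_pow_left' ?_ 2
        rw [← ofReal_norm]
        exact ENNReal.ofReal_le_ofReal (kf_bound h0 hδ hx.1)
    _ < ⊤ := by
        rw [setLIntegral_const]
        exact ENNReal.mul_lt_top (ENNReal.pow_lt_top ENNReal.ofReal_lt_top) hfin

private theorem fin_all {s : ℝ} (h0 : 0 < s) {δ R : ℝ} (hδ : 0 < δ) (κ z : ℂ) (G : HS) :
    ∫⁻ x in {x : E3 | δ ≤ ‖x‖ ∧ ‖x‖ ≤ R}, ‖z * (G : E3 → ℂ) x - κ * kf s x‖ₑ ^ 2 < ⊤ := by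
  have h1 : MemLp (fun x => z * (G : E3 → ℂ) x) 2
      (volume.restrict {x : E3 | δ ≤ ‖x‖ ∧ ‖x‖ ≤ R}) := ((Lp.memLp G).const_mul z).restrict _
  have h2 : MemLp (fun x => κ * kf s x) 2 (volume.restrict {x : E3 | δ ≤ ‖x‖ ∧ ‖x‖ ≤ R}) := by
    refine MemLp.const_mul ⟨(kf_measurable s).aestronglyMeasurable, ?_⟩ κ
    rw [eLpNorm_lt_top_iff_lintegral_rpow_enorm_lt_top (by norm_num) (by norm_num)]
    have := annulus_lt (R := R) h0 hδ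
    simpa using this
  have h3 := (h1.sub h2).eLpNorm_lt_top
  rw [eLpNorm_lt_top_iff_lintegral_rpow_enorm_lt_top (by norm_num) (by norm_num)] at h3
  simpa using h3

private theorem conv_sub {s : ℝ} (h0 : 3 / 4 < s) (h2 : s < 2) (h1 : s ≠ 1) {τ : ℝ} (hτ : 0 < τ)
    {f : HS} (hf : Integrable (f : E3 → ℂ)) :
    (multL (mI s τ) f : E3 → ℂ) =ᵐ[volume] fun x => ∫ x', (GI s τ : E3 → ℂ) (x - x') *
      (f : E3 → ℂ) x' := by
  have hs : 0 < s := by linarith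
  have e := multL_conv (mI_BM hs h2 h1 hτ) (FT_GI (mI_memLp h0 h2 h1 hτ)) hf
  filter_upwards [e] with x hx
  rw [hx]
  have := integral_sub_left_eq_self (fun z => (GI s τ : E3 → ℂ) z * (f : E3 → ℂ) (x - z)) volume x
  rw [← this]
  refine integral_congr_ae (Eventually.of_forall fun x' => ?_)
  simp only [sub_sub_cancel]

private theorem int_GI (G f : HS) (x : E3) :
    Integrable fun x' => (G : E3 → ℂ) (x - x') * (f : E3 → ℂ) x' := by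
  have hmp : MeasurePreserving (fun y : E3 => x - y) volume volume :=
    Measure.measurePreserving_sub_left volume x
  have c1 : (Lp.compMeasurePreserving (fun y : E3 => x - y) hmp G : E3 → ℂ) =ᵐ[volume]
      fun y => (G : E3 → ℂ) (x - y) := Lp.coeFn_compMeasurePreserving G hmp
  refine (integrable_mul (Lp.compMeasurePreserving (fun y : E3 => x - y) hmp G) f).congr ?_
  filter_upwards [c1] with y hy
  rw [hy]

private theorem int_kf {s : ℝ} (h0 : 0 < s) {f : HS} (hf : Integrable (f : E3 → ℂ)) {S : Set E3}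
    (hfS : ∀ᵐ x ∂(volume : Measure E3), x ∉ S → (f : E3 → ℂ) x = 0) {δ : ℝ} (hδ : 0 < δ) {x : E3}
    (hx : ∀ x' ∈ S, δ ≤ ‖x - x'‖) :
    Integrable fun x' => kf s (x - x') * (f : E3 → ℂ) x' := by
  refine Integrable.mono' (hf.norm.const_mul (δ ^ (-(3 + 2 * s))))
    (((kf_measurable s).comp (measurable_const.sub measurable_id)).aestronglyMeasurable.mul
      hf.aestronglyMeasurable) ?_
  filter_upwards [hfS] with x' hx'
  by_cases h : x' ∈ S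
  · rw [norm_mul]
    exact mul_le_mul_of_nonneg_right (kf_bound h0 hδ (hx x' h)) (norm_nonneg _)
  · rw [hx' h]
    simp

theorem offN {s : ℝ} (h0 : 3 / 4 < s) (h2 : s < 2) (h1 : s ≠ 1) : ∃ κ : ℂ, κ ≠ 0 ∧
    ∀ δ R : ℝ, 0 < δ → ∃ η : ℝ → ℝ, (∀ τ, 0 ≤ η τ) ∧ Tendsto η atTop (𝓝 0) ∧
      ∀ τ : ℝ, 1 ≤ τ → ∀ f : HS, Integrable (f : E3 → ℂ) → ∀ S T : Set E3, MeasurableSet S →
        MeasurableSet T → (∀ᵐ x ∂(volume : Measure E3), x ∉ S → (f : E3 → ℂ) x = 0) →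
        (∀ x ∈ T, ∀ x' ∈ S, δ ≤ ‖x - x'‖ ∧ ‖x - x'‖ ≤ R) →
        ∫⁻ x in T, ‖zt s τ ^ 2 * (multL (mI s τ) f : E3 → ℂ) x -
            κ * ∫ x', kf s (x - x') * (f : E3 → ℂ) x'‖ₑ ^ 2 ≤
          ENNReal.ofReal (η τ) * (∫⁻ x, ‖(f : E3 → ℂ) x‖ₑ) ^ 2 := by
  have hs : 0 < s := by linarith
  obtain ⟨κ, hκ, hE⟩ := offE h0 h2 h1
  refine ⟨κ, hκ, fun δ R hδ => ?_⟩
  refine ⟨fun τ => (∫⁻ x in {x : E3 | δ ≤ ‖x‖ ∧ ‖x‖ ≤ R},
      ‖zt s τ ^ 2 * (GI s τ : E3 → ℂ) x - κ * kf s x‖ₑ ^ 2).toReal,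
    fun τ => ENNReal.toReal_nonneg, ?_, ?_⟩
  · have := (ENNReal.tendsto_toReal ENNReal.zero_ne_top).comp (hE δ R hδ)
    rw [ENNReal.toReal_zero] at this
    exact this
  · intro τ hτ f hf S T hS hT hfS hST
    have hτ0 : 0 < τ := by linarith
    rw [ENNReal.ofReal_toReal (fin_all hs hδ κ (zt s τ ^ 2) (GI s τ)).ne]
    have hk : AEStronglyMeasurable (fun x => zt s τ ^ 2 * (GI s τ : E3 → ℂ) x - κ * kf s x)
        (volume : Measure E3) :=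
      ((Lp.aestronglyMeasurable (GI s τ)).const_mul _).sub
        ((kf_measurable s).aestronglyMeasurable.const_mul _)
    refine le_trans (le_of_eq ?_) (mink hk (Lp.aestronglyMeasurable f) hS hT hfS hST)
    refine lintegral_congr_ae ?_
    filter_upwards [ae_restrict_of_ae (conv_sub h0 h2 h1 hτ0 hf), ae_restrict_mem hT] with x hx hxT
    rw [hx]
    congr 2
    rw [← integral_const_mul, ← integral_const_mul, ← integral_sub ((int_GI _ f x).const_mul _)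
      ((int_kf hs hf hfS hδ fun x' hx' => (hST x hxT x' hx').1).const_mul _)]
    refine integral_congr_ae (Eventually.of_forall fun x' => ?_)
    simp only
    ring

theorem offB {s : ℝ} (h0 : 3 / 4 < s) (h2 : s < 2) (h1 : s ≠ 1) (δ R : ℝ) (hδ : 0 < δ) :
    ∃ C K : ℝ, 0 ≤ C ∧ 1 ≤ K ∧ ∀ τ : ℝ, K ≤ τ → ∀ f : HS, Integrable (f : E3 → ℂ) →
      ∀ S T : Set E3, MeasurableSet S → MeasurableSet T →
        (∀ᵐ x ∂(volume : Measure E3), x ∉ S → (f : E3 → ℂ) x = 0) →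
        (∀ x ∈ T, ∀ x' ∈ S, δ ≤ ‖x - x'‖ ∧ ‖x - x'‖ ≤ R) →
        ∫⁻ x in T, ‖(multL (mI s τ) f : E3 → ℂ) x‖ₑ ^ 2 ≤
          ENNReal.ofReal (C * τ ^ (-(8 * s))) * (∫⁻ x, ‖(f : E3 → ℂ) x‖ₑ) ^ 2 := by
  obtain ⟨C, K, hC, hK, hE⟩ := offE2 h0 h2 h1 δ R hδ
  refine ⟨C, K, hC, hK, fun τ hτ f hf S T hS hT hfS hST => ?_⟩
  have hτ0 : 0 < τ := by linarith
  refine le_trans (le_trans (le_of_eq ?_) (mink (Lp.aestronglyMeasurable (GI s τ))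
    (Lp.aestronglyMeasurable f) hS hT hfS hST)) (mul_le_mul_left (hE τ hτ) _)
  refine lintegral_congr_ae ?_
  filter_upwards [ae_restrict_of_ae (conv_sub h0 h2 h1 hτ0 hf)] with x hx
  rw [hx]

end FracScatC

end
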