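import Mathlib

/-! # Real powers in the Banach algebra `C(S, ℝ)`

Let `A = C(S, ℝ)`, `S` compact. Put `u = (g - f)/f ∈ A` (`f ≥ δ > 0`, so `1/f ∈ A`). For `‖g - f‖ < δ` one has `‖u‖ < 1`, and
`g^a = f^a (1+u)^a = f^a ∑ (a choose n) u^n` in `A`. The binomial series `binomialSeries A a` (file
`Mathlib/Analysis/Analytic/Binomial.lean`; its radius of convergence is at least `1`) has an analytic sum `B` on the unit ball of `A`,
and evaluation at a point of `S` shows `(B u)(x) = (1+u x)^a` (`Real.one_add_rpow_hasFPowerSeriesOnBall_zero` or a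
similar statement, `ContinuousMap.evalAlgHom` is continuous). So `g ↦ f^a · B((g-f) · f⁻¹)` is analytic at `f`, and it
agrees with `g ↦ g^a` near `f`.
(Other proof: `g^a = exp(a log g)`, or the series of the logarithm.) -/

set_option autoImplicit false

open MeasureTheory Filter Topology Set
open scoped FourierTransform SchwartzMap InnerProductSpace ENNReal BoundedContinuousFunction

noncomputable section

namespace FracScat

private theorem radius_ge (S : Type*) [TopologicalSpace S] [CompactSpace S] (a : ℝ) :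
    1 ≤ (binomialSeries C(S, ℝ) a).radius := by
  refine ENNReal.le_of_forall_nnreal_lt (fun r hr => ?_)
  have h1 : (r : ℝ≥0∞) < (binomialSeries ℝ a).radius :=
    lt_of_lt_of_le hr binomialSeries_radius_ge_one
  obtain ⟨C, hC0, hC⟩ := (binomialSeries ℝ a).norm_mul_pow_le_of_lt_radius h1
  refine FormalMultilinearSeries.le_radius_of_bound _ C (fun n => ?_)
  refine le_trans ?_ (hC n)
  refine mul_le_mul_of_nonneg_right ?_ (by positivity)
  have h2 : ‖binomialSeries ℝ a n‖ = ‖Ring.choose a n‖ := by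
    unfold binomialSeries
    exact FormalMultilinearSeries.ofScalars_norm (E := ℝ) (c := fun k => Ring.choose a k) (n := n)
  rw [h2]
  rcases Nat.eq_zero_or_pos n with rfl | hn
  · unfold binomialSeries
    rw [FormalMultilinearSeries.ofScalars_norm_eq_mul, ContinuousMultilinearMap.norm_mkPiAlgebraFin_zero]
    have h3 : ‖(1 : C(S, ℝ))‖ ≤ 1 := by
      rw [ContinuousMap.norm_le _ zero_le_one]
      intro x
      simp
    calc ‖Ring.choose a 0‖ * ‖(1 : C(S, ℝ))‖ ≤ ‖Ring.choose a 0‖ * 1 :=
          mul_le_mul_of_nonneg_left h3 (norm_nonneg _)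
      _ = _ := mul_one _
  · unfold binomialSeries
    exact FormalMultilinearSeries.ofScalars_norm_le (E := C(S, ℝ)) (c := fun k => Ring.choose a k) n hn

private theorem sum_eval {S : Type*} [TopologicalSpace S] [CompactSpace S] (a : ℝ) {u : C(S, ℝ)}
    (hu : ‖u‖ < 1) (x : S) : (binomialSeries C(S, ℝ) a).sum u x = (1 + u x) ^ a := by
  have hux : ‖u x‖ < 1 := lt_of_le_of_lt (u.norm_coe_le_norm x) hu
  have hmem : u ∈ Metric.eball (0 : C(S, ℝ)) (binomialSeries C(S, ℝ) a).radius := by
    refine Metric.eball_subset_eball (radius_ge S a) ?_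
    rw [← ENNReal.ofReal_one, Metric.eball_ofReal]
    simpa using hu
  have h1 := FormalMultilinearSeries.hasSum (binomialSeries C(S, ℝ) a) hmem
  have hmem2 : u x ∈ Metric.eball (0 : ℝ) 1 := by
    rw [← ENNReal.ofReal_one, Metric.eball_ofReal]
    simpa using hux
  have h2 := (Real.one_add_rpow_hasFPowerSeriesOnBall_zero (a := a)).hasSum hmem2
  have h3 : HasSum (fun n => ((binomialSeries C(S, ℝ) a) n (fun _ => u)) x)
      ((binomialSeries C(S, ℝ) a).sum u x) := by
    exact h1.map (ContinuousMap.evalAlgHom ℝ ℝ x : C(S, ℝ) →ₐ[ℝ] ℝ) (continuous_eval_const x)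
  have h4 : (fun n => ((binomialSeries C(S, ℝ) a) n (fun _ => u)) x)
      = fun n => (binomialSeries ℝ a) n (fun _ => u x) := by
    funext n
    rw [binomialSeries_apply, binomialSeries_apply]
    simp
  rw [h4] at h3
  have h5 := h3.unique h2
  simpa using h5

theorem anaP {S : Type*} [TopologicalSpace S] [CompactSpace S] (a : ℝ) {f : C(S, ℝ)} {δ : ℝ}
    (hδ : 0 < δ) (hf : ∀ x, δ ≤ f x) :
    ∃ Φ : C(S, ℝ) → C(S, ℝ), AnalyticAt ℝ Φ f ∧ ∀ᶠ g in 𝓝 f, ∀ x, Φ g x = (g x) ^ a := by
  have hfpos : ∀ x, 0 < f x := fun x => lt_of_lt_of_le hδ (hf x)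
  set finv : C(S, ℝ) := ⟨fun x => (f x)⁻¹, f.continuous.inv₀ (fun x => (hfpos x).ne')⟩ with hfinv
  set fa : C(S, ℝ) := ⟨fun x => (f x) ^ a,
    f.continuous.rpow_const (fun x => Or.inl (hfpos x).ne')⟩ with hfa
  have hrad : 0 < (binomialSeries C(S, ℝ) a).radius := lt_of_lt_of_le zero_lt_one (radius_ge S a)
  have hB : AnalyticAt ℝ (binomialSeries C(S, ℝ) a).sum 0 :=
    ((binomialSeries C(S, ℝ) a).hasFPowerSeriesOnBall hrad).analyticAt
  refine ⟨fun g => fa * (binomialSeries C(S, ℝ) a).sum ((g - f) * finv), ?_, ?_⟩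
  · refine analyticAt_const.mul ?_
    refine AnalyticAt.fun_comp (f := fun g : C(S, ℝ) => (g - f) * finv) ?_ ?_
    · simpa using hB
    · exact (analyticAt_id.sub analyticAt_const).mul analyticAt_const
  · have hnear : ∀ᶠ g in 𝓝 f, ‖g - f‖ < δ := by
      have : Tendsto (fun g : C(S, ℝ) => ‖g - f‖) (𝓝 f) (𝓝 ‖f - f‖) :=
        ((continuous_id.sub continuous_const).norm).tendsto f
      rw [sub_self, norm_zero] at this
      exact this.eventually (gt_mem_nhds hδ)
    filter_upwards [hnear] with g hg x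
    have hu : ‖(g - f) * finv‖ < 1 := by
      have h1 : ‖(g - f) * finv‖ ≤ ‖g - f‖ * δ⁻¹ := by
        refine (norm_mul_le _ _).trans (mul_le_mul_of_nonneg_left ?_ (norm_nonneg _))
        rw [ContinuousMap.norm_le _ (by positivity)]
        intro y
        rw [hfinv]
        simp only [ContinuousMap.coe_mk, norm_inv, Real.norm_eq_abs, abs_of_pos (hfpos y)]
        exact inv_anti₀ hδ (hf y)
      calc ‖(g - f) * finv‖ ≤ ‖g - f‖ * δ⁻¹ := h1
        _ < δ * δ⁻¹ := mul_lt_mul_of_pos_right hg (by positivity)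
        _ = 1 := mul_inv_cancel₀ hδ.ne'
    have h2 := sum_eval a hu x
    have h3 : 1 + ((g - f) * finv) x = g x * (f x)⁻¹ := by
      simp only [ContinuousMap.mul_apply, ContinuousMap.sub_apply, hfinv, ContinuousMap.coe_mk]
      have := (hfpos x).ne'
      field_simp
      ring
    have hgx : 0 < g x := by
      have h4 : |g x - f x| < δ := by
        have := (g - f).norm_coe_le_norm x
        rw [ContinuousMap.sub_apply, Real.norm_eq_abs] at this
        exact lt_of_le_of_lt this hg
      have h5 := abs_lt.mp h4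
      linarith [hf x]
    rw [ContinuousMap.mul_apply, h2, h3, hfa]
    simp only [ContinuousMap.coe_mk]
    rw [← Real.mul_rpow (hfpos x).le (by have := hfpos x; positivity)]
    congr 1
    have := (hfpos x).ne'
    field_simp

end FracScat

end
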