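import Pool.Agent.Lib.MP_6e2ba5_an.Rx.SphA
import Pool.Agent.Lib.MP_6e2ba5_an.Rx.AnaP

/-! # The potential is real analytic off the support

Let `‖y₁-y₀‖ < ρ` and `ρ' = (ρ + ‖y₁-y₀‖)/2`, `S = {x | ‖x‖ ≤ r ∧ ρ' ≤ ‖x-y₀‖}`, a compact set (maybe empty), outside of
which `W = 0` a.e. (up to the sphere, a null set, or by `vanish`). The map `T : E3 → C(S,ℝ)`, `T y = (x ↦ ‖x-y‖²) = ‖x‖² - 2⟪x,y⟫ + ‖y‖²`, is
analytic (a constant, a continuous linear map, and a continuous quadratic map), and `T y₁ ≥ δ² > 0` on `S`,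
`δ = ρ' - ‖y₁-y₀‖`. By `anaP` with `a = -b/2`, `y ↦ Φ(T y)` is analytic at `y₁` (`AnalyticAt.comp`), with values
`‖x-y‖^(-b)` for `y` near `y₁` (`Real.rpow_natCast`, `(‖v‖²)^(-b/2) = ‖v‖^(-b)`). The functional
`g ↦ ∫_S W g` on `C(S,ℝ)` is continuous linear. So `UW b W` agrees near `y₁` with an analytic function. -/

set_option autoImplicit false

open MeasureTheory Filter Topology Set
open scoped FourierTransform SchwartzMap InnerProductSpace ENNReal BoundedContinuousFunction

noncomputable section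

namespace FracScat

/-- `x ↦ ⟪x, y⟫` as a continuous function on `S`, linear in `y`. -/
private def innerC (S : Set E3) [CompactSpace S] : E3 →ₗ[ℝ] C(S, ℝ) where
  toFun y := ⟨fun x => ⟪(x : E3), y⟫_ℝ, by fun_prop⟩
  map_add' y z := by
    ext x
    simp [inner_add_right]
  map_smul' c y := by
    ext x
    simp [inner_smul_right]

/-- `x ↦ ‖x‖²` as a continuous function on `S`. -/
private def nsqC (S : Set E3) : C(S, ℝ) := ⟨fun x => ‖(x : E3)‖ ^ 2, by fun_prop⟩

/-- `T y = (x ↦ ‖x - y‖²)`. -/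
private def TC (S : Set E3) [CompactSpace S] (y : E3) : C(S, ℝ) :=
  nsqC S - (2 : ℝ) • innerC S y + (‖y‖ ^ 2) • (1 : C(S, ℝ))

private theorem TC_apply (S : Set E3) [CompactSpace S] (y : E3) (x : S) :
    TC S y x = ‖(x : E3) - y‖ ^ 2 := by
  rw [@norm_sub_sq_real]
  simp [TC, nsqC, innerC]

private theorem TC_analytic (S : Set E3) [CompactSpace S] (y : E3) : AnalyticAt ℝ (TC S) y := by
  have h1 : AnalyticAt ℝ (fun y : E3 => innerC S y) y :=
    (LinearMap.toContinuousLinearMap (innerC S)).analyticAt y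
  have h2 : AnalyticAt ℝ (fun y : E3 => ‖y‖ ^ 2) y := by
    have : (fun y : E3 => ‖y‖ ^ 2) = fun y : E3 => ∑ i : Fin 3, (EuclideanSpace.proj i y) ^ 2 := by
      funext y
      rw [EuclideanSpace.real_norm_sq_eq]
      rfl
    rw [this]
    refine Finset.analyticAt_fun_sum _ fun i _ => ?_
    exact ((EuclideanSpace.proj (𝕜 := ℝ) i).analyticAt y).pow 2
  have h3 : AnalyticAt ℝ (fun y : E3 => (2 : ℝ) • innerC S y) y :=
    (analyticAt_const (v := (2 : ℝ))).smul h1
  have h4 : AnalyticAt ℝ (fun y : E3 => (‖y‖ ^ 2) • (1 : C(S, ℝ))) y := h2.smul analyticAt_const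
  exact ((analyticAt_const (v := nsqC S)).sub h3).add h4

theorem anaU {r M ρ : ℝ} {W : E3 → ℝ} {y₀ : E3} (hW : IsW r M W y₀ ρ) (b : ℝ) :
    AnalyticOnNhd ℝ (UW b W) (Metric.ball y₀ ρ) := by
  intro y₁ hy₁
  have hy₁' : ‖y₁ - y₀‖ < ρ := by simpa [dist_eq_norm] using hy₁
  set ρ' : ℝ := (ρ + ‖y₁ - y₀‖) / 2 with hρ'
  have hρρ : ρ' < ρ := by rw [hρ']; linarith
  have hδ : 0 < ρ' - ‖y₁ - y₀‖ := by rw [hρ']; linarith
  set S : Set E3 := {x | ‖x‖ ≤ r ∧ ρ' ≤ ‖x - y₀‖} with hS
  have hSc : IsClosed S := by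
    apply IsClosed.inter
    · exact isClosed_le continuous_norm continuous_const
    · exact isClosed_le continuous_const (continuous_id.sub continuous_const).norm
  have hSk : IsCompact S := by
    refine (isCompact_closedBall (0 : E3) r).of_isClosed_subset hSc fun x hx => ?_
    simpa using hx.1
  have : CompactSpace S := isCompact_iff_compactSpace.mp hSk
  have hSm : MeasurableSet S := hSc.measurableSet
  have hSf : volume S < ∞ := hSk.measure_lt_top
  -- the measure on `S`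
  set μ : Measure S := (volume : Measure E3).comap (Subtype.val : S → E3) with hμ
  have hμu : μ univ = volume S := by
    rw [hμ, comap_subtype_coe_apply hSm]
    simp
  have : IsFiniteMeasure μ := ⟨by rw [hμu]; exact hSf⟩
  have hWm : Measurable fun x : S => W x := hW.measurable.comp measurable_subtype_coe
  have hint : ∀ g : C(S, ℝ), Integrable (fun x : S => W x * g x) μ := by
    intro g
    refine Integrable.of_bound (C := M * ‖g‖)
      ((hWm.mul g.continuous.measurable).aestronglyMeasurable) (ae_of_all _ fun x => ?_)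
    rw [norm_mul]
    have h1 : ‖W x‖ ≤ M := hW.bounded x
    have h2 : ‖g x‖ ≤ ‖g‖ := g.norm_coe_le_norm x
    exact mul_le_mul h1 h2 (norm_nonneg _) ((norm_nonneg _).trans h1)
  let I₀ : C(S, ℝ) →ₗ[ℝ] ℝ :=
    { toFun := fun g => ∫ x : S, W x * g x ∂μ
      map_add' := by
        intro g h
        rw [← integral_add (hint g) (hint h)]
        refine integral_congr_ae (ae_of_all _ fun x => ?_)
        simp [mul_add]
      map_smul' := by
        intro c g
        rw [RingHom.id_apply, smul_eq_mul, ← integral_const_mul]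
        refine integral_congr_ae (ae_of_all _ fun x => ?_)
        simp only [ContinuousMap.smul_apply, smul_eq_mul]
        ring }
  let I : C(S, ℝ) →L[ℝ] ℝ := I₀.mkContinuous (M * μ.real univ) (by
    intro g
    have : ∀ᵐ x : S ∂μ, ‖W x * g x‖ ≤ M * ‖g‖ := by
      refine ae_of_all _ fun x => ?_
      rw [norm_mul]
      have h1 : ‖W x‖ ≤ M := hW.bounded x
      have h2 : ‖g x‖ ≤ ‖g‖ := g.norm_coe_le_norm x
      exact mul_le_mul h1 h2 (norm_nonneg _) ((norm_nonneg _).trans h1)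
    refine (norm_integral_le_of_norm_le_const this).trans (le_of_eq ?_)
    ring)
  have hI : ∀ g, I g = ∫ x : S, W x * g x ∂μ := fun g => rfl
  -- lower bound on `S`
  have hlow : ∀ x : S, (ρ' - ‖y₁ - y₀‖) ^ 2 ≤ TC S y₁ x := by
    intro x
    rw [TC_apply]
    have h1 : ρ' ≤ ‖(x : E3) - y₀‖ := x.2.2
    have h2 : ‖(x : E3) - y₀‖ ≤ ‖(x : E3) - y₁‖ + ‖y₁ - y₀‖ := by
      have := norm_add_le ((x : E3) - y₁) (y₁ - y₀)
      rwa [sub_add_sub_cancel] at this
    apply pow_le_pow_left₀ hδ.le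
    linarith
  obtain ⟨Φ, hΦa, hΦ⟩ := anaP (-b / 2) (pow_pos hδ 2) hlow
  have hcomp : AnalyticAt ℝ (fun y => I (Φ (TC S y))) y₁ := by
    have h1 : AnalyticAt ℝ (fun y => Φ (TC S y)) y₁ := hΦa.comp (TC_analytic S y₁)
    exact (I.analyticAt _).comp h1
  refine hcomp.congr ?_
  have hev : ∀ᶠ y in 𝓝 y₁, ∀ x, Φ (TC S y) x = (TC S y x) ^ (-b / 2) :=
    (TC_analytic S y₁).continuousAt.eventually hΦ
  filter_upwards [hev] with y hy
  have hpt : ∀ x : S, Φ (TC S y) x = ‖(x : E3) - y‖ ^ (-b) := by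
    intro x
    rw [hy x, TC_apply, ← Real.rpow_natCast, ← Real.rpow_mul (norm_nonneg _)]
    congr 1
    push_cast
    ring
  have hsupp : ∀ᵐ x ∂(volume : Measure E3), x ∉ S → W x * ‖x - y‖ ^ (-b) = 0 := by
    filter_upwards [hW.zero] with x hx hxS
    have : W x = 0 := by
      by_cases h1 : ‖x‖ ≤ r
      · by_cases h2 : ρ' ≤ ‖x - y₀‖
        · exact absurd ⟨h1, h2⟩ hxS
        · exact hx (by linarith [not_le.mp h2])
      · exact hW.vanish x (not_le.mp h1).le
    rw [this, zero_mul]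
  rw [hI]
  calc ∫ x : S, W x * Φ (TC S y) x ∂μ = ∫ x : S, W x * ‖(x : E3) - y‖ ^ (-b) ∂μ := by
        refine integral_congr_ae (ae_of_all _ fun x => ?_)
        simp only [hpt x]
    _ = ∫ x in S, W x * ‖x - y‖ ^ (-b) :=
        integral_subtype_comap hSm (fun x => W x * ‖x - y‖ ^ (-b))
    _ = UW b W y := by
        rw [UW]
        exact setIntegral_eq_integral_of_ae_compl_eq_zero hsupp

end FracScat

end
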