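import Pool.Agent.Lib.MP_6e2ba5_an.Rx.Defs

/-! # Integrability

`p = 3+2s ∈ (3,7)`. `‖ps6 h x‖ = |exp(2πi h·x)-1|^6 ≤ min(64, (2π‖h‖‖x‖)^6)`. So `‖ps6 h x * kf s x‖` is at most
`C ‖x‖^(6-p)`, bounded by `C ‖x‖^(-1)`, for `‖x‖ ≤ 1` and at most `64 ‖x‖^(-p)` for `‖x‖ ≥ 1`: together
`≤ C' ‖x‖^(-1) (1+‖x‖)^(1-p)`-like. Integrable: `‖x‖^(-1)` is integrable on the unit ball of `ℝ³` and
`‖x‖^(-p)`, `p > 3`, at infinity; the same for the squares (`‖x‖^(-2)`). Polar coordinates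
(`MeasureTheory.integrable_fun_norm_addHaar`, `integrableOn_...`), or `../GsBound.lean`, `../Radial.lean` for
the way such integrals were treated. `kf` is measurable (continuous off `0`).
`kf_bound`, `kf_lip`: on `‖x‖ ≥ δ` the function `t ↦ t^(-p)` is decreasing and has derivative bounded by `p δ^(-p-1)`. -/

set_option autoImplicit false

open MeasureTheory Filter Topology Set
open scoped FourierTransform SchwartzMap InnerProductSpace ENNReal BoundedContinuousFunction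

noncomputable section

namespace FracScatC

open FracScat

theorem kf_measurable (s : ℝ) : Measurable (kf s) := by
  unfold kf
  fun_prop

theorem ps6_continuous (h : E3) : Continuous (ps6 h) := by
  unfold ps6 efun
  fun_prop

/-- the radial majorant -/
private def rG (a b : ℝ) (r : ℝ) : ℝ := if r < 1 then r ^ a else r ^ (-b)

private theorem rG_int {a b : ℝ} (ha : -3 < a) (hb : 3 < b) :
    Integrable (fun x : E3 => rG a b ‖x‖) := by
  rw [integrable_fun_norm_addHaar (volume : Measure E3) (f := rG a b)]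
  have hd : Module.finrank ℝ E3 - 1 = 2 := by simp
  rw [hd]
  have hsplit : (Ioi (0 : ℝ)) = Ioc 0 1 ∪ Ioi 1 := (Ioc_union_Ioi_eq_Ioi zero_le_one).symm
  rw [hsplit]
  refine IntegrableOn.union ?_ ?_
  · have h1 : IntegrableOn (fun t : ℝ => t ^ (a + 2)) (Ioc 0 1) :=
      (intervalIntegrable_iff_integrableOn_Ioc_of_le zero_le_one).1
        (intervalIntegral.intervalIntegrable_rpow' (by linarith))
    refine h1.congr_fun (fun t ht => ?_) measurableSet_Ioc
    have ht0 : 0 < t := ht.1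
    have e1 : rG a b t = t ^ a := by
      unfold rG
      rcases ht.2.lt_or_eq with h | h
      · rw [if_pos h]
      · rw [h, if_neg (lt_irrefl _), Real.one_rpow, Real.one_rpow]
    simp only [smul_eq_mul]
    rw [e1, Real.rpow_add ht0, mul_comm]
    congr 1
    exact_mod_cast Real.rpow_natCast t 2
  · have h1 : IntegrableOn (fun t : ℝ => t ^ (-b + 2)) (Ioi 1) :=
      integrableOn_Ioi_rpow_of_lt (by linarith) one_pos
    refine h1.congr_fun (fun t ht => ?_) measurableSet_Ioi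
    have ht1 : 1 < t := ht
    have ht0 : 0 < t := by linarith
    have e1 : rG a b t = t ^ (-b) := by
      unfold rG
      rw [if_neg (not_lt.2 ht1.le)]
    simp only [smul_eq_mul]
    rw [e1, Real.rpow_add ht0, mul_comm]
    congr 1
    exact_mod_cast Real.rpow_natCast t 2

private theorem ef_le (h x : E3) : ‖efun h x - 1‖ ≤ 2 ∧ ‖efun h x - 1‖ ≤ 2 * Real.pi * ‖h‖ * ‖x‖ := by
  have hpi := Real.pi_pos
  have e : efun h x = Complex.exp (Complex.I * ((2 * Real.pi * ⟪h, x⟫_ℝ : ℝ) : ℂ)) := by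
    unfold efun
    rw [mul_comm]
  constructor
  · refine (norm_sub_le _ _).trans ?_
    rw [e, Complex.norm_exp_I_mul_ofReal, norm_one]
    norm_num
  · rw [e]
    refine Real.norm_exp_I_mul_ofReal_sub_one_le.trans ?_
    rw [Real.norm_eq_abs, abs_mul, abs_of_pos (by positivity : 0 < 2 * Real.pi)]
    calc 2 * Real.pi * |⟪h, x⟫_ℝ| ≤ 2 * Real.pi * (‖h‖ * ‖x‖) := by
          gcongr
          exact abs_real_inner_le_norm h x
      _ = 2 * Real.pi * ‖h‖ * ‖x‖ := by ring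

private theorem kf_norm (s : ℝ) (x : E3) : ‖kf s x‖ = ‖x‖ ^ (-(3 + 2 * s)) := by
  unfold kf
  rw [Complex.norm_real, Real.norm_of_nonneg (by positivity)]

private theorem kap_le {s : ℝ} (h : E3) (x : E3) :
    ‖ps6 h x * kf s x‖ ≤
      (64 + (2 * Real.pi * ‖h‖) ^ 6) * rG (6 - (3 + 2 * s)) (3 + 2 * s) ‖x‖ := by
  have hpi := Real.pi_pos
  obtain ⟨h1, h2⟩ := ef_le h x
  rw [norm_mul, kf_norm]
  have hps : ‖ps6 h x‖ = ‖efun h x - 1‖ ^ 6 := by
    unfold ps6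
    rw [norm_pow]
  rw [hps]
  unfold rG
  have h0 : 0 ≤ ‖x‖ := norm_nonneg x
  split_ifs with hx
  · rcases h0.lt_or_eq with hx0 | hx0
    · have h3 : ‖efun h x - 1‖ ^ 6 ≤ (2 * Real.pi * ‖h‖) ^ 6 * ‖x‖ ^ 6 := by
        rw [← mul_pow]
        exact pow_le_pow_left₀ (norm_nonneg _) h2 6
      have h4 : ‖x‖ ^ (6 - (3 + 2 * s)) = ‖x‖ ^ 6 * ‖x‖ ^ (-(3 + 2 * s)) := by
        rw [sub_eq_add_neg, Real.rpow_add hx0]
        congr 1
        exact_mod_cast Real.rpow_natCast ‖x‖ 6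
      rw [h4]
      have h5 : 0 ≤ ‖x‖ ^ (-(3 + 2 * s)) := by positivity
      calc ‖efun h x - 1‖ ^ 6 * ‖x‖ ^ (-(3 + 2 * s))
          ≤ (2 * Real.pi * ‖h‖) ^ 6 * ‖x‖ ^ 6 * ‖x‖ ^ (-(3 + 2 * s)) := by gcongr
        _ ≤ (64 + (2 * Real.pi * ‖h‖) ^ 6) * (‖x‖ ^ 6 * ‖x‖ ^ (-(3 + 2 * s))) := by
          have : 0 ≤ ‖x‖ ^ 6 * ‖x‖ ^ (-(3 + 2 * s)) := by positivity
          nlinarith
    · have hx0' : x = 0 := norm_eq_zero.1 hx0.symm
      have : efun h x = 1 := by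
        unfold efun
        rw [hx0', inner_zero_right]
        simp
      rw [this, sub_self, norm_zero, zero_pow (by norm_num), zero_mul]
      positivity
  · have h3 : ‖efun h x - 1‖ ^ 6 ≤ 64 := by
      calc ‖efun h x - 1‖ ^ 6 ≤ 2 ^ 6 := pow_le_pow_left₀ (norm_nonneg _) h1 6
        _ = 64 := by norm_num
    have h5 : 0 ≤ ‖x‖ ^ (-(3 + 2 * s)) := by positivity
    have h6 : 0 ≤ (2 * Real.pi * ‖h‖) ^ 6 := by positivity
    gcongr
    linarith

private theorem kap_meas (s : ℝ) (h : E3) :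
    AEStronglyMeasurable (fun x => ps6 h x * kf s x) (volume : Measure E3) :=
  ((ps6_continuous h).measurable.mul (kf_measurable s)).aestronglyMeasurable

private theorem rG_nonneg (a b : ℝ) {r : ℝ} (hr : 0 ≤ r) : 0 ≤ rG a b r := by
  unfold rG
  split_ifs <;> positivity

theorem kap_int {s : ℝ} (h0 : 0 < s) (h2 : s < 2) (h : E3) :
    Integrable (fun x => ps6 h x * kf s x) := by
  refine ((rG_int (a := 6 - (3 + 2 * s)) (b := 3 + 2 * s) (by linarith) (by linarith)).const_mul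
    (64 + (2 * Real.pi * ‖h‖) ^ 6)).mono' (kap_meas s h) (ae_of_all _ fun x => kap_le h x)

theorem kap_memLp {s : ℝ} (h0 : 0 < s) (h2 : s < 2) (h : E3) :
    MemLp (fun x => ps6 h x * kf s x) 2 (volume : Measure E3) := by
  rw [memLp_two_iff_integrable_sq_norm (kap_meas s h)]
  refine ((rG_int (a := 2 * (6 - (3 + 2 * s))) (b := 2 * (3 + 2 * s)) (by linarith)
    (by linarith)).const_mul ((64 + (2 * Real.pi * ‖h‖) ^ 6) ^ 2)).mono'
    ((kap_meas s h).norm.pow 2) (ae_of_all _ fun x => ?_)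
  have e : rG (2 * (6 - (3 + 2 * s))) (2 * (3 + 2 * s)) ‖x‖ =
      rG (6 - (3 + 2 * s)) (3 + 2 * s) ‖x‖ ^ 2 := by
    have h3 : 0 ≤ ‖x‖ := norm_nonneg x
    unfold rG
    split_ifs
    · rw [mul_comm, Real.rpow_mul h3]
      exact_mod_cast Real.rpow_natCast _ 2
    · rw [show -(2 * (3 + 2 * s)) = -(3 + 2 * s) * 2 by ring, Real.rpow_mul h3]
      exact_mod_cast Real.rpow_natCast _ 2
  rw [e, ← mul_pow, Real.norm_of_nonneg (by positivity)]
  exact pow_le_pow_left₀ (norm_nonneg _) (kap_le h x) 2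

theorem kf_bound {s δ : ℝ} (h0 : 0 < s) (hδ : 0 < δ) {x : E3} (hx : δ ≤ ‖x‖) :
    ‖kf s x‖ ≤ δ ^ (-(3 + 2 * s)) := by
  rw [kf_norm]
  exact Real.rpow_le_rpow_of_nonpos hδ hx (by linarith)

theorem kf_lip {s δ : ℝ} (h0 : 0 < s) (hδ : 0 < δ) :
    ∃ L : ℝ, 0 ≤ L ∧ ∀ x x' : E3, δ ≤ ‖x‖ → δ ≤ ‖x'‖ → ‖kf s x - kf s x'‖ ≤ L * ‖x - x'‖ := by
  refine ⟨(3 + 2 * s) * δ ^ (-(3 + 2 * s) - 1), by positivity, fun x x' hx hx' => ?_⟩
  have hder : ∀ t ∈ Ici δ, HasDerivWithinAt (fun t : ℝ => t ^ (-(3 + 2 * s)))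
      (-(3 + 2 * s) * t ^ (-(3 + 2 * s) - 1)) (Ici δ) t := by
    intro t ht
    have ht0 : 0 < t := hδ.trans_le ht
    exact (Real.hasDerivAt_rpow_const (Or.inl ht0.ne')).hasDerivWithinAt
  have hb : ∀ t ∈ Ici δ, ‖-(3 + 2 * s) * t ^ (-(3 + 2 * s) - 1)‖ ≤
      (3 + 2 * s) * δ ^ (-(3 + 2 * s) - 1) := by
    intro t ht
    have ht0 : 0 < t := hδ.trans_le ht
    rw [norm_mul, norm_neg, Real.norm_of_nonneg (by positivity : (0 : ℝ) ≤ 3 + 2 * s),
      Real.norm_of_nonneg (by positivity)]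
    exact mul_le_mul_of_nonneg_left (Real.rpow_le_rpow_of_nonpos hδ ht (by linarith))
      (by positivity)
  have h1 := (convex_Ici δ).norm_image_sub_le_of_norm_hasDerivWithin_le hder hb
    (x := ‖x'‖) (y := ‖x‖) hx' hx
  have e : ‖kf s x - kf s x'‖ = ‖‖x‖ ^ (-(3 + 2 * s)) - ‖x'‖ ^ (-(3 + 2 * s))‖ := by
    unfold kf
    rw [← Complex.ofReal_sub, Complex.norm_real]
  rw [e]
  refine h1.trans (mul_le_mul_of_nonneg_left ?_ (by positivity))
  rw [Real.norm_eq_abs]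
  exact abs_norm_sub_norm_le x x'

end FracScatC

end
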