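import Pool.Agent.Lib.MP_6e2ba5_an.Rx.MassI

/-! # Concentration at the exposed point

Given `ε`, take `δ'` from `hq` for `ε/2` and split `D` at `‖x-y‖ < δ'`: the near part of
`∫_D (g-q) wE` is at most `(ε/2) ma`, the far part at most `(B+‖q‖) vol(D) exp(-δτ)` with `δ` from `far_dir`,
and this is `o(ma)` by `far_small` with `m = 0`. `lapC_abs`: apply it to `g = ‖x-y‖`. -/

set_option autoImplicit false

open MeasureTheory Filter Topology Set
open scoped FourierTransform SchwartzMap InnerProductSpace ENNReal BoundedContinuousFunction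

noncomputable section

namespace FracScatC

open FracScat

theorem lapC {D : Set E3} (hD : IsCompact D) (hc : Convex ℝ D) (hi : (interior D).Nonempty)
    {θ y : E3} (hy : y ∈ D) (hexp : ∀ x ∈ D, x ≠ y → ⟪θ, y⟫_ℝ < ⟪θ, x⟫_ℝ) {g : E3 → ℂ}
    (hg : AEStronglyMeasurable g (volume : Measure E3)) {B : ℝ}
    (hB : ∀ᵐ x ∂(volume : Measure E3), x ∈ D → ‖g x‖ ≤ B) {q : ℂ}
    (hq : ∀ ε : ℝ, 0 < ε → ∃ δ : ℝ, 0 < δ ∧ ∀ᵐ x ∂(volume : Measure E3), x ∈ D → ‖x - y‖ < δ →
      ‖g x - q‖ < ε) :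
    Tendsto (fun τ : ℝ => (∫ x in D, g x * ((wE τ θ y x : ℝ) : ℂ)) / ((ma D τ θ y : ℝ) : ℂ))
      atTop (𝓝 q) := by
  have hwI : ∀ τ : ℝ, IntegrableOn (wE τ θ y) D := fun τ =>
    (wE_continuous τ θ y).continuousOn.integrableOn_compact hD
  have hDm : MeasurableSet D := hD.measurableSet
  rw [Metric.tendsto_atTop']
  intro ε hε
  obtain ⟨δ', hδ', hnear⟩ := hq (ε / 2) (half_pos hε)
  obtain ⟨δ, hδ, hfar⟩ := far_dir hD hexp hδ'
  set C : ℝ := |B| + ‖q‖ with hC
  have hC0 : 0 ≤ C := add_nonneg (abs_nonneg _) (norm_nonneg _)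
  have h1 := (far_small hD hc hi θ hy hδ 0).const_mul (C * (volume : Measure E3).real D)
  rw [mul_zero] at h1
  have h2 : ∀ᶠ τ : ℝ in atTop, C * (volume : Measure E3).real D *
      (τ ^ (0 : ℝ) * Real.exp (-(δ * τ)) / ma D τ θ y) < ε / 2 :=
    h1.eventually (gt_mem_nhds (half_pos hε))
  obtain ⟨N, hN⟩ := eventually_atTop.1 (h2.and (eventually_ge_atTop (0 : ℝ)))
  refine ⟨N, fun τ hτ => ?_⟩
  obtain ⟨h3, hτ0⟩ := hN τ hτ.le
  have hm := ma_pos hD hi τ θ y
  rw [Real.rpow_zero, one_mul] at h3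
  have hmC : ((ma D τ θ y : ℝ) : ℂ) ≠ 0 := by exact_mod_cast hm.ne'
  have hwC : Integrable (fun x => ((wE τ θ y x : ℝ) : ℂ)) (volume.restrict D) :=
    (hwI τ).ofReal
  have hgw : Integrable (fun x => g x * ((wE τ θ y x : ℝ) : ℂ)) (volume.restrict D) := by
    refine Integrable.bdd_mul (c := |B|) hwC hg.restrict ?_
    rw [ae_restrict_iff' hDm]
    filter_upwards [hB] with x hx hxD
    exact (hx hxD).trans (le_abs_self B)
  have hqm : ∫ x in D, q * ((wE τ θ y x : ℝ) : ℂ) = q * ((ma D τ θ y : ℝ) : ℂ) := by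
    rw [integral_const_mul, integral_complex_ofReal]
    rfl
  have h4 : (∫ x in D, g x * ((wE τ θ y x : ℝ) : ℂ)) / ((ma D τ θ y : ℝ) : ℂ) - q =
      (∫ x in D, (g x - q) * ((wE τ θ y x : ℝ) : ℂ)) / ((ma D τ θ y : ℝ) : ℂ) := by
    have h5 : ∫ x in D, (g x - q) * ((wE τ θ y x : ℝ) : ℂ) =
        (∫ x in D, g x * ((wE τ θ y x : ℝ) : ℂ)) - q * ((ma D τ θ y : ℝ) : ℂ) := by
      rw [← hqm, ← integral_sub hgw (hwC.const_mul q)]
      exact integral_congr_ae (Eventually.of_forall fun x => by simp only [sub_mul])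
    rw [h5]
    field_simp
  rw [dist_eq_norm, h4, norm_div, Complex.norm_real, Real.norm_eq_abs, abs_of_pos hm,
    div_lt_iff₀ hm]
  have h6 : ‖∫ x in D, (g x - q) * ((wE τ θ y x : ℝ) : ℂ)‖ ≤
      ∫ x in D, (ε / 2 * wE τ θ y x + C * Real.exp (-(δ * τ))) := by
    refine norm_integral_le_of_norm_le ?_ ?_
    · exact ((hwI τ).const_mul _).add (integrableOn_const hD.measure_lt_top.ne)
    · rw [ae_restrict_iff' hDm]
      filter_upwards [hB, hnear] with x hx1 hx2 hxD
      have hw := wE_pos τ θ y x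
      rw [norm_mul, Complex.norm_real, Real.norm_eq_abs, abs_of_pos hw]
      by_cases hx : ‖x - y‖ < δ'
      · have h7 := hx2 hxD hx
        have h8 : 0 ≤ C * Real.exp (-(δ * τ)) := mul_nonneg hC0 (Real.exp_pos _).le
        have h9 := mul_le_mul_of_nonneg_right h7.le hw.le
        linarith
      · have h7 := wE_far (hfar x hxD (not_lt.1 hx)) hτ0
        have h8 : ‖g x - q‖ ≤ C :=
          (norm_sub_le _ _).trans (add_le_add ((hx1 hxD).trans (le_abs_self B)) le_rfl)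
        have h9 : ‖g x - q‖ * wE τ θ y x ≤ C * Real.exp (-(δ * τ)) :=
          mul_le_mul h8 h7 hw.le hC0
        have h10 : 0 ≤ ε / 2 * wE τ θ y x := mul_nonneg (half_pos hε).le hw.le
        linarith
  have h7 : ∫ x in D, (ε / 2 * wE τ θ y x + C * Real.exp (-(δ * τ))) =
      ε / 2 * ma D τ θ y + C * Real.exp (-(δ * τ)) * (volume : Measure E3).real D := by
    rw [integral_add ((hwI τ).const_mul _) (integrableOn_const hD.measure_lt_top.ne),
      integral_const_mul, setIntegral_const, smul_eq_mul]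
    unfold ma
    ring
  have h8 : C * Real.exp (-(δ * τ)) * (volume : Measure E3).real D < ε / 2 * ma D τ θ y := by
    rw [← div_lt_iff₀ hm]
    calc C * Real.exp (-(δ * τ)) * (volume : Measure E3).real D / ma D τ θ y
        = C * (volume : Measure E3).real D * (Real.exp (-(δ * τ)) / ma D τ θ y) := by ring
      _ < ε / 2 := h3
  calc ‖∫ x in D, (g x - q) * ((wE τ θ y x : ℝ) : ℂ)‖
      ≤ ε / 2 * ma D τ θ y + C * Real.exp (-(δ * τ)) * (volume : Measure E3).real D :=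
        h6.trans h7.le
    _ < ε / 2 * ma D τ θ y + ε / 2 * ma D τ θ y := by linarith
    _ = ε * ma D τ θ y := by ring

theorem lapC_abs {D : Set E3} (hD : IsCompact D) (hc : Convex ℝ D) (hi : (interior D).Nonempty)
    {θ y : E3} (hy : y ∈ D) (hexp : ∀ x ∈ D, x ≠ y → ⟪θ, y⟫_ℝ < ⟪θ, x⟫_ℝ) :
    Tendsto (fun τ : ℝ => (∫ x in D, ‖x - y‖ * wE τ θ y x) / ma D τ θ y) atTop (𝓝 0) := by
  have h1 := lapC hD hc hi hy hexp (g := fun x => ((‖x - y‖ : ℝ) : ℂ)) (B := Metric.diam D)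
    (q := 0) ?_ ?_ ?_
  · have h2 := (Complex.continuous_re.tendsto (0 : ℂ)).comp h1
    rw [Complex.zero_re] at h2
    refine h2.congr fun τ => ?_
    have h3 : ∫ x in D, ((‖x - y‖ : ℝ) : ℂ) * ((wE τ θ y x : ℝ) : ℂ) =
        ((∫ x in D, ‖x - y‖ * wE τ θ y x : ℝ) : ℂ) := by
      rw [← integral_complex_ofReal]
      exact integral_congr_ae (Eventually.of_forall fun x => by push_cast; rfl)
    simp only [Function.comp_apply]
    rw [h3, ← Complex.ofReal_div, Complex.ofReal_re]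
  · exact (by fun_prop : Continuous fun x : E3 => ((‖x - y‖ : ℝ) : ℂ)).aestronglyMeasurable
  · refine Eventually.of_forall fun x hx => ?_
    rw [Complex.norm_real, Real.norm_eq_abs, abs_of_nonneg (norm_nonneg _), ← dist_eq_norm]
    exact Metric.dist_le_diam_of_mem hD.isBounded hx hy
  · intro ε hε
    refine ⟨ε, hε, Eventually.of_forall fun x _ hx => ?_⟩
    rw [sub_zero, Complex.norm_real, Real.norm_eq_abs, abs_of_nonneg (norm_nonneg _)]
    exact hx

end FracScatC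

end
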