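import Pool.Agent.Lib.MP_6e2ba5_an.Rx.FBd
import Pool.Agent.Lib.MP_6e2ba5_an.Rx.LapC
import Pool.Agent.Lib.MP_6e2ba5_an.Rx.KapI

/-! # The field radiated by the near part of the source

`muV` is the mass of `V w` near `y` divided by the mass of `w`. Let `g = fun x' => (1 - indF y (ρ/2) x') * V x' * w x'` and
split `(1-indF) f = g + (1-indF)(f - Vw)`. For `ρ ≤ ‖x-y‖` and `‖x'-y‖ < ρ/2` one has `‖x-x'‖ ≥ ρ/2`, so
`‖kf s (x-x')‖ ≤ (ρ/2)^(-3-2s)` (`kf_bound`) and `‖kf s (x-x') - kf s (x-y)‖ ≤ L ‖x'-y‖` (`kf_lip` with `δ = ρ/2`). The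
contribution of `(1-indF)(f-Vw)` is at most `(ρ/2)^(-3-2s) ∫‖f-Vw‖ ≤ C τ^(3/2-2s) ma` (`fI_L1diff`).
`∫ kf(x-x') g(x') = kf(x-y) ∫ g + ∫ (kf(x-x')-kf(x-y)) g(x')`, the second integral is at most `L M ∫_D ‖x'-y‖ w`, which is
`o(ma)` by `lapC_abs`. -/

set_option autoImplicit false

open MeasureTheory Filter Topology Set
open scoped FourierTransform SchwartzMap InnerProductSpace ENNReal BoundedContinuousFunction

noncomputable section

namespace FracScatC

open FracScat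

/-- the cutoff -/
def cutN (y : E3) (ρ : ℝ) (x : E3) : ℂ := 1 - indF y (ρ / 2) x

theorem cutN_near {y : E3} {ρ : ℝ} {x : E3} (h : ‖x - y‖ < ρ / 2) : cutN y ρ x = 1 := by
  unfold cutN indF
  rw [if_neg (not_le.2 h), sub_zero]

theorem cutN_far {y : E3} {ρ : ℝ} {x : E3} (h : ρ / 2 ≤ ‖x - y‖) : cutN y ρ x = 0 := by
  unfold cutN indF
  rw [if_pos h, sub_self]

theorem cutN_norm (y : E3) (ρ : ℝ) (x : E3) : ‖cutN y ρ x‖ ≤ 1 := by
  by_cases h : ρ / 2 ≤ ‖x - y‖
  · rw [cutN_far h, norm_zero]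
    exact zero_le_one
  · rw [cutN_near (not_le.1 h), norm_one]

theorem cutN_meas (y : E3) (ρ : ℝ) : Measurable (cutN y ρ) := by
  have h1 : indF y (ρ / 2) = {x : E3 | ρ / 2 ≤ ‖x - y‖}.indicator (fun _ => (1 : ℂ)) := by
    funext x
    by_cases h : ρ / 2 ≤ ‖x - y‖ <;> simp [indF, h]
  have h2 : MeasurableSet {x : E3 | ρ / 2 ≤ ‖x - y‖} :=
    measurableSet_le measurable_const (by fun_prop)
  have h3 : Measurable (indF y (ρ / 2)) := by
    rw [h1]
    exact measurable_const.indicator h2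
  exact measurable_const.sub h3

/-- The mass of `V w` near `y`, divided by the mass of `w`. -/
def muV (V : E3 → ℂ) (D : Set E3) (ρ τ : ℝ) (θ y : E3) : ℂ :=
  (∫ x in D, (cutN y ρ x * V x) * ((wE τ θ y x : ℝ) : ℂ)) / ((ma D τ θ y : ℝ) : ℂ)

theorem muV_congr {V₁ V₂ : E3 → ℂ} {D : Set E3} {ρ : ℝ} (hρ : 0 < ρ) (τ : ℝ) (θ : E3) {y : E3}
    (hW : ∀ᵐ x ∂(volume : Measure E3), ‖x - y‖ < ρ → V₁ x = V₂ x) :
    muV V₁ D ρ τ θ y = muV V₂ D ρ τ θ y := by
  unfold muV
  congr 1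
  refine integral_congr_ae (ae_restrict_of_ae ?_)
  filter_upwards [hW] with x hx
  by_cases h : ρ / 2 ≤ ‖x - y‖
  · simp only [cutN_far h, zero_mul]
  · rw [not_le] at h
    simp only [cutN_near h, one_mul, hx (h.trans (by linarith))]

theorem muV_le {r M : ℝ} {V : E3 → ℂ} {D : Set E3} {θ y : E3} {q : ℂ} (t : Tip r M V D θ y q)
    (ρ τ : ℝ) : ‖muV V D ρ τ θ y‖ ≤ M := by
  have hM : 0 ≤ M := (norm_nonneg _).trans (t.pot.bounded 0)
  have hma : 0 < ma D τ θ y := ma_pos t.compact t.inter τ θ y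
  have hwI : IntegrableOn (wE τ θ y) D :=
    (wE_continuous τ θ y).continuousOn.integrableOn_compact t.compact
  unfold muV
  rw [norm_div, Complex.norm_real, Real.norm_of_nonneg hma.le, div_le_iff₀ hma]
  have e : M * ma D τ θ y = ∫ x in D, M * wE τ θ y x := by
    rw [integral_const_mul]
    rfl
  rw [e]
  refine norm_integral_le_of_norm_le (hwI.const_mul M) (Eventually.of_forall fun x => ?_)
  rw [norm_mul, norm_mul, Complex.norm_real, Real.norm_of_nonneg (wE_pos τ θ y x).le]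
  refine mul_le_mul_of_nonneg_right ?_ (wE_pos τ θ y x).le
  calc ‖cutN y ρ x‖ * ‖V x‖ ≤ 1 * M :=
        mul_le_mul (cutN_norm y ρ x) (t.pot.bounded x) (norm_nonneg _) zero_le_one
    _ = M := one_mul M

theorem muV_lower {r M : ℝ} {V : E3 → ℂ} {D : Set E3} {θ y : E3} {q : ℂ} (t : Tip r M V D θ y q)
    (hq : q ≠ 0) {ρ : ℝ} (hρ : 0 < ρ) :
    ∀ᶠ τ : ℝ in atTop, ‖q‖ / 2 ≤ ‖muV V D ρ τ θ y‖ := by
  have hM : 0 ≤ M := (norm_nonneg _).trans (t.pot.bounded 0)
  have hDm : MeasurableSet D := t.compact.measurableSet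
  have hq0 : 0 < ‖q‖ := norm_pos_iff.2 hq
  obtain ⟨δ, hδ, hs⟩ := t.sgn
  set ρ₁ : ℝ := min δ (ρ / 2) with hρ₁
  have hρ₁0 : 0 < ρ₁ := lt_min hδ (half_pos hρ)
  set C : ℝ := ‖q‖ ^ 2 + ‖q‖ * M with hC
  have hC0 : 0 < C := by positivity
  have hlim := lapC t.compact t.convex t.inter t.mem t.exposed (g := indF y ρ₁) (B := 1) (q := 0)
    (indF_BM y ρ₁).1 (Eventually.of_forall fun x _ => by unfold indF; split <;> simp)
    (fun ε hε => ⟨ρ₁, hρ₁0, Eventually.of_forall fun x _ hx => by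
      unfold indF
      rw [if_neg (not_le.2 hx), sub_zero, norm_zero]
      exact hε⟩)
  have hlim' := hlim.norm
  rw [norm_zero] at hlim'
  have hpos : 0 < ‖q‖ ^ 2 / (2 * C) := by positivity
  filter_upwards [hlim'.eventually_le_const hpos, eventually_ge_atTop (0 : ℝ)] with τ h3 hτ
  have hma : 0 < ma D τ θ y := ma_pos t.compact t.inter τ θ y
  have hwI : IntegrableOn (wE τ θ y) D :=
    (wE_continuous τ θ y).continuousOn.integrableOn_compact t.compact
  set J : Set E3 := {x : E3 | ρ₁ ≤ ‖x - y‖} with hJ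
  have hJm : MeasurableSet J := measurableSet_le measurable_const (by fun_prop)
  set F : ℝ := ∫ x in D, J.indicator (wE τ θ y) x with hF
  have hJI : IntegrableOn (J.indicator (wE τ θ y)) D := hwI.indicator hJm
  have hFc : (∫ x in D, indF y ρ₁ x * ((wE τ θ y x : ℝ) : ℂ)) = ((F : ℝ) : ℂ) := by
    rw [hF, ← integral_complex_ofReal]
    refine integral_congr_ae (Eventually.of_forall fun x => ?_)
    simp only [indF]
    by_cases hx : ρ₁ ≤ ‖x - y‖
    · rw [if_pos hx, indicator_of_mem (by exact hx), one_mul]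
    · rw [if_neg hx, indicator_of_notMem (by exact hx), zero_mul, Complex.ofReal_zero]
  have hF0 : 0 ≤ F := setIntegral_nonneg hDm fun x _ => indicator_nonneg (fun z _ => (wE_pos τ θ y z).le) x
  rw [hFc, norm_div, Complex.norm_real, Complex.norm_real, Real.norm_of_nonneg hF0,
    Real.norm_of_nonneg hma.le, div_le_iff₀ hma] at h3
  set g : E3 → ℂ := fun x => (cutN y ρ x * V x) * ((wE τ θ y x : ℝ) : ℂ) with hg
  have hgI : IntegrableOn g D := by
    refine Integrable.bdd_mul (c := M) hwI.ofReal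
      (((cutN_meas y ρ).mul t.pot.measurable).aestronglyMeasurable) (Eventually.of_forall fun x => ?_)
    rw [norm_mul]
    calc ‖cutN y ρ x‖ * ‖V x‖ ≤ 1 * M :=
          mul_le_mul (cutN_norm y ρ x) (t.pot.bounded x) (norm_nonneg _) zero_le_one
      _ = M := one_mul M
  have hre : ((starRingEnd ℂ) q * ∫ x in D, g x).re =
      ∫ x in D, ((starRingEnd ℂ) q * g x).re := by
    rw [← integral_const_mul]
    exact (integral_re (hgI.const_mul _)).symm
  have hlow : ‖q‖ ^ 2 * ma D τ θ y - C * F ≤ ∫ x in D, ((starRingEnd ℂ) q * g x).re := by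
    have e : ‖q‖ ^ 2 * ma D τ θ y - C * F =
        ∫ x in D, (‖q‖ ^ 2 * wE τ θ y x - C * J.indicator (wE τ θ y) x) := by
      rw [integral_sub (hwI.const_mul _) (hJI.const_mul _), integral_const_mul, integral_const_mul]
      rfl
    rw [e]
    refine setIntegral_mono_ae_restrict ((hwI.const_mul _).sub (hJI.const_mul _))
      (hgI.const_mul _).re ?_
    refine (ae_restrict_iff' hDm).2 ?_
    filter_upwards [hs] with x hx hxD
    have hw0 := (wE_pos τ θ y x).le
    by_cases hxJ : ρ₁ ≤ ‖x - y‖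
    · rw [indicator_of_mem (by exact hxJ)]
      have h4 : ‖(starRingEnd ℂ) q * g x‖ ≤ ‖q‖ * M * wE τ θ y x := by
        rw [norm_mul, RCLike.norm_conj, hg]
        simp only
        rw [norm_mul, norm_mul, Complex.norm_real, Real.norm_of_nonneg hw0]
        have h5 : ‖cutN y ρ x‖ * ‖V x‖ ≤ M := by
          calc ‖cutN y ρ x‖ * ‖V x‖ ≤ 1 * M :=
                mul_le_mul (cutN_norm y ρ x) (t.pot.bounded x) (norm_nonneg _) zero_le_one
            _ = M := one_mul M
        calc ‖q‖ * (‖cutN y ρ x‖ * ‖V x‖ * wE τ θ y x) ≤ ‖q‖ * (M * wE τ θ y x) :=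
              mul_le_mul_of_nonneg_left (mul_le_mul_of_nonneg_right h5 hw0) hq0.le
          _ = _ := by ring
      have h6 := (abs_le.1 (Complex.abs_re_le_norm ((starRingEnd ℂ) q * g x))).1
      have h7 : ‖q‖ ^ 2 * wE τ θ y x - C * wE τ θ y x = -(‖q‖ * M * wE τ θ y x) := by
        rw [hC]
        ring
      show ‖q‖ ^ 2 * wE τ θ y x - C * wE τ θ y x ≤ ((starRingEnd ℂ) q * g x).re
      rw [h7]
      linarith
    · rw [indicator_of_notMem (by exact hxJ)]
      rw [not_le] at hxJ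
      have h4 := hx hxD (hxJ.trans_le (min_le_left _ _))
      have h5 : (starRingEnd ℂ) q * g x = ((starRingEnd ℂ) q * V x) * ((wE τ θ y x : ℝ) : ℂ) := by
        rw [hg]
        simp only
        rw [cutN_near (hxJ.trans_le (min_le_right _ _)), one_mul, mul_assoc]
      show ‖q‖ ^ 2 * wE τ θ y x - C * 0 ≤ ((starRingEnd ℂ) q * g x).re
      rw [h5, Complex.re_mul_ofReal]
      nlinarith [mul_le_mul_of_nonneg_right h4 hw0]
  have h8 : ‖q‖ ^ 2 / 2 * ma D τ θ y ≤ ‖q‖ * ‖∫ x in D, g x‖ := by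
    have h9 : C * F ≤ ‖q‖ ^ 2 / 2 * ma D τ θ y := by
      calc C * F ≤ C * (‖q‖ ^ 2 / (2 * C) * ma D τ θ y) := mul_le_mul_of_nonneg_left h3 hC0.le
        _ = ‖q‖ ^ 2 / 2 * ma D τ θ y := by
            field_simp
    have h10 : ((starRingEnd ℂ) q * ∫ x in D, g x).re ≤ ‖q‖ * ‖∫ x in D, g x‖ := by
      refine (Complex.re_le_norm _).trans (le_of_eq ?_)
      rw [norm_mul, RCLike.norm_conj]
    rw [hre] at h10
    linarith
  unfold muV
  rw [norm_div, Complex.norm_real, Real.norm_of_nonneg hma.le, le_div_iff₀ hma]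
  have h11 : ‖q‖ * (‖q‖ / 2 * ma D τ θ y) ≤ ‖q‖ * ‖∫ x in D, g x‖ := by
    calc ‖q‖ * (‖q‖ / 2 * ma D τ θ y) = ‖q‖ ^ 2 / 2 * ma D τ θ y := by ring
      _ ≤ _ := h8
  exact le_of_mul_le_mul_left h11 hq0

theorem asyA {s : ℝ} (h0 : 3 / 4 < s) (h2 : s < 2) (h1 : s ≠ 1) {r M : ℝ} (hr : 0 < r)
    {V : E3 → ℂ} {D : Set E3} {θ y : E3} {q : ℂ} (t : Tip r M V D θ y q) {K₀ : ℝ} (hK₀ : 1 ≤ K₀)
    (hT : ∀ k ∈ Reg K₀, ‖Tk s r V k‖ ≤ 1 / 2) {ρ : ℝ} (hρ : 0 < ρ) {ε : ℝ} (hε : 0 < ε) :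
    ∀ᶠ τ : ℝ in atTop, ∀ x : E3, ρ ≤ ‖x - y‖ →
      ‖(∫ x', kf s (x - x') * ((1 - indF y (ρ / 2) x') * (fI s r V θ y τ : E3 → ℂ) x')) /
          ((ma D τ θ y : ℝ) : ℂ) - muV V D ρ τ θ y * kf s (x - y)‖ ≤ ε := by
  have hM : 0 ≤ M := (norm_nonneg _).trans (t.pot.bounded 0)
  have hDm : MeasurableSet D := t.compact.measurableSet
  have hρ2 : 0 < ρ / 2 := half_pos hρ
  obtain ⟨C₁, K₁, hC₁, hK₁, hL1d⟩ := fI_L1diff h0 h2 h1 hr t hK₀ hT
  obtain ⟨C₂, K₂, hC₂, hK₂, hL1⟩ := fI_L1 h0 h2 h1 hr t hK₀ hT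
  obtain ⟨L, hL, hlip⟩ := kf_lip (s := s) (by linarith) hρ2
  -- the limits
  have hB := lapC_abs t.compact t.convex t.inter t.mem t.exposed
  have hP : Tendsto (fun τ : ℝ => τ ^ (3 / 2 - 2 * s)) atTop (𝓝 0) := by
    have h3 : (3 / 2 - 2 * s : ℝ) = -(2 * s - 3 / 2) := by ring
    rw [h3]
    exact tendsto_rpow_neg_atTop (by linarith)
  have hE : Tendsto (fun τ : ℝ => (ρ / 2) ^ (-(3 + 2 * s)) * (C₁ * τ ^ (3 / 2 - 2 * s)) +
      L * M * ((∫ x in D, ‖x - y‖ * wE τ θ y x) / ma D τ θ y)) atTop (𝓝 0) := by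
    have e1 := (hP.const_mul C₁).const_mul ((ρ / 2) ^ (-(3 + 2 * s)))
    have e2 := hB.const_mul (L * M)
    have e4 := e1.add e2
    simpa using e4
  filter_upwards [hE.eventually_le_const hε, eventually_ge_atTop (max K₁ K₂),
    eventually_ge_atTop (1 : ℝ)] with τ hτE hτK hτ1 x hx
  have hτ0 : 0 < τ := by linarith
  have hma : 0 < ma D τ θ y := ma_pos t.compact t.inter τ θ y
  have hmaC : ((ma D τ θ y : ℝ) : ℂ) ≠ 0 := by exact_mod_cast hma.ne'
  set f : E3 → ℂ := (fI s r V θ y τ : E3 → ℂ) with hf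
  set W : E3 → ℂ := fun x => V x * ((wE τ θ y x : ℝ) : ℂ) with hW
  have hwI : IntegrableOn (wE τ θ y) D :=
    (wE_continuous τ θ y).continuousOn.integrableOn_compact t.compact
  have hfm : AEStronglyMeasurable f (volume : Measure E3) := Lp.aestronglyMeasurable _
  have hfI : Integrable f := by
    refine ⟨hfm, ?_⟩
    exact lt_of_le_of_lt (hL1 τ ((le_max_right _ _).trans hτK)) ENNReal.ofReal_lt_top
  have hWm : Measurable W :=
    t.pot.measurable.mul (Complex.measurable_ofReal.comp (wE_continuous τ θ y).measurable)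
  have hWb : ∀ᵐ x ∂(volume : Measure E3), ‖W x‖ ≤ D.indicator (fun x => M * wE τ θ y x) x := by
    filter_upwards [t.supp] with z hz
    by_cases hzD : z ∈ D
    · rw [indicator_of_mem hzD, hW]
      simp only
      rw [norm_mul, Complex.norm_real, Real.norm_of_nonneg (wE_pos τ θ y z).le]
      exact mul_le_mul_of_nonneg_right (t.pot.bounded z) (wE_pos τ θ y z).le
    · rw [indicator_of_notMem hzD, hW]
      simp only
      rw [hz hzD, zero_mul, norm_zero]
  have hind : Integrable (D.indicator (fun x => M * wE τ θ y x)) :=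
    (integrable_indicator_iff hDm).2 (hwI.const_mul M)
  have hWI : Integrable W := hind.mono' hWm.aestronglyMeasurable hWb
  have hchiM : AEStronglyMeasurable (cutN y ρ) (volume : Measure E3) :=
    (cutN_meas y ρ).aestronglyMeasurable
  -- near points
  have hnear : ∀ z : E3, ‖z - y‖ < ρ / 2 → ρ / 2 ≤ ‖x - z‖ := by
    intro z hz
    have h3 : ‖x - y‖ ≤ ‖x - z‖ + ‖z - y‖ := by
      have := norm_add_le (x - z) (z - y)
      rwa [sub_add_sub_cancel] at this
    linarith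
  have hkb : ∀ z : E3, ‖kf s (x - z) * cutN y ρ z‖ ≤ (ρ / 2) ^ (-(3 + 2 * s)) := by
    intro z
    by_cases hz : ρ / 2 ≤ ‖z - y‖
    · rw [cutN_far hz, mul_zero, norm_zero]
      exact Real.rpow_nonneg hρ2.le _
    · rw [not_le] at hz
      rw [cutN_near hz, mul_one]
      exact kf_bound (by linarith) hρ2 (hnear z hz)
  have hkm : AEStronglyMeasurable (fun z => kf s (x - z) * cutN y ρ z) (volume : Measure E3) :=
    (((kf_measurable s).comp (measurable_const.sub measurable_id)).mul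
      (cutN_meas y ρ)).aestronglyMeasurable
  -- integrability
  have hi1 : Integrable (fun z => kf s (x - z) * cutN y ρ z * f z) :=
    hfI.bdd_mul (c := (ρ / 2) ^ (-(3 + 2 * s))) hkm (Eventually.of_forall hkb)
  have hi2 : Integrable (fun z => cutN y ρ z * W z) :=
    hWI.bdd_mul (c := 1) hchiM (Eventually.of_forall (cutN_norm y ρ))
  have hi3 : Integrable (fun z => f z - W z) := hfI.sub hWI
  have hcont2 : IntegrableOn (fun z => ‖z - y‖ * wE τ θ y z) D :=
    ((by fun_prop : Continuous fun z : E3 => ‖z - y‖).mul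
      (wE_continuous τ θ y)).continuousOn.integrableOn_compact t.compact
  have hi4 : Integrable (D.indicator (fun z => L * M * (‖z - y‖ * wE τ θ y z))) :=
    (integrable_indicator_iff hDm).2 (hcont2.const_mul (L * M))
  -- the decomposition
  have hA1 : ∫ z in D, (cutN y ρ z * V z) * ((wE τ θ y z : ℝ) : ℂ) = ∫ z, cutN y ρ z * W z := by
    rw [← integral_indicator hDm]
    refine integral_congr_ae ?_
    filter_upwards [t.supp] with z hz
    by_cases hzD : z ∈ D
    · rw [indicator_of_mem hzD, hW]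
      ring
    · rw [indicator_of_notMem hzD, hW]
      simp only
      rw [hz hzD, zero_mul, mul_zero]
  set A : ℂ := ∫ z, cutN y ρ z * W z with hAdef
  have hI : ∫ x', kf s (x - x') * ((1 - indF y (ρ / 2) x') * f x') =
      ∫ z, kf s (x - z) * cutN y ρ z * f z := by
    refine integral_congr_ae (Eventually.of_forall fun z => ?_)
    simp only [cutN]
    ring
  rw [hI]
  set I : ℂ := ∫ z, kf s (x - z) * cutN y ρ z * f z with hIdef
  have hsub : I - kf s (x - y) * A =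
      ∫ z, (kf s (x - z) * cutN y ρ z * f z - kf s (x - y) * (cutN y ρ z * W z)) := by
    rw [integral_sub hi1 (hi2.const_mul _), integral_const_mul]
  have hxy2 : ρ / 2 ≤ ‖x - y‖ := by linarith
  have hbd : ‖I - kf s (x - y) * A‖ ≤ ∫ z, ((ρ / 2) ^ (-(3 + 2 * s)) * ‖f z - W z‖ +
      D.indicator (fun z => L * M * (‖z - y‖ * wE τ θ y z)) z) := by
    rw [hsub]
    refine norm_integral_le_of_norm_le ((hi3.norm.const_mul _).add hi4) ?_
    filter_upwards [hWb] with z hz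
    have e1 : kf s (x - z) * cutN y ρ z * f z - kf s (x - y) * (cutN y ρ z * W z) =
        kf s (x - z) * cutN y ρ z * (f z - W z) +
          (kf s (x - z) - kf s (x - y)) * cutN y ρ z * W z := by ring
    rw [e1]
    refine (norm_add_le _ _).trans (add_le_add ?_ ?_)
    · rw [norm_mul]
      exact mul_le_mul_of_nonneg_right (hkb z) (norm_nonneg _)
    · by_cases hzf : ρ / 2 ≤ ‖z - y‖
      · rw [cutN_far hzf, mul_zero, zero_mul, norm_zero]
        refine indicator_nonneg (fun w _ => ?_) z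
        exact mul_nonneg (mul_nonneg hL hM) (mul_nonneg (norm_nonneg _) (wE_pos τ θ y w).le)
      · rw [not_le] at hzf
        rw [cutN_near hzf, mul_one, norm_mul]
        have e2 : ‖kf s (x - z) - kf s (x - y)‖ ≤ L * ‖z - y‖ := by
          refine (hlip _ _ (hnear z hzf) hxy2).trans (le_of_eq ?_)
          rw [sub_sub_sub_cancel_left, norm_sub_rev]
        by_cases hzD : z ∈ D
        · rw [indicator_of_mem hzD] at hz ⊢
          calc ‖kf s (x - z) - kf s (x - y)‖ * ‖W z‖ ≤ (L * ‖z - y‖) * (M * wE τ θ y z) :=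
                mul_le_mul e2 hz (norm_nonneg _) (mul_nonneg hL (norm_nonneg _))
            _ = L * M * (‖z - y‖ * wE τ θ y z) := by ring
        · rw [indicator_of_notMem hzD] at hz ⊢
          have e3 : ‖W z‖ = 0 := le_antisymm hz (norm_nonneg _)
          rw [e3, mul_zero]
  have hint : ∫ z, ((ρ / 2) ^ (-(3 + 2 * s)) * ‖f z - W z‖ +
      D.indicator (fun z => L * M * (‖z - y‖ * wE τ θ y z)) z) =
      (ρ / 2) ^ (-(3 + 2 * s)) * (∫ z, ‖f z - W z‖) +
        L * M * ∫ z in D, ‖z - y‖ * wE τ θ y z := by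
    rw [integral_add (hi3.norm.const_mul _) hi4, integral_const_mul, integral_indicator hDm,
      integral_const_mul]
  have hdiff : ∫ z, ‖f z - W z‖ ≤ C₁ * τ ^ (3 / 2 - 2 * s) * ma D τ θ y := by
    rw [integral_norm_eq_lintegral_enorm hi3.aestronglyMeasurable]
    refine ENNReal.toReal_le_of_le_ofReal ?_ (hL1d τ ((le_max_left _ _).trans hτK))
    exact mul_nonneg (mul_nonneg hC₁ (Real.rpow_nonneg hτ0.le _)) hma.le
  have hρp : 0 ≤ (ρ / 2) ^ (-(3 + 2 * s)) := Real.rpow_nonneg hρ2.le _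
  have hfin1 : ‖I - kf s (x - y) * A‖ / ma D τ θ y ≤
      (ρ / 2) ^ (-(3 + 2 * s)) * (C₁ * τ ^ (3 / 2 - 2 * s)) +
      L * M * ((∫ x in D, ‖x - y‖ * wE τ θ y x) / ma D τ θ y) := by
    rw [div_le_iff₀ hma]
    calc ‖I - kf s (x - y) * A‖ ≤ (ρ / 2) ^ (-(3 + 2 * s)) * (∫ z, ‖f z - W z‖) +
        L * M * ∫ z in D, ‖z - y‖ * wE τ θ y z := hbd.trans hint.le
      _ ≤ (ρ / 2) ^ (-(3 + 2 * s)) * (C₁ * τ ^ (3 / 2 - 2 * s) * ma D τ θ y) +
        L * M * ∫ z in D, ‖z - y‖ * wE τ θ y z := by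
          have := mul_le_mul_of_nonneg_left hdiff hρp
          linarith
      _ = _ := by
          field_simp
  have hmu : muV V D ρ τ θ y = A / ((ma D τ θ y : ℝ) : ℂ) := by
    unfold muV
    rw [hA1]
  have hdec : I / ((ma D τ θ y : ℝ) : ℂ) - muV V D ρ τ θ y * kf s (x - y) =
      (I - kf s (x - y) * A) / ((ma D τ θ y : ℝ) : ℂ) := by
    rw [hmu]
    ring
  rw [hdec]
  refine le_trans ?_ hτE
  rw [norm_div, Complex.norm_real, Real.norm_of_nonneg hma.le]
  exact hfin1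

end FracScatC

end
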