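import Pool.Agent.Lib.MP_6e2ba5_an.Rx.FarB
import Pool.Agent.Lib.MP_6e2ba5_an.Rx.AsyA

/-! # Asymptotics of the field on the far part of `D`

`κ` from `offN`. Let `f = fI`, `f₁ = (1 - indF y (ρ/2)) f`, `f₂ = mulL (indF y (ρ/2)) f`, `N = multL (mI s τ)`, `z = zt s τ`,
`m = ma`, `T = far D y ρ ∩ ball 0 r` (the rest of `far D y ρ` is a null set: `D ⊆ closedBall 0 r`, the sphere is a null set).
By `uI_fix`, on `T`: `u = w + N f₁ + N f₂`, so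
`z² u/m - κ q kf(x-y) = z² w/m + z² (N f₂)/m + (z² N f₁ - κ ∫ kf(x-x') f₁(x'))/m + κ (∫ kf(x-x') f₁(x')/m - q kf(x-y))`.
The `L²(T)` norms: (1) `w ≤ exp(-δτ)` on `T` (`far_dir`, `wE_far`), `τ^(4s) exp(-δτ)/m → 0` (`far_small`, `|z| = τ^(2s)`,
`zt_norm`) and `T` has finite measure; (2) `≤ τ^(4s) C₀ τ^(-2s) ‖f₂‖/m → 0` (`multI_norm`, `farB` with `ρ/2`);
(3) `offN` with `S = {‖x-y‖ < ρ/2} ∩ closedBall 0 r`, `δ = ρ/2`, `R = 2r`: square `≤ η(τ) (∫‖f‖/m)² ≤ C² η(τ) → 0` (`fI_L1`);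
(4) `asyA`, `T` has finite measure. The square of the norm of a sum of four terms is at most `4` times the
sum of the squares. -/

set_option autoImplicit false

open MeasureTheory Filter Topology Set
open scoped FourierTransform SchwartzMap InnerProductSpace ENNReal BoundedContinuousFunction

noncomputable section

namespace FracScatC

open FracScat

private theorem B_lint_sq (u : HS) : ∫⁻ z, ‖(u : E3 → ℂ) z‖ₑ ^ 2 = ‖u‖ₑ ^ 2 := by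
  have h2 : ∫⁻ η, ‖(u : E3 → ℂ) η‖ₑ ^ (2 : ℝ) = (eLpNorm (u : E3 → ℂ) 2 volume) ^ (2 : ℝ) := by
    rw [eLpNorm_eq_lintegral_rpow_enorm_toReal two_ne_zero ENNReal.ofNat_ne_top,
      ← ENNReal.rpow_mul]
    simp
  rw [Lp.enorm_def, ← ENNReal.rpow_two, ← h2]
  apply lintegral_congr
  intro z
  rw [ENNReal.rpow_two]

private theorem B_sq {E : Type*} [NormedAddCommGroup E] (z : E) :
    ‖z‖ₑ ^ 2 = ENNReal.ofReal (‖z‖ ^ 2) := by
  rw [← ofReal_norm_eq_enorm, ENNReal.ofReal_pow (norm_nonneg _)]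

private theorem B_sum4 (a b c d : ℂ) :
    ‖a + b + c + d‖ₑ ^ 2 ≤ 4 * ((‖a‖ₑ ^ 2 + ‖d‖ₑ ^ 2) + (‖b‖ₑ ^ 2 + ‖c‖ₑ ^ 2)) := by
  have h4 : (4 : ℝ≥0∞) = ENNReal.ofReal 4 := by simp
  rw [B_sq, B_sq, B_sq, B_sq, B_sq, ← ENNReal.ofReal_add (by positivity) (by positivity),
    ← ENNReal.ofReal_add (by positivity) (by positivity),
    ← ENNReal.ofReal_add (by positivity) (by positivity), h4,
    ← ENNReal.ofReal_mul (by norm_num)]
  apply ENNReal.ofReal_le_ofReal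
  have h1 : ‖a + b + c + d‖ ≤ ‖a‖ + ‖b‖ + ‖c‖ + ‖d‖ :=
    (norm_add_le _ _).trans (add_le_add_left ((norm_add_le _ _).trans
      (add_le_add_left (norm_add_le _ _) _)) _)
  have h0 := norm_nonneg (a + b + c + d)
  have h2 : ‖a + b + c + d‖ ^ 2 ≤ (‖a‖ + ‖b‖ + ‖c‖ + ‖d‖) ^ 2 := pow_le_pow_left₀ h0 h1 2
  nlinarith [sq_nonneg (‖a‖ - ‖b‖), sq_nonneg (‖a‖ - ‖c‖), sq_nonneg (‖a‖ - ‖d‖),
    sq_nonneg (‖b‖ - ‖c‖), sq_nonneg (‖b‖ - ‖d‖), sq_nonneg (‖c‖ - ‖d‖)]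

private theorem B_axis {K τ : ℝ} (hK : 1 ≤ K) (hτ : K ≤ τ) :
    Complex.I * (τ : ℂ) ∈ Reg K := by
  refine ⟨by simp, ?_, ?_⟩
  · simp only [Complex.mul_im, Complex.I_re, Complex.I_im, Complex.ofReal_re, Complex.ofReal_im]
    linarith
  · rw [norm_mul, Complex.norm_I, one_mul, Complex.norm_real, Real.norm_of_nonneg (by linarith)]
    exact hτ

private theorem B_ind (y : E3) (ρ : ℝ) (x : E3) : ‖1 - indF y ρ x‖ ≤ 1 := by
  unfold indF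
  split <;> simp

/-- the estimate for a fixed `τ` -/
private theorem B_fixed {s : ℝ} (h0 : 3 / 4 < s) (h2 : s < 2) (h1 : s ≠ 1) {κ : ℂ} {r M : ℝ}
    (hr : 0 < r) {V : E3 → ℂ} {D : Set E3} {θ y : E3} {q₀ q : ℂ} (t : Tip r M V D θ y q₀) {ρ : ℝ}
    (hρ : 0 < ρ) {τ : ℝ} (hτ : 1 ≤ τ) (hT : ‖Tk s r V (Complex.I * τ)‖ ≤ 1 / 2)
    {ητ C₀ C₁ δ X : ℝ} (hη0 : 0 ≤ ητ)
    (hη : ∀ f : HS, Integrable (f : E3 → ℂ) → ∀ S T : Set E3, MeasurableSet S →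
        MeasurableSet T → (∀ᵐ x ∂(volume : Measure E3), x ∉ S → (f : E3 → ℂ) x = 0) →
        (∀ x ∈ T, ∀ x' ∈ S, ρ / 2 ≤ ‖x - x'‖ ∧ ‖x - x'‖ ≤ 2 * r) →
        ∫⁻ x in T, ‖zt s τ ^ 2 * (multL (mI s τ) f : E3 → ℂ) x -
            κ * ∫ x', kf s (x - x') * (f : E3 → ℂ) x'‖ₑ ^ 2 ≤
          ENNReal.ofReal ητ * (∫⁻ x, ‖(f : E3 → ℂ) x‖ₑ) ^ 2)
    (hC₀ : ‖multL (mI s τ)‖ ≤ C₀ * τ ^ (-(2 * s)))
    (hC₁0 : 0 ≤ C₁)
    (hC₁ : ∫⁻ x, ‖(fI s r V θ y τ : E3 → ℂ) x‖ₑ ≤ ENNReal.ofReal (C₁ * ma D τ θ y))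
    (hδ : ∀ x ∈ D, ρ ≤ ‖x - y‖ → δ ≤ ⟪θ, x - y⟫_ℝ)
    (b1 : (τ ^ (4 * s) * Real.exp (-(δ * τ)) / ma D τ θ y) ^ 2 ≤ X)
    (b2 : (C₀ * (τ ^ (2 * s) * ‖mulL (indF y (ρ / 2)) (fI s r V θ y τ)‖ / ma D τ θ y)) ^ 2 ≤ X)
    (b3 : ητ * C₁ ^ 2 ≤ X)
    (b4 : ∀ x : E3, ρ ≤ ‖x - y‖ →
      (‖κ‖ * ‖(∫ x', kf s (x - x') * ((1 - indF y (ρ / 2) x') *
        (fI s r V θ y τ : E3 → ℂ) x')) / ((ma D τ θ y : ℝ) : ℂ) - q * kf s (x - y)‖) ^ 2 ≤ X) :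
    ∫⁻ x in far D y ρ, ‖zt s τ ^ 2 * (uI s r V θ y τ : E3 → ℂ) x / ((ma D τ θ y : ℝ) : ℂ) -
        κ * q * kf s (x - y)‖ₑ ^ 2 ≤
      4 * ((ENNReal.ofReal X + ENNReal.ofReal X) * volume (far D y ρ) +
        (ENNReal.ofReal X + ENNReal.ofReal X)) := by
  have hτ0 : 0 < τ := by linarith
  have hm : 0 < ma D τ θ y := ma_pos t.compact t.inter τ θ y
  set m : ℝ := ma D τ θ y with hmdef
  set f : HS := fI s r V θ y τ with hf
  set N : HS →L[ℂ] HS := multL (mI s τ) with hN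
  set f₂ : HS := mulL (indF y (ρ / 2)) f with hf₂
  set f₁ : HS := f - f₂ with hf₁
  set z : ℂ := zt s τ with hz
  have hzn : ‖z‖ = τ ^ (2 * s) := zt_norm hτ0
  have hDm : MeasurableSet D := t.compact.isClosed.measurableSet
  have hTm : MeasurableSet (far D y ρ) :=
    hDm.inter (measurableSet_le measurable_const (by fun_prop))
  -- the near part of the source
  have e1 : (f₁ : E3 → ℂ) =ᵐ[volume] fun x => (1 - indF y (ρ / 2) x) * (f : E3 → ℂ) x := by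
    filter_upwards [Lp.coeFn_sub f f₂, mulL_coe (indF_BM y (ρ / 2)) f] with x k1 k2
    rw [hf₁, k1, Pi.sub_apply, hf₂, k2]
    ring
  have e1n : ∀ᵐ x ∂(volume : Measure E3), ‖(f₁ : E3 → ℂ) x‖ ≤ ‖(f : E3 → ℂ) x‖ := by
    filter_upwards [e1] with x k1
    rw [k1, norm_mul]
    exact mul_le_of_le_one_left (norm_nonneg _) (B_ind _ _ _)
  have hfi : Integrable (f : E3 → ℂ) := fI_integrable t.pot θ y τ
  have hf₁i : Integrable (f₁ : E3 → ℂ) := hfi.mono (Lp.aestronglyMeasurable f₁) e1n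
  have hf₁L : ∫⁻ x, ‖(f₁ : E3 → ℂ) x‖ₑ ≤ ENNReal.ofReal (C₁ * m) := by
    refine le_trans (lintegral_mono_ae ?_) hC₁
    filter_upwards [e1n] with x k1
    exact enorm_le_iff_norm_le.2 k1
  set S : Set E3 := {x : E3 | ‖x - y‖ < ρ / 2} ∩ Metric.closedBall 0 r with hS
  have hSm : MeasurableSet S :=
    (measurableSet_lt (by fun_prop) measurable_const).inter
      Metric.isClosed_closedBall.measurableSet
  have hfS : ∀ᵐ x ∂(volume : Measure E3), x ∉ S → (f₁ : E3 → ℂ) x = 0 := by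
    filter_upwards [e1, fI_coe t.pot θ y τ] with x k1 k2 hx
    rw [k1]
    by_cases hxy : ‖x - y‖ < ρ / 2
    · have hxr : r ≤ ‖x‖ := by
        by_contra hcon
        push Not at hcon
        exact hx ⟨hxy, by rw [Metric.mem_closedBall, dist_zero_right]; exact hcon.le⟩
      rw [hf, k2, t.pot.vanish x hxr, zero_mul, mul_zero]
    · have : indF y (ρ / 2) x = 1 := by
        unfold indF
        rw [if_pos (not_lt.1 hxy)]
      rw [this, sub_self, zero_mul]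
  have hST : ∀ x ∈ far D y ρ, ∀ x' ∈ S, ρ / 2 ≤ ‖x - x'‖ ∧ ‖x - x'‖ ≤ 2 * r := by
    rintro x ⟨hxD, hxρ⟩ x' ⟨hx', hx'r⟩
    have hxr := t.sub hxD
    rw [Metric.mem_closedBall, dist_zero_right] at hxr hx'r
    have hx'2 : ‖x' - y‖ < ρ / 2 := hx'
    have hxρ' : ρ ≤ ‖x - y‖ := hxρ
    constructor
    · have k : ‖x - y‖ ≤ ‖x - x'‖ + ‖x' - y‖ := by
        have := norm_add_le (x - x') (x' - y)
        rwa [sub_add_sub_cancel] at this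
      linarith
    · have := norm_sub_le x x'
      linarith
  have hI := hη f₁ hf₁i S (far D y ρ) hSm hTm hfS hST
  -- the decomposition
  have hsph : ∀ᵐ x ∂(volume : Measure E3), ‖x‖ ≠ r := by
    have h := Measure.addHaar_sphere (volume : Measure E3) 0 r
    have h' : volume (Metric.sphere (0 : E3) r) = 0 := h
    rw [ae_iff]
    refine measure_mono_null ?_ h'
    intro x hx
    simp only [ne_eq, not_not, mem_setOf_eq] at hx
    simp [hx]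
  have hNf : (N f : E3 → ℂ) =ᵐ[volume] fun x => (N f₁ : E3 → ℂ) x + (N f₂ : E3 → ℂ) x := by
    have k1 : N f = N f₁ + N f₂ := by
      rw [← map_add, hf₁, sub_add_cancel]
    rw [k1]
    exact Lp.coeFn_add _ _
  set I : E3 → ℂ := fun x => ∫ x', kf s (x - x') * (f₁ : E3 → ℂ) x' with hIdef
  have hIe : ∀ x : E3, I x = ∫ x', kf s (x - x') * ((1 - indF y (ρ / 2) x') *
      (f : E3 → ℂ) x') := by
    intro x
    apply integral_congr_ae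
    filter_upwards [e1] with x' k1
    rw [k1]
  have hmC : ((m : ℝ) : ℂ) ≠ 0 := by exact_mod_cast hm.ne'
  have hpt : ∀ᵐ x ∂(volume.restrict (far D y ρ)),
      ‖z ^ 2 * (uI s r V θ y τ : E3 → ℂ) x / ((m : ℝ) : ℂ) - κ * q * kf s (x - y)‖ₑ ^ 2 ≤
      4 * ((ENNReal.ofReal X + ENNReal.ofReal X) +
        (‖z ^ 2 / ((m : ℝ) : ℂ)‖ₑ ^ 2 * ‖(N f₂ : E3 → ℂ) x‖ₑ ^ 2 +
          ‖(((m : ℝ) : ℂ))⁻¹‖ₑ ^ 2 * ‖z ^ 2 * (N f₁ : E3 → ℂ) x - κ * I x‖ₑ ^ 2)) := by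
    rw [ae_restrict_iff' hTm]
    filter_upwards [uI_fix (by linarith) h2 h1 hr t.pot θ y hτ0 hT, hNf, hsph] with x k1 k2 k3 hx
    obtain ⟨hxD, hxρ⟩ := hx
    have hxρ' : ρ ≤ ‖x - y‖ := hxρ
    have hxr := t.sub hxD
    rw [Metric.mem_closedBall, dist_zero_right] at hxr
    have hind : indB r x = 1 := by
      unfold indB
      rw [if_pos (lt_of_le_of_ne hxr k3)]
    rw [hind, one_mul, one_mul] at k1
    have k4 : (uI s r V θ y τ : E3 → ℂ) x = ((wE τ θ y x : ℝ) : ℂ) +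
        ((N f₁ : E3 → ℂ) x + (N f₂ : E3 → ℂ) x) := by
      rw [k1, ← k2]
    have k5 : z ^ 2 * (uI s r V θ y τ : E3 → ℂ) x / ((m : ℝ) : ℂ) - κ * q * kf s (x - y) =
        z ^ 2 * ((wE τ θ y x : ℝ) : ℂ) / ((m : ℝ) : ℂ) +
        z ^ 2 / ((m : ℝ) : ℂ) * (N f₂ : E3 → ℂ) x +
        (((m : ℝ) : ℂ))⁻¹ * (z ^ 2 * (N f₁ : E3 → ℂ) x - κ * I x) +
        κ * (I x / ((m : ℝ) : ℂ) - q * kf s (x - y)) := by
      rw [k4]
      field_simp
      ring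
    rw [k5]
    refine (B_sum4 _ _ _ _).trans ?_
    gcongr
    · rw [B_sq]
      apply ENNReal.ofReal_le_ofReal
      refine le_trans ?_ b1
      have hw : wE τ θ y x ≤ Real.exp (-(δ * τ)) := wE_far (hδ x hxD hxρ') hτ0.le
      have hw0 := (wE_pos τ θ y x).le
      have hn : ‖z ^ 2 * ((wE τ θ y x : ℝ) : ℂ) / ((m : ℝ) : ℂ)‖ =
          τ ^ (4 * s) * wE τ θ y x / m := by
        rw [norm_div, norm_mul, norm_pow, hzn, Complex.norm_real, Complex.norm_real,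
          Real.norm_of_nonneg hw0, Real.norm_of_nonneg hm.le, ← Real.rpow_natCast,
          ← Real.rpow_mul hτ0.le]
        norm_num
        ring_nf
      rw [hn]
      gcongr
    · rw [B_sq]
      apply ENNReal.ofReal_le_ofReal
      refine le_trans (le_of_eq ?_) (b4 x hxρ')
      rw [norm_mul, hIe]
    · rw [enorm_mul, mul_pow]
    · rw [enorm_mul, mul_pow]
  refine (lintegral_mono_ae hpt).trans ?_
  rw [lintegral_const_mul' _ _ (by simp)]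
  refine mul_le_mul_right ?_ 4
  rw [lintegral_add_left measurable_const, setLIntegral_const]
  refine add_le_add le_rfl ?_
  have hmeas : AEMeasurable (fun x => ‖z ^ 2 / ((m : ℝ) : ℂ)‖ₑ ^ 2 * ‖(N f₂ : E3 → ℂ) x‖ₑ ^ 2)
      (volume.restrict (far D y ρ)) :=
    (((Lp.aestronglyMeasurable (N f₂)).enorm.pow_const 2).const_mul _).restrict
  rw [lintegral_add_left' hmeas, lintegral_const_mul' _ _ (by simp),
    lintegral_const_mul' _ _ (by simp)]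
  refine add_le_add ?_ ?_
  · have k1 : ∫⁻ x in far D y ρ, ‖(N f₂ : E3 → ℂ) x‖ₑ ^ 2 ≤ ‖N f₂‖ₑ ^ 2 :=
      (setLIntegral_le_lintegral _ _).trans (B_lint_sq _).le
    refine (mul_le_mul_right k1 _).trans ?_
    rw [B_sq, B_sq, ← ENNReal.ofReal_mul (by positivity)]
    apply ENNReal.ofReal_le_ofReal
    refine le_trans ?_ b2
    rw [← mul_pow]
    refine pow_le_pow_left₀ (by positivity) ?_ 2
    have k2 : ‖N f₂‖ ≤ C₀ * τ ^ (-(2 * s)) * ‖f₂‖ :=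
      (N.le_opNorm f₂).trans (mul_le_mul_of_nonneg_right hC₀ (norm_nonneg _))
    have k3 : ‖z ^ 2 / ((m : ℝ) : ℂ)‖ = τ ^ (2 * s) * τ ^ (2 * s) / m := by
      rw [norm_div, norm_pow, hzn, Complex.norm_real, Real.norm_of_nonneg hm.le]
      ring
    rw [k3]
    have k4 : τ ^ (2 * s) * τ ^ (-(2 * s)) = 1 := by
      rw [← Real.rpow_add hτ0]
      simp
    calc τ ^ (2 * s) * τ ^ (2 * s) / m * ‖N f₂‖
        ≤ τ ^ (2 * s) * τ ^ (2 * s) / m * (C₀ * τ ^ (-(2 * s)) * ‖f₂‖) :=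
          mul_le_mul_of_nonneg_left k2 (by positivity)
      _ = (τ ^ (2 * s) * τ ^ (-(2 * s))) * (C₀ * (τ ^ (2 * s) * ‖f₂‖ / m)) := by ring
      _ = C₀ * (τ ^ (2 * s) * ‖f₂‖ / m) := by rw [k4, one_mul]
  · refine (mul_le_mul_right hI _).trans ?_
    have k1 : ‖(((m : ℝ) : ℂ))⁻¹‖ₑ ^ 2 * (ENNReal.ofReal ητ * (∫⁻ x, ‖(f₁ : E3 → ℂ) x‖ₑ) ^ 2) ≤
        ‖(((m : ℝ) : ℂ))⁻¹‖ₑ ^ 2 * (ENNReal.ofReal ητ * (ENNReal.ofReal (C₁ * m)) ^ 2) := by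
      gcongr
    refine k1.trans ?_
    rw [B_sq, ← ENNReal.ofReal_pow (by positivity), ← ENNReal.ofReal_mul hη0,
      ← ENNReal.ofReal_mul (by positivity)]
    apply ENNReal.ofReal_le_ofReal
    refine le_trans (le_of_eq ?_) b3
    rw [norm_inv, Complex.norm_real, Real.norm_of_nonneg hm.le]
    field_simp

theorem asyB {s : ℝ} (h0 : 3 / 4 < s) (h2 : s < 2) (h1 : s ≠ 1) : ∃ κ : ℂ, κ ≠ 0 ∧
    ∀ {r M : ℝ}, 0 < r → ∀ {V : E3 → ℂ} {D : Set E3} {θ y : E3} {q : ℂ}, Tip r M V D θ y q →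
    ∀ {K₀ : ℝ}, 1 ≤ K₀ → (∀ k ∈ Reg K₀, ‖Tk s r V k‖ ≤ 1 / 2) → ∀ {ρ : ℝ}, 0 < ρ →
    Tendsto (fun τ : ℝ => ∫⁻ x in far D y ρ,
      ‖zt s τ ^ 2 * (uI s r V θ y τ : E3 → ℂ) x / ((ma D τ θ y : ℝ) : ℂ) -
        κ * muV V D ρ τ θ y * kf s (x - y)‖ₑ ^ 2) atTop (𝓝 0) := by
  obtain ⟨κ, hκ, hN⟩ := offN h0 h2 h1
  refine ⟨κ, hκ, ?_⟩
  intro r M hr V D θ y q t K₀ hK₀ hT ρ hρ
  obtain ⟨η, hη0, hηt, hη⟩ := hN (ρ / 2) (2 * r) (half_pos hρ)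
  obtain ⟨C₀, hC₀0, hC₀⟩ := multI_norm (s := s) (by linarith) h2 h1
  obtain ⟨C₁, K₁, hC₁0, hK₁, hC₁⟩ := fI_L1 h0 h2 h1 hr t hK₀ hT
  obtain ⟨δ, hδ0, hδ⟩ := far_dir t.compact t.exposed hρ
  have l1 := (far_small t.compact t.convex t.inter θ t.mem hδ0 (4 * s)).pow 2
  have l2 := ((farB h0 h2 h1 hr t hK₀ hT (half_pos hρ)).const_mul C₀).pow 2
  have l3 := hηt.mul_const (C₁ ^ 2)
  rw [zero_mul] at l3
  rw [mul_zero] at l2
  rw [zero_pow two_ne_zero] at l1 l2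
  rw [ENNReal.tendsto_nhds_zero]
  intro ε hε
  obtain ⟨ε₂, hε₂, hε₂'⟩ := ENNReal.lt_iff_exists_nnreal_btwn.1 hε
  have hε₂0 : 0 < (ε₂ : ℝ) := by
    have : (0 : ℝ≥0∞) < ε₂ := hε₂
    exact_mod_cast this
  have hA : volume (far D y ρ) < ⊤ :=
    (measure_mono inter_subset_left).trans_lt t.compact.measure_lt_top
  set A : ℝ := (volume (far D y ρ)).toReal with hAdef
  have hA0 : 0 ≤ A := ENNReal.toReal_nonneg
  set X : ℝ := ε₂ / (8 * (A + 1)) with hX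
  have hX0 : 0 < X := by positivity
  have hfin : 4 * ((ENNReal.ofReal X + ENNReal.ofReal X) * volume (far D y ρ) +
      (ENNReal.ofReal X + ENNReal.ofReal X)) ≤ ε := by
    have hA' : volume (far D y ρ) = ENNReal.ofReal A := (ENNReal.ofReal_toReal hA.ne).symm
    have h4 : (4 : ℝ≥0∞) = ENNReal.ofReal 4 := by simp
    rw [hA', ← ENNReal.ofReal_add hX0.le hX0.le, ← ENNReal.ofReal_mul (by positivity),
      ← ENNReal.ofReal_add (by positivity) (by positivity), h4, ← ENNReal.ofReal_mul (by norm_num)]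
    have h5 : 4 * ((X + X) * A + (X + X)) = ε₂ := by
      rw [hX]
      field_simp
      ring
    rw [h5, ENNReal.ofReal_coe_nnreal]
    exact hε₂'.le
  set e : ℝ := Real.sqrt X / ‖κ‖ with he
  have hκn : 0 < ‖κ‖ := norm_pos_iff.2 hκ
  have he0 : 0 < e := div_pos (Real.sqrt_pos.2 hX0) hκn
  filter_upwards [eventually_ge_atTop K₁, l1.eventually_le_const hX0, l2.eventually_le_const hX0,
    l3.eventually_le_const hX0, asyA h0 h2 h1 hr t hK₀ hT hρ he0] with τ g0 g1 g2 g3 g4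
  have hτ : 1 ≤ τ := hK₀.trans (hK₁.trans g0)
  refine (B_fixed h0 h2 h1 hr t hρ hτ (hT _ (B_axis hK₀ (hK₁.trans g0))) (hη0 τ) (hη τ hτ)
    (hC₀ τ (by linarith)) hC₁0 (hC₁ τ g0) hδ g1 g2 g3 ?_).trans hfin
  intro x hx
  have k1 := g4 x hx
  have k2 : ‖κ‖ * e = Real.sqrt X := by
    rw [he]
    field_simp
  have k3 : Real.sqrt X ^ 2 = X := Real.sq_sqrt hX0.le
  rw [← k3, ← k2]
  refine pow_le_pow_left₀ (by positivity) ?_ 2
  exact mul_le_mul_of_nonneg_left k1 hκn.le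

end FracScatC

end
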