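import Pool.Agent.Lib.MP_6e2ba5_an.Ex.MopB
import Pool.Agent.Lib.MP_6e2ba5_an.Ex.ModulN
import Pool.Agent.Lib.MP_6e2ba5_an.AxisZ

/-! # The field of an exponential wave far from an exposed point: definitions

At `k = iτ` the incident wave is the real exponential `exp(-τ θ·x)` and `k^(2s) = zt s τ = τ^(2s) exp(πis)`
is off the spectrum. -/

set_option autoImplicit false

open MeasureTheory Filter Topology Set
open scoped FourierTransform SchwartzMap InnerProductSpace ENNReal BoundedContinuousFunction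

noncomputable section

namespace FracScatC

open FracScat

/-- The exponential `exp(-τ θ·(x-y))`, normalised at `y`. -/
def wE (τ : ℝ) (θ y x : E3) : ℝ := Real.exp (-(τ * ⟪θ, x - y⟫_ℝ))

/-- The mass of the exponential on `D`. -/
def ma (D : Set E3) (τ : ℝ) (θ y : E3) : ℝ := ∫ x in D, wE τ θ y x

/-- The indicator function of `{x | ρ ≤ ‖x - y‖}`. -/
def indF (y : E3) (ρ : ℝ) (x : E3) : ℂ := if ρ ≤ ‖x - y‖ then 1 else 0

/-- The symbol `(2π‖ξ‖)^(2s)`. -/
def aS (s : ℝ) (ξ : E3) : ℂ := (((2 * Real.pi * ‖ξ‖) ^ (2 * s) : ℝ) : ℂ)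

/-- The resolvent symbol at `k = iτ`. -/
def mI (s τ : ℝ) (ξ : E3) : ℂ := rsE s (Complex.I * τ) ξ

theorem mI_eq (s τ : ℝ) (ξ : E3) : mI s τ ξ = 1 / (aS s ξ - zt s τ) := rfl

/-- The remainder `a² / (a - z)` of the expansion `z² / (a - z) = -z - a + a² / (a - z)`. -/
def MI (s τ : ℝ) (ξ : E3) : ℂ := aS s ξ ^ 2 / (aS s ξ - zt s τ)

/-- The sixth difference `∑ (-1)^j (6 choose j) F(ξ - j h)`. -/
def D6 (F : E3 → ℂ) (h ξ : E3) : ℂ :=
  ∑ j ∈ Finset.range 7, (-1 : ℂ) ^ j * (Nat.choose 6 j : ℂ) * F (ξ - (j : ℝ) • h)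

/-- `(exp(2πi h·x) - 1)^6`. -/
def ps6 (h x : E3) : ℂ := (efun h x - 1) ^ 6

/-- The kernel `‖x‖^(-3-2s)`. -/
def kf (s : ℝ) (x : E3) : ℂ := ((‖x‖ ^ (-(3 + 2 * s)) : ℝ) : ℂ)

open Classical in
/-- The resolvent symbol at `k = iτ` as an element of `L²`. -/
def mIH (s τ : ℝ) : HS :=
  if h : MemLp (mI s τ) 2 (volume : Measure E3) then h.toLp _ else 0

theorem mIH_coe {s τ : ℝ} (h : MemLp (mI s τ) 2 (volume : Measure E3)) :
    (mIH s τ : E3 → ℂ) =ᵐ[volume] mI s τ := by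
  rw [mIH, dif_pos h]
  exact h.coeFn_toLp

/-- The resolvent kernel at `k = iτ`. -/
def GI (s τ : ℝ) : HS := FT.symm (mIH s τ)

theorem FT_GI {s τ : ℝ} (h : MemLp (mI s τ) 2 (volume : Measure E3)) :
    (FT (GI s τ) : E3 → ℂ) =ᵐ[volume] mI s τ := by
  rw [GI, LinearIsometryEquiv.apply_symm_apply]
  exact mIH_coe h

/-- The total field on the ball at `k = iτ`, for the incident wave normalised at `y`. -/
def uI (s r : ℝ) (V : E3 → ℂ) (θ y : E3) (τ : ℝ) : HS :=
  ((Real.exp (τ * ⟪θ, y⟫_ℝ) : ℝ) : ℂ) • uk s r V θ (Complex.I * τ)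

/-- The source `V u`. -/
def fI (s r : ℝ) (V : E3 → ℂ) (θ y : E3) (τ : ℝ) : HS := mulL V (uI s r V θ y τ)

/-- The geometric and analytic assumptions at the exposed point `y`. `D` is a convex body with the exposed point
`y` (`θ` is a minimal direction), which contains the support of `V`, and `V` is nondegenerate at `y`: its component in
the direction `q` is at least `‖q‖` at almost every point of `D` near `y`. -/
structure Tip (r M : ℝ) (V : E3 → ℂ) (D : Set E3) (θ y : E3) (q : ℂ) : Prop where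
  pot : IsPot r M V
  compact : IsCompact D
  convex : Convex ℝ D
  inter : (interior D).Nonempty
  mem : y ∈ D
  dir : ‖θ‖ = 1
  exposed : ∀ x ∈ D, x ≠ y → ⟪θ, y⟫_ℝ < ⟪θ, x⟫_ℝ
  sub : D ⊆ Metric.closedBall 0 r
  supp : ∀ᵐ x ∂(volume : Measure E3), x ∉ D → V x = 0
  sgn : ∃ δ : ℝ, 0 < δ ∧ ∀ᵐ x ∂(volume : Measure E3), x ∈ D → ‖x - y‖ < δ →
    ‖q‖ ^ 2 ≤ ((starRingEnd ℂ) q * V x).re

/-- The far part of `D`. -/
def far (D : Set E3) (y : E3) (ρ : ℝ) : Set E3 := D ∩ {x | ρ ≤ ‖x - y‖}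

theorem indF_BM (y : E3) (ρ : ℝ) : BM (indF y ρ) := by
  refine ⟨?_, 1, Eventually.of_forall fun x => ?_⟩
  · have : indF y ρ = {x : E3 | ρ ≤ ‖x - y‖}.indicator (fun _ => (1 : ℂ)) := by
      funext x
      by_cases h : ρ ≤ ‖x - y‖ <;> simp [indF, h]
    rw [this]
    exact (aestronglyMeasurable_const).indicator
      (measurableSet_le measurable_const (by fun_prop))
  · unfold indF
    split <;> simp

end FracScatC

end
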