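import Pool.Agent.Lib.MP_6e2ba5_an.Rx.ExDefs

/-! # Analytic functions vanishing on the graph of `phR`

By the identity theorem (`AnalyticOnNhd.eqOn_zero_of_preconnected_of_eventuallyEq_zero`, the ball is preconnected) it is enough
that `f = 0` near `0`. Let `F u v t = f (pt3 u v (t + u² + v²))`, analytic near `0`. Claim: for all `n` and all small `u, v` the
`n`-th derivative of `t ↦ F u v t` at `t = 0` vanishes; then `F u v t = 0` for small `u, v, t` and `f = 0` near `0`. The claim by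
strong induction on `n`: let `a(u,v)` be the `n`-th derivative in `t` at `0`, analytic in `(u,v)` near `0`. For `u > 0` small, with
`g = expNegInvGlue u > 0`, `0 = F u v g = a(u,v) gⁿ / n! + O(g^(n+1))` by Taylor's formula and the induction hypothesis
(the derivatives of order `< n` vanish), so `|a(u,v)| ≤ C g(u)` for `0 < u` small and all small `v`; `g(u) = o(u^m)` for
all `m`, so all derivatives of `u ↦ a(u,v)` at `u = 0` vanish, thus `a(u,v) = 0` for small `u`. (An alternative which avoids derivatives in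
several variables: for fixed small `v` and fixed `u₀` work with the power series of `f` at `pt3 0 v (v²)`; or divide by `t` using
`AnalyticAt` in one variable for each fixed `(u,v)`: if `F ≠ 0` near `0`, use `AnalyticAt` order (`analyticOrderAt`) along lines.) -/

set_option autoImplicit false

open MeasureTheory Filter Topology Set
open scoped InnerProductSpace ENNReal

noncomputable section

namespace FracScat

private def exAn_d (f : E3 → ℝ) : ℕ → E3 → ℝ
  | 0 => f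
  | n + 1 => fun y => fderiv ℝ (exAn_d f n) y (pt3 0 0 1)

private theorem exAn_analytic {f : E3 → ℝ} {U : Set E3} (hf : AnalyticOnNhd ℝ f U) (n : ℕ) :
    AnalyticOnNhd ℝ (exAn_d f n) U := by
  induction n with
  | zero => exact hf
  | succ n ih =>
    exact (ContinuousLinearMap.apply ℝ ℝ (pt3 0 0 1)).comp_analyticOnNhd ih.fderiv

private theorem exAn_pt (u v t : ℝ) :
    pt3 u v t = u • pt3 1 0 0 + v • pt3 0 1 0 + t • pt3 0 0 1 := by
  ext i
  fin_cases i <;> simp [pt3]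

private theorem exAn_norm (u v t : ℝ) : ‖pt3 u v t‖ ^ 2 = u ^ 2 + v ^ 2 + t ^ 2 := by
  rw [EuclideanSpace.real_norm_sq_eq, Fin.sum_univ_three]
  rfl

private theorem exAn_mem {ρ : ℝ} (hρ : 0 < ρ) (u v t : ℝ) :
    pt3 u v t ∈ Metric.ball (0 : E3) ρ ↔ u ^ 2 + v ^ 2 + t ^ 2 < ρ ^ 2 := by
  rw [mem_ball_zero_iff, ← exAn_norm, sq_lt_sq₀ (norm_nonneg _) hρ.le]

private theorem exAn_line (u v t : ℝ) : HasDerivAt (fun t => pt3 u v t) (pt3 0 0 1) t := by
  have h1 : (fun t => pt3 u v t) = fun t : ℝ => (u • pt3 1 0 0 + v • pt3 0 1 0) + t • pt3 0 0 1 := by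
    funext t
    exact exAn_pt u v t
  rw [h1]
  have h2 := ((hasDerivAt_id t).smul_const (pt3 0 0 1)).const_add (u • pt3 1 0 0 + v • pt3 0 1 0)
  rw [one_smul] at h2
  exact h2

private theorem exAn_deriv {f : E3 → ℝ} {U : Set E3} (hf : AnalyticOnNhd ℝ f U) (n : ℕ)
    {u v t : ℝ} (h : pt3 u v t ∈ U) :
    HasDerivAt (fun t => exAn_d f n (pt3 u v t)) (exAn_d f (n + 1) (pt3 u v t)) t :=
  ((exAn_analytic hf n _ h).differentiableAt.hasFDerivAt).comp_hasDerivAt t (exAn_line u v t)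

private theorem exAn_zero {φ : ℕ → ℝ → ℝ} {t₀ : ℝ} (h : AnalyticAt ℝ (φ 0) t₀)
    (hd : ∀ n, ∀ᶠ t in 𝓝 t₀, HasDerivAt (φ n) (φ (n + 1) t) t) (h0 : ∀ n, φ n t₀ = 0) :
    ∀ᶠ t in 𝓝 t₀, φ 0 t = 0 := by
  have h1 : ∀ n, iteratedDeriv n (φ 0) =ᶠ[𝓝 t₀] φ n := by
    intro n
    induction n with
    | zero => exact Eventually.of_forall fun t => by rw [iteratedDeriv_zero]
    | succ n ih =>
      rw [iteratedDeriv_succ]
      refine ih.deriv.trans ?_
      filter_upwards [hd n] with t ht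
      exact ht.deriv
  rw [← analyticOrderAt_eq_top, ENat.eq_top_iff_forall_ge]
  intro n
  rw [natCast_le_analyticOrderAt_iff_iteratedDeriv_eq_zero h]
  intro i _
  rw [(h1 i).self_of_nhds, h0]

private theorem exAn_curve {f : E3 → ℝ} {U : Set E3} (hf : AnalyticOnNhd ℝ f U) (v : ℝ) :
    AnalyticOnNhd ℝ (fun u : ℝ => f (pt3 u v (u ^ 2 + v ^ 2))) {u | pt3 u v (u ^ 2 + v ^ 2) ∈ U} := by
  intro u hu
  have h1 : AnalyticAt ℝ (fun u : ℝ => pt3 u v (u ^ 2 + v ^ 2)) u := by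
    have h2 : (fun u : ℝ => pt3 u v (u ^ 2 + v ^ 2)) =
        fun u : ℝ => u • pt3 1 0 0 + v • pt3 0 1 0 + (u ^ 2 + v ^ 2) • pt3 0 0 1 := by
      funext u
      exact exAn_pt u v _
    rw [h2]
    exact ((analyticAt_id.smul analyticAt_const).add analyticAt_const).add
      (((analyticAt_id.pow 2).add analyticAt_const).smul analyticAt_const)
  exact AnalyticAt.comp (f := fun u : ℝ => pt3 u v (u ^ 2 + v ^ 2)) (x := u) (hf _ hu) h1

private theorem exAn_chord {f : E3 → ℝ} {U : Set E3} (hf : AnalyticOnNhd ℝ f U) (u v : ℝ) :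
    AnalyticOnNhd ℝ (fun t : ℝ => f (pt3 u v t)) {t | pt3 u v t ∈ U} := by
  intro t ht
  have h1 : AnalyticAt ℝ (fun t : ℝ => pt3 u v t) t := by
    have h2 : (fun t : ℝ => pt3 u v t) =
        fun t : ℝ => u • pt3 1 0 0 + v • pt3 0 1 0 + t • pt3 0 0 1 := by
      funext t
      exact exAn_pt u v _
    rw [h2]
    exact analyticAt_const.add (analyticAt_id.smul analyticAt_const)
  exact (hf _ ht).comp h1

/-- flatness: the step from a zero near the graph to the derivative on the paraboloid -/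
private theorem exAn_flat {f : E3 → ℝ} {ρ : ℝ} (hρ : 0 < ρ)
    (hf : AnalyticOnNhd ℝ f (Metric.ball 0 ρ)) {v : ℝ} (hv : pt3 0 v (v ^ 2) ∈ Metric.ball (0 : E3) ρ)
    (h : ∀ u : ℝ, 0 < u → pt3 u v (phR u v) ∈ Metric.ball (0 : E3) ρ →
      ∃ t : ℝ, 0 < t ∧ t ≤ expNegInvGlue u ∧ f (pt3 u v (u ^ 2 + v ^ 2 + t)) = 0) :
    ∀ᶠ u in 𝓝 (0 : ℝ), f (pt3 u v (u ^ 2 + v ^ 2)) = 0 := by
  have hc := exAn_curve hf v
  have h0 : (0 : ℝ) ∈ {u : ℝ | pt3 u v (u ^ 2 + v ^ 2) ∈ Metric.ball (0 : E3) ρ} := by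
    show pt3 0 v (0 ^ 2 + v ^ 2) ∈ Metric.ball (0 : E3) ρ
    rwa [zero_pow two_ne_zero, zero_add]
  by_contra hcon
  obtain ⟨m, b, hb, hb0, hbe⟩ := (hc 0 h0).exists_eventuallyEq_pow_smul_nonzero_iff.2 hcon
  obtain ⟨K, W, hW, hK⟩ := ((hf _ hv).contDiffAt (n := 1)).exists_lipschitzOnWith
  obtain ⟨δ, hδ, hδW⟩ := Metric.mem_nhds_iff.1 hW
  have hg : Continuous expNegInvGlue := (expNegInvGlue.contDiff (n := 0)).continuous
  -- all small positive `u`
  have e1 : ∀ᶠ u in 𝓝 (0 : ℝ), |u| + (u ^ 2 + expNegInvGlue u) < δ := by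
    have hcont : Continuous fun u : ℝ => |u| + (u ^ 2 + expNegInvGlue u) := by fun_prop
    have := hcont.tendsto 0
    simp only [abs_zero, expNegInvGlue.zero_of_nonpos le_rfl] at this
    norm_num at this
    exact this.eventually (gt_mem_nhds hδ)
  have e2 : ∀ᶠ u in 𝓝 (0 : ℝ), pt3 u v (phR u v) ∈ Metric.ball (0 : E3) ρ := by
    have hcont : Continuous fun u : ℝ => u ^ 2 + v ^ 2 + phR u v ^ 2 := by
      unfold phR
      fun_prop
    have hlt : (0 : ℝ) ^ 2 + v ^ 2 + phR 0 v ^ 2 < ρ ^ 2 := by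
      have := (exAn_mem hρ 0 v (v ^ 2)).1 hv
      unfold phR
      rw [expNegInvGlue.zero_of_nonpos le_rfl]
      linarith
    have := (hcont.tendsto 0).eventually (gt_mem_nhds hlt)
    filter_upwards [this] with u hu
    exact (exAn_mem hρ _ _ _).2 hu
  have e3 : ∀ᶠ u in 𝓝[>] (0 : ℝ), |b u| ≤ K * ((u⁻¹) ^ m * expNegInvGlue u) := by
    filter_upwards [nhdsWithin_le_nhds e1, nhdsWithin_le_nhds e2, nhdsWithin_le_nhds hbe,
      self_mem_nhdsWithin] with u h1 h2 h3 h4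
    have hu : 0 < u := h4
    obtain ⟨t, ht0, htg, ht⟩ := h u hu h2
    have hgn := expNegInvGlue.nonneg u
    have hd : ∀ s : ℝ, 0 ≤ s → s ≤ expNegInvGlue u → pt3 u v (u ^ 2 + v ^ 2 + s) ∈ W := by
      intro s hs0 hs
      apply hδW
      rw [Metric.mem_ball, dist_eq_norm]
      have e : pt3 u v (u ^ 2 + v ^ 2 + s) - pt3 0 v (v ^ 2) = pt3 u 0 (u ^ 2 + s) := by
        ext i
        fin_cases i <;> simp [pt3]
        ring
      rw [e]
      have h5 : ‖pt3 u 0 (u ^ 2 + s)‖ ≤ |u| + (u ^ 2 + s) := by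
        refine le_of_sq_le_sq ?_ (by positivity)
        rw [exAn_norm]
        have : 0 ≤ |u| * (u ^ 2 + s) := by positivity
        nlinarith [sq_abs u]
      linarith
    have h6 := hK.dist_le_mul _ (hd 0 le_rfl hgn) _ (hd t ht0.le htg)
    rw [ht, Real.dist_eq, sub_zero, add_zero, dist_eq_norm] at h6
    have e : pt3 u v (u ^ 2 + v ^ 2) - pt3 u v (u ^ 2 + v ^ 2 + t) = pt3 0 0 (-t) := by
      ext i
      fin_cases i <;> simp [pt3]
    have h7 : ‖pt3 0 0 (-t)‖ = t := by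
      rw [← Real.sqrt_sq (norm_nonneg _), exAn_norm]
      rw [show (0 : ℝ) ^ 2 + 0 ^ 2 + (-t) ^ 2 = t ^ 2 by ring, Real.sqrt_sq ht0.le]
    rw [e, h7, h3, sub_zero, smul_eq_mul, abs_mul, abs_of_pos (pow_pos hu m)] at h6
    have h8 : (K : ℝ) * t ≤ K * expNegInvGlue u := mul_le_mul_of_nonneg_left htg K.2
    have h9 : |b u| = u⁻¹ ^ m * (u ^ m * |b u|) := by
      rw [← mul_assoc, ← mul_pow, inv_mul_cancel₀ hu.ne', one_pow, one_mul]
    rw [h9]
    calc u⁻¹ ^ m * (u ^ m * |b u|) ≤ u⁻¹ ^ m * (K * expNegInvGlue u) :=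
          mul_le_mul_of_nonneg_left (h6.trans h8) (by positivity)
      _ = _ := by ring
  have t1 : Tendsto (fun u => |b u|) (𝓝[>] (0 : ℝ)) (𝓝 |b 0|) :=
    (hb.continuousAt.abs.tendsto).mono_left nhdsWithin_le_nhds
  have t2 : Tendsto (fun u : ℝ => (K : ℝ) * ((u⁻¹) ^ m * expNegInvGlue u)) (𝓝[>] (0 : ℝ))
      (𝓝 (K * 0)) := by
    have h1 := expNegInvGlue.tendsto_polynomial_inv_mul_zero (Polynomial.X ^ m)
    simp only [Polynomial.eval_pow, Polynomial.eval_X] at h1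
    exact (h1.mono_left nhdsWithin_le_nhds).const_mul _
  have h1 := le_of_tendsto_of_tendsto t1 t2 e3
  rw [mul_zero] at h1
  exact hb0 (abs_eq_zero.1 (le_antisymm h1 (abs_nonneg _)))

theorem exAn {f : E3 → ℝ} {ρ : ℝ} (hρ : 0 < ρ) (hf : AnalyticOnNhd ℝ f (Metric.ball 0 ρ))
    (h : ∀ u v : ℝ, pt3 u v (phR u v) ∈ Metric.ball (0 : E3) ρ → f (pt3 u v (phR u v)) = 0) :
    ∀ y ∈ Metric.ball (0 : E3) ρ, f y = 0 := by
  have key : ∀ n, (∀ u v : ℝ, pt3 u v (u ^ 2 + v ^ 2) ∈ Metric.ball (0 : E3) ρ →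
      exAn_d f n (pt3 u v (u ^ 2 + v ^ 2)) = 0) ∧
      (∀ u v : ℝ, 0 < u → pt3 u v (phR u v) ∈ Metric.ball (0 : E3) ρ →
        ∃ t : ℝ, 0 < t ∧ t ≤ expNegInvGlue u ∧ exAn_d f n (pt3 u v (u ^ 2 + v ^ 2 + t)) = 0) := by
    have step : ∀ n, (∀ u v : ℝ, 0 < u → pt3 u v (phR u v) ∈ Metric.ball (0 : E3) ρ →
        ∃ t : ℝ, 0 < t ∧ t ≤ expNegInvGlue u ∧ exAn_d f n (pt3 u v (u ^ 2 + v ^ 2 + t)) = 0) →
        ∀ u v : ℝ, pt3 u v (u ^ 2 + v ^ 2) ∈ Metric.ball (0 : E3) ρ →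
          exAn_d f n (pt3 u v (u ^ 2 + v ^ 2)) = 0 := by
      intro n hn u v huv
      have hv : pt3 0 v (v ^ 2) ∈ Metric.ball (0 : E3) ρ := by
        rw [exAn_mem hρ] at huv ⊢
        nlinarith [sq_nonneg u, sq_nonneg v, mul_nonneg (sq_nonneg u) (sq_nonneg v),
          sq_nonneg (u ^ 2)]
      have hS : IsPreconnected {u : ℝ | pt3 u v (u ^ 2 + v ^ 2) ∈ Metric.ball (0 : E3) ρ} := by
        refine Set.OrdConnected.isPreconnected ⟨?_⟩
        intro a ha c hc x hx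
        have ha' := (exAn_mem hρ _ _ _).1 ha
        have hc' := (exAn_mem hρ _ _ _).1 hc
        show pt3 x v (x ^ 2 + v ^ 2) ∈ Metric.ball (0 : E3) ρ
        rw [exAn_mem hρ]
        have hx2 : x ^ 2 ≤ a ^ 2 ∨ x ^ 2 ≤ c ^ 2 := by
          rcases le_total 0 x with h0 | h0
          · right
            exact pow_le_pow_left₀ h0 hx.2 2
          · left
            nlinarith [hx.1]
        rcases hx2 with h2 | h2
        · have h3 : (x ^ 2 + v ^ 2) ^ 2 ≤ (a ^ 2 + v ^ 2) ^ 2 :=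
            pow_le_pow_left₀ (by positivity) (by linarith) 2
          linarith
        · have h3 : (x ^ 2 + v ^ 2) ^ 2 ≤ (c ^ 2 + v ^ 2) ^ 2 :=
            pow_le_pow_left₀ (by positivity) (by linarith) 2
          linarith
      have h0 : (0 : ℝ) ∈ {u : ℝ | pt3 u v (u ^ 2 + v ^ 2) ∈ Metric.ball (0 : E3) ρ} := by
        show pt3 0 v (0 ^ 2 + v ^ 2) ∈ Metric.ball (0 : E3) ρ
        rwa [zero_pow two_ne_zero, zero_add]
      exact (exAn_curve (exAn_analytic hf n) v).eqOn_zero_of_preconnected_of_eventuallyEq_zero hS h0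
        (exAn_flat hρ (exAn_analytic hf n) hv fun u hu => hn u v hu) huv
    intro n
    induction n with
    | zero =>
      have h2 : ∀ u v : ℝ, 0 < u → pt3 u v (phR u v) ∈ Metric.ball (0 : E3) ρ →
          ∃ t : ℝ, 0 < t ∧ t ≤ expNegInvGlue u ∧
            exAn_d f 0 (pt3 u v (u ^ 2 + v ^ 2 + t)) = 0 :=
        fun u v hu hm => ⟨expNegInvGlue u, expNegInvGlue.pos_of_pos hu, le_rfl, h u v hm⟩
      exact ⟨step 0 h2, h2⟩
    | succ n ih =>
      have h2 : ∀ u v : ℝ, 0 < u → pt3 u v (phR u v) ∈ Metric.ball (0 : E3) ρ →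
          ∃ t : ℝ, 0 < t ∧ t ≤ expNegInvGlue u ∧
            exAn_d f (n + 1) (pt3 u v (u ^ 2 + v ^ 2 + t)) = 0 := by
        intro u v hu hm
        obtain ⟨t, ht0, htg, ht⟩ := ih.2 u v hu hm
        have hin : ∀ s ∈ Icc (u ^ 2 + v ^ 2) (u ^ 2 + v ^ 2 + t),
            pt3 u v s ∈ Metric.ball (0 : E3) ρ := by
          intro s hs
          rw [exAn_mem hρ] at hm ⊢
          unfold phR at hm
          have h3 : s ^ 2 ≤ (u ^ 2 + v ^ 2 + expNegInvGlue u) ^ 2 :=
            pow_le_pow_left₀ (le_trans (by positivity) hs.1) (by linarith [hs.2]) 2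
          linarith
        obtain ⟨c, hc, hc0⟩ := exists_hasDerivAt_eq_zero
          (f := fun s => exAn_d f n (pt3 u v s)) (f' := fun s => exAn_d f (n + 1) (pt3 u v s))
          (show u ^ 2 + v ^ 2 < u ^ 2 + v ^ 2 + t by linarith)
          (fun s hs => (exAn_deriv hf n (hin s hs)).continuousAt.continuousWithinAt)
          (by
            show exAn_d f n (pt3 u v (u ^ 2 + v ^ 2)) = exAn_d f n (pt3 u v (u ^ 2 + v ^ 2 + t))
            rw [ht]
            exact ih.1 u v (hin _ ⟨le_rfl, by linarith⟩))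
          (fun s hs => exAn_deriv hf n (hin s ⟨hs.1.le, hs.2.le⟩))
        refine ⟨c - (u ^ 2 + v ^ 2), by linarith [hc.1], by linarith [hc.2], ?_⟩
        rw [add_sub_cancel]
        exact hc0
      exact ⟨step (n + 1) h2, h2⟩
  -- the chords
  have chord : ∀ u v t : ℝ, pt3 u v (u ^ 2 + v ^ 2) ∈ Metric.ball (0 : E3) ρ →
      pt3 u v t ∈ Metric.ball (0 : E3) ρ → f (pt3 u v t) = 0 := by
    intro u v t h1 h2
    have hS : IsPreconnected {t : ℝ | pt3 u v t ∈ Metric.ball (0 : E3) ρ} := by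
      refine Set.OrdConnected.isPreconnected ⟨?_⟩
      intro a ha c hc x hx
      have ha' := (exAn_mem hρ _ _ _).1 ha
      have hc' := (exAn_mem hρ _ _ _).1 hc
      show pt3 u v x ∈ Metric.ball (0 : E3) ρ
      rw [exAn_mem hρ]
      have hx2 : x ^ 2 ≤ a ^ 2 ∨ x ^ 2 ≤ c ^ 2 := by
        rcases le_total 0 x with h0 | h0
        · right
          exact pow_le_pow_left₀ h0 hx.2 2
        · left
          nlinarith [hx.1]
      rcases hx2 with h2 | h2 <;> linarith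
    have hopen : IsOpen {t : ℝ | pt3 u v t ∈ Metric.ball (0 : E3) ρ} :=
      Metric.isOpen_ball.preimage
        (continuous_iff_continuousAt.2 fun t => (exAn_line u v t).continuousAt)
    refine (exAn_chord hf u v).eqOn_zero_of_preconnected_of_eventuallyEq_zero hS h1
      (exAn_zero (φ := fun n t => exAn_d f n (pt3 u v t)) (exAn_chord hf u v _ h1) ?_ ?_) h2
    · intro n
      filter_upwards [hopen.mem_nhds h1] with s hs
      exact exAn_deriv hf n hs
    · intro n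
      exact (key n).1 u v h1
  have hev : f =ᶠ[𝓝 (0 : E3)] 0 := by
    have hcont : Continuous fun y : E3 => y 0 ^ 2 + y 1 ^ 2 + (y 0 ^ 2 + y 1 ^ 2) ^ 2 := by
      fun_prop
    have hlt : (0 : E3) 0 ^ 2 + (0 : E3) 1 ^ 2 + ((0 : E3) 0 ^ 2 + (0 : E3) 1 ^ 2) ^ 2 < ρ ^ 2 := by
      simp
      positivity
    filter_upwards [(hcont.tendsto 0).eventually (gt_mem_nhds hlt),
      Metric.ball_mem_nhds (0 : E3) hρ] with y h1 h2
    have hy : y = pt3 (y 0) (y 1) (y 2) := by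
      ext i
      fin_cases i <;> rfl
    show f y = 0
    rw [hy] at h2 ⊢
    exact chord _ _ _ ((exAn_mem hρ _ _ _).2 h1) h2
  intro y hy
  exact hf.eqOn_zero_of_preconnected_of_eventuallyEq_zero
    (convex_ball (0 : E3) ρ).isPreconnected (Metric.mem_ball_self hρ) hev hy

end FracScat

end
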