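import Pool.Agent.Lib.MP_6e2ba5_an.Rx.ExDefs

/-! # The convex body `DR`

`expNegInvGlue` is convex on `(-∞, 1/2]` (zero for `u ≤ 0`, second derivative `exp(-1/u) (1-2u)/u⁴ ≥ 0` for `0 < u ≤ 1/2`) and `‖x‖ ≤ 1/2`
gives `x 0 ≤ 1/2`, so `DR` is convex: it is the intersection of the ball with `{phR ≤ x 2, x 0 ≤ 1/2}`. (`expNegInvGlue` is
`C^∞` and `0 ≤ expNegInvGlue ≤ 1`; on `u ≤ 1/2` it is at most `exp(-2) < 1/4`; for `u ≤ 3/8` at most `exp(-8/3) < 1/12`.)
`DR_mem`: for `‖x - pt3 0 0 (1/4)‖ ≤ 1/8`: `x 0, x 1` in `[-1/8,1/8]`, `x 0² + x 1² ≤ 1/64`, `expNegInvGlue (x 0) ≤ exp(-8) ≤ 1/64`, `x 2 ≥ 1/8`, `‖x‖ ≤ 3/8`.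
`DR_exposed`: at the boundary point over `(u,v)` (where `u < 1/2`) let `m` be the derivative of `expNegInvGlue` at `u`; by convexity
`expNegInvGlue u' ≥ expNegInvGlue u + m (u'-u)` for `u' ≤ 1/2`, so the functional `l x = (2u+m) x 0 + 2v x 1 - x 2` satisfies for `x ∈ DR`, `u' = x 0`, `v' = x 1`:
`l x ≤ l y - (u'-u)² - (v'-v)²` minus `(x 2 - phR u' v')`, with equality `l x = l y` only for `x = y`. In the definition
(`Set.exposedPoints`, `mem_exposedPoints` or similar) one needs: `y ∈ DR` and a continuous linear `l` with `∀ x ∈ DR, l x ≤ l y ∧ (l y ≤ l x → x = y)`. -/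

set_option autoImplicit false

open MeasureTheory Filter Topology Set
open scoped InnerProductSpace ENNReal

noncomputable section

namespace FracScat

private theorem g_hasDeriv (x : ℝ) :
    HasDerivAt expNegInvGlue (x⁻¹ ^ 2 * expNegInvGlue x) x := by
  have h := expNegInvGlue.hasDerivAt_polynomial_eval_inv_mul (1 : Polynomial ℝ) x
  simpa using h

private theorem g_deriv : deriv expNegInvGlue = fun x => x⁻¹ ^ 2 * expNegInvGlue x :=
  funext fun x => (g_hasDeriv x).deriv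

private theorem g_hasDeriv2 (x : ℝ) :
    HasDerivAt (fun x : ℝ => x⁻¹ ^ 2 * expNegInvGlue x)
      (x⁻¹ ^ 2 * (x⁻¹ ^ 2 - 2 * x⁻¹) * expNegInvGlue x) x := by
  have h := expNegInvGlue.hasDerivAt_polynomial_eval_inv_mul (Polynomial.X ^ 2 : Polynomial ℝ) x
  simpa [one_add_one_eq_two] using h

private theorem g_cont : Continuous expNegInvGlue :=
  (expNegInvGlue.contDiff (n := 0)).continuous

private theorem g_convex : ConvexOn ℝ (Iic (1 / 2 : ℝ)) expNegInvGlue := by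
  apply convexOn_of_deriv2_nonneg (convex_Iic _) g_cont.continuousOn
  · exact fun x _ => (g_hasDeriv x).differentiableAt.differentiableWithinAt
  · rw [g_deriv]
    exact fun x _ => (g_hasDeriv2 x).differentiableAt.differentiableWithinAt
  · intro x hx
    rw [interior_Iic] at hx
    have h2 : deriv^[2] expNegInvGlue x = x⁻¹ ^ 2 * (x⁻¹ ^ 2 - 2 * x⁻¹) * expNegInvGlue x := by
      simp only [Function.iterate_succ, Function.iterate_zero, Function.comp_apply, id]
      rw [g_deriv]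
      exact (g_hasDeriv2 x).deriv
    rw [h2]
    rcases le_or_gt x 0 with h0 | h0
    · rw [expNegInvGlue.zero_of_nonpos h0, mul_zero]
    · have h3 : (2 : ℝ) ≤ x⁻¹ := by
        rw [le_inv_comm₀ (by norm_num) h0]
        have := mem_Iio.1 hx
        linarith
      have h4 : 0 ≤ x⁻¹ ^ 2 - 2 * x⁻¹ := by nlinarith
      exact mul_nonneg (mul_nonneg (by positivity) h4) (expNegInvGlue.nonneg x)

private theorem g_tangent {u w : ℝ} (hu : u ≤ 1 / 2) (hw : w ≤ 1 / 2) :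
    expNegInvGlue u + u⁻¹ ^ 2 * expNegInvGlue u * (w - u) ≤ expNegInvGlue w := by
  rcases lt_trichotomy u w with h | h | h
  · have h1 := g_convex.le_slope_of_hasDerivAt (mem_Iic.2 hu) (mem_Iic.2 hw) h (g_hasDeriv u)
    rw [slope_def_field, le_div_iff₀ (by linarith)] at h1
    linarith
  · subst h
    simp
  · have h1 := g_convex.slope_le_of_hasDerivAt (mem_Iic.2 hw) (mem_Iic.2 hu) h (g_hasDeriv u)
    rw [slope_def_field, div_le_iff₀ (by linarith)] at h1
    linarith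

private theorem coord_le (x : E3) (i : Fin 3) : |x i| ≤ ‖x‖ := by
  have := EuclideanSpace.norm_eq x
  rw [this, ← Real.sqrt_sq_eq_abs]
  apply Real.sqrt_le_sqrt
  have h := Finset.single_le_sum (f := fun j => ‖x j‖ ^ 2) (fun j _ => by positivity)
    (Finset.mem_univ i)
  simpa using h

private theorem coord_cont (i : Fin 3) : Continuous fun x : E3 => x i :=
  (EuclideanSpace.proj (𝕜 := ℝ) i).continuous

private theorem DR_x0 {x : E3} (hx : x ∈ DR) : x 0 ≤ 1 / 2 := by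
  have h := mem_closedBall_zero_iff.1 hx.2
  exact (le_abs_self _).trans ((coord_le x 0).trans h)

theorem DR_compact : IsCompact DR := by
  have hc : IsClosed {x : E3 | phR (x 0) (x 1) ≤ x 2} := by
    apply isClosed_le
    · exact (((coord_cont 0).pow 2).add ((coord_cont 1).pow 2)).add (g_cont.comp (coord_cont 0))
    · exact coord_cont 2
  exact (isCompact_closedBall (0 : E3) (1 / 2)).inter_left hc

theorem DR_convex : Convex ℝ DR := by
  intro x hx y hy a b ha hb hab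
  refine ⟨?_, convex_closedBall (0 : E3) (1 / 2) hx.2 hy.2 ha hb hab⟩
  have h1 := g_convex.2 (mem_Iic.2 (DR_x0 hx)) (mem_Iic.2 (DR_x0 hy)) ha hb hab
  have hx1 : phR (x 0) (x 1) ≤ x 2 := hx.1
  have hy1 : phR (y 0) (y 1) ≤ y 2 := hy.1
  simp only [smul_eq_mul] at h1
  show phR ((a • x + b • y) 0) ((a • x + b • y) 1) ≤ (a • x + b • y) 2
  simp only [PiLp.add_apply, PiLp.smul_apply, smul_eq_mul]
  unfold phR at *
  have hb' : b = 1 - a := by linarith
  have e0 : (a * x 0 + b * y 0) ^ 2 ≤ a * x 0 ^ 2 + b * y 0 ^ 2 := by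
    have : a * x 0 ^ 2 + b * y 0 ^ 2 - (a * x 0 + b * y 0) ^ 2 = a * b * (x 0 - y 0) ^ 2 := by
      rw [hb']; ring
    have h := mul_nonneg (mul_nonneg ha hb) (sq_nonneg (x 0 - y 0))
    linarith
  have e1 : (a * x 1 + b * y 1) ^ 2 ≤ a * x 1 ^ 2 + b * y 1 ^ 2 := by
    have : a * x 1 ^ 2 + b * y 1 ^ 2 - (a * x 1 + b * y 1) ^ 2 = a * b * (x 1 - y 1) ^ 2 := by
      rw [hb']; ring
    have h := mul_nonneg (mul_nonneg ha hb) (sq_nonneg (x 1 - y 1))
    linarith
  have f1 := mul_le_mul_of_nonneg_left hx1 ha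
  have f2 := mul_le_mul_of_nonneg_left hy1 hb
  nlinarith

theorem DR_mem {x : E3} (hx : ‖x - pt3 0 0 (1 / 4)‖ ≤ 1 / 8) : x ∈ DR := by
  have hsq : x 0 ^ 2 + x 1 ^ 2 + (x 2 - 1 / 4) ^ 2 ≤ 1 / 64 := by
    have h := EuclideanSpace.norm_sq_eq (x - pt3 0 0 (1 / 4))
    rw [Fin.sum_univ_three] at h
    simp only [PiLp.sub_apply, pt3_0, pt3_1, pt3_2, sub_zero, Real.norm_eq_abs, sq_abs] at h
    rw [← h]
    have := norm_nonneg (x - pt3 0 0 (1 / 4))
    nlinarith
  have h0 : x 0 ≤ 1 / 8 := by nlinarith [sq_nonneg (x 1), sq_nonneg (x 2 - 1 / 4)]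
  have h2 : 1 / 8 ≤ x 2 := by nlinarith [sq_nonneg (x 1), sq_nonneg (x 0)]
  have hg : expNegInvGlue (x 0) ≤ 1 / 41 := by
    refine (expNegInvGlue.monotone h0).trans ?_
    have h8 := Real.quadratic_le_exp_of_nonneg (x := 8) (by norm_num)
    have : expNegInvGlue (1 / 8) = (Real.exp 8)⁻¹ := by
      rw [expNegInvGlue, if_neg (by norm_num), Real.exp_neg]
      norm_num
    rw [this, inv_le_comm₀ (Real.exp_pos _) (by norm_num)]
    norm_num at h8 ⊢
    linarith
  refine ⟨?_, ?_⟩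
  · show phR (x 0) (x 1) ≤ x 2
    unfold phR
    nlinarith [sq_nonneg (x 2 - 1 / 4)]
  · rw [mem_closedBall_zero_iff]
    have hp : ‖pt3 0 0 (1 / 4)‖ ≤ 1 / 4 := by
      rw [EuclideanSpace.norm_eq, Fin.sum_univ_three]
      simp only [pt3_0, pt3_1, pt3_2]
      rw [Real.sqrt_le_left (by norm_num)]
      norm_num
    have := norm_add_le (x - pt3 0 0 (1 / 4)) (pt3 0 0 (1 / 4))
    rw [sub_add_cancel] at this
    linarith

theorem DR_exposed {u v : ℝ} (h : pt3 u v (phR u v) ∈ Metric.ball (0 : E3) (1 / 2)) :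
    pt3 u v (phR u v) ∈ DR.exposedPoints ℝ := by
  have hn : ‖pt3 u v (phR u v)‖ < 1 / 2 := mem_ball_zero_iff.1 h
  have hu : u ≤ 1 / 2 := by
    have := coord_le (pt3 u v (phR u v)) 0
    rw [pt3_0] at this
    exact (le_abs_self u).trans (this.trans hn.le)
  refine ⟨⟨?_, Metric.ball_subset_closedBall h⟩, ?_⟩
  · show phR ((pt3 u v (phR u v)) 0) ((pt3 u v (phR u v)) 1) ≤ (pt3 u v (phR u v)) 2
    simp
  · refine ⟨(2 * u + u⁻¹ ^ 2 * expNegInvGlue u) • EuclideanSpace.proj (𝕜 := ℝ) (0 : Fin 3) +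
      (2 * v) • EuclideanSpace.proj (𝕜 := ℝ) (1 : Fin 3) -
      EuclideanSpace.proj (𝕜 := ℝ) (2 : Fin 3), ?_⟩
    intro x hx
    have ht := g_tangent hu (DR_x0 hx)
    have hx1 : phR (x 0) (x 1) ≤ x 2 := hx.1
    have e1 : ((2 * u + u⁻¹ ^ 2 * expNegInvGlue u) • EuclideanSpace.proj (𝕜 := ℝ) (0 : Fin 3) +
      (2 * v) • EuclideanSpace.proj (𝕜 := ℝ) (1 : Fin 3) -
      EuclideanSpace.proj (𝕜 := ℝ) (2 : Fin 3) : E3 →L[ℝ] ℝ) x =
      (2 * u + u⁻¹ ^ 2 * expNegInvGlue u) * x 0 + 2 * v * x 1 - x 2 := by simp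
    have e2 : ((2 * u + u⁻¹ ^ 2 * expNegInvGlue u) • EuclideanSpace.proj (𝕜 := ℝ) (0 : Fin 3) +
      (2 * v) • EuclideanSpace.proj (𝕜 := ℝ) (1 : Fin 3) -
      EuclideanSpace.proj (𝕜 := ℝ) (2 : Fin 3) : E3 →L[ℝ] ℝ) (pt3 u v (phR u v)) =
      (2 * u + u⁻¹ ^ 2 * expNegInvGlue u) * u + 2 * v * v - phR u v := by simp
    rw [e1, e2]
    unfold phR at *
    set m := u⁻¹ ^ 2 * expNegInvGlue u with hm
    constructor
    · nlinarith [sq_nonneg (x 0 - u), sq_nonneg (x 1 - v)]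
    · intro hle
      have hk : (x 0 - u) ^ 2 + (x 1 - v) ^ 2 ≤ 0 := by nlinarith
      have h0 : x 0 = u := by
        have : (x 0 - u) ^ 2 = 0 := le_antisymm (by nlinarith [sq_nonneg (x 1 - v)]) (sq_nonneg _)
        have := pow_eq_zero_iff (two_ne_zero) |>.1 this
        linarith
      have h1 : x 1 = v := by
        have : (x 1 - v) ^ 2 = 0 := le_antisymm (by nlinarith [sq_nonneg (x 0 - u)]) (sq_nonneg _)
        have := pow_eq_zero_iff (two_ne_zero) |>.1 this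
        linarith
      have h2 : x 2 = u ^ 2 + v ^ 2 + expNegInvGlue u := by
        rw [h0, h1] at hle hx1
        apply le_antisymm _ hx1
        linarith
      ext i
      fin_cases i
      · exact h0
      · exact h1
      · exact h2

end FracScat

end
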