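import Pool.Agent.Lib.MP_6e2ba5_an.Rx.UDefs
import Pool.Agent.Lib.MP_6e2ba5_an.Hull

/-! # Facts about the convex hull of the essential support

`essSupp V` is closed (`isClosed_essSupp`), and contained in the closed ball of radius `r` if `V = 0` for
`‖x‖ ≥ r` (a point `x` with `‖x‖ > r` has a ball on which `V = 0`). The hull of a bounded set is bounded
(`isBounded_convexHull`), so `hullV V` is compact. `hull_supp`: `V = 0` a.e. outside `essSupp V`: `halfspace_iff` with
`U = (essSupp V)ᶜ`. `hull_interior`: otherwise the convex set `hullV V` has measure zero (`Convex.addHaar_frontier`: the frontier of a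
convex set is a null set, and a closed set is the union of its interior and a subset of its frontier), and `V = 0` a.e. by
`hull_supp`. `exposed_mem`: if `y` is not in the compact set `essSupp V`, let `m` be the minimum of `θ·x` on it (if it is empty then
`hullV V` is empty); the minimum is attained at a point `x ≠ y` of the hull, so `m > θ·y`, but
`hullV V ⊆ {θ·x ≥ m}` (closed and convex), a contradiction to `y ∈ hullV V`. `exposed_dir`: the direction from the definition of
`Set.exposedPoints`, as in the proof of `final_convex` in `../Final.lean` (which can be copied). -/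

set_option autoImplicit false

open MeasureTheory Filter Topology Set
open scoped FourierTransform SchwartzMap InnerProductSpace ENNReal BoundedContinuousFunction

noncomputable section

namespace FracScat

private theorem HullF_ess {V : E3 → ℝ} {r : ℝ} (hV : ∀ x, r ≤ ‖x‖ → V x = 0) :
    essSupp V ⊆ Metric.closedBall 0 r := by
  intro x hx
  rw [mem_closedBall_zero_iff]
  by_contra hcon
  rw [not_le] at hcon
  have h1 := hx (‖x‖ - r) (by linarith)
  have h2 : Metric.ball x (‖x‖ - r) ∩ {y | V y ≠ 0} = ∅ := by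
    rw [Set.eq_empty_iff_forall_notMem]
    rintro y ⟨hy1, hy2⟩
    rw [Metric.mem_ball, dist_comm, dist_eq_norm] at hy1
    have h3 : ‖x‖ - ‖y‖ ≤ ‖x - y‖ := norm_sub_norm_le x y
    exact hy2 (hV y (by linarith))
  rw [h2, measure_empty] at h1
  exact lt_irrefl _ h1

private theorem HullF_sub (V : E3 → ℝ) : essSupp V ⊆ hullV V := fun _ hx =>
  subset_closure (subset_convexHull ℝ _ hx)

theorem hull_sub {V : E3 → ℝ} {r : ℝ} (hV : ∀ x, r ≤ ‖x‖ → V x = 0) :
    hullV V ⊆ Metric.closedBall 0 r :=
  closure_minimal (convexHull_min (HullF_ess hV) (convex_closedBall 0 r)) Metric.isClosed_closedBall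

theorem hull_compact {V : E3 → ℝ} {r : ℝ} (hV : ∀ x, r ≤ ‖x‖ → V x = 0) :
    IsCompact (hullV V) :=
  Metric.isCompact_of_isClosed_isBounded isClosed_closure
    (Metric.isBounded_closedBall.subset (hull_sub hV))

theorem hull_convex (V : E3 → ℝ) : Convex ℝ (hullV V) := (convex_convexHull ℝ _).closure

theorem hull_supp (V : E3 → ℝ) :
    ∀ᵐ x ∂(volume : Measure E3), x ∉ hullV V → V x = 0 := by
  have h1 := (halfspace_iff V (isClosed_essSupp V).isOpen_compl).2 disjoint_compl_left
  filter_upwards [h1] with x hx hx2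
  exact hx fun h => hx2 (HullF_sub V h)

theorem hull_interior {V : E3 → ℝ} (h : ¬ ∀ᵐ x ∂(volume : Measure E3), V x = 0) :
    (interior (hullV V)).Nonempty := by
  by_contra hcon
  rw [Set.not_nonempty_iff_eq_empty] at hcon
  apply h
  have h1 : (volume : Measure E3) (frontier (hullV V)) = 0 :=
    Convex.addHaar_frontier volume (hull_convex V)
  have h2 : frontier (hullV V) = hullV V := by
    rw [frontier, hcon, sdiff_empty]
    exact isClosed_closure.closure_eq
  rw [h2] at h1
  have h3 : ∀ᵐ x ∂(volume : Measure E3), x ∉ hullV V := measure_eq_zero_iff_ae_notMem.1 h1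
  filter_upwards [h3, hull_supp V] with x hx1 hx2
  exact hx2 hx1

theorem hull_empty {V : E3 → ℝ} (h : ∀ᵐ x ∂(volume : Measure E3), V x = 0) : hullV V = ∅ := by
  have h1 : Disjoint univ (essSupp V) :=
    (halfspace_iff V isOpen_univ).1 (h.mono fun x hx _ => hx)
  rw [univ_disjoint] at h1
  rw [hullV, h1, convexHull_empty, closure_empty]

theorem exposed_mem {V : E3 → ℝ} {r : ℝ} (hV : ∀ x, r ≤ ‖x‖ → V x = 0) {θ y : E3}
    (hy : y ∈ hullV V) (hexp : ∀ x ∈ hullV V, x ≠ y → ⟪θ, y⟫_ℝ < ⟪θ, x⟫_ℝ) : y ∈ essSupp V := by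
  by_contra hcon
  have hcomp : IsCompact (essSupp V) :=
    Metric.isCompact_of_isClosed_isBounded (isClosed_essSupp V)
      (Metric.isBounded_closedBall.subset (HullF_ess hV))
  rcases (essSupp V).eq_empty_or_nonempty with he | hne
  · rw [hullV, he, convexHull_empty, closure_empty] at hy
    exact hy
  · have hf : Continuous fun x : E3 => ⟪θ, x⟫_ℝ := by fun_prop
    obtain ⟨x0, hx0, hmin⟩ := hcomp.exists_isMinOn hne hf.continuousOn
    have hx0y : x0 ≠ y := fun h => hcon (h ▸ hx0)
    have h1 := hexp x0 (HullF_sub V hx0) hx0y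
    have h2 : hullV V ⊆ {x : E3 | ⟪θ, x0⟫_ℝ ≤ ⟪θ, x⟫_ℝ} := by
      refine closure_minimal (convexHull_min (fun x hx => hmin hx) ?_) ?_
      · have h3 := convex_halfSpace_ge (𝕜 := ℝ) (f := fun x : E3 => ⟪θ, x⟫_ℝ)
          ⟨fun a b => inner_add_right _ _ _, fun c a => by
            rw [real_inner_smul_right, smul_eq_mul]⟩ ⟪θ, x0⟫_ℝ
        exact h3
      · exact isClosed_le continuous_const hf
    have h3 : ⟪θ, x0⟫_ℝ ≤ ⟪θ, y⟫_ℝ := h2 hy
    linarith

theorem exposed_dir {D : Set E3} (hi : (interior D).Nonempty) {y : E3}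
    (hy : y ∈ D.exposedPoints ℝ) : y ∈ D ∧ ∃ θ : E3, ‖θ‖ = 1 ∧ ∀ x ∈ D, x ≠ y →
      ⟪θ, y⟫_ℝ < ⟪θ, x⟫_ℝ := by
  obtain ⟨hyD, l, hl⟩ := hy
  refine ⟨hyD, ?_⟩
  set w : E3 := (InnerProductSpace.toDual ℝ E3).symm l with hw
  have hwl : ∀ x : E3, ⟪w, x⟫_ℝ = l x := fun x => InnerProductSpace.toDual_symm_apply
  have hw0 : w ≠ 0 := by
    intro h
    have hl0 : ∀ x : E3, l x = 0 := by
      intro x
      rw [← hwl, h, inner_zero_left]
    have hsub : D ⊆ {y} := by
      intro x hx
      exact (hl x hx).2 (by rw [hl0, hl0])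
    have h4 : interior D ⊆ interior {y} := interior_mono hsub
    rw [interior_singleton] at h4
    obtain ⟨z, hz⟩ := hi
    exact h4 hz
  have hwn : 0 < ‖w‖ := norm_pos_iff.2 hw0
  refine ⟨-(‖w‖⁻¹ • w), ?_, fun x hx hxy => ?_⟩
  · rw [norm_neg, norm_smul, norm_inv, norm_norm, inv_mul_cancel₀ hwn.ne']
  · rw [inner_neg_left, inner_neg_left, real_inner_smul_left, real_inner_smul_left, hwl, hwl]
    have h5 : l x < l y := by
      by_contra h
      exact hxy ((hl x hx).2 (not_lt.1 h))
    have h6 : 0 < ‖w‖⁻¹ := inv_pos.2 hwn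
    have := mul_lt_mul_of_pos_left h5 h6
    linarith

end FracScat

end
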