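import Pool.Agent.Lib.MP_6e2ba5_an.Rx.ExDefs
import Pool.Agent.Lib.MP_6e2ba5_an.Rx.HullF

/-! # Affine images and the hull of a perturbed indicator function

`Rich_image`: the map `T x = lam • (x - c)` is an affine homeomorphism with inverse `x ↦ lam⁻¹ • x + c`, both analytic; it maps exposed
points of `D` to exposed points of `T '' D` (compose the functional with the linear part: `l' = l`, `l (T x) = lam (l x - l c)`),
and the ball `y₀, ρ` to the ball `lam • (y₀ - c), lam ρ`. Given `f` on the image ball apply `h` to `f ∘ T`.
`hull_ref`: `V = 1_D + W`, `W = 0` outside `closedBall c R ⊆ interior D`. `V = 0` outside `D` and `D` is closed, so `essSupp V ⊆ D` and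
`hullV V ⊆ D` (`D` closed convex). Conversely let `x ∈ D`. First, `x ∈ D`, `x ∉ closedBall c R`: every ball around `x` contains
an open set of points of `interior D` outside `closedBall c R` (`D ⊆ closure (interior D)` as `D` is convex with
interior points: `Convex.closure_interior_eq_closure_of_nonempty_interior`), where `V = 1`; so `x ∈ essSupp V`. If `x ∈ closedBall c R`: take any unit
vector `e`; the line `x + t e` leaves the bounded set `closedBall c R` in both directions, and at the last points it is still in
`interior D` (closed ball contained in the open set), so there are `t₁ < 0 < t₂` with `x + t_i e ∈ D` outside `closedBall c R`, and `x` is a convex combination. For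
`R < 0` the closed ball is empty and the second case does not occur. -/

set_option autoImplicit false

open MeasureTheory Filter Topology Set
open scoped InnerProductSpace ENNReal

noncomputable section

namespace FracScat

theorem Rich_image {D : Set E3} {y₀ : E3} {ρ : ℝ} (h : Rich D y₀ ρ) {lam : ℝ} (hlam : 0 < lam)
    (c : E3) : Rich ((fun x : E3 => lam • (x - c)) '' D) (lam • (y₀ - c)) (lam * ρ) := by
  intro f hf hz
  have hdist : ∀ x : E3, dist (lam • (x - c)) (lam • (y₀ - c)) = lam * dist x y₀ := by
    intro x
    rw [dist_smul₀, Real.norm_of_nonneg hlam.le, dist_sub_right]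
  have hmem : ∀ x : E3, x ∈ Metric.ball y₀ ρ →
      lam • (x - c) ∈ Metric.ball (lam • (y₀ - c)) (lam * ρ) := by
    intro x hx
    rw [Metric.mem_ball, hdist]
    exact mul_lt_mul_of_pos_left (Metric.mem_ball.1 hx) hlam
  have hT : AnalyticOnNhd ℝ (fun x : E3 => lam • (x - c)) (Metric.ball y₀ ρ) := by
    have h1 : AnalyticOnNhd ℝ (fun x : E3 => x - c) (Metric.ball y₀ ρ) :=
      analyticOnNhd_id.sub analyticOnNhd_const
    exact analyticOnNhd_const.smul h1
  have hg := hf.comp hT hmem
  have key := h (f ∘ fun x : E3 => lam • (x - c)) hg (by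
    rintro y ⟨hyD, l, hl⟩ hyb
    refine hz _ ⟨⟨y, hyD, rfl⟩, l, ?_⟩ (hmem y hyb)
    rintro _ ⟨z, hzD, rfl⟩
    obtain ⟨h1, h2⟩ := hl z hzD
    simp only [map_smul, map_sub, smul_eq_mul]
    refine ⟨mul_le_mul_of_nonneg_left (by linarith) hlam.le, fun h3 => ?_⟩
    have h4 : l y ≤ l z := by
      have := le_of_mul_le_mul_left h3 hlam
      linarith
    rw [h2 h4])
  intro y hy
  have h5 : lam • ((lam⁻¹ • y + c) - c) = y := by
    rw [add_sub_cancel_right, smul_smul, mul_inv_cancel₀ hlam.ne', one_smul]
  have h6 : lam⁻¹ • y + c ∈ Metric.ball y₀ ρ := by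
    rw [Metric.mem_ball]
    have h7 := hdist (lam⁻¹ • y + c)
    rw [h5] at h7
    rw [Metric.mem_ball, h7] at hy
    exact lt_of_mul_lt_mul_left hy hlam.le
  have h8 := key _ h6
  simp only [Function.comp_apply] at h8
  rwa [h5] at h8

theorem hull_ref {D : Set E3} (hD : IsCompact D) (hc : Convex ℝ D) (hi : (interior D).Nonempty)
    {c : E3} {R : ℝ} (hB : Metric.closedBall c R ⊆ interior D) {W : E3 → ℝ}
    (hW : ∀ x, x ∉ Metric.closedBall c R → W x = 0) :
    hullV (fun x => D.indicator (fun _ => (1 : ℝ)) x + W x) = D := by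
  have hBD : Metric.closedBall c R ⊆ D := hB.trans interior_subset
  refine Set.Subset.antisymm ?_ ?_
  · refine closure_minimal (convexHull_min ?_ hc) hD.isClosed
    intro x hx
    by_contra hxD
    obtain ⟨δ, hδ, hsub⟩ := Metric.isOpen_iff.1 hD.isClosed.isOpen_compl x hxD
    have h1 := hx δ hδ
    have h2 : Metric.ball x δ ∩ {y | D.indicator (fun _ => (1 : ℝ)) y + W y ≠ 0} = ∅ := by
      rw [Set.eq_empty_iff_forall_notMem]
      rintro y ⟨hy1, hy2⟩
      have hyD : y ∉ D := hsub hy1
      refine hy2 ?_
      show D.indicator (fun _ => (1 : ℝ)) y + W y = 0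
      rw [Set.indicator_of_notMem hyD, hW y fun h => hyD (hBD h), add_zero]
    rw [h2, measure_empty] at h1
    exact lt_irrefl _ h1
  · have hsub : D.extremePoints ℝ ⊆
        essSupp (fun x => D.indicator (fun _ => (1 : ℝ)) x + W x) := by
      intro x hx ε hε
      have hxD : x ∈ D := extremePoints_subset hx
      have hxi : x ∉ interior D := fun h =>
        Set.disjoint_left.1 (disjoint_interior_extremePoints D) h hx
      have hxB : x ∉ Metric.closedBall c R := fun h => hxi (hB h)
      have hcl : x ∈ closure (interior D) := by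
        rw [hc.closure_interior_eq_closure_of_nonempty_interior hi]
        exact subset_closure hxD
      have hopen : IsOpen (Metric.ball x ε ∩ (Metric.closedBall c R)ᶜ) :=
        Metric.isOpen_ball.inter Metric.isClosed_closedBall.isOpen_compl
      have hne : ((Metric.ball x ε ∩ (Metric.closedBall c R)ᶜ) ∩ interior D).Nonempty :=
        mem_closure_iff.1 hcl _ hopen ⟨Metric.mem_ball_self hε, hxB⟩
      have hpos : 0 < volume ((Metric.ball x ε ∩ (Metric.closedBall c R)ᶜ) ∩ interior D) :=
        (hopen.inter isOpen_interior).measure_pos volume hne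
      refine lt_of_lt_of_le hpos (measure_mono ?_)
      rintro y ⟨⟨hy1, hy2⟩, hy3⟩
      refine ⟨hy1, ?_⟩
      show D.indicator (fun _ => (1 : ℝ)) y + W y ≠ 0
      rw [Set.indicator_of_mem (interior_subset hy3), hW y hy2, add_zero]
      exact one_ne_zero
    calc D = closure (convexHull ℝ (D.extremePoints ℝ)) :=
          (closure_convexHull_extremePoints hD hc).symm
      _ ⊆ _ := closure_mono (convexHull_mono hsub)

end FracScat

end
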