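import Pool.Agent.Lib.MP_6e2ba5_an.Stmt

/-! # Potentials `∫ W(x) ‖x-y‖^(-b) dx` off the support of `W`: definitions -/

set_option autoImplicit false

open MeasureTheory Filter Topology Set
open scoped InnerProductSpace ENNReal

noncomputable section

namespace FracScat

/-- The potential `∫ W(x) ‖x-y‖^(-b) dx`. -/
def UW (b : ℝ) (W : E3 → ℝ) (y : E3) : ℝ := ∫ x, W x * ‖x - y‖ ^ (-b)

/-- `W` is bounded by `M`, vanishes for `‖x‖ ≥ r`, and vanishes almost everywhere in the ball around `y₀`. -/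
structure IsW (r M : ℝ) (W : E3 → ℝ) (y₀ : E3) (ρ : ℝ) : Prop where
  measurable : Measurable W
  bounded : ∀ x, |W x| ≤ M
  vanish : ∀ x, r ≤ ‖x‖ → W x = 0
  zero : ∀ᵐ x ∂(volume : Measure E3), ‖x - y₀‖ < ρ → W x = 0

/-- `V` is bounded away from zero, with a constant sign, at almost every point of `D` near `y`. -/
def OneSign (V : E3 → ℝ) (D : Set E3) (y : E3) : Prop :=
  ∃ c δ : ℝ, 0 < c ∧ 0 < δ ∧
    ((∀ᵐ x ∂(volume : Measure E3), x ∈ D → ‖x - y‖ < δ → c ≤ V x) ∨
      ∀ᵐ x ∂(volume : Measure E3), x ∈ D → ‖x - y‖ < δ → V x ≤ -c)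

/-- The closed convex hull of the essential support. -/
def hullV (V : E3 → ℝ) : Set E3 := closure (convexHull ℝ (essSupp V))

end FracScat

end
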