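import Pool.Agent.Lib.MP_6e2ba5_an.Rx.LapC
import Pool.Agent.Lib.MP_6e2ba5_an.Rx.UDefs
import Pool.Agent.Lib.MP_6e2ba5_an.Main

/-! # The limit of the difference at an exposed point

As `expQ`, for bounded potentials whose difference has the limit `p` at the exposed point `y`: then `p = 0`. The right side
of `hm` divided by `exp(-2τ θ·y) ma D (2τ) θ y` is bounded. -/

set_option autoImplicit false

open MeasureTheory Filter Topology Set
open scoped FourierTransform SchwartzMap InnerProductSpace ENNReal BoundedContinuousFunction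

noncomputable section

namespace FracScat

private theorem expD_pe (τ : ℝ) (θ y x : E3) :
    pe τ θ x ^ 2 = Real.exp (-(2 * τ * ⟪θ, y⟫_ℝ)) * FracScatC.wE (2 * τ) θ y x := by
  unfold pe FracScatC.wE
  rw [← Real.exp_nat_mul, ← Real.exp_add, inner_sub_right]
  congr 1
  push_cast
  ring

private theorem expD_int {D : Set E3} {W : E3 → ℝ}
    (hs : ∀ᵐ x ∂(volume : Measure E3), x ∉ D → W x = 0) (τ : ℝ) (θ y : E3) :
    ∫ x, W x * pe τ θ x ^ 2 =
      Real.exp (-(2 * τ * ⟪θ, y⟫_ℝ)) * ∫ x in D, W x * FracScatC.wE (2 * τ) θ y x := by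
  have h1 : ∫ x in D, W x * pe τ θ x ^ 2 = ∫ x, W x * pe τ θ x ^ 2 := by
    refine setIntegral_eq_integral_of_ae_compl_eq_zero ?_
    filter_upwards [hs] with x hx hxD
    rw [hx hxD, zero_mul]
  rw [← h1, ← integral_const_mul]
  congr 1
  funext x
  rw [expD_pe τ θ y x]
  ring

private theorem expD_lap {D : Set E3} (hD : IsCompact D) (hc : Convex ℝ D)
    (hi : (interior D).Nonempty) {θ y : E3} (hy : y ∈ D)
    (hexp : ∀ x ∈ D, x ≠ y → ⟪θ, y⟫_ℝ < ⟪θ, x⟫_ℝ) {g : E3 → ℝ} (hg : Measurable g) {B : ℝ}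
    (hB : ∀ x, |g x| ≤ B) {q : ℝ}
    (hq : ∀ ε : ℝ, 0 < ε → ∃ δ : ℝ, 0 < δ ∧ ∀ᵐ x ∂(volume : Measure E3), x ∈ D → ‖x - y‖ < δ →
      |g x - q| < ε) :
    Tendsto (fun τ : ℝ => (∫ x in D, g x * FracScatC.wE (2 * τ) θ y x) /
      FracScatC.ma D (2 * τ) θ y) atTop (𝓝 q) := by
  have h1 := FracScatC.lapC hD hc hi hy hexp (g := fun x => ((g x : ℝ) : ℂ))
    (Complex.measurable_ofReal.comp hg).aestronglyMeasurable (B := B)
    (Eventually.of_forall fun x _ => by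
      rw [Complex.norm_real, Real.norm_eq_abs]; exact hB x) (q := ((q : ℝ) : ℂ))
    (fun ε hε => by
      obtain ⟨δ, hδ, h⟩ := hq ε hε
      refine ⟨δ, hδ, ?_⟩
      filter_upwards [h] with x hx hxD hxy
      rw [← Complex.ofReal_sub, Complex.norm_real, Real.norm_eq_abs]
      exact hx hxD hxy)
  have h2 := (Complex.continuous_re.tendsto _).comp h1
  rw [Complex.ofReal_re] at h2
  have h3 : Tendsto (fun τ : ℝ => (∫ x in D, g x * FracScatC.wE τ θ y x) /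
      FracScatC.ma D τ θ y) atTop (𝓝 q) := by
    refine h2.congr fun τ => ?_
    simp only [Function.comp_apply]
    have h4 : ∫ x in D, ((g x : ℝ) : ℂ) * ((FracScatC.wE τ θ y x : ℝ) : ℂ) =
        ((∫ x in D, g x * FracScatC.wE τ θ y x : ℝ) : ℂ) := by
      rw [← integral_complex_ofReal]
      congr 1
      funext x
      push_cast
      rfl
    rw [h4, ← Complex.ofReal_div, Complex.ofReal_re]
  exact h3.comp (tendsto_id.const_mul_atTop (by norm_num : (0 : ℝ) < 2))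

theorem expD {s : ℝ} (h0 : 1 / 2 < s) (h2 : s < 2) (h1 : s ≠ 1) {V₁ V₂ : E3 → ℝ}
    (hV₁ : IsPotential V₁) (hV₂ : IsPotential V₂) {D : Set E3} (hD : IsCompact D)
    (hc : Convex ℝ D) (hi : (interior D).Nonempty)
    (hs₁ : ∀ᵐ x ∂(volume : Measure E3), x ∉ D → V₁ x = 0)
    (hs₂ : ∀ᵐ x ∂(volume : Measure E3), x ∉ D → V₂ x = 0) {θ y : E3} (hy : y ∈ D)
    (hexp : ∀ x ∈ D, x ≠ y → ⟪θ, y⟫_ℝ < ⟪θ, x⟫_ℝ) {p : ℝ}
    (hl : ∀ ε : ℝ, 0 < ε → ∃ δ : ℝ, 0 < δ ∧ ∀ᵐ x ∂(volume : Measure E3), x ∈ D → ‖x - y‖ < δ →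
      |V₁ x - V₂ x - p| < ε) {K : ℝ}
    (hm : ∀ τ : ℝ, K ≤ τ → |(zt s τ).im| * |∫ x, (V₁ x - V₂ x) * pe τ θ x ^ 2| ≤
      (∫ x, V₁ x ^ 2 * pe τ θ x ^ 2) + ∫ x, V₂ x ^ 2 * pe τ θ x ^ 2) : p = 0 := by
  obtain ⟨C₁, hC₁⟩ := hV₁.bounded
  obtain ⟨C₂, hC₂⟩ := hV₂.bounded
  have t1 := expD_lap hD hc hi hy hexp (g := fun x => V₁ x - V₂ x)
    (hV₁.measurable.sub hV₂.measurable) (B := C₁ + C₂)
    (fun x => (abs_sub _ _).trans (add_le_add (hC₁ x) (hC₂ x))) (q := p) hl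
  have hsin : 0 < |Real.sin (Real.pi * s)| := abs_pos.2 (sin_pi_ne (by linarith) h2 h1)
  have him : Tendsto (fun τ : ℝ => |(zt s τ).im|) atTop atTop := by
    have h3 : Tendsto (fun τ : ℝ => τ ^ (2 * s) * |Real.sin (Real.pi * s)|) atTop atTop :=
      (tendsto_rpow_atTop (by linarith)).atTop_mul_const hsin
    refine h3.congr' ?_
    filter_upwards [eventually_gt_atTop 0] with τ hτ
    rw [zt_im hτ, abs_mul, abs_of_nonneg (Real.rpow_nonneg hτ.le _)]
  have t4 := him.inv_tendsto_atTop.const_mul (C₁ ^ 2 + C₂ ^ 2)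
  rw [mul_zero] at t4
  have t5 := t1.abs
  have hle : |p| ≤ 0 := by
    refine le_of_tendsto_of_tendsto t5 t4 ?_
    filter_upwards [eventually_ge_atTop K, him.eventually_gt_atTop 0] with τ hτ hpos
    have h5 := hm τ hτ
    rw [expD_int (W := fun x => V₁ x - V₂ x) (D := D) (by
        filter_upwards [hs₁, hs₂] with x a₁ a₂ hx
        rw [a₁ hx, a₂ hx, sub_zero]) τ θ y,
      expD_int (W := fun x => V₁ x ^ 2) (D := D) (by
        filter_upwards [hs₁] with x a₁ hx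
        rw [a₁ hx]; norm_num) τ θ y,
      expD_int (W := fun x => V₂ x ^ 2) (D := D) (by
        filter_upwards [hs₂] with x a₂ hx
        rw [a₂ hx]; norm_num) τ θ y, abs_mul, abs_of_pos (Real.exp_pos _)] at h5
    have hE := Real.exp_pos (-(2 * τ * ⟪θ, y⟫_ℝ))
    obtain ⟨E, hE'⟩ : ∃ E, E = Real.exp (-(2 * τ * ⟪θ, y⟫_ℝ)) := ⟨_, rfl⟩
    rw [← hE'] at h5 hE
    have h6 : |(zt s τ).im| * |∫ x in D, (V₁ x - V₂ x) * FracScatC.wE (2 * τ) θ y x| ≤
        (∫ x in D, V₁ x ^ 2 * FracScatC.wE (2 * τ) θ y x) +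
          ∫ x in D, V₂ x ^ 2 * FracScatC.wE (2 * τ) θ y x := by
      refine le_of_mul_le_mul_left ?_ hE
      linarith
    have hZ := FracScatC.ma_pos hD hi (2 * τ) θ y
    have hwI : IntegrableOn (FracScatC.wE (2 * τ) θ y) D :=
      (FracScatC.wE_continuous (2 * τ) θ y).continuousOn.integrableOn_compact hD
    have hsqb : ∀ {V : E3 → ℝ} {C : ℝ}, Measurable V → (∀ x, |V x| ≤ C) →
        ∫ x in D, V x ^ 2 * FracScatC.wE (2 * τ) θ y x ≤ C ^ 2 * FracScatC.ma D (2 * τ) θ y := by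
      intro V C hVm hC
      have e : C ^ 2 * FracScatC.ma D (2 * τ) θ y =
          ∫ x in D, C ^ 2 * FracScatC.wE (2 * τ) θ y x := by
        rw [integral_const_mul]
        rfl
      rw [e]
      have hb : ∀ x, |V x ^ 2| ≤ C ^ 2 := fun x => by
        rw [abs_pow]
        exact pow_le_pow_left₀ (abs_nonneg _) (hC x) 2
      refine setIntegral_mono (hwI.bdd_mul (c := C ^ 2) (hVm.pow_const 2).aestronglyMeasurable
        (Eventually.of_forall fun x => by rw [Real.norm_eq_abs]; exact hb x))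
        (hwI.const_mul _) fun x => ?_
      exact mul_le_mul_of_nonneg_right ((le_abs_self _).trans (hb x))
        (FracScatC.wE_pos (2 * τ) θ y x).le
    have b1 := hsqb hV₁.measurable hC₁
    have b2 := hsqb hV₂.measurable hC₂
    show |(∫ x in D, (V₁ x - V₂ x) * FracScatC.wE (2 * τ) θ y x) /
      FracScatC.ma D (2 * τ) θ y| ≤ (C₁ ^ 2 + C₂ ^ 2) * (|(zt s τ).im|)⁻¹
    rw [abs_div, abs_of_pos hZ, div_le_iff₀ hZ]
    have h7 : (C₁ ^ 2 + C₂ ^ 2) * (|(zt s τ).im|)⁻¹ * FracScatC.ma D (2 * τ) θ y =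
        (C₁ ^ 2 * FracScatC.ma D (2 * τ) θ y + C₂ ^ 2 * FracScatC.ma D (2 * τ) θ y) /
          |(zt s τ).im| := by
      field_simp
    rw [h7, le_div_iff₀ hpos]
    linarith
  exact abs_nonpos_iff.1 hle

end FracScat

end
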