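import Pool.Agent.Lib.MP_6e2ba5_an.Rx.SphB
import Pool.Agent.Lib.MP_6e2ba5_an.UeqA
import Pool.Agent.Lib.MP_6e2ba5_an.FTfacts

/-! # Conclusion: `W = 0`

`sphC0`: `exp(-‖x-y‖²) = exp(-‖y‖²) exp(-‖x‖²) exp(2⟪x,y⟫)`, so `L(y) = ∫ g(x) exp(2⟪x,y⟫) dx = 0` on the ball, `g = W exp(-‖x‖²)`,
bounded with compact support. For a vector `v` the function
`ζ ↦ ∫ g(x) exp(2⟪x,y₀⟫) exp(ζ⟪x,v⟫) dx` of `ζ ∈ ℂ` is entire (differentiation under the integral,
`hasDerivAt_integral_of_dominated_loc_of_deriv_le`; or use `ev_diff` in `../UeqA.lean`) and vanishes for small real `ζ`, so it vanishes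
identically (`AnalyticOnNhd.eqOn_zero_of_preconnected_of_frequently_eq_zero`); for `ζ = -2πi` it says that the
Fourier transform of `h = g exp(2⟪·,y₀⟫)` vanishes at `v`. So `𝓕 h = 0`, `h` is integrable, and `h = 0` a.e.
(the injectivity of the Fourier transform: as `h ∈ L¹ ∩ L²`, `FT_coe_of_integrable` in `../FTfacts.lean` and
`FT` is injective; compare `eq_zero_of_ftX` in `../Cx/Modul.lean`). `sphC`: `sphB` with `F(t) = exp(-t²)`. -/

set_option autoImplicit false

open MeasureTheory Filter Topology Set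
open scoped FourierTransform SchwartzMap InnerProductSpace ENNReal BoundedContinuousFunction

noncomputable section

namespace FracScat

private theorem SphC_int (f g : HS) : ∫ x, f x * g x = (inner ℂ (star f) g : ℂ) := by
  rw [L2.inner_def]
  apply integral_congr_ae
  filter_upwards [Lp.coeFn_star f] with x hx
  rw [hx]
  simp [mul_comm]

private theorem SphC_diff (H : HS) (r : ℝ) (v : E3) :
    Differentiable ℂ (fun k : ℂ => ∫ x, H x * (ev r v k : E3 → ℂ) x) := by
  have e : (fun k : ℂ => ∫ x, H x * (ev r v k : E3 → ℂ) x) =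
      fun k => innerSL ℂ (star H) (ev r v k) := by
    funext k
    rw [innerSL_apply_apply]
    exact SphC_int H _
  rw [e]
  exact (innerSL ℂ (star H)).differentiable.comp (ev_diff r v)

/-- completing the square -/
private theorem SphC_sq (x y₀ v : E3) (t : ℝ) :
    Real.exp (-‖x - y₀‖ ^ 2) * Real.exp (t * ⟪v, x⟫_ℝ) =
      Real.exp (t * ⟪v, y₀⟫_ℝ + t ^ 2 / 4 * ‖v‖ ^ 2) *
        Real.exp (-‖x - (y₀ + (t / 2) • v)‖ ^ 2) := by
  rw [← Real.exp_add, ← Real.exp_add]
  congr 1
  have e1 : x - (y₀ + (t / 2) • v) = (x - y₀) - (t / 2) • v := by abel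
  rw [e1, norm_sub_sq_real (x - y₀) ((t / 2) • v), norm_smul, real_inner_smul_right,
    inner_sub_left, real_inner_comm x v, real_inner_comm y₀ v, Real.norm_eq_abs, mul_pow, sq_abs]
  ring

theorem sphC0 {r M ρ : ℝ} (hρ : 0 < ρ) {W : E3 → ℝ} {y₀ : E3} (hW : IsW r M W y₀ ρ)
    (h : ∀ y : E3, ‖y - y₀‖ < ρ → ∫ x, W x * Real.exp (-‖x - y‖ ^ 2) = 0) :
    ∀ᵐ x ∂(volume : Measure E3), W x = 0 := by
  set m : E3 → ℂ := fun x => ((W x * Real.exp (-‖x - y₀‖ ^ 2) : ℝ) : ℂ) with hm
  have hM0 : 0 ≤ M := (abs_nonneg _).trans (hW.bounded 0)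
  have hmb : ∀ x, ‖m x‖ ≤ M := by
    intro x
    rw [hm]
    simp only
    rw [Complex.norm_real, Real.norm_eq_abs, abs_mul, abs_of_pos (Real.exp_pos _)]
    calc |W x| * Real.exp (-‖x - y₀‖ ^ 2) ≤ M * 1 := by
          refine mul_le_mul (hW.bounded x) ?_ (Real.exp_pos _).le hM0
          exact Real.exp_le_one_iff.2 (by nlinarith [sq_nonneg ‖x - y₀‖])
      _ = M := mul_one _
  have hWm := hW.measurable
  have hmm : AEStronglyMeasurable m volume := by
    apply Measurable.aestronglyMeasurable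
    rw [hm]
    fun_prop
  have hBM : BM m := ⟨hmm, M, Eventually.of_forall hmb⟩
  have hm0 : ∀ x, ¬ ‖x‖ < r → m x = 0 := by
    intro x hx
    have h1 : W x = 0 := hW.vanish x (not_lt.1 hx)
    rw [hm]
    simp [h1]
  set H : HS := mulL m (ev r 0 0) with hH
  have hHc : (H : E3 → ℂ) =ᵐ[volume] m := by
    filter_upwards [mulL_coe hBM (ev r 0 0), ev_coe r 0 0] with x a b
    rw [hH, a, b]
    unfold indB planeWave
    split_ifs with hx
    · simp
    · rw [hm0 x hx]
      simp
  have hHe : ∀ (v : E3) (k : ℂ), (fun x => H x * (ev r v k : E3 → ℂ) x) =ᵐ[volume]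
      fun x => m x * planeWave k v x := by
    intro v k
    filter_upwards [hHc, ev_coe r v k] with x a b
    rw [a, b]
    unfold indB
    split_ifs with hx
    · rw [one_mul]
    · rw [hm0 x hx]
      simp
  have hHi : Integrable (H : E3 → ℂ) := by
    refine (integrable_mul H (ev r 0 0)).congr ?_
    filter_upwards [hHe 0 0, hHc] with x a b
    rw [a, b]
    simp [planeWave]
  have hF : ∀ v : E3, 𝓕 (H : E3 → ℂ) v = 0 := by
    intro v
    have hGd := SphC_diff H r v
    set G : ℂ → ℂ := fun k => ∫ x, H x * (ev r v k : E3 → ℂ) x with hG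
    have hG0 : ∀ t : ℝ, |t| * ‖v‖ < 2 * ρ → G (-(Complex.I * t)) = 0 := by
      intro t ht
      have h1 : G (-(Complex.I * t)) = ∫ x, m x * planeWave (-(Complex.I * t)) v x :=
        integral_congr_ae (hHe v _)
      have h2 : ∀ x, m x * planeWave (-(Complex.I * t)) v x =
          ((Real.exp (t * ⟪v, y₀⟫_ℝ + t ^ 2 / 4 * ‖v‖ ^ 2) *
            (W x * Real.exp (-‖x - (y₀ + (t / 2) • v)‖ ^ 2)) : ℝ) : ℂ) := by
        intro x
        have e1 : planeWave (-(Complex.I * t)) v x = ((Real.exp (t * ⟪v, x⟫_ℝ) : ℝ) : ℂ) := by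
          unfold planeWave
          rw [Complex.ofReal_exp]
          congr 1
          push_cast
          linear_combination (-(t : ℂ) * ((⟪v, x⟫_ℝ : ℝ) : ℂ)) * Complex.I_mul_I
        rw [e1, hm]
        simp only
        rw [← Complex.ofReal_mul, mul_assoc, SphC_sq]
        congr 1
        ring
      rw [h1]
      simp_rw [h2]
      rw [integral_complex_ofReal, integral_const_mul, h, mul_zero, Complex.ofReal_zero]
      rw [add_sub_cancel_left, norm_smul, Real.norm_eq_abs, abs_div, abs_two]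
      linarith
    have hfr : ∃ᶠ k in 𝓝[≠] (0 : ℂ), G k = 0 := by
      have hev : ∀ᶠ t : ℝ in 𝓝[≠] (0 : ℝ), G (-(Complex.I * (t : ℂ))) = 0 := by
        have hc : Tendsto (fun t : ℝ => |t| * ‖v‖) (𝓝 0) (𝓝 (|(0 : ℝ)| * ‖v‖)) :=
          (continuous_abs.mul continuous_const).tendsto 0
        rw [abs_zero, zero_mul] at hc
        exact (((hc.eventually_lt_const (by positivity : (0 : ℝ) < 2 * ρ)).filter_mono
          nhdsWithin_le_nhds).mono hG0)
      have ht : Tendsto (fun t : ℝ => -(Complex.I * (t : ℂ))) (𝓝[≠] 0) (𝓝[≠] 0) := by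
        refine tendsto_nhdsWithin_iff.2 ⟨?_, ?_⟩
        · have hc : Continuous (fun t : ℝ => -(Complex.I * (t : ℂ))) := by fun_prop
          have := hc.tendsto 0
          simp only [Complex.ofReal_zero, mul_zero, neg_zero] at this
          exact this.mono_left nhdsWithin_le_nhds
        · filter_upwards [self_mem_nhdsWithin] with t ht
          have ht' : (t : ℂ) ≠ 0 := Complex.ofReal_ne_zero.2 ht
          simp [ht']
      exact ht.frequently hev.frequently
    have hz := (hGd.differentiableOn (s := univ)).analyticOnNhd isOpen_univ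
      |>.eqOn_zero_of_preconnected_of_frequently_eq_zero isPreconnected_univ (mem_univ 0) hfr
    have hv : G (-(2 * Real.pi : ℝ)) = 0 := hz (mem_univ _)
    rw [← hv, hG, Real.fourier_eq']
    simp only
    refine integral_congr_ae ?_
    filter_upwards [hHe v (-(2 * Real.pi : ℝ)), hHc] with x a b
    rw [a, b, smul_eq_mul, mul_comm]
    congr 1
    unfold planeWave
    congr 1
    rw [real_inner_comm]
    push_cast
    ring
  have hFT : FT H = 0 := by
    apply Lp.ext
    filter_upwards [FT_coe_of_integrable H hHi, Lp.coeFn_zero ℂ 2 (volume : Measure E3)] with ξ a b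
    rw [a, b, hF]
    rfl
  have hH0 : H = 0 := (LinearIsometryEquiv.map_eq_zero_iff FT).1 hFT
  have hz0 : (H : E3 → ℂ) =ᵐ[volume] 0 := by
    rw [hH0]
    exact Lp.coeFn_zero ℂ 2 (volume : Measure E3)
  filter_upwards [hHc, hz0] with x a b
  have h1 : m x = 0 := by
    rw [← a, b]
    rfl
  have h2 : W x * Real.exp (-‖x - y₀‖ ^ 2) = 0 := by
    rw [hm] at h1
    exact Complex.ofReal_eq_zero.1 h1
  rcases mul_eq_zero.1 h2 with h3 | h3
  · exact h3
  · exact absurd h3 (Real.exp_pos _).ne'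

theorem sphC {r M ρ : ℝ} (hρ : 0 < ρ) {W : E3 → ℝ} {y₀ : E3} (hW : IsW r M W y₀ ρ) {b : ℝ}
    (hb : 1 < b) (h : ∀ y : E3, ‖y - y₀‖ < ρ → UW b W y = 0) :
    ∀ᵐ x ∂(volume : Measure E3), W x = 0 := by
  refine sphC0 hρ hW fun y hy => ?_
  exact sphB hW hb h (F := fun t => Real.exp (-t ^ 2)) (by fun_prop) y hy

end FracScat

end
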