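import Pool.Agent.Lib.MP_6e2ba5_an.Rx.LimI
import Pool.Agent.Lib.MP_6e2ba5_an.Rx.SphC
import Pool.Agent.Lib.MP_6e2ba5_an.Rx.AnaU
import Pool.Agent.Lib.MP_6e2ba5_an.Rx.HullF
import Pool.Agent.Lib.MP_6e2ba5_an.Rx.ExpD
import Pool.Agent.Lib.MP_6e2ba5_an.Final

/-! # Uniqueness from the local structure at one boundary point -/

set_option autoImplicit false

open MeasureTheory Filter Topology Set
open scoped InnerProductSpace ENNReal

noncomputable section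

namespace FracScat

private theorem finalR_pot {r M : ℝ} {V : E3 → ℝ} (hV : PotIn r V) (hM : ∀ x, |V x| ≤ M) :
    FracScatC.IsPot r M (Vc V) where
  measurable := Complex.measurable_ofReal.comp hV.measurable
  bounded := fun x => by
    show ‖((V x : ℝ) : ℂ)‖ ≤ M
    rw [Complex.norm_real]
    exact hM x
  vanish := fun x hx => by
    show ((V x : ℝ) : ℂ) = 0
    rw [hV.vanish x hx, Complex.ofReal_zero]

private theorem finalR_axis_mem {K τ : ℝ} (hK : 1 ≤ K) (hτ : K ≤ τ) :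
    Complex.I * (τ : ℂ) ∈ Reg K := by
  refine ⟨by simp, ?_, ?_⟩
  · simp only [Complex.mul_im, Complex.I_re, Complex.I_im, Complex.ofReal_re, Complex.ofReal_im]
    linarith
  · rw [norm_mul, Complex.norm_I, one_mul, Complex.norm_real, Real.norm_of_nonneg (by linarith)]
    exact hτ

private theorem finalR_kf {s : ℝ} (v : E3) :
    FracScatC.kf s v ^ 2 = ((‖v‖ ^ (-(6 + 4 * s)) : ℝ) : ℂ) := by
  unfold FracScatC.kf
  rw [← Complex.ofReal_pow, ← Real.rpow_natCast, ← Real.rpow_mul (norm_nonneg v)]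
  congr 2
  push_cast
  ring

/-- The moment identity at an exposed point. -/
private theorem finalR_moment {s : ℝ} (h0 : 3 / 4 < s) (h2 : s < 2) (h1 : s ≠ 1) {r M : ℝ}
    (hr : 0 < r) {V₁ V₂ : E3 → ℝ} (hP₁ : PotIn r V₁) (hP₂ : PotIn r V₂) (hM₁ : ∀ x, |V₁ x| ≤ M)
    (hM₂ : ∀ x, |V₂ x| ≤ M) {D : Set E3} (hD : IsCompact D) (hc : Convex ℝ D)
    (hi : (interior D).Nonempty) (hsub : D ⊆ Metric.closedBall 0 r)
    (hs₁ : ∀ᵐ x ∂(volume : Measure E3), x ∉ D → V₁ x = 0)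
    (hs₂ : ∀ᵐ x ∂(volume : Measure E3), x ∉ D → V₂ x = 0) {θ y : E3} (hy : y ∈ D)
    (hθ : ‖θ‖ = 1) (hexp : ∀ x ∈ D, x ≠ y → ⟪θ, y⟫_ℝ < ⟪θ, x⟫_ℝ) (hO : OneSign V₁ D y)
    {K : ℝ} (hK : 1 ≤ K)
    (hT₁ : ∀ k ∈ Reg K, ‖Tk s r V₁ k‖ ≤ 1 / 2) (hT₂ : ∀ k ∈ Reg K, ‖Tk s r V₂ k‖ ≤ 1 / 2)
    (hF : ∀ τ : ℝ, K ≤ τ → Ffun s r V₁ θ (Complex.I * τ) = Ffun s r V₂ θ (Complex.I * τ))
    {ρ : ℝ} (hρ : 0 < ρ) (hW : ∀ᵐ x ∂(volume : Measure E3), ‖x - y‖ < ρ → V₁ x = V₂ x) :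
    UW (6 + 4 * s) (fun x => V₁ x - V₂ x) y = 0 := by
  have hsup : ∀ V : E3 → ℝ, (∀ᵐ x ∂(volume : Measure E3), x ∉ D → V x = 0) →
      ∀ᵐ x ∂(volume : Measure E3), x ∉ D → Vc V x = 0 := by
    intro V h
    filter_upwards [h] with x hx hxD
    show ((V x : ℝ) : ℂ) = 0
    rw [hx hxD, Complex.ofReal_zero]
  -- the direction `q`
  obtain ⟨q, hq, δ, hδ, hs⟩ : ∃ q : ℝ, q ≠ 0 ∧ ∃ δ : ℝ, 0 < δ ∧
      ∀ᵐ x ∂(volume : Measure E3), x ∈ D → ‖x - y‖ < δ → q ^ 2 ≤ q * V₁ x := by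
    obtain ⟨c, δ, hc0, hδ, h | h⟩ := hO
    · refine ⟨c, hc0.ne', δ, hδ, ?_⟩
      filter_upwards [h] with x hx hxD hxy
      have := hx hxD hxy
      nlinarith
    · refine ⟨-c, neg_ne_zero.2 hc0.ne', δ, hδ, ?_⟩
      filter_upwards [h] with x hx hxD hxy
      have := hx hxD hxy
      nlinarith
  have hq' : (q : ℂ) ≠ 0 := by exact_mod_cast hq
  have hre : ∀ V : E3 → ℝ, ∀ x, ((starRingEnd ℂ) (q : ℂ) * Vc V x).re = q * V x := by
    intro V x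
    rw [Complex.conj_ofReal]
    simp only [Vc]
    rw [← Complex.ofReal_mul, Complex.ofReal_re]
  have hn : ‖(q : ℂ)‖ ^ 2 = q ^ 2 := by
    rw [Complex.norm_real, Real.norm_eq_abs, sq_abs]
  have t₁ : FracScatC.Tip r M (Vc V₁) D θ y (q : ℂ) := by
    refine ⟨finalR_pot hP₁ hM₁, hD, hc, hi, hy, hθ, hexp, hsub, hsup _ hs₁, δ, hδ, ?_⟩
    filter_upwards [hs] with x hx hxD hxy
    rw [hn, hre]
    exact hx hxD hxy
  have t₂ : FracScatC.Tip r M (Vc V₂) D θ y (q : ℂ) := by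
    refine ⟨finalR_pot hP₂ hM₂, hD, hc, hi, hy, hθ, hexp, hsub, hsup _ hs₂, min δ ρ,
      lt_min hδ hρ, ?_⟩
    filter_upwards [hs, hW] with x hx hx' hxD hxy
    rw [hn, hre, ← hx' (hxy.trans_le (min_le_right _ _))]
    exact hx hxD (hxy.trans_le (min_le_left _ _))
  have hW' : ∀ᵐ x ∂(volume : Measure E3), ‖x - y‖ < ρ → Vc V₁ x = Vc V₂ x := by
    filter_upwards [hW] with x hx hxy
    show ((V₁ x : ℝ) : ℂ) = ((V₂ x : ℝ) : ℂ)
    rw [hx hxy]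
  have key := FracScatC.limI h0 h2 h1 hr hq' t₁ t₂ hK hT₁ hT₂ hF hρ hW'
  have e2 : (fun x : E3 => (Vc V₁ x - Vc V₂ x) * FracScatC.kf s (x - y) ^ 2) =
      fun x : E3 => (((V₁ x - V₂ x) * ‖x - y‖ ^ (-(6 + 4 * s)) : ℝ) : ℂ) := by
    funext x
    rw [finalR_kf]
    simp only [Vc]
    push_cast
    ring
  rw [e2, integral_complex_ofReal] at key
  exact_mod_cast key

/-- Uniqueness from the local structure at one boundary point of the hull: near `y₀`, `V₁ - V₂` is analytic on the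
hull, and analytic functions are determined by their values at the exposed points of the hull at which `V₁` is
nondegenerate. -/
theorem final_R {s : ℝ} (h0 : 3 / 4 < s) (h2 : s < 2) (h1 : s ≠ 1) {V₁ V₂ : E3 → ℝ}
    (hV₁ : IsPotential V₁) (hV₂ : IsPotential V₂) {y₀ : E3} {ρ : ℝ} (hρ : 0 < ρ)
    {p : E3 → ℝ} (hp : AnalyticOnNhd ℝ p (Metric.ball y₀ ρ))
    (hl : ∀ᵐ x ∂(volume : Measure E3), x ∈ hullV V₁ → x ∈ Metric.ball y₀ ρ → V₁ x - V₂ x = p x)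
    (hE : ∀ f : E3 → ℝ, AnalyticOnNhd ℝ f (Metric.ball y₀ ρ) →
      (∀ y ∈ (hullV V₁).exposedPoints ℝ, y ∈ Metric.ball y₀ ρ → OneSign V₁ (hullV V₁) y →
        f y = 0) → ∀ y ∈ Metric.ball y₀ ρ, f y = 0) :
    ∃ K : ℝ, 0 < K ∧ ∀ a b : ℝ, K ≤ a → a < b →
      (∀ θ : E3, ‖θ‖ = 1 → ∀ k ∈ Ioo a b, SameBackScattering s k V₁ V₂ θ) →
      V₁ =ᵐ[volume] V₂ := by
  have h0' : 1 / 2 < s := by linarith
  obtain ⟨r, hr, hP₁, hP₂⟩ := exists_PotIn hV₁ hV₂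
  obtain ⟨M₁, hM₁⟩ := hP₁.bounded
  obtain ⟨M₂, hM₂⟩ := hP₂.bounded
  set M := max M₁ M₂ with hMdef
  have hM₁' : ∀ x, |V₁ x| ≤ M := fun x => (hM₁ x).trans (le_max_left _ _)
  have hM₂' : ∀ x, |V₂ x| ≤ M := fun x => (hM₂ x).trans (le_max_right _ _)
  obtain ⟨K₁, hK₁, hT₁⟩ := exists_K h0' h2 hr hP₁
  obtain ⟨K₂, _, hT₂⟩ := exists_K h0' h2 hr hP₂
  obtain ⟨K₃, _, hh⟩ := final_hull h0' h2 h1 hV₁ hV₂
  obtain ⟨K₄, _, hm⟩ := main_moments h0' h2 h1 hV₁ hV₂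
  set K := max (max K₁ K₂) (max K₃ K₄) with hKdef
  have hKK₁ : K₁ ≤ K := (le_max_left _ _).trans (le_max_left _ _)
  have hKK₂ : K₂ ≤ K := (le_max_right _ _).trans (le_max_left _ _)
  have hKK₃ : K₃ ≤ K := (le_max_left _ _).trans (le_max_right _ _)
  have hKK₄ : K₄ ≤ K := (le_max_right _ _).trans (le_max_right _ _)
  have hK1 : 1 ≤ K := hK₁.trans hKK₁
  have hTT₁ : ∀ k ∈ Reg K, ‖Tk s r V₁ k‖ ≤ 1 / 2 := fun k hk =>
    hT₁ k ⟨hk.1, hk.2.1, hKK₁.trans hk.2.2⟩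
  have hTT₂ : ∀ k ∈ Reg K, ‖Tk s r V₂ k‖ ≤ 1 / 2 := fun k hk =>
    hT₂ k ⟨hk.1, hk.2.1, hKK₂.trans hk.2.2⟩
  refine ⟨K, by linarith, fun a b ha hab hd => ?_⟩
  have hDD : hullV V₁ = hullV V₂ := (hh a b (hKK₃.trans ha) hab).2 hd
  have hcen : y₀ ∈ Metric.ball y₀ ρ := Metric.mem_ball_self hρ
  -- there is an exposed point in the ball
  obtain ⟨z, hz, hzb⟩ : ∃ z ∈ (hullV V₁).exposedPoints ℝ, z ∈ Metric.ball y₀ ρ := by
    by_contra hcon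
    push Not at hcon
    have := hE (fun _ => 1) (fun x _ => analyticAt_const)
      (fun y hy hyb _ => absurd hyb (hcon y hy)) y₀ hcen
    exact one_ne_zero this
  have hV₁0 : ¬ ∀ᵐ x ∂(volume : Measure E3), V₁ x = 0 := by
    intro h
    have h3 := hull_empty h
    rw [h3] at hz
    exact hz.1
  have hi := hull_interior hV₁0
  have hD := hull_compact hP₁.vanish
  have hc := hull_convex V₁
  have hsub := hull_sub hP₁.vanish
  have hs₁ := hull_supp V₁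
  have hs₂ := hull_supp V₂
  rw [← hDD] at hs₂
  -- the two potentials agree in the ball
  have hp0 : ∀ y ∈ Metric.ball y₀ ρ, p y = 0 := by
    refine hE p hp fun x hx hxb _ => ?_
    obtain ⟨hxD, θ, hθ, hexp⟩ := exposed_dir hi hx
    refine expD h0' h2 h1 hV₁ hV₂ hD hc hi hs₁ hs₂ hxD hexp (fun ε hε => ?_)
      (hm θ hθ a b (hKK₄.trans ha) hab (hd θ hθ))
    obtain ⟨δ₁, hδ₁, h₁⟩ := Metric.continuousAt_iff.1 (hp x hxb).continuousAt ε hε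
    obtain ⟨δ₂, hδ₂, h₂⟩ := Metric.isOpen_iff.1 Metric.isOpen_ball x hxb
    refine ⟨min δ₁ δ₂, lt_min hδ₁ hδ₂, ?_⟩
    filter_upwards [hl] with w hw hwD hwx
    have e1 : w ∈ Metric.ball y₀ ρ := h₂ (by
      rw [Metric.mem_ball, dist_eq_norm]
      exact hwx.trans_le (min_le_right _ _))
    rw [hw hwD e1]
    have := h₁ (x := w) (by
      rw [dist_eq_norm]
      exact hwx.trans_le (min_le_left _ _))
    rwa [Real.dist_eq] at this
  have hW : ∀ᵐ x ∂(volume : Measure E3), x ∈ Metric.ball y₀ ρ → V₁ x = V₂ x := by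
    filter_upwards [hl, hs₁, hs₂] with x e1 e3 e4 hx
    by_cases hxD : x ∈ hullV V₁
    · have := e1 hxD hx
      rw [hp0 x hx] at this
      linarith
    · rw [e3 hxD, e4 hxD]
  have hr1 : ∀ y ∈ Metric.ball y₀ ρ, ∀ᵐ x ∂(volume : Measure E3),
      ‖x - y‖ < ρ - ‖y - y₀‖ → V₁ x = V₂ x := by
    intro y hy
    filter_upwards [hW] with x hx hxy
    apply hx
    rw [Metric.mem_ball, dist_eq_norm]
    have : ‖x - y₀‖ ≤ ‖x - y‖ + ‖y - y₀‖ := by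
      have := norm_add_le (x - y) (y - y₀)
      rwa [sub_add_sub_cancel] at this
    linarith
  have hWm : Measurable (fun x => V₁ x - V₂ x) := hP₁.measurable.sub hP₂.measurable
  have hWb : ∀ x, |V₁ x - V₂ x| ≤ M + M := fun x =>
    (abs_sub _ _).trans (add_le_add (hM₁' x) (hM₂' x))
  have hWv : ∀ x, r ≤ ‖x‖ → V₁ x - V₂ x = 0 := fun x hx => by
    rw [hP₁.vanish x hx, hP₂.vanish x hx, sub_zero]
  have hIW0 : IsW r (M + M) (fun x => V₁ x - V₂ x) y₀ ρ := by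
    refine ⟨hWm, hWb, hWv, ?_⟩
    filter_upwards [hW] with x hx hxy
    exact sub_eq_zero.2 (hx (by rwa [Metric.mem_ball, dist_eq_norm]))
  -- the potential vanishes in the ball
  have hU : ∀ y ∈ Metric.ball y₀ ρ, UW (6 + 4 * s) (fun x => V₁ x - V₂ x) y = 0 := by
    refine hE (fun y => UW (6 + 4 * s) (fun x => V₁ x - V₂ x) y) (anaU hIW0 _)
      fun x hx hxb hO => ?_
    obtain ⟨hxD, θ, hθ, hexp⟩ := exposed_dir hi hx
    have hF : ∀ τ : ℝ, K ≤ τ → Ffun s r V₁ θ (Complex.I * τ) = Ffun s r V₂ θ (Complex.I * τ) :=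
      fun τ hτ => data_axis h0' h2 hr hP₁ hP₂ hθ hK1 hTT₁ hTT₂ ha hab (hd θ hθ) τ hτ
    have hpos : 0 < ρ - ‖x - y₀‖ := by
      have := Metric.mem_ball.1 hxb
      rw [dist_eq_norm] at this
      linarith
    exact finalR_moment h0 h2 h1 hr hP₁ hP₂ hM₁' hM₂' hD hc hi hsub hs₁ hs₂ hxD hθ hexp hO hK1
      hTT₁ hTT₂ hF hpos (hr1 x hxb)
  have hzero := sphC hρ hIW0 (b := 6 + 4 * s) (by linarith)
    (fun y hy => hU y (by rwa [Metric.mem_ball, dist_eq_norm]))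
  filter_upwards [hzero] with x hx
  exact sub_eq_zero.1 hx

end FracScat

end
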