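import Pool.Agent.Lib.MP_6e2ba5_an.Rx.ExAn
import Pool.Agent.Lib.MP_6e2ba5_an.Rx.ExGeo
import Pool.Agent.Lib.MP_6e2ba5_an.Rx.ExHull
import Pool.Agent.Lib.MP_6e2ba5_an.Rx.FinalR

/-! # Reference potentials

For every `R` there is a compact convex body `D` which contains the ball of radius `R` and such that for arbitrary real
bounded `W₁, W₂` vanishing outside this ball the back-scattering data of `1_D + W₁` and `1_D + W₂` determine `W_j`. -/

set_option autoImplicit false

open MeasureTheory Filter Topology Set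
open scoped InnerProductSpace ENNReal

noncomputable section

namespace FracScat

theorem Rich_DR : Rich DR 0 (1 / 8) := by
  intro f hf h
  refine exAn (by norm_num) hf fun u v huv => h _ (DR_exposed ?_) huv
  exact Metric.ball_subset_ball (by norm_num) huv

/-- A convex body with a large ball inside and an analytically rich boundary piece outside of the ball. -/
theorem exists_body (R : ℝ) (hR : 0 < R) : ∃ (D : Set E3) (y₀ : E3) (ρ : ℝ), IsCompact D ∧
    Convex ℝ D ∧ Metric.closedBall 0 R ⊆ interior D ∧ 0 < ρ ∧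
    Disjoint (Metric.closedBall 0 R) (Metric.ball y₀ ρ) ∧ Rich D y₀ ρ := by
  set c : E3 := pt3 0 0 (1 / 4) with hc
  set T : E3 → E3 := fun x => (16 * R) • (x - c) with hT
  have hR' : (0 : ℝ) < 16 * R := by linarith
  have hcn : ‖c‖ = 1 / 4 := by
    rw [hc, EuclideanSpace.norm_eq, Fin.sum_univ_three]
    simp only [pt3_0, pt3_1, pt3_2]
    norm_num
  have hTc : Continuous T := by fun_prop
  refine ⟨T '' DR, (16 * R) • ((0 : E3) - c), 16 * R * (1 / 8), DR_compact.image hTc, ?_, ?_,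
    by positivity, ?_, Rich_image Rich_DR hR' c⟩
  · have h1 : T '' DR = (fun x : E3 => (16 * R) • x) '' ((fun x : E3 => x - c) '' DR) := by
      rw [image_image]
    rw [h1]
    refine Convex.smul (Convex.sub (𝕜 := ℝ) DR_convex (convex_singleton c) |> fun h => ?_) (16 * R)
    rwa [sub_singleton] at h
  · intro x hx
    rw [Metric.mem_closedBall, dist_zero_right] at hx
    refine mem_interior.2 ⟨Metric.ball 0 (2 * R), ?_, Metric.isOpen_ball, ?_⟩
    · intro z hz
      rw [Metric.mem_ball, dist_zero_right] at hz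
      refine ⟨(16 * R)⁻¹ • z + c, DR_mem ?_, ?_⟩
      · rw [add_sub_cancel_right, norm_smul, Real.norm_of_nonneg (by positivity)]
        rw [inv_mul_le_iff₀ hR']
        linarith
      · simp only [hT]
        rw [add_sub_cancel_right, smul_inv_smul₀ hR'.ne']
    · rw [Metric.mem_ball, dist_zero_right]
      linarith
  · rw [Set.disjoint_left]
    intro x hx hx'
    rw [Metric.mem_closedBall, dist_zero_right] at hx
    rw [Metric.mem_ball, dist_eq_norm] at hx'
    have h1 : ‖(16 * R) • ((0 : E3) - c)‖ = 4 * R := by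
      rw [norm_smul, Real.norm_of_nonneg hR'.le, zero_sub, norm_neg, hcn]
      ring
    have h2 : ‖(16 * R) • ((0 : E3) - c)‖ ≤ ‖x - (16 * R) • ((0 : E3) - c)‖ + ‖x‖ := by
      rw [← norm_neg ((16 * R) • ((0 : E3) - c))]
      have h3 : -((16 * R) • ((0 : E3) - c)) = (x - (16 * R) • ((0 : E3) - c)) - x := by
        abel
      rw [h3]
      exact norm_sub_le _ _
    linarith

theorem reference {R : ℝ} (hR : 0 < R) : ∃ D : Set E3, IsCompact D ∧ Convex ℝ D ∧
    Metric.closedBall 0 R ⊆ interior D ∧ ∀ s : ℝ, 3 / 4 < s → s < 2 → s ≠ 1 →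
    ∀ W₁ W₂ : E3 → ℝ, Measurable W₁ → Measurable W₂ → (∃ M, ∀ x, |W₁ x| ≤ M) →
    (∃ M, ∀ x, |W₂ x| ≤ M) → (∀ x, R < ‖x‖ → W₁ x = 0) → (∀ x, R < ‖x‖ → W₂ x = 0) →
    ∃ K : ℝ, 0 < K ∧ ∀ a b : ℝ, K ≤ a → a < b →
      (∀ θ : E3, ‖θ‖ = 1 → ∀ k ∈ Ioo a b, SameBackScattering s k
        (fun x => D.indicator (fun _ => (1 : ℝ)) x + W₁ x)
        (fun x => D.indicator (fun _ => (1 : ℝ)) x + W₂ x) θ) → W₁ =ᵐ[volume] W₂ := by
  obtain ⟨D, y₀, ρ, hD, hc, hB, hρ, hdis, hrich⟩ := exists_body R hR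
  refine ⟨D, hD, hc, hB, fun s h0 h2 h1 W₁ W₂ hm₁ hm₂ hb₁ hb₂ hv₁ hv₂ => ?_⟩
  have hi : (interior D).Nonempty := ⟨0, hB (Metric.mem_closedBall_self hR.le)⟩
  have hDm : MeasurableSet D := hD.measurableSet
  have hpot : ∀ W : E3 → ℝ, Measurable W → (∃ M, ∀ x, |W x| ≤ M) → (∀ x, R < ‖x‖ → W x = 0) →
      IsPotential (fun x => D.indicator (fun _ => (1 : ℝ)) x + W x) := by
    intro W hm ⟨M, hM⟩ hv
    obtain ⟨r, hr⟩ := hD.isBounded.subset_closedBall (0 : E3)
    refine ⟨(measurable_const.indicator hDm).add hm, ⟨1 + M, fun x => ?_⟩, ⟨max r R, fun x hx => ?_⟩⟩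
    · refine (abs_add_le _ _).trans (add_le_add ?_ (hM x))
      by_cases h : x ∈ D
      · rw [indicator_of_mem h]; simp
      · rw [indicator_of_notMem h]; simp
    · have h3 : x ∉ D := fun h => by
        have := hr h
        rw [Metric.mem_closedBall, dist_zero_right] at this
        exact absurd (this.trans (le_max_left r R)) (not_le.2 hx)
      rw [indicator_of_notMem h3, hv x ((le_max_right _ _).trans_lt hx), zero_add]
  have hW0 : ∀ W : E3 → ℝ, (∀ x, R < ‖x‖ → W x = 0) →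
      ∀ x, x ∉ Metric.closedBall (0 : E3) R → W x = 0 := fun W hv x hx => by
    rw [Metric.mem_closedBall, dist_zero_right, not_le] at hx
    exact hv x hx
  have hh₁ := hull_ref hD hc hi hB (hW0 W₁ hv₁)
  have hvan : ∀ W : E3 → ℝ, (∀ x, R < ‖x‖ → W x = 0) → ∀ x ∈ Metric.ball y₀ ρ, W x = 0 :=
    fun W hv x hx => hW0 W hv x fun h => Set.disjoint_left.1 hdis h hx
  obtain ⟨K, hK, h⟩ := final_R h0 h2 h1 (hpot W₁ hm₁ hb₁ hv₁) (hpot W₂ hm₂ hb₂ hv₂) hρ
    (p := fun _ => 0) (fun x _ => analyticAt_const)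
    (Eventually.of_forall fun x _ hx => by
      rw [hvan W₁ hv₁ x hx, hvan W₂ hv₂ x hx]
      ring) (by
    intro f hf hz
    refine hrich f hf fun y hy hyb => hz y (by rwa [hh₁]) hyb ?_
    rw [hh₁]
    refine ⟨1, ρ - ‖y - y₀‖, one_pos, ?_, Or.inl (Eventually.of_forall fun x hx hxy => ?_)⟩
    · have := Metric.mem_ball.1 hyb
      rw [dist_eq_norm] at this
      linarith
    · show (1 : ℝ) ≤ D.indicator (fun _ => (1 : ℝ)) x + W₁ x
      rw [indicator_of_mem hx, hvan W₁ hv₁ x ?_, add_zero]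
      rw [Metric.mem_ball, dist_eq_norm]
      have : ‖x - y₀‖ ≤ ‖x - y‖ + ‖y - y₀‖ := by
        have := norm_add_le (x - y) (y - y₀)
        rwa [sub_add_sub_cancel] at this
      linarith)
  refine ⟨K, hK, fun a b ha hab hd => ?_⟩
  filter_upwards [h a b ha hab hd] with x hx
  exact add_left_cancel hx

end FracScat

end
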