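import Pool.Agent.Lib.MP_6e2ba5_an.Rx.UDefs

/-! # A convex body whose boundary is not analytic near a point: definitions -/

set_option autoImplicit false

open MeasureTheory Filter Topology Set
open scoped InnerProductSpace ENNReal

noncomputable section

namespace FracScat

/-- The point with coordinates `u, v, t`. -/
def pt3 (u v t : ℝ) : E3 := WithLp.toLp 2 ![u, v, t]

@[simp] theorem pt3_0 (u v t : ℝ) : pt3 u v t 0 = u := rfl

@[simp] theorem pt3_1 (u v t : ℝ) : pt3 u v t 1 = v := rfl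

@[simp] theorem pt3_2 (u v t : ℝ) : pt3 u v t 2 = t := rfl

/-- The height of the boundary of the body over `(u, v)`. -/
def phR (u v : ℝ) : ℝ := u ^ 2 + v ^ 2 + expNegInvGlue u

/-- The convex body `{x₀² + x₁² + expNegInvGlue x₀ ≤ x₂, ‖x‖ ≤ 1/2}`. -/
def DR : Set E3 := {x : E3 | phR (x 0) (x 1) ≤ x 2} ∩ Metric.closedBall 0 (1 / 2)

/-- Real analytic functions on the ball which vanish at the exposed points of `D` in the ball are zero. -/
def Rich (D : Set E3) (y₀ : E3) (ρ : ℝ) : Prop :=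
  ∀ f : E3 → ℝ, AnalyticOnNhd ℝ f (Metric.ball y₀ ρ) →
    (∀ y ∈ D.exposedPoints ℝ, y ∈ Metric.ball y₀ ρ → f y = 0) →
    ∀ y ∈ Metric.ball y₀ ρ, f y = 0

end FracScat

end
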