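import Pool.Agent.Lib.MP_6e2ba5_an.Rx.LapC
import Pool.Agent.Lib.MP_6e2ba5_an.Rx.UDefs
import Pool.Agent.Lib.MP_6e2ba5_an.Main

/-! # Equality of the limits at an exposed point

As `exposed_eq` in `../ConvexA.lean`, for potentials which are only bounded away from `y`. `pe τ θ x ^ 2 = exp(-2τ θ·y) wE (2τ) θ y x`. Divide
`hm` by `exp(-2τ θ·y) ma D (2τ) θ y`: by `lapC` (for `V_j` and `V_j²`, as complex functions, along `2τ → ∞`; the integrals over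
the whole space are integrals over `D`) `∫ (V₁-V₂) pe² / (..) → q₁-q₂` and the right side tends to `q₁²+q₂²`, while `|(zt s τ).im| → ∞`
(`zt_im`, `sin_pi_ne`). So `q₁ = q₂`. -/

set_option autoImplicit false

open MeasureTheory Filter Topology Set
open scoped FourierTransform SchwartzMap InnerProductSpace ENNReal BoundedContinuousFunction

noncomputable section

namespace FracScat

private theorem expQ_pe (τ : ℝ) (θ y x : E3) :
    pe τ θ x ^ 2 = Real.exp (-(2 * τ * ⟪θ, y⟫_ℝ)) * FracScatC.wE (2 * τ) θ y x := by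
  unfold pe FracScatC.wE
  rw [← Real.exp_nat_mul, ← Real.exp_add, inner_sub_right]
  congr 1
  push_cast
  ring

private theorem expQ_int {D : Set E3} {W : E3 → ℝ}
    (hs : ∀ᵐ x ∂(volume : Measure E3), x ∉ D → W x = 0) (τ : ℝ) (θ y : E3) :
    ∫ x, W x * pe τ θ x ^ 2 =
      Real.exp (-(2 * τ * ⟪θ, y⟫_ℝ)) * ∫ x in D, W x * FracScatC.wE (2 * τ) θ y x := by
  have h1 : ∫ x in D, W x * pe τ θ x ^ 2 = ∫ x, W x * pe τ θ x ^ 2 := by
    refine setIntegral_eq_integral_of_ae_compl_eq_zero ?_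
    filter_upwards [hs] with x hx hxD
    rw [hx hxD, zero_mul]
  rw [← h1, ← integral_const_mul]
  congr 1
  funext x
  rw [expQ_pe τ θ y x]
  ring

private theorem expQ_lap {D : Set E3} (hD : IsCompact D) (hc : Convex ℝ D)
    (hi : (interior D).Nonempty) {θ y : E3} (hy : y ∈ D)
    (hexp : ∀ x ∈ D, x ≠ y → ⟪θ, y⟫_ℝ < ⟪θ, x⟫_ℝ) {g : E3 → ℝ} (hg : Measurable g) {B : ℝ}
    (hB : ∀ x, |g x| ≤ B) {q : ℝ}
    (hq : ∀ ε : ℝ, 0 < ε → ∃ δ : ℝ, 0 < δ ∧ ∀ᵐ x ∂(volume : Measure E3), x ∈ D → ‖x - y‖ < δ →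
      |g x - q| < ε) :
    Tendsto (fun τ : ℝ => (∫ x in D, g x * FracScatC.wE (2 * τ) θ y x) /
      FracScatC.ma D (2 * τ) θ y) atTop (𝓝 q) := by
  have h1 := FracScatC.lapC hD hc hi hy hexp (g := fun x => ((g x : ℝ) : ℂ))
    (Complex.measurable_ofReal.comp hg).aestronglyMeasurable (B := B)
    (Eventually.of_forall fun x _ => by
      rw [Complex.norm_real, Real.norm_eq_abs]; exact hB x) (q := ((q : ℝ) : ℂ))
    (fun ε hε => by
      obtain ⟨δ, hδ, h⟩ := hq ε hε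
      refine ⟨δ, hδ, ?_⟩
      filter_upwards [h] with x hx hxD hxy
      rw [← Complex.ofReal_sub, Complex.norm_real, Real.norm_eq_abs]
      exact hx hxD hxy)
  have h2 := (Complex.continuous_re.tendsto _).comp h1
  rw [Complex.ofReal_re] at h2
  have h3 : Tendsto (fun τ : ℝ => (∫ x in D, g x * FracScatC.wE τ θ y x) /
      FracScatC.ma D τ θ y) atTop (𝓝 q) := by
    refine h2.congr fun τ => ?_
    simp only [Function.comp_apply]
    have h4 : ∫ x in D, ((g x : ℝ) : ℂ) * ((FracScatC.wE τ θ y x : ℝ) : ℂ) =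
        ((∫ x in D, g x * FracScatC.wE τ θ y x : ℝ) : ℂ) := by
      rw [← integral_complex_ofReal]
      congr 1
      funext x
      push_cast
      rfl
    rw [h4, ← Complex.ofReal_div, Complex.ofReal_re]
  exact h3.comp (tendsto_id.const_mul_atTop (by norm_num : (0 : ℝ) < 2))

private theorem expQ_sq {D : Set E3} {g : E3 → ℝ} {y : E3} {q : ℝ}
    (hq : ∀ ε : ℝ, 0 < ε → ∃ δ : ℝ, 0 < δ ∧ ∀ᵐ x ∂(volume : Measure E3), x ∈ D → ‖x - y‖ < δ →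
      |g x - q| < ε) :
    ∀ ε : ℝ, 0 < ε → ∃ δ : ℝ, 0 < δ ∧ ∀ᵐ x ∂(volume : Measure E3), x ∈ D → ‖x - y‖ < δ →
      |g x ^ 2 - q ^ 2| < ε := by
  intro ε hε
  have hpos : 0 < 2 * |q| + 2 := by positivity
  obtain ⟨δ, hδ, h⟩ := hq (min 1 (ε / (2 * |q| + 2))) (lt_min one_pos (by positivity))
  refine ⟨δ, hδ, ?_⟩
  filter_upwards [h] with x hx hxD hxy
  have h1 := hx hxD hxy
  have h2 : |g x - q| < 1 := h1.trans_le (min_le_left _ _)
  have h3 : |g x - q| < ε / (2 * |q| + 2) := h1.trans_le (min_le_right _ _)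
  have h4 : |g x + q| ≤ 2 * |q| + 1 := by
    have : g x + q = (g x - q) + 2 * q := by ring
    rw [this]
    refine (abs_add_le _ _).trans ?_
    rw [abs_mul, abs_of_pos (by norm_num : (0 : ℝ) < 2)]
    linarith
  have h5 : g x ^ 2 - q ^ 2 = (g x - q) * (g x + q) := by ring
  rw [h5, abs_mul]
  rw [lt_div_iff₀ hpos] at h3
  refine lt_of_le_of_lt (mul_le_mul_of_nonneg_left h4 (abs_nonneg _)) ?_
  nlinarith [abs_nonneg (g x - q)]

theorem expQ {s : ℝ} (h0 : 1 / 2 < s) (h2 : s < 2) (h1 : s ≠ 1) {V₁ V₂ : E3 → ℝ}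
    (hV₁ : IsPotential V₁) (hV₂ : IsPotential V₂) {D : Set E3} (hD : IsCompact D)
    (hc : Convex ℝ D) (hi : (interior D).Nonempty)
    (hs₁ : ∀ᵐ x ∂(volume : Measure E3), x ∉ D → V₁ x = 0)
    (hs₂ : ∀ᵐ x ∂(volume : Measure E3), x ∉ D → V₂ x = 0) {θ y : E3} (hy : y ∈ D)
    (hexp : ∀ x ∈ D, x ≠ y → ⟪θ, y⟫_ℝ < ⟪θ, x⟫_ℝ) {q₁ q₂ : ℝ}
    (hl₁ : ∀ ε : ℝ, 0 < ε → ∃ δ : ℝ, 0 < δ ∧ ∀ᵐ x ∂(volume : Measure E3), x ∈ D → ‖x - y‖ < δ →
      |V₁ x - q₁| < ε)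
    (hl₂ : ∀ ε : ℝ, 0 < ε → ∃ δ : ℝ, 0 < δ ∧ ∀ᵐ x ∂(volume : Measure E3), x ∈ D → ‖x - y‖ < δ →
      |V₂ x - q₂| < ε) {K : ℝ}
    (hm : ∀ τ : ℝ, K ≤ τ → |(zt s τ).im| * |∫ x, (V₁ x - V₂ x) * pe τ θ x ^ 2| ≤
      (∫ x, V₁ x ^ 2 * pe τ θ x ^ 2) + ∫ x, V₂ x ^ 2 * pe τ θ x ^ 2) : q₁ = q₂ := by
  obtain ⟨C₁, hC₁⟩ := hV₁.bounded
  obtain ⟨C₂, hC₂⟩ := hV₂.bounded
  have hsq : ∀ {V : E3 → ℝ} {C : ℝ}, (∀ x, |V x| ≤ C) → ∀ x, |V x ^ 2| ≤ C ^ 2 := by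
    intro V C hC x
    rw [abs_pow]
    exact pow_le_pow_left₀ (abs_nonneg _) (hC x) 2
  have t1 := expQ_lap hD hc hi hy hexp (g := fun x => V₁ x - V₂ x)
    (hV₁.measurable.sub hV₂.measurable) (B := C₁ + C₂)
    (fun x => (abs_sub _ _).trans (add_le_add (hC₁ x) (hC₂ x))) (q := q₁ - q₂) (by
      intro ε hε
      obtain ⟨δ₁, hδ₁, a₁⟩ := hl₁ (ε / 2) (by linarith)
      obtain ⟨δ₂, hδ₂, a₂⟩ := hl₂ (ε / 2) (by linarith)
      refine ⟨min δ₁ δ₂, lt_min hδ₁ hδ₂, ?_⟩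
      filter_upwards [a₁, a₂] with x b₁ b₂ hxD hxy
      have c₁ := b₁ hxD (hxy.trans_le (min_le_left _ _))
      have c₂ := b₂ hxD (hxy.trans_le (min_le_right _ _))
      have : V₁ x - V₂ x - (q₁ - q₂) = (V₁ x - q₁) - (V₂ x - q₂) := by ring
      rw [this]
      refine (abs_sub _ _).trans_lt ?_
      linarith)
  have t2 := expQ_lap hD hc hi hy hexp (g := fun x => V₁ x ^ 2) (hV₁.measurable.pow_const 2)
    (hsq hC₁) (expQ_sq hl₁)
  have t3 := expQ_lap hD hc hi hy hexp (g := fun x => V₂ x ^ 2) (hV₂.measurable.pow_const 2)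
    (hsq hC₂) (expQ_sq hl₂)
  have hsin : 0 < |Real.sin (Real.pi * s)| := abs_pos.2 (sin_pi_ne (by linarith) h2 h1)
  have him : Tendsto (fun τ : ℝ => |(zt s τ).im|) atTop atTop := by
    have h3 : Tendsto (fun τ : ℝ => τ ^ (2 * s) * |Real.sin (Real.pi * s)|) atTop atTop :=
      (tendsto_rpow_atTop (by linarith)).atTop_mul_const hsin
    refine h3.congr' ?_
    filter_upwards [eventually_gt_atTop 0] with τ hτ
    rw [zt_im hτ, abs_mul, abs_of_nonneg (Real.rpow_nonneg hτ.le _)]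
  have t4 := (t2.add t3).mul him.inv_tendsto_atTop
  rw [mul_zero] at t4
  have t5 := t1.abs
  have hle : |q₁ - q₂| ≤ 0 := by
    refine le_of_tendsto_of_tendsto t5 t4 ?_
    filter_upwards [eventually_ge_atTop K, him.eventually_gt_atTop 0] with τ hτ hpos
    have h5 := hm τ hτ
    rw [expQ_int (W := fun x => V₁ x - V₂ x) (D := D) (by
        filter_upwards [hs₁, hs₂] with x a₁ a₂ hx
        rw [a₁ hx, a₂ hx, sub_zero]) τ θ y,
      expQ_int (W := fun x => V₁ x ^ 2) (D := D) (by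
        filter_upwards [hs₁] with x a₁ hx
        rw [a₁ hx]; norm_num) τ θ y,
      expQ_int (W := fun x => V₂ x ^ 2) (D := D) (by
        filter_upwards [hs₂] with x a₂ hx
        rw [a₂ hx]; norm_num) τ θ y, abs_mul, abs_of_pos (Real.exp_pos _)] at h5
    have hE := Real.exp_pos (-(2 * τ * ⟪θ, y⟫_ℝ))
    obtain ⟨E, hE'⟩ : ∃ E, E = Real.exp (-(2 * τ * ⟪θ, y⟫_ℝ)) := ⟨_, rfl⟩
    rw [← hE'] at h5 hE
    have h6 : |(zt s τ).im| * |∫ x in D, (V₁ x - V₂ x) * FracScatC.wE (2 * τ) θ y x| ≤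
        (∫ x in D, V₁ x ^ 2 * FracScatC.wE (2 * τ) θ y x) +
          ∫ x in D, V₂ x ^ 2 * FracScatC.wE (2 * τ) θ y x := by
      refine le_of_mul_le_mul_left ?_ hE
      linarith
    have hZ := FracScatC.ma_pos hD hi (2 * τ) θ y
    show |(∫ x in D, (V₁ x - V₂ x) * FracScatC.wE (2 * τ) θ y x) /
      FracScatC.ma D (2 * τ) θ y| ≤ ((∫ x in D, V₁ x ^ 2 * FracScatC.wE (2 * τ) θ y x) /
      FracScatC.ma D (2 * τ) θ y + (∫ x in D, V₂ x ^ 2 * FracScatC.wE (2 * τ) θ y x) /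
      FracScatC.ma D (2 * τ) θ y) * (|(zt s τ).im|)⁻¹
    rw [abs_div, abs_of_pos hZ, ← add_div, div_le_iff₀ hZ]
    have h7 : ((∫ x in D, V₁ x ^ 2 * FracScatC.wE (2 * τ) θ y x) +
        ∫ x in D, V₂ x ^ 2 * FracScatC.wE (2 * τ) θ y x) /
        FracScatC.ma D (2 * τ) θ y * (|(zt s τ).im|)⁻¹ * FracScatC.ma D (2 * τ) θ y =
        ((∫ x in D, V₁ x ^ 2 * FracScatC.wE (2 * τ) θ y x) +
          ∫ x in D, V₂ x ^ 2 * FracScatC.wE (2 * τ) θ y x) / |(zt s τ).im| := by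
      field_simp
    rw [h7, le_div_iff₀ hpos]
    linarith
  have h8 := abs_nonpos_iff.1 hle
  linarith

end FracScat

end
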