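import Pool.Agent.Lib.MP_6e2ba5_an.Rx.Defs

/-! # The mass of the exponential

`ma_lower`: for `τ ≥ 1` the set `y + τ⁻¹(D-y)` is contained in `D` (convexity, `y ∈ D`) and has volume
`τ⁻³ vol D`, `vol D > 0` (nonempty interior); on it `|τ θ·(x-y)| ≤ ‖θ‖ diam D`, so
`wE ≥ exp(-‖θ‖ diam D)`. (`Measure.addHaar_smul`, `AffineMap.homothety`, `Measure.addHaar_image_homothety`,
`finrank ℝ E3 = 3`.) `wE` is continuous and `D` compact, so everything is integrable.
`far_dir`: the set `D ∩ {ρ ≤ ‖x-y‖}` is compact, the continuous function `θ·(x-y)` is positive on it; take its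
minimum (`1` if it is empty). `far_small`: `ma ≥ c τ⁻³` and `τ^(m+3) exp(-δτ) → 0`
(`Real.tendsto_rpow_mul_exp_neg_mul_atTop_nhds_zero` or similar). -/

set_option autoImplicit false

open MeasureTheory Filter Topology Set
open scoped FourierTransform SchwartzMap InnerProductSpace ENNReal BoundedContinuousFunction

noncomputable section

namespace FracScatC

open FracScat

theorem wE_pos (τ : ℝ) (θ y x : E3) : 0 < wE τ θ y x := Real.exp_pos _

theorem wE_continuous (τ : ℝ) (θ y : E3) : Continuous (wE τ θ y) := by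
  unfold wE
  fun_prop

private theorem wE_int {D : Set E3} (hD : IsCompact D) (τ : ℝ) (θ y : E3) :
    IntegrableOn (wE τ θ y) D :=
  (wE_continuous τ θ y).continuousOn.integrableOn_compact hD

private theorem vol_pos {D : Set E3} (hD : IsCompact D) (hi : (interior D).Nonempty) :
    0 < (volume : Measure E3).real D := by
  have h1 : 0 < (volume : Measure E3) D :=
    lt_of_lt_of_le (isOpen_interior.measure_pos volume hi) (measure_mono interior_subset)
  exact ENNReal.toReal_pos h1.ne' hD.measure_lt_top.ne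

theorem wE_le_one {r M : ℝ} {V : E3 → ℂ} {D : Set E3} {θ y : E3} {q : ℂ}
    (t : Tip r M V D θ y q) {τ : ℝ} (hτ : 0 ≤ τ) {x : E3} (hx : x ∈ D) : wE τ θ y x ≤ 1 := by
  have h1 : 0 ≤ ⟪θ, x - y⟫_ℝ := by
    rw [inner_sub_right]
    by_cases h : x = y
    · rw [h, sub_self]
    · linarith [t.exposed x hx h]
  unfold wE
  rw [Real.exp_le_one_iff]
  linarith [mul_nonneg hτ h1]

theorem ma_lower {D : Set E3} (hD : IsCompact D) (hc : Convex ℝ D) (hi : (interior D).Nonempty)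
    (θ : E3) {y : E3} (hy : y ∈ D) :
    ∃ c : ℝ, 0 < c ∧ ∀ τ : ℝ, 1 ≤ τ → c * τ ^ (-(3 : ℝ)) ≤ ma D τ θ y := by
  set M : ℝ := ‖θ‖ * Metric.diam D with hM
  have hv := vol_pos hD hi
  refine ⟨Real.exp (-M) * (volume : Measure E3).real D, mul_pos (Real.exp_pos _) hv,
    fun τ hτ => ?_⟩
  have hτ0 : 0 < τ := lt_of_lt_of_le one_pos hτ
  have hinv : 0 < τ⁻¹ := inv_pos.2 hτ0
  have hinv1 : τ⁻¹ ≤ 1 := inv_le_one_of_one_le₀ hτ
  set S : Set E3 := AffineMap.homothety y τ⁻¹ '' D with hS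
  have hap : ∀ x : E3, AffineMap.homothety y τ⁻¹ x = τ⁻¹ • (x - y) + y := fun x => by
    rw [AffineMap.homothety_apply, vsub_eq_sub, vadd_eq_add]
  have hSc : IsCompact S := by
    apply hD.image
    have : (AffineMap.homothety y τ⁻¹ : E3 → E3) = fun x => τ⁻¹ • (x - y) + y := funext hap
    rw [this]
    fun_prop
  have hSD : S ⊆ D := by
    rintro _ ⟨x, hx, rfl⟩
    rw [hap]
    have h1 := hc hx hy hinv.le (show (0 : ℝ) ≤ 1 - τ⁻¹ by linarith) (by ring)
    have h2 : τ⁻¹ • (x - y) + y = τ⁻¹ • x + (1 - τ⁻¹) • y := by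
      rw [smul_sub, sub_smul, one_smul]
      abel
    rw [h2]
    exact h1
  have hvol : (volume : Measure E3).real S = τ ^ (-(3 : ℝ)) * (volume : Measure E3).real D := by
    rw [measureReal_def, measureReal_def, hS, Measure.addHaar_image_homothety,
      ENNReal.toReal_mul, ENNReal.toReal_ofReal (abs_nonneg _)]
    congr 1
    rw [finrank_euclideanSpace_fin, abs_of_pos (pow_pos hinv 3), Real.rpow_neg hτ0.le,
      inv_pow]
    congr 1
    exact (Real.rpow_natCast τ 3).symm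
  have hlow : ∀ x ∈ S, Real.exp (-M) ≤ wE τ θ y x := by
    rintro _ ⟨x, hx, rfl⟩
    unfold wE
    rw [hap]
    apply Real.exp_le_exp.2
    have h1 : τ * ⟪θ, τ⁻¹ • (x - y) + y - y⟫_ℝ = ⟪θ, x - y⟫_ℝ := by
      rw [add_sub_cancel_right, real_inner_smul_right, ← mul_assoc, mul_inv_cancel₀ hτ0.ne',
        one_mul]
    rw [h1]
    have h2 : ⟪θ, x - y⟫_ℝ ≤ ‖θ‖ * ‖x - y‖ := real_inner_le_norm _ _
    have h3 : ‖x - y‖ ≤ Metric.diam D := by
      rw [← dist_eq_norm]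
      exact Metric.dist_le_diam_of_mem hD.isBounded hx hy
    have h4 : ‖θ‖ * ‖x - y‖ ≤ M := mul_le_mul_of_nonneg_left h3 (norm_nonneg _)
    linarith
  have h5 : Real.exp (-M) * (volume : Measure E3).real S ≤ ∫ x in S, wE τ θ y x :=
    setIntegral_ge_of_const_le_real hSc.measurableSet hSc.measure_lt_top.ne hlow
      (wE_int hSc τ θ y)
  have h6 : ∫ x in S, wE τ θ y x ≤ ma D τ θ y :=
    setIntegral_mono_set (wE_int hD τ θ y) (Eventually.of_forall fun x => (wE_pos τ θ y x).le)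
      hSD.eventuallyLE
  calc Real.exp (-M) * (volume : Measure E3).real D * τ ^ (-(3 : ℝ))
      = Real.exp (-M) * (volume : Measure E3).real S := by rw [hvol]; ring
    _ ≤ _ := h5.trans h6

theorem ma_pos {D : Set E3} (hD : IsCompact D) (hi : (interior D).Nonempty) (τ : ℝ) (θ y : E3) :
    0 < ma D τ θ y := by
  have hne : D.Nonempty := hi.mono interior_subset
  obtain ⟨x0, _, hmin⟩ := hD.exists_isMinOn hne (wE_continuous τ θ y).continuousOn
  have h1 : wE τ θ y x0 * (volume : Measure E3).real D ≤ ∫ x in D, wE τ θ y x :=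
    setIntegral_ge_of_const_le_real hD.measurableSet hD.measure_lt_top.ne
      (fun x hx => hmin hx) (wE_int hD τ θ y)
  exact lt_of_lt_of_le (mul_pos (wE_pos τ θ y x0) (vol_pos hD hi)) h1

theorem far_dir {D : Set E3} (hD : IsCompact D) {θ y : E3}
    (hexp : ∀ x ∈ D, x ≠ y → ⟪θ, y⟫_ℝ < ⟪θ, x⟫_ℝ) {ρ : ℝ} (hρ : 0 < ρ) :
    ∃ δ : ℝ, 0 < δ ∧ ∀ x ∈ D, ρ ≤ ‖x - y‖ → δ ≤ ⟪θ, x - y⟫_ℝ := by
  have hcl : IsClosed {x : E3 | ρ ≤ ‖x - y‖} := isClosed_le continuous_const (by fun_prop)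
  have hK : IsCompact (D ∩ {x : E3 | ρ ≤ ‖x - y‖}) := hD.inter_right hcl
  have hf : Continuous fun x : E3 => ⟪θ, x - y⟫_ℝ := by fun_prop
  rcases (D ∩ {x : E3 | ρ ≤ ‖x - y‖}).eq_empty_or_nonempty with he | hne
  · refine ⟨1, one_pos, fun x hx hx2 => ?_⟩
    have h1 : x ∈ D ∩ {x : E3 | ρ ≤ ‖x - y‖} := ⟨hx, hx2⟩
    rw [he] at h1
    exact absurd h1 (Set.notMem_empty x)
  · obtain ⟨x0, hx0, hmin⟩ := hK.exists_isMinOn hne hf.continuousOn
    have hne0 : x0 ≠ y := by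
      intro h
      have h1 : ρ ≤ ‖x0 - y‖ := hx0.2
      rw [h, sub_self, norm_zero] at h1
      linarith
    refine ⟨⟪θ, x0 - y⟫_ℝ, ?_, fun x hx hx2 => hmin ⟨hx, hx2⟩⟩
    rw [inner_sub_right]
    linarith [hexp x0 hx0.1 hne0]

theorem wE_far {θ y x : E3} {δ : ℝ} (h : δ ≤ ⟪θ, x - y⟫_ℝ) {τ : ℝ} (hτ : 0 ≤ τ) :
    wE τ θ y x ≤ Real.exp (-(δ * τ)) := by
  unfold wE
  apply Real.exp_le_exp.2
  have h1 := mul_le_mul_of_nonneg_left h hτ
  linarith

theorem far_small {D : Set E3} (hD : IsCompact D) (hc : Convex ℝ D) (hi : (interior D).Nonempty)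
    (θ : E3) {y : E3} (hy : y ∈ D) {δ : ℝ} (hδ : 0 < δ) (m : ℝ) :
    Tendsto (fun τ : ℝ => τ ^ m * Real.exp (-(δ * τ)) / ma D τ θ y) atTop (𝓝 0) := by
  obtain ⟨c, hc0, hlow⟩ := ma_lower hD hc hi θ hy
  have h1 := (tendsto_rpow_mul_exp_neg_mul_atTop_nhds_zero (m + 3) δ hδ).const_mul c⁻¹
  rw [mul_zero] at h1
  refine squeeze_zero' ?_ ?_ h1
  · filter_upwards [eventually_ge_atTop (1 : ℝ)] with τ hτ
    have hτ0 : 0 < τ := lt_of_lt_of_le one_pos hτ
    exact div_nonneg (mul_nonneg (Real.rpow_nonneg hτ0.le _) (Real.exp_pos _).le)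
      (ma_pos hD hi τ θ y).le
  · filter_upwards [eventually_ge_atTop (1 : ℝ)] with τ hτ
    have hτ0 : 0 < τ := lt_of_lt_of_le one_pos hτ
    have h2 := hlow τ hτ
    have h3 : 0 < c * τ ^ (-(3 : ℝ)) := mul_pos hc0 (Real.rpow_pos_of_pos hτ0 _)
    have h4 : 0 ≤ τ ^ m * Real.exp (-(δ * τ)) :=
      mul_nonneg (Real.rpow_nonneg hτ0.le _) (Real.exp_pos _).le
    calc τ ^ m * Real.exp (-(δ * τ)) / ma D τ θ y
        ≤ τ ^ m * Real.exp (-(δ * τ)) / (c * τ ^ (-(3 : ℝ))) :=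
          div_le_div_of_nonneg_left h4 h3 h2
      _ = c⁻¹ * (τ ^ (m + 3) * Real.exp (-δ * τ)) := by
          rw [Real.rpow_add hτ0, Real.rpow_neg hτ0.le]
          have h5 : τ ^ (3 : ℝ) ≠ 0 := (Real.rpow_pos_of_pos hτ0 _).ne'
          rw [neg_mul]
          field_simp

end FracScatC

end
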