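import Pool.Agent.Lib.MP_6e2ba5_an.Rx.UIa
import Pool.Agent.Lib.MP_6e2ba5_an.Rx.MassI

/-! # Bounds of the source `fI`

`K₀` is such that `‖Tk s r V k‖ ≤ 1/2` on `Reg K₀` (so in particular for `k = iτ`, `τ ≥ K₀`; compare `Main_axis_mem` in
`../Main.lean`). Let `f = fI`, `N = multL (mI s τ)`, `‖N‖ ≤ C₀ τ^(-2s)` (`multI_norm`), `M ≥ 0` a bound of `V`. `fI_eq`:
`f = V w + V (N f)`. `L²` norms: `‖V w‖² ≤ M² ∫_D w² ≤ M² ma` (`V = 0` a.e. outside `D`, `w ≤ 1` on `D`, `wE_le_one`).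
`‖V N f‖ ≤ M C₀ τ^(-2s) ‖f‖ ≤ ‖f‖/2` for `τ ≥ K`, so `‖f‖ ≤ 2 M √ma`: `fI_L2`. `fI_diff`:
`‖f - V w‖ = ‖V N f‖ ≤ 2 M² C₀ τ^(-2s) √ma`. `fI_L1diff`: `f - V w` vanishes outside the ball of radius `r`, so its
`L¹` norm is at most `vol(B)^(1/2)` times the `L²` norm, and `√ma = ma/√ma ≤ c^(-1/2) τ^(3/2) ma` (`ma_lower`); with
`2s > 3/2`. `fI_L1`: `‖V w‖_{L¹} ≤ M ma`. -/

set_option autoImplicit false

open MeasureTheory Filter Topology Set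
open scoped FourierTransform SchwartzMap InnerProductSpace ENNReal BoundedContinuousFunction

noncomputable section

namespace FracScatC

open FracScat

private theorem FBd_sq (F : HS) : ∫⁻ x, ‖(F : E3 → ℂ) x‖ₑ ^ 2 = ENNReal.ofReal (‖F‖ ^ 2) := by
  have h1 : eLpNorm (F : E3 → ℂ) 2 (volume : Measure E3) ^ 2 = ∫⁻ ζ, ‖(F : E3 → ℂ) ζ‖ₑ ^ 2 := by
    rw [eLpNorm_eq_lintegral_rpow_enorm_toReal (by norm_num) (by norm_num), ENNReal.toReal_ofNat]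
    have h1 : ∀ ζ : E3, ‖(F : E3 → ℂ) ζ‖ₑ ^ (2 : ℝ) = ‖(F : E3 → ℂ) ζ‖ₑ ^ 2 :=
      fun ζ => ENNReal.rpow_two _
    simp only [h1]
    rw [← ENNReal.rpow_two, ← ENNReal.rpow_mul]
    norm_num
  have h2 : ENNReal.ofReal ‖F‖ = eLpNorm (F : E3 → ℂ) 2 (volume : Measure E3) := by
    rw [Lp.norm_def, ENNReal.ofReal_toReal (Lp.eLpNorm_ne_top F)]
  rw [← h1, ← h2, ENNReal.ofReal_pow (norm_nonneg _)]

private theorem FBd_M {r M : ℝ} {V : E3 → ℂ} (hV : IsPot r M V) : 0 ≤ M :=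
  (norm_nonneg _).trans (hV.bounded 0)

private theorem FBd_BM {r M : ℝ} {V : E3 → ℂ} (hV : IsPot r M V) : BM V :=
  ⟨hV.measurable.aestronglyMeasurable, M, Eventually.of_forall hV.bounded⟩

private theorem FBd_mul {r M : ℝ} {V : E3 → ℂ} (hV : IsPot r M V) : ‖mulL V‖ ≤ M :=
  norm_mulL_le (FBd_BM hV) (FBd_M hV) (Eventually.of_forall hV.bounded)

private theorem FBd_mem {K τ : ℝ} (hK : 1 ≤ K) (hτ : K ≤ τ) :
    Complex.I * (τ : ℂ) ∈ Reg K := by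
  refine ⟨by simp, ?_, ?_⟩
  · simp only [Complex.mul_im, Complex.I_re, Complex.I_im, Complex.ofReal_re, Complex.ofReal_im]
    linarith
  · rw [norm_mul, Complex.norm_I, one_mul, Complex.norm_real, Real.norm_of_nonneg (by linarith)]
    exact hτ

/-- the moments of `V w` -/
private theorem FBd_pow {r M : ℝ} {V : E3 → ℂ} {D : Set E3} {θ y : E3} {q : ℂ}
    (t : Tip r M V D θ y q) {τ : ℝ} (hτ : 0 ≤ τ) (n : ℕ) (hn : 1 ≤ n) :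
    ∫⁻ x, ‖V x * ((wE τ θ y x : ℝ) : ℂ)‖ₑ ^ n ≤ ENNReal.ofReal (M ^ n * ma D τ θ y) := by
  have hM := FBd_M t.pot
  have hD : MeasurableSet D := t.compact.measurableSet
  have hint : IntegrableOn (wE τ θ y) D volume :=
    (wE_continuous τ θ y).continuousOn.integrableOn_compact t.compact
  have h1 : ∫⁻ x, ‖V x * ((wE τ θ y x : ℝ) : ℂ)‖ₑ ^ n ≤
      ∫⁻ x, D.indicator (fun x => ENNReal.ofReal (M ^ n * wE τ θ y x)) x := by
    refine lintegral_mono_ae ?_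
    filter_upwards [t.supp] with x hx
    by_cases hxD : x ∈ D
    · rw [indicator_of_mem hxD, ← ofReal_norm, ← ENNReal.ofReal_pow (norm_nonneg _)]
      apply ENNReal.ofReal_le_ofReal
      rw [norm_mul, mul_pow, Complex.norm_real, Real.norm_of_nonneg (wE_pos τ θ y x).le]
      have h2 := wE_le_one t hτ hxD
      have h3 := (wE_pos τ θ y x).le
      have h4 : wE τ θ y x ^ n ≤ wE τ θ y x := by
        calc wE τ θ y x ^ n ≤ wE τ θ y x ^ 1 := pow_le_pow_of_le_one h3 h2 hn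
          _ = _ := pow_one _
      exact mul_le_mul (pow_le_pow_left₀ (norm_nonneg _) (t.pot.bounded x) n) h4 (by positivity)
        (by positivity)
    · rw [indicator_of_notMem hxD, hx hxD, zero_mul, enorm_zero, zero_pow (by omega)]
  refine h1.trans ?_
  rw [lintegral_indicator hD, ← ofReal_integral_eq_lintegral_ofReal (hint.const_mul _)
    (Eventually.of_forall fun x => mul_nonneg (by positivity) (wE_pos τ θ y x).le)]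
  apply le_of_eq
  congr 1
  rw [integral_const_mul]
  rfl

/-- the difference `V N f` as an element of `L²` -/
private theorem FBd_ae {s : ℝ} (h0 : 3 / 4 < s) (h2 : s < 2) (h1 : s ≠ 1) {r M : ℝ} (hr : 0 < r)
    {V : E3 → ℂ} (hV : IsPot r M V) (θ y : E3) {τ : ℝ} (hτ : 0 < τ)
    (hT : ‖Tk s r V (Complex.I * τ)‖ ≤ 1 / 2) :
    (fun x => (fI s r V θ y τ : E3 → ℂ) x - V x * ((wE τ θ y x : ℝ) : ℂ)) =ᵐ[volume]
      (mulL V (multL (mI s τ) (fI s r V θ y τ)) : E3 → ℂ) := by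
  filter_upwards [fI_eq (by linarith) h2 h1 hr hV θ y hτ hT,
    mulL_coe (FBd_BM hV) (multL (mI s τ) (fI s r V θ y τ))] with x hx hx2
  rw [hx, hx2]
  ring

/-- the main estimate -/
private theorem FBd_main {s : ℝ} (h0 : 3 / 4 < s) (h2 : s < 2) (h1 : s ≠ 1) {r M : ℝ} (hr : 0 < r)
    {V : E3 → ℂ} {D : Set E3} {θ y : E3} {q : ℂ} (t : Tip r M V D θ y q) {K₀ : ℝ} (hK₀ : 1 ≤ K₀)
    (hT : ∀ k ∈ Reg K₀, ‖Tk s r V k‖ ≤ 1 / 2) :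
    ∃ A K : ℝ, 0 ≤ A ∧ K₀ ≤ K ∧ ∀ τ : ℝ, K ≤ τ →
      ‖fI s r V θ y τ‖ ≤ 2 * M * Real.sqrt (ma D τ θ y) ∧
      ‖mulL V (multL (mI s τ) (fI s r V θ y τ))‖ ≤
        A * τ ^ (-(2 * s)) * Real.sqrt (ma D τ θ y) := by
  obtain ⟨C₀, hC₀, hN⟩ := multI_norm (by linarith : 0 < s) h2 h1
  have hM := FBd_M t.pot
  have htend : Tendsto (fun τ : ℝ => M * (C₀ * τ ^ (-(2 * s)))) atTop (𝓝 (M * (C₀ * 0))) :=
    ((tendsto_rpow_neg_atTop (by linarith)).const_mul C₀).const_mul M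
  rw [mul_zero, mul_zero] at htend
  obtain ⟨K, hK⟩ := ((htend.eventually_le_const (by norm_num : (0 : ℝ) < 1 / 2)).and
    (eventually_ge_atTop K₀)).exists_forall_of_atTop
  refine ⟨M * C₀ * (2 * M), max K K₀, by positivity, le_max_right _ _, fun τ hτ => ?_⟩
  have hτK := hK τ ((le_max_left _ _).trans hτ)
  have hτ1 : 1 ≤ τ := hK₀.trans hτK.2
  have hτ0 : 0 < τ := by linarith
  have hTτ : ‖Tk s r V (Complex.I * τ)‖ ≤ 1 / 2 := hT _ (FBd_mem hK₀ hτK.2)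
  set f := fI s r V θ y τ with hf
  set G := mulL V (multL (mI s τ) f) with hG
  have hGn : ‖G‖ ≤ M * (C₀ * τ ^ (-(2 * s))) * ‖f‖ := by
    calc ‖G‖ ≤ ‖mulL V‖ * ‖multL (mI s τ) f‖ := (mulL V).le_opNorm _
      _ ≤ M * (C₀ * τ ^ (-(2 * s)) * ‖f‖) := by
          refine mul_le_mul (FBd_mul t.pot) ?_ (norm_nonneg _) hM
          exact ((multL (mI s τ)).le_opNorm _).trans
            (mul_le_mul_of_nonneg_right (hN τ hτ0) (norm_nonneg _))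
      _ = _ := by ring
  have hG2 : ‖G‖ ≤ 1 / 2 * ‖f‖ := hGn.trans (mul_le_mul_of_nonneg_right hτK.1 (norm_nonneg _))
  have hma : 0 ≤ ma D τ θ y := (ma_pos t.compact t.inter τ θ y).le
  -- `‖f - G‖ ≤ M √ma`
  have hfG : ‖f - G‖ ≤ M * Real.sqrt (ma D τ θ y) := by
    have h3 : ENNReal.ofReal (‖f - G‖ ^ 2) ≤ ENNReal.ofReal (M ^ 2 * ma D τ θ y) := by
      rw [← FBd_sq]
      refine le_trans (le_of_eq (lintegral_congr_ae ?_)) (FBd_pow t hτ0.le 2 (by norm_num))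
      filter_upwards [Lp.coeFn_sub f G, FBd_ae h0 h2 h1 hr t.pot θ y hτ0 hTτ] with x hx hx2
      rw [hx, Pi.sub_apply, ← hx2, sub_sub_cancel]
    have h4 : ‖f - G‖ ^ 2 ≤ M ^ 2 * ma D τ θ y :=
      (ENNReal.ofReal_le_ofReal_iff (by positivity)).1 h3
    apply le_of_sq_le_sq _ (by positivity)
    rw [mul_pow, Real.sq_sqrt hma]
    exact h4
  have hfn : ‖f‖ ≤ 2 * M * Real.sqrt (ma D τ θ y) := by
    have h5 : ‖f‖ ≤ ‖f - G‖ + ‖G‖ := by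
      have := norm_add_le (f - G) G
      rwa [sub_add_cancel] at this
    linarith
  refine ⟨hfn, hGn.trans ?_⟩
  calc M * (C₀ * τ ^ (-(2 * s))) * ‖f‖ ≤
      M * (C₀ * τ ^ (-(2 * s))) * (2 * M * Real.sqrt (ma D τ θ y)) :=
        mul_le_mul_of_nonneg_left hfn (by positivity)
    _ = _ := by ring

theorem fI_L2 {s : ℝ} (h0 : 3 / 4 < s) (h2 : s < 2) (h1 : s ≠ 1) {r M : ℝ} (hr : 0 < r)
    {V : E3 → ℂ} {D : Set E3} {θ y : E3} {q : ℂ} (t : Tip r M V D θ y q) {K₀ : ℝ} (hK₀ : 1 ≤ K₀)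
    (hT : ∀ k ∈ Reg K₀, ‖Tk s r V k‖ ≤ 1 / 2) :
    ∃ C K : ℝ, 0 ≤ C ∧ K₀ ≤ K ∧ ∀ τ : ℝ, K ≤ τ →
      ‖fI s r V θ y τ‖ ≤ C * Real.sqrt (ma D τ θ y) := by
  obtain ⟨A, K, hA, hK, h⟩ := FBd_main h0 h2 h1 hr t hK₀ hT
  have hM := FBd_M t.pot
  exact ⟨2 * M, K, by positivity, hK, fun τ hτ => (h τ hτ).1⟩

theorem fI_diff {s : ℝ} (h0 : 3 / 4 < s) (h2 : s < 2) (h1 : s ≠ 1) {r M : ℝ} (hr : 0 < r)
    {V : E3 → ℂ} {D : Set E3} {θ y : E3} {q : ℂ} (t : Tip r M V D θ y q) {K₀ : ℝ} (hK₀ : 1 ≤ K₀)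
    (hT : ∀ k ∈ Reg K₀, ‖Tk s r V k‖ ≤ 1 / 2) :
    ∃ C K : ℝ, 0 ≤ C ∧ K₀ ≤ K ∧ ∀ τ : ℝ, K ≤ τ →
      ∫⁻ x, ‖(fI s r V θ y τ : E3 → ℂ) x - V x * ((wE τ θ y x : ℝ) : ℂ)‖ₑ ^ 2 ≤
        ENNReal.ofReal (C * τ ^ (-(4 * s)) * ma D τ θ y) := by
  obtain ⟨A, K, hA, hK, h⟩ := FBd_main h0 h2 h1 hr t hK₀ hT
  refine ⟨A ^ 2, K, by positivity, hK, fun τ hτ => ?_⟩
  have hτ0 : 0 < τ := by linarith
  have hTτ : ‖Tk s r V (Complex.I * τ)‖ ≤ 1 / 2 := hT _ (FBd_mem hK₀ (hK.trans hτ))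
  have hma : 0 ≤ ma D τ θ y := (ma_pos t.compact t.inter τ θ y).le
  have e : ∫⁻ x, ‖(fI s r V θ y τ : E3 → ℂ) x - V x * ((wE τ θ y x : ℝ) : ℂ)‖ₑ ^ 2 =
      ENNReal.ofReal (‖mulL V (multL (mI s τ) (fI s r V θ y τ))‖ ^ 2) := by
    rw [← FBd_sq]
    refine lintegral_congr_ae ?_
    filter_upwards [FBd_ae h0 h2 h1 hr t.pot θ y hτ0 hTτ] with x hx
    rw [← hx]
  rw [e]
  apply ENNReal.ofReal_le_ofReal
  have h3 := pow_le_pow_left₀ (norm_nonneg _) (h τ hτ).2 2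
  refine h3.trans (le_of_eq ?_)
  rw [mul_pow, mul_pow, Real.sq_sqrt hma, ← Real.rpow_natCast (τ ^ (-(2 * s))) 2,
    ← Real.rpow_mul hτ0.le]
  congr 3
  push_cast
  ring

theorem fI_L1diff {s : ℝ} (h0 : 3 / 4 < s) (h2 : s < 2) (h1 : s ≠ 1) {r M : ℝ} (hr : 0 < r)
    {V : E3 → ℂ} {D : Set E3} {θ y : E3} {q : ℂ} (t : Tip r M V D θ y q) {K₀ : ℝ} (hK₀ : 1 ≤ K₀)
    (hT : ∀ k ∈ Reg K₀, ‖Tk s r V k‖ ≤ 1 / 2) :
    ∃ C K : ℝ, 0 ≤ C ∧ K₀ ≤ K ∧ ∀ τ : ℝ, K ≤ τ →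
      ∫⁻ x, ‖(fI s r V θ y τ : E3 → ℂ) x - V x * ((wE τ θ y x : ℝ) : ℂ)‖ₑ ≤
        ENNReal.ofReal (C * τ ^ (3 / 2 - 2 * s) * ma D τ θ y) := by
  obtain ⟨A, K, hA, hK, h⟩ := FBd_main h0 h2 h1 hr t hK₀ hT
  obtain ⟨c, hc, hlow⟩ := ma_lower t.compact t.convex t.inter θ t.mem
  set B : ℝ≥0∞ := (volume : Measure E3) (Metric.closedBall 0 r) with hB
  have hBt : B ≠ ∞ := measure_closedBall_lt_top.ne
  refine ⟨A * (Real.sqrt c)⁻¹ * (B ^ (1 / 2 : ℝ)).toReal, K, by positivity, hK, fun τ hτ => ?_⟩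
  have hτ1 : 1 ≤ τ := by linarith
  have hτ0 : 0 < τ := by linarith
  have hTτ : ‖Tk s r V (Complex.I * τ)‖ ≤ 1 / 2 := hT _ (FBd_mem hK₀ (hK.trans hτ))
  have hma0 : 0 < ma D τ θ y := ma_pos t.compact t.inter τ θ y
  set G := mulL V (multL (mI s τ) (fI s r V θ y τ)) with hG
  have e : ∫⁻ x, ‖(fI s r V θ y τ : E3 → ℂ) x - V x * ((wE τ θ y x : ℝ) : ℂ)‖ₑ =
      ∫⁻ x in Metric.closedBall (0 : E3) r, ‖(G : E3 → ℂ) x‖ₑ := by
    rw [← lintegral_indicator Metric.isClosed_closedBall.measurableSet]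
    refine lintegral_congr_ae ?_
    filter_upwards [FBd_ae h0 h2 h1 hr t.pot θ y hτ0 hTτ,
      mulL_coe (FBd_BM t.pot) (multL (mI s τ) (fI s r V θ y τ))] with x hx hx2
    rw [hx, ← hG]
    by_cases hxr : x ∈ Metric.closedBall (0 : E3) r
    · rw [indicator_of_mem hxr]
    · rw [indicator_of_notMem hxr, hG, hx2]
      have : r ≤ ‖x‖ := by
        rw [Metric.mem_closedBall, dist_zero_right, not_le] at hxr
        exact hxr.le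
      rw [t.pot.vanish x this, zero_mul, enorm_zero]
  have hCS : ∫⁻ x in Metric.closedBall (0 : E3) r, ‖(G : E3 → ℂ) x‖ₑ ≤
      ENNReal.ofReal ‖G‖ * B ^ (1 / 2 : ℝ) := by
    have h3 : eLpNorm (G : E3 → ℂ) 1 (volume.restrict (Metric.closedBall (0 : E3) r)) ≤
        eLpNorm (G : E3 → ℂ) 2 (volume.restrict (Metric.closedBall (0 : E3) r)) *
          (volume.restrict (Metric.closedBall (0 : E3) r)) Set.univ ^
            (1 / (1 : ℝ≥0∞).toReal - 1 / (2 : ℝ≥0∞).toReal) :=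
      eLpNorm_le_eLpNorm_mul_rpow_measure_univ (by norm_num) (Lp.aestronglyMeasurable G).restrict
    rw [eLpNorm_one_eq_lintegral_enorm, Measure.restrict_apply_univ] at h3
    have h4 : eLpNorm (G : E3 → ℂ) 2 (volume.restrict (Metric.closedBall (0 : E3) r)) ≤
        ENNReal.ofReal ‖G‖ := by
      rw [Lp.norm_def, ENNReal.ofReal_toReal (Lp.eLpNorm_ne_top G)]
      exact eLpNorm_mono_measure _ Measure.restrict_le_self
    have e5 : (1 / (1 : ℝ≥0∞).toReal - 1 / (2 : ℝ≥0∞).toReal) = (1 / 2 : ℝ) := by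
      rw [ENNReal.toReal_one, ENNReal.toReal_ofNat]; norm_num
    rw [e5] at h3
    exact h3.trans (mul_le_mul_left h4 _)
  rw [e]
  refine hCS.trans ?_
  have hBt2 : B ^ (1 / 2 : ℝ) ≠ ∞ := ENNReal.rpow_ne_top_of_nonneg (by norm_num) hBt
  rw [← ENNReal.ofReal_toReal hBt2, ← ENNReal.ofReal_mul (norm_nonneg _)]
  apply ENNReal.ofReal_le_ofReal
  rw [ENNReal.toReal_ofReal ENNReal.toReal_nonneg]
  have h5 : Real.sqrt (ma D τ θ y) ≤ (Real.sqrt c)⁻¹ * τ ^ (3 / 2 : ℝ) * ma D τ θ y := by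
    have h6 : Real.sqrt c * τ ^ (-(3 / 2 : ℝ)) ≤ Real.sqrt (ma D τ θ y) := by
      have h7 : Real.sqrt (c * τ ^ (-(3 : ℝ))) ≤ Real.sqrt (ma D τ θ y) :=
        Real.sqrt_le_sqrt (hlow τ hτ1)
      rw [Real.sqrt_mul hc.le] at h7
      have h8 : Real.sqrt (τ ^ (-(3 : ℝ))) = τ ^ (-(3 / 2 : ℝ)) := by
        rw [Real.sqrt_eq_rpow, ← Real.rpow_mul hτ0.le]
        norm_num
      rwa [h8] at h7
    have h9 : ma D τ θ y = Real.sqrt (ma D τ θ y) * Real.sqrt (ma D τ θ y) :=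
      (Real.mul_self_sqrt hma0.le).symm
    have hs0 : 0 < Real.sqrt c := Real.sqrt_pos.2 hc
    have hτp : 0 < τ ^ (3 / 2 : ℝ) := Real.rpow_pos_of_pos hτ0 _
    have h10 : τ ^ (3 / 2 : ℝ) * τ ^ (-(3 / 2 : ℝ)) = 1 := by
      rw [← Real.rpow_add hτ0]; norm_num
    have h11 : 1 ≤ (Real.sqrt c)⁻¹ * τ ^ (3 / 2 : ℝ) * Real.sqrt (ma D τ θ y) := by
      calc (1 : ℝ) = (Real.sqrt c)⁻¹ * τ ^ (3 / 2 : ℝ) * (Real.sqrt c * τ ^ (-(3 / 2 : ℝ))) := by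
            have : (Real.sqrt c)⁻¹ * Real.sqrt c = 1 := inv_mul_cancel₀ hs0.ne'
            calc (1 : ℝ) = ((Real.sqrt c)⁻¹ * Real.sqrt c) *
                  (τ ^ (3 / 2 : ℝ) * τ ^ (-(3 / 2 : ℝ))) := by rw [this, h10]; norm_num
              _ = _ := by ring
        _ ≤ _ := mul_le_mul_of_nonneg_left h6 (by positivity)
    calc Real.sqrt (ma D τ θ y) = 1 * Real.sqrt (ma D τ θ y) := (one_mul _).symm
      _ ≤ (Real.sqrt c)⁻¹ * τ ^ (3 / 2 : ℝ) * Real.sqrt (ma D τ θ y) * Real.sqrt (ma D τ θ y) :=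
          mul_le_mul_of_nonneg_right h11 (Real.sqrt_nonneg _)
      _ = (Real.sqrt c)⁻¹ * τ ^ (3 / 2 : ℝ) * ma D τ θ y := by
          rw [mul_assoc, ← h9]
  have h6 : ‖G‖ ≤ A * (Real.sqrt c)⁻¹ * τ ^ (3 / 2 - 2 * s) * ma D τ θ y := by
    calc ‖G‖ ≤ A * τ ^ (-(2 * s)) * Real.sqrt (ma D τ θ y) := (h τ hτ).2
      _ ≤ A * τ ^ (-(2 * s)) * ((Real.sqrt c)⁻¹ * τ ^ (3 / 2 : ℝ) * ma D τ θ y) :=
          mul_le_mul_of_nonneg_left h5 (by positivity)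
      _ = A * (Real.sqrt c)⁻¹ * (τ ^ (-(2 * s)) * τ ^ (3 / 2 : ℝ)) * ma D τ θ y := by ring
      _ = _ := by
          rw [← Real.rpow_add hτ0]
          congr 3
          ring
  calc ‖G‖ * (B ^ (1 / 2 : ℝ)).toReal ≤
      A * (Real.sqrt c)⁻¹ * τ ^ (3 / 2 - 2 * s) * ma D τ θ y * (B ^ (1 / 2 : ℝ)).toReal :=
        mul_le_mul_of_nonneg_right h6 ENNReal.toReal_nonneg
    _ = _ := by ring

theorem fI_L1 {s : ℝ} (h0 : 3 / 4 < s) (h2 : s < 2) (h1 : s ≠ 1) {r M : ℝ} (hr : 0 < r)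
    {V : E3 → ℂ} {D : Set E3} {θ y : E3} {q : ℂ} (t : Tip r M V D θ y q) {K₀ : ℝ} (hK₀ : 1 ≤ K₀)
    (hT : ∀ k ∈ Reg K₀, ‖Tk s r V k‖ ≤ 1 / 2) :
    ∃ C K : ℝ, 0 ≤ C ∧ K₀ ≤ K ∧ ∀ τ : ℝ, K ≤ τ →
      ∫⁻ x, ‖(fI s r V θ y τ : E3 → ℂ) x‖ₑ ≤ ENNReal.ofReal (C * ma D τ θ y) := by
  obtain ⟨C, K, hC, hK, h⟩ := fI_L1diff h0 h2 h1 hr t hK₀ hT
  have hM := FBd_M t.pot
  refine ⟨C + M, K, by positivity, hK, fun τ hτ => ?_⟩
  have hτ1 : 1 ≤ τ := by linarith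
  have hτ0 : 0 < τ := by linarith
  have hma0 : 0 < ma D τ θ y := ma_pos t.compact t.inter τ θ y
  have h3 := h τ hτ
  have h4 := FBd_pow t hτ0.le 1 le_rfl
  simp only [pow_one] at h4
  have hmeas : AEMeasurable (fun x : E3 => ‖V x * ((wE τ θ y x : ℝ) : ℂ)‖ₑ) volume := by
    apply AEMeasurable.enorm
    apply Measurable.aemeasurable
    exact t.pot.measurable.mul (Complex.measurable_ofReal.comp (wE_continuous τ θ y).measurable)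
  have h5 : ∫⁻ x, ‖(fI s r V θ y τ : E3 → ℂ) x‖ₑ ≤
      (∫⁻ x, ‖(fI s r V θ y τ : E3 → ℂ) x - V x * ((wE τ θ y x : ℝ) : ℂ)‖ₑ) +
        ∫⁻ x, ‖V x * ((wE τ θ y x : ℝ) : ℂ)‖ₑ := by
    rw [← lintegral_add_right' _ hmeas]
    refine lintegral_mono fun x => ?_
    calc ‖(fI s r V θ y τ : E3 → ℂ) x‖ₑ =
        ‖((fI s r V θ y τ : E3 → ℂ) x - V x * ((wE τ θ y x : ℝ) : ℂ)) +
          V x * ((wE τ θ y x : ℝ) : ℂ)‖ₑ := by rw [sub_add_cancel]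
      _ ≤ _ := enorm_add_le _ _
  refine h5.trans ((add_le_add h3 h4).trans ?_)
  rw [← ENNReal.ofReal_add (by positivity) (by positivity)]
  apply ENNReal.ofReal_le_ofReal
  have h6 : τ ^ (3 / 2 - 2 * s) ≤ 1 := Real.rpow_le_one_of_one_le_of_nonpos hτ1 (by linarith)
  have h7 : C * τ ^ (3 / 2 - 2 * s) * ma D τ θ y ≤ C * 1 * ma D τ θ y :=
    mul_le_mul_of_nonneg_right (mul_le_mul_of_nonneg_left h6 hC) hma0.le
  linarith

end FracScatC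

end
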