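import Pool.Agent.Lib.MP_6e2ba5_an.Rx.FBd
import Pool.Agent.Lib.MP_6e2ba5_an.Rx.OffN

/-! # The source far from the exposed point: one step

Let `f = fI`, `N = multL (mI s τ)`, `f = V w + V (N f)` (`fI_eq`), `f = f₁ + f₂` with `f₁ = (1 - indF y (ρ/2)) f`,
`f₂ = mulL (indF y (ρ/2)) f` (as elements of `L²`). Then
`indF y ρ · f = indF y ρ · V w + indF y ρ · V · N f₁ + indF y ρ · V · N f₂`.
First term: `V = 0` a.e. outside `D`, and `w ≤ exp(-δτ)` on `far D y ρ` (`far_dir`, `wE_far`), so its `L²` norm is at most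
`M vol(D)^(1/2) exp(-δτ)`. Second term: `offB` with `S = {‖x-y‖ < ρ/2} ∩ closedBall 0 r` (the source `f₁` vanishes outside; `V`
vanishes for `‖x‖ ≥ r`), `T = {ρ ≤ ‖x-y‖} ∩ closedBall 0 r`, so `ρ/2 ≤ ‖x-x'‖ ≤ 2r`: norm
`≤ M (C τ^(-8s))^(1/2) ∫‖f₁‖ ≤ C' τ^(-4s) ma` (`fI_L1`; `f₁` is integrable and `∫‖f₁‖ ≤ ∫‖f‖`). Third term:
`≤ M C₀ τ^(-2s) ‖f₂‖` (`multI_norm`). -/

set_option autoImplicit false

open MeasureTheory Filter Topology Set
open scoped FourierTransform SchwartzMap InnerProductSpace ENNReal BoundedContinuousFunction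

noncomputable section

namespace FracScatC

open FracScat

private theorem farA_axis {K τ : ℝ} (hK : 1 ≤ K) (hτ : K ≤ τ) :
    Complex.I * (τ : ℂ) ∈ Reg K := by
  refine ⟨by simp, ?_, ?_⟩
  · simp only [Complex.mul_im, Complex.I_re, Complex.I_im, Complex.ofReal_re, Complex.ofReal_im]
    linarith
  · rw [norm_mul, Complex.norm_I, one_mul, Complex.norm_real, Real.norm_of_nonneg (by linarith)]
    exact hτ

private theorem norm_sq_HS (h : HS) :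
    ∫⁻ x, ‖(h : E3 → ℂ) x‖ₑ ^ 2 = ENNReal.ofReal (‖h‖ ^ 2) := by
  have h1 : eLpNorm (h : E3 → ℂ) 2 (volume : Measure E3) ≠ ⊤ := (Lp.memLp h).2.ne
  rw [Lp.norm_def, ← ENNReal.toReal_pow, ENNReal.ofReal_toReal (ENNReal.pow_ne_top h1),
    eLpNorm_eq_lintegral_rpow_enorm_toReal two_ne_zero ENNReal.ofNat_ne_top]
  rw [← ENNReal.rpow_natCast, ← ENNReal.rpow_mul]
  norm_num

private theorem norm_le_HS {h : HS} {B : ℝ} (hB : 0 ≤ B)
    (hh : ∫⁻ x, ‖(h : E3 → ℂ) x‖ₑ ^ 2 ≤ ENNReal.ofReal (B ^ 2)) : ‖h‖ ≤ B := by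
  rw [norm_sq_HS] at hh
  have h1 : ‖h‖ ^ 2 ≤ B ^ 2 := (ENNReal.ofReal_le_ofReal_iff (by positivity)).1 hh
  exact abs_le_of_sq_le_sq' h1 hB |>.2

/-- If `‖h x‖ ≤ M ‖g x‖` on `T` and `h = 0` off `T`. -/
private theorem norm_le_ind {h : HS} {g : E3 → ℂ} {T : Set E3} (hT : MeasurableSet T) {M B : ℝ}
    (hM : 0 ≤ M) (hB : 0 ≤ B)
    (hh : ∀ᵐ x ∂(volume : Measure E3), (x ∈ T → ‖(h : E3 → ℂ) x‖ ≤ M * ‖g x‖) ∧
      (x ∉ T → (h : E3 → ℂ) x = 0))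
    (hg : ∫⁻ x in T, ‖g x‖ₑ ^ 2 ≤ ENNReal.ofReal (B ^ 2)) : ‖h‖ ≤ M * B := by
  refine norm_le_HS (mul_nonneg hM hB) ?_
  calc ∫⁻ x, ‖(h : E3 → ℂ) x‖ₑ ^ 2
      ≤ ∫⁻ x, T.indicator (fun x => ENNReal.ofReal (M ^ 2) * ‖g x‖ₑ ^ 2) x := by
        refine lintegral_mono_ae ?_
        filter_upwards [hh] with x hx
        by_cases hxT : x ∈ T
        · rw [indicator_of_mem hxT, ← ofReal_norm, ← ofReal_norm,
            ← ENNReal.ofReal_pow (norm_nonneg _), ← ENNReal.ofReal_pow (norm_nonneg _),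
            ← ENNReal.ofReal_mul (by positivity), ← mul_pow]
          exact ENNReal.ofReal_le_ofReal (pow_le_pow_left₀ (norm_nonneg _) (hx.1 hxT) 2)
        · rw [hx.2 hxT, enorm_zero]
          simp
    _ = ENNReal.ofReal (M ^ 2) * ∫⁻ x in T, ‖g x‖ₑ ^ 2 := by
        rw [lintegral_indicator hT, lintegral_const_mul' _ _ ENNReal.ofReal_ne_top]
    _ ≤ ENNReal.ofReal (M ^ 2) * ENNReal.ofReal (B ^ 2) := by gcongr
    _ = ENNReal.ofReal ((M * B) ^ 2) := by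
        rw [← ENNReal.ofReal_mul (by positivity), mul_pow]

theorem farA {s : ℝ} (h0 : 3 / 4 < s) (h2 : s < 2) (h1 : s ≠ 1) {r M : ℝ} (hr : 0 < r)
    {V : E3 → ℂ} {D : Set E3} {θ y : E3} {q : ℂ} (t : Tip r M V D θ y q) {K₀ : ℝ} (hK₀ : 1 ≤ K₀)
    (hT : ∀ k ∈ Reg K₀, ‖Tk s r V k‖ ≤ 1 / 2) {ρ : ℝ} (hρ : 0 < ρ) :
    ∃ C K δ : ℝ, 0 ≤ C ∧ K₀ ≤ K ∧ 0 < δ ∧ ∀ τ : ℝ, K ≤ τ →
      ‖mulL (indF y ρ) (fI s r V θ y τ)‖ ≤ C * (Real.exp (-(δ * τ)) + τ ^ (-(4 * s)) * ma D τ θ y +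
        τ ^ (-(2 * s)) * ‖mulL (indF y (ρ / 2)) (fI s r V θ y τ)‖) := by
  have hM : 0 ≤ M := (norm_nonneg _).trans (t.pot.bounded 0)
  obtain ⟨C₀, hC₀, hN⟩ := multI_norm (s := s) (by linarith) h2 h1
  obtain ⟨C₁, K₁, hC₁, hK₁, hO⟩ := offB h0 h2 h1 (ρ / 2) (2 * r) (by positivity)
  obtain ⟨C₂, K₂, hC₂, hK₂, hL⟩ := fI_L1 h0 h2 h1 hr t hK₀ hT
  obtain ⟨δ, hδ, hfar⟩ := far_dir t.compact t.exposed hρ
  set v : ℝ := (volume (far D y ρ)).toReal with hv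
  have hvf : volume (far D y ρ) ≠ ⊤ :=
    ((measure_mono inter_subset_left).trans_lt t.compact.measure_lt_top).ne
  refine ⟨M * Real.sqrt v + M * (Real.sqrt C₁ * C₂) + M * C₀, max K₁ K₂, δ, by positivity,
    hK₂.trans (le_max_right _ _), hδ, fun τ hτ => ?_⟩
  have hτ1 : K₁ ≤ τ := (le_max_left _ _).trans hτ
  have hτ2 : K₂ ≤ τ := (le_max_right _ _).trans hτ
  have hτ3 : K₀ ≤ τ := hK₂.trans hτ2
  have hτ0 : 0 < τ := by linarith
  have hmem := farA_axis hK₀ hτ3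
  set f : HS := fI s r V θ y τ with hf
  set f₂ : HS := mulL (indF y (ρ / 2)) f with hf₂
  set f₁ : HS := f - f₂ with hf₁
  set m : ℝ := ma D τ θ y with hm
  have hm0 : 0 < m := ma_pos t.compact t.inter τ θ y
  set N : HS →L[ℂ] HS := multL (mI s τ) with hNd
  have hfN : N f = N f₁ + N f₂ := by
    rw [← map_add, hf₁, sub_add_cancel]
  -- the three parts
  set i : E3 → ℂ := fun x => indF y ρ x * V x with hi
  have hiB : BM i := (indF_BM y ρ).mul t.pot.BM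
  have hib : ∀ x, ‖indF y ρ x‖ ≤ 1 := by
    intro x
    unfold indF
    split <;> simp
  have hiM : ∀ x, ‖i x‖ ≤ M := by
    intro x
    show ‖indF y ρ x * V x‖ ≤ M
    rw [norm_mul]
    calc ‖indF y ρ x‖ * ‖V x‖ ≤ 1 * M :=
          mul_le_mul (hib x) (t.pot.bounded x) (norm_nonneg _) zero_le_one
      _ = M := one_mul _
  set h₃ : HS := mulL i (N f₂) with hh₃
  set h₂' : HS := mulL i (N f₁) with hh₂
  set h : HS := mulL (indF y ρ) f with hh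
  set h₁' : HS := h - h₂' - h₃ with hh₁
  have hsum : h = h₁' + h₂' + h₃ := by
    rw [hh₁]
    abel
  have hfI := fI_eq (s := s) (by linarith) h2 h1 hr t.pot θ y hτ0 (hT _ hmem)
  have hcoe1 : (h₁' : E3 → ℂ) =ᵐ[volume] fun x => indF y ρ x * (V x * ((wE τ θ y x : ℝ) : ℂ)) := by
    filter_upwards [Lp.coeFn_sub (h - h₂') h₃, Lp.coeFn_sub h h₂', mulL_coe (indF_BM y ρ) f,
      mulL_coe hiB (N f₁), mulL_coe hiB (N f₂), hfI, Lp.coeFn_add (N f₁) (N f₂)] with x a b c d e g k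
    have e1 : (N f : E3 → ℂ) x = (N f₁ : E3 → ℂ) x + (N f₂ : E3 → ℂ) x := by
      rw [hfN]
      exact k
    have e2 : (f : E3 → ℂ) x = V x * ((wE τ θ y x : ℝ) : ℂ) +
        V x * ((N f₁ : E3 → ℂ) x + (N f₂ : E3 → ℂ) x) := by
      rw [← e1]
      exact g
    have e3 : (h₁' : E3 → ℂ) x = (h : E3 → ℂ) x - (h₂' : E3 → ℂ) x - (h₃ : E3 → ℂ) x := by
      rw [hh₁, a, Pi.sub_apply, b, Pi.sub_apply]
    have e4 : (h : E3 → ℂ) x = indF y ρ x * (f : E3 → ℂ) x := c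
    have e5 : (h₂' : E3 → ℂ) x = i x * (N f₁ : E3 → ℂ) x := d
    have e6 : (h₃ : E3 → ℂ) x = i x * (N f₂ : E3 → ℂ) x := e
    rw [e3, e4, e5, e6, e2]
    show _ - indF y ρ x * V x * _ - indF y ρ x * V x * _ = _
    ring
  -- first part
  have hTm : MeasurableSet (far D y ρ) :=
    t.compact.isClosed.measurableSet.inter (measurableSet_le measurable_const (by fun_prop))
  have b1 : ‖h₁'‖ ≤ M * (Real.sqrt v * Real.exp (-(δ * τ))) := by
    refine norm_le_ind (g := fun x => ((wE τ θ y x : ℝ) : ℂ)) hTm hM (by positivity) ?_ ?_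
    · filter_upwards [hcoe1, t.supp] with x a b
      refine ⟨fun hx => ?_, fun hx => ?_⟩
      · rw [a, norm_mul, norm_mul]
        have e1 : ‖V x‖ * ‖((wE τ θ y x : ℝ) : ℂ)‖ ≤ M * ‖((wE τ θ y x : ℝ) : ℂ)‖ :=
          mul_le_mul_of_nonneg_right (t.pot.bounded x) (norm_nonneg _)
        calc ‖indF y ρ x‖ * (‖V x‖ * ‖((wE τ θ y x : ℝ) : ℂ)‖)
            ≤ 1 * (M * ‖((wE τ θ y x : ℝ) : ℂ)‖) :=
              mul_le_mul (hib x) e1 (by positivity) zero_le_one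
          _ = _ := one_mul _
      · rw [a]
        by_cases hxD : x ∈ D
        · have : ¬ ρ ≤ ‖x - y‖ := fun h' => hx ⟨hxD, h'⟩
          simp [indF, this]
        · rw [b hxD]
          simp
    · calc ∫⁻ x in far D y ρ, ‖((wE τ θ y x : ℝ) : ℂ)‖ₑ ^ 2
          ≤ ∫⁻ _x in far D y ρ, ENNReal.ofReal (Real.exp (-(δ * τ)) ^ 2) := by
            refine setLIntegral_mono' hTm fun x hx => ?_
            rw [← ofReal_norm, ← ENNReal.ofReal_pow (norm_nonneg _), Complex.norm_real,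
              Real.norm_of_nonneg (wE_pos τ θ y x).le]
            exact ENNReal.ofReal_le_ofReal (pow_le_pow_left₀ (wE_pos τ θ y x).le
              (wE_far (hfar x hx.1 hx.2) hτ0.le) 2)
        _ = ENNReal.ofReal (Real.exp (-(δ * τ)) ^ 2) * ENNReal.ofReal v := by
            rw [setLIntegral_const, hv, ENNReal.ofReal_toReal hvf]
        _ ≤ _ := by
            rw [← ENNReal.ofReal_mul (by positivity)]
            refine ENNReal.ofReal_le_ofReal (le_of_eq ?_)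
            rw [mul_pow, Real.sq_sqrt ENNReal.toReal_nonneg]
            ring
  -- third part
  have b3 : ‖h₃‖ ≤ M * (C₀ * τ ^ (-(2 * s)) * ‖f₂‖) := by
    have e1 : ‖mulL i‖ ≤ M := norm_mulL_le hiB hM (Eventually.of_forall hiM)
    have e2 : ‖N‖ ≤ C₀ * τ ^ (-(2 * s)) := hN τ hτ0
    calc ‖h₃‖ ≤ ‖mulL i‖ * ‖N f₂‖ := (mulL i).le_opNorm _
      _ ≤ M * (‖N‖ * ‖f₂‖) := mul_le_mul e1 (N.le_opNorm _) (norm_nonneg _) hM
      _ ≤ M * (C₀ * τ ^ (-(2 * s)) * ‖f₂‖) := by gcongr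
  -- second part
  set S : Set E3 := {x | ‖x - y‖ < ρ / 2} ∩ Metric.closedBall 0 r with hS
  set T : Set E3 := {x | ρ ≤ ‖x - y‖} ∩ Metric.closedBall 0 r with hTd
  have hSm : MeasurableSet S :=
    (measurableSet_lt (by fun_prop) measurable_const).inter measurableSet_closedBall
  have hTm' : MeasurableSet T :=
    (measurableSet_le measurable_const (by fun_prop)).inter measurableSet_closedBall
  have hST : ∀ x ∈ T, ∀ x' ∈ S, ρ / 2 ≤ ‖x - x'‖ ∧ ‖x - x'‖ ≤ 2 * r := by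
    rintro x ⟨hx1, hx2⟩ x' ⟨hx1', hx2'⟩
    have hx1a : ρ ≤ ‖x - y‖ := hx1
    have hx1b : ‖x' - y‖ < ρ / 2 := hx1'
    rw [mem_closedBall_zero_iff] at hx2 hx2'
    constructor
    · have e1 : x - y = (x - x') + (x' - y) := by abel
      have e2 : ‖x - y‖ ≤ ‖x - x'‖ + ‖x' - y‖ := by
        rw [e1]
        exact norm_add_le _ _
      linarith
    · have e1 := norm_sub_le x x'
      linarith
  have hcoef : (f : E3 → ℂ) =ᵐ[volume] fun x => V x * (uI s r V θ y τ : E3 → ℂ) x :=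
    fI_coe t.pot θ y τ
  have hcoe1' : (f₁ : E3 → ℂ) =ᵐ[volume] fun x => (1 - indF y (ρ / 2) x) * (f : E3 → ℂ) x := by
    filter_upwards [Lp.coeFn_sub f f₂, mulL_coe (indF_BM y (ρ / 2)) f] with x a b
    have e1 : (f₂ : E3 → ℂ) x = indF y (ρ / 2) x * (f : E3 → ℂ) x := b
    rw [hf₁, a, Pi.sub_apply, e1]
    ring
  have hf₁S : ∀ᵐ x ∂(volume : Measure E3), x ∉ S → (f₁ : E3 → ℂ) x = 0 := by
    filter_upwards [hcoe1', hcoef] with x a b hx
    rw [a, b]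
    by_cases hxr : r ≤ ‖x‖
    · rw [t.pot.vanish x hxr]
      ring
    · have : ρ / 2 ≤ ‖x - y‖ := by
        by_contra h'
        exact hx ⟨not_le.1 h', mem_closedBall_zero_iff.2 (not_le.1 hxr).le⟩
      simp [indF, this]
  have hlef : ∀ᵐ x ∂(volume : Measure E3), ‖(f₁ : E3 → ℂ) x‖ ≤ ‖(f : E3 → ℂ) x‖ := by
    filter_upwards [hcoe1'] with x a
    rw [a, norm_mul]
    have e1 : ‖1 - indF y (ρ / 2) x‖ ≤ 1 := by
      unfold indF
      split <;> simp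
    calc ‖1 - indF y (ρ / 2) x‖ * ‖(f : E3 → ℂ) x‖ ≤ 1 * ‖(f : E3 → ℂ) x‖ :=
          mul_le_mul_of_nonneg_right e1 (norm_nonneg _)
      _ = _ := one_mul _
  have hf₁i : Integrable (f₁ : E3 → ℂ) :=
    (fI_integrable t.pot θ y τ).mono (Lp.memLp f₁).1 hlef
  have hf₁L : ∫⁻ x, ‖(f₁ : E3 → ℂ) x‖ₑ ≤ ENNReal.ofReal (C₂ * m) := by
    refine (lintegral_mono_ae ?_).trans (hL τ hτ2)
    filter_upwards [hlef] with x a
    rw [← ofReal_norm, ← ofReal_norm]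
    exact ENNReal.ofReal_le_ofReal a
  have b2 : ‖h₂'‖ ≤ M * (Real.sqrt C₁ * τ ^ (-(4 * s)) * (C₂ * m)) := by
    refine norm_le_ind (g := fun x => (N f₁ : E3 → ℂ) x) hTm' hM (by positivity) ?_ ?_
    · filter_upwards [mulL_coe hiB (N f₁)] with x d
      have e5 : (h₂' : E3 → ℂ) x = i x * (N f₁ : E3 → ℂ) x := d
      refine ⟨fun _ => ?_, fun hx => ?_⟩
      · rw [e5, norm_mul]
        exact mul_le_mul_of_nonneg_right (hiM x) (norm_nonneg _)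
      · rw [e5]
        have : i x = 0 := by
          show indF y ρ x * V x = 0
          by_cases hxr : r ≤ ‖x‖
          · rw [t.pot.vanish x hxr, mul_zero]
          · have : ¬ ρ ≤ ‖x - y‖ := fun h' =>
              hx ⟨h', mem_closedBall_zero_iff.2 (not_le.1 hxr).le⟩
            simp [indF, this]
        rw [this, zero_mul]
    · calc ∫⁻ x in T, ‖(N f₁ : E3 → ℂ) x‖ₑ ^ 2
          ≤ ENNReal.ofReal (C₁ * τ ^ (-(8 * s))) * (∫⁻ x, ‖(f₁ : E3 → ℂ) x‖ₑ) ^ 2 :=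
            hO τ hτ1 f₁ hf₁i S T hSm hTm' hf₁S hST
        _ ≤ ENNReal.ofReal (C₁ * τ ^ (-(8 * s))) * ENNReal.ofReal (C₂ * m) ^ 2 := by gcongr
        _ = ENNReal.ofReal (C₁ * τ ^ (-(8 * s)) * (C₂ * m) ^ 2) := by
            rw [← ENNReal.ofReal_pow (by positivity), ← ENNReal.ofReal_mul (by positivity)]
        _ ≤ _ := by
            refine ENNReal.ofReal_le_ofReal (le_of_eq ?_)
            have e1 : (τ ^ (-(4 * s))) ^ 2 = τ ^ (-(8 * s)) := by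
              rw [← Real.rpow_natCast, ← Real.rpow_mul hτ0.le]
              congr 1
              push_cast
              ring
            have e2 : (Real.sqrt C₁ * τ ^ (-(4 * s)) * (C₂ * m)) ^ 2 =
                Real.sqrt C₁ ^ 2 * (τ ^ (-(4 * s))) ^ 2 * (C₂ * m) ^ 2 := by ring
            rw [e2, Real.sq_sqrt hC₁, e1]
  have hn : ‖h‖ ≤ ‖h₁'‖ + ‖h₂'‖ + ‖h₃‖ := by
    rw [hsum]
    exact norm_add₃_le
  have q1 : 0 ≤ Real.exp (-(δ * τ)) := (Real.exp_pos _).le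
  have q2 : 0 ≤ τ ^ (-(4 * s)) * m := by positivity
  have q3 : 0 ≤ τ ^ (-(2 * s)) * ‖f₂‖ := by positivity
  have c1 : 0 ≤ M * Real.sqrt v := by positivity
  have c2 : 0 ≤ M * (Real.sqrt C₁ * C₂) := by positivity
  have c3 : 0 ≤ M * C₀ := by positivity
  have r1 := mul_nonneg c2 q1
  have r2 := mul_nonneg c3 q1
  have r3 := mul_nonneg c1 q2
  have r4 := mul_nonneg c3 q2
  have r5 := mul_nonneg c1 q3
  have r6 := mul_nonneg c2 q3
  have e1 : M * (Real.sqrt v * Real.exp (-(δ * τ))) = M * Real.sqrt v * Real.exp (-(δ * τ)) := by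
    ring
  have e2 : M * (Real.sqrt C₁ * τ ^ (-(4 * s)) * (C₂ * m)) =
      M * (Real.sqrt C₁ * C₂) * (τ ^ (-(4 * s)) * m) := by ring
  have e3 : M * (C₀ * τ ^ (-(2 * s)) * ‖f₂‖) = M * C₀ * (τ ^ (-(2 * s)) * ‖f₂‖) := by ring
  have e4 : (M * Real.sqrt v + M * (Real.sqrt C₁ * C₂) + M * C₀) * (Real.exp (-(δ * τ)) +
      τ ^ (-(4 * s)) * m + τ ^ (-(2 * s)) * ‖f₂‖) =
      M * Real.sqrt v * Real.exp (-(δ * τ)) + M * (Real.sqrt C₁ * C₂) * (τ ^ (-(4 * s)) * m) +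
        M * C₀ * (τ ^ (-(2 * s)) * ‖f₂‖) +
      (M * (Real.sqrt C₁ * C₂) * Real.exp (-(δ * τ)) + M * C₀ * Real.exp (-(δ * τ)) +
        M * Real.sqrt v * (τ ^ (-(4 * s)) * m) + M * C₀ * (τ ^ (-(4 * s)) * m) +
        M * Real.sqrt v * (τ ^ (-(2 * s)) * ‖f₂‖) +
        M * (Real.sqrt C₁ * C₂) * (τ ^ (-(2 * s)) * ‖f₂‖)) := by ring
  rw [e4]
  rw [e1] at b1
  rw [e2] at b2
  rw [e3] at b3
  linarith

end FracScatC

end
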