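import Pool.Agent.Lib.MP_6e2ba5_an.Rx.FarA

/-! # The source far from the exposed point

`X(ρ) = ‖indF y ρ · f‖`, `m = ma`. `X(ρ/4) ≤ ‖f‖ ≤ C √m ≤ C' τ^(3/2) m` (`fI_L2`, `ma_lower`). `farA` for `ρ/2`:
`X(ρ/2) ≤ C(exp(-δτ) + τ^(-4s) m + τ^(3/2-2s) m)`; `farA` for `ρ`:
`X(ρ) ≤ C(exp(-δτ) + τ^(-4s) m + τ^(-2s) exp(-δ'τ) + τ^(-6s) m + τ^(3/2-4s) m)`. Multiply by `τ^(2s)/m`: each term
tends to `0` (`far_small`, and `2s > 3/2`). -/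

set_option autoImplicit false

open MeasureTheory Filter Topology Set
open scoped FourierTransform SchwartzMap InnerProductSpace ENNReal BoundedContinuousFunction

noncomputable section

namespace FracScatC

open FracScat

private theorem norm_indF_le (y : E3) (ρ : ℝ) (f : HS) : ‖mulL (indF y ρ) f‖ ≤ ‖f‖ := by
  have h1 : ‖mulL (indF y ρ)‖ ≤ 1 := by
    refine norm_mulL_le (indF_BM y ρ) zero_le_one (Eventually.of_forall fun x => ?_)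
    unfold indF
    split <;> simp
  calc ‖mulL (indF y ρ) f‖ ≤ ‖mulL (indF y ρ)‖ * ‖f‖ := ContinuousLinearMap.le_opNorm _ _
    _ ≤ 1 * ‖f‖ := mul_le_mul_of_nonneg_right h1 (norm_nonneg _)
    _ = ‖f‖ := one_mul _

theorem farB {s : ℝ} (h0 : 3 / 4 < s) (h2 : s < 2) (h1 : s ≠ 1) {r M : ℝ} (hr : 0 < r)
    {V : E3 → ℂ} {D : Set E3} {θ y : E3} {q : ℂ} (t : Tip r M V D θ y q) {K₀ : ℝ} (hK₀ : 1 ≤ K₀)
    (hT : ∀ k ∈ Reg K₀, ‖Tk s r V k‖ ≤ 1 / 2) {ρ : ℝ} (hρ : 0 < ρ) :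
    Tendsto (fun τ : ℝ => τ ^ (2 * s) * ‖mulL (indF y ρ) (fI s r V θ y τ)‖ / ma D τ θ y)
      atTop (𝓝 0) := by
  obtain ⟨C₁, K₁, δ₁, hC₁, hK₁, hδ₁, H₁⟩ := farA h0 h2 h1 hr t hK₀ hT hρ
  obtain ⟨C₂, K₂, δ₂, hC₂, hK₂, hδ₂, H₂⟩ := farA h0 h2 h1 hr t hK₀ hT (half_pos hρ)
  obtain ⟨C₃, K₃, hC₃, hK₃, H₃⟩ := fI_L2 h0 h2 h1 hr t hK₀ hT
  obtain ⟨c, hc, hm⟩ := ma_lower t.compact t.convex t.inter θ t.mem
  have hmp : ∀ τ : ℝ, 0 < ma D τ θ y := fun τ => ma_pos t.compact t.inter τ θ y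
  have F₁ := far_small t.compact t.convex t.inter θ t.mem hδ₁ (2 * s)
  have F₂ := far_small t.compact t.convex t.inter θ t.mem hδ₂ 0
  have T₁ : Tendsto (fun τ : ℝ => τ ^ (-(2 * s))) atTop (𝓝 0) :=
    tendsto_rpow_neg_atTop (by linarith)
  have T₂ : Tendsto (fun τ : ℝ => τ ^ (-(4 * s))) atTop (𝓝 0) :=
    tendsto_rpow_neg_atTop (by linarith)
  have T₃ : Tendsto (fun τ : ℝ => τ ^ (-(2 * s - 3 / 2))) atTop (𝓝 0) :=
    tendsto_rpow_neg_atTop (by linarith)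
  have hlim : Tendsto (fun τ : ℝ => C₁ * (τ ^ (2 * s) * Real.exp (-(δ₁ * τ)) / ma D τ θ y +
      τ ^ (-(2 * s)) + C₂ * (τ ^ (0 : ℝ) * Real.exp (-(δ₂ * τ)) / ma D τ θ y + τ ^ (-(4 * s)) +
        C₃ * (1 / Real.sqrt c) * τ ^ (-(2 * s - 3 / 2))))) atTop (𝓝 0) := by
    have := (((F₁.add T₁).add (((F₂.add T₂).add (T₃.const_mul (C₃ * (1 / Real.sqrt c)))).const_mul
      C₂)).const_mul C₁)
    simpa using this
  refine squeeze_zero' ?_ ?_ hlim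
  · filter_upwards [eventually_ge_atTop (1 : ℝ)] with τ hτ
    have := hmp τ
    positivity
  · filter_upwards [eventually_ge_atTop (1 : ℝ), eventually_ge_atTop K₁, eventually_ge_atTop K₂,
      eventually_ge_atTop K₃] with τ hτ h₁ h₂ h₃
    have hτ0 : 0 < τ := by linarith
    have hmτ := hmp τ
    obtain ⟨m, hmd⟩ : ∃ m : ℝ, m = ma D τ θ y := ⟨_, rfl⟩
    obtain ⟨X, hX⟩ : ∃ X : ℝ, X = ‖mulL (indF y ρ) (fI s r V θ y τ)‖ := ⟨_, rfl⟩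
    obtain ⟨Y, hY⟩ : ∃ Y : ℝ, Y = ‖mulL (indF y (ρ / 2)) (fI s r V θ y τ)‖ := ⟨_, rfl⟩
    obtain ⟨Z, hZ⟩ : ∃ Z : ℝ, Z = ‖mulL (indF y (ρ / 2 / 2)) (fI s r V θ y τ)‖ := ⟨_, rfl⟩
    have A₁ := H₁ τ h₁
    have A₂ := H₂ τ h₂
    have A₃ : Z ≤ C₃ * Real.sqrt m := by
      rw [hZ, hmd]
      exact (norm_indF_le _ _ _).trans (H₃ τ h₃)
    have A₄ := hm τ hτ
    rw [← hX, ← hmd, ← hY] at A₁
    rw [← hY, ← hmd, ← hZ] at A₂
    rw [← hmd] at A₄ hmτ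
    rw [← hX, ← hmd]
    have hp : 0 < τ ^ (2 * s) := Real.rpow_pos_of_pos hτ0 _
    have e₁ : τ ^ (-(2 * s)) * τ ^ (2 * s) = 1 := by
      rw [← Real.rpow_add hτ0]
      simp
    have e₂ : τ ^ (-(4 * s)) * τ ^ (2 * s) = τ ^ (-(2 * s)) := by
      rw [← Real.rpow_add hτ0]
      congr 1
      ring
    -- the square root
    have hsm : 0 < Real.sqrt m := Real.sqrt_pos.2 hmτ
    have hsc : 0 < Real.sqrt c := Real.sqrt_pos.2 hc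
    have e₃ : Real.sqrt m / m ≤ 1 / Real.sqrt c * τ ^ (3 / 2 : ℝ) := by
      have g₁ : Real.sqrt m * Real.sqrt m = m := Real.mul_self_sqrt hmτ.le
      have g₂ : Real.sqrt c * τ ^ (-(3 / 2) : ℝ) ≤ Real.sqrt m := by
        refine Real.le_sqrt_of_sq_le ?_
        rw [mul_pow, Real.sq_sqrt hc.le, ← Real.rpow_natCast, ← Real.rpow_mul hτ0.le]
        refine le_trans (le_of_eq ?_) A₄
        norm_num
      have g₃ : τ ^ (-(3 / 2) : ℝ) * τ ^ (3 / 2 : ℝ) = 1 := by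
        rw [← Real.rpow_add hτ0]
        simp
      have hp3 : 0 < τ ^ (3 / 2 : ℝ) := Real.rpow_pos_of_pos hτ0 _
      have g₄ : Real.sqrt c ≤ Real.sqrt m * τ ^ (3 / 2 : ℝ) := by
        calc Real.sqrt c = Real.sqrt c * τ ^ (-(3 / 2) : ℝ) * τ ^ (3 / 2 : ℝ) := by
              rw [mul_assoc, g₃, mul_one]
          _ ≤ _ := mul_le_mul_of_nonneg_right g₂ hp3.le
      rw [div_le_iff₀ hmτ]
      calc Real.sqrt m = Real.sqrt c / Real.sqrt c * Real.sqrt m := by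
            rw [div_self hsc.ne', one_mul]
        _ ≤ (Real.sqrt m * τ ^ (3 / 2 : ℝ)) / Real.sqrt c * Real.sqrt m := by gcongr
        _ = 1 / Real.sqrt c * τ ^ (3 / 2 : ℝ) * (Real.sqrt m * Real.sqrt m) := by ring
        _ = 1 / Real.sqrt c * τ ^ (3 / 2 : ℝ) * m := by rw [g₁]
    have e₄ : τ ^ (-(2 * s)) * τ ^ (3 / 2 : ℝ) = τ ^ (-(2 * s - 3 / 2)) := by
      rw [← Real.rpow_add hτ0]
      congr 1
      ring
    -- the bound of `Y / m`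
    have B₂ : Y / m ≤ C₂ * (τ ^ (0 : ℝ) * Real.exp (-(δ₂ * τ)) / m + τ ^ (-(4 * s)) +
        C₃ * (1 / Real.sqrt c) * τ ^ (-(2 * s - 3 / 2))) := by
      have hq : 0 < τ ^ (-(2 * s)) := Real.rpow_pos_of_pos hτ0 _
      have k₁ : Y / m ≤ C₂ * (Real.exp (-(δ₂ * τ)) + τ ^ (-(4 * s)) * m +
          τ ^ (-(2 * s)) * (C₃ * Real.sqrt m)) / m := by
        gcongr
        exact A₂.trans (by gcongr)
      have k₂ : C₂ * (Real.exp (-(δ₂ * τ)) + τ ^ (-(4 * s)) * m +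
          τ ^ (-(2 * s)) * (C₃ * Real.sqrt m)) / m = C₂ * (Real.exp (-(δ₂ * τ)) / m +
          τ ^ (-(4 * s)) + C₃ * (τ ^ (-(2 * s)) * (Real.sqrt m / m))) := by
        field_simp
      rw [k₂] at k₁
      refine k₁.trans ?_
      rw [Real.rpow_zero, one_mul, ← e₄]
      have k₃ : τ ^ (-(2 * s)) * (Real.sqrt m / m) ≤
          τ ^ (-(2 * s)) * (1 / Real.sqrt c * τ ^ (3 / 2 : ℝ)) :=
        mul_le_mul_of_nonneg_left e₃ hq.le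
      have k₄ : C₃ * (τ ^ (-(2 * s)) * (Real.sqrt m / m)) ≤
          C₃ * (1 / Real.sqrt c) * (τ ^ (-(2 * s)) * τ ^ (3 / 2 : ℝ)) := by
        calc C₃ * (τ ^ (-(2 * s)) * (Real.sqrt m / m)) ≤
            C₃ * (τ ^ (-(2 * s)) * (1 / Real.sqrt c * τ ^ (3 / 2 : ℝ))) :=
              mul_le_mul_of_nonneg_left k₃ hC₃
          _ = _ := by ring
      gcongr
    have k₅ : τ ^ (2 * s) * X / m ≤ τ ^ (2 * s) * (C₁ * (Real.exp (-(δ₁ * τ)) +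
        τ ^ (-(4 * s)) * m + τ ^ (-(2 * s)) * Y)) / m := by
      gcongr
    have k₆ : τ ^ (2 * s) * (C₁ * (Real.exp (-(δ₁ * τ)) +
        τ ^ (-(4 * s)) * m + τ ^ (-(2 * s)) * Y)) / m = C₁ * (τ ^ (2 * s) *
        Real.exp (-(δ₁ * τ)) / m + τ ^ (-(4 * s)) * τ ^ (2 * s) * (m / m) +
        τ ^ (-(2 * s)) * τ ^ (2 * s) * (Y / m)) := by
      ring
    rw [k₆, e₁, e₂, div_self hmτ.ne', mul_one, one_mul] at k₅
    refine k₅.trans ?_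
    gcongr

end FracScatC

end
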