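import Mathlib

/-! # A one dimensional integral

`s < 1`: for `b ≥ 0`, `u ↦ u^(-s-1)(exp(-ub) - 1)` is integrable on `(0,∞)` (near `0`:
`|exp(-ub)-1| ≤ ub`; at `∞`: `≤ u^(-s-1)`), and the substitution `u → u/b` gives
`∫ = b^s c`, `c = ∫ u^(-s-1)(exp(-u)-1) du < 0` (`integral_comp_mul_left_Ioi`-type lemmas; for `b = 0` both sides
vanish). As `∑ w_j = 0`, the sum of `w_j exp(-ub_j)` equals the sum of `w_j (exp(-ub_j)-1)`.
`1 < s < 2`: the same with `exp(-ub) - 1 + ub`, `0 ≤ exp(-x)-1+x ≤ min(x, x²)`, `c > 0`, using also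
`∑ w_j b_j = 0`. -/

set_option autoImplicit false

open MeasureTheory Filter Topology Set
open scoped FourierTransform SchwartzMap InnerProductSpace ENNReal BoundedContinuousFunction

noncomputable section

namespace FracScatC

private theorem kapG_scale {s : ℝ} (h0 : 0 < s) (g : ℝ → ℝ) (g0 : g 0 = 0)
    (hint : IntegrableOn (fun u : ℝ => u ^ (-(s + 1)) * g u) (Ioi 0)) (b : ℝ) (hb : 0 ≤ b) :
    IntegrableOn (fun u : ℝ => u ^ (-(s + 1)) * g (u * b)) (Ioi 0) ∧
      ∫ u in Ioi (0 : ℝ), u ^ (-(s + 1)) * g (u * b) =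
        (∫ u in Ioi (0 : ℝ), u ^ (-(s + 1)) * g u) * b ^ s := by
  rcases hb.eq_or_lt with hb0 | hb0
  · subst hb0
    have hz : (fun u : ℝ => u ^ (-(s + 1)) * g (u * 0)) = fun _ => 0 := by
      funext u
      rw [mul_zero, g0, mul_zero]
    rw [hz, Real.zero_rpow h0.ne', mul_zero]
    exact ⟨integrableOn_zero, by simp⟩
  · have heq : ∀ u ∈ Ioi (0 : ℝ), b ^ (s + 1) * ((u * b) ^ (-(s + 1)) * g (u * b)) =
        u ^ (-(s + 1)) * g (u * b) := by
      intro u hu
      rw [Real.mul_rpow (le_of_lt hu) hb0.le]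
      have : b ^ (s + 1) * b ^ (-(s + 1)) = 1 := by
        rw [← Real.rpow_add hb0]
        simp
      linear_combination (u ^ (-(s + 1)) * g (u * b)) * this
    have hi : IntegrableOn (fun u : ℝ => (u * b) ^ (-(s + 1)) * g (u * b)) (Ioi 0) := by
      have := (integrableOn_Ioi_comp_mul_right_iff
        (fun u : ℝ => u ^ (-(s + 1)) * g u) 0 hb0).mpr (by rwa [zero_mul])
      exact this
    constructor
    · exact IntegrableOn.congr_fun (Integrable.const_mul hi (b ^ (s + 1))) heq measurableSet_Ioi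
    · rw [← setIntegral_congr_fun measurableSet_Ioi heq, integral_const_mul]
      have h3 := integral_comp_mul_right_Ioi (fun u : ℝ => u ^ (-(s + 1)) * g u) 0 hb0
      simp only [zero_mul, smul_eq_mul] at h3
      rw [h3]
      have h4 : b ^ (s + 1) * b⁻¹ = b ^ s := by
        rw [Real.rpow_add hb0, Real.rpow_one, mul_assoc, mul_inv_cancel₀ hb0.ne', mul_one]
      linear_combination (∫ u in Ioi (0 : ℝ), u ^ (-(s + 1)) * g u) * h4

private theorem kapG_int {s t : ℝ} (ht : -1 < t) (g : ℝ → ℝ) (hg : Continuous g)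
    (hs1 : ∀ u : ℝ, 0 < u → |u ^ (-(s + 1)) * g u| ≤ u ^ t)
    (hs2 : ∀ u : ℝ, 0 < u → |u ^ (-(s + 1)) * g u| ≤ u ^ (t - 1)) (ht0 : t - 1 < -1) :
    IntegrableOn (fun u : ℝ => u ^ (-(s + 1)) * g u) (Ioi 0) := by
  have hmeas : ∀ S : Set ℝ, AEStronglyMeasurable (fun u : ℝ => u ^ (-(s + 1)) * g u)
      (volume.restrict S) := by
    intro S
    exact ((measurable_id.pow_const _).mul hg.measurable).aestronglyMeasurable
  rw [← Ioc_union_Ioi_eq_Ioi (zero_le_one (α := ℝ))]
  refine IntegrableOn.union ?_ ?_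
  · have h1 : IntegrableOn (fun u : ℝ => u ^ t) (Ioc 0 1) := by
      have := (intervalIntegral.intervalIntegrable_rpow' (a := 0) (b := 1) ht)
      exact (intervalIntegrable_iff_integrableOn_Ioc_of_le zero_le_one).mp this
    refine Integrable.mono' h1 (hmeas _) ?_
    refine (ae_restrict_iff' measurableSet_Ioc).mpr (Eventually.of_forall fun u hu => ?_)
    exact hs1 u hu.1
  · have h1 : IntegrableOn (fun u : ℝ => u ^ (t - 1)) (Ioi 1) :=
      integrableOn_Ioi_rpow_of_lt ht0 zero_lt_one
    refine Integrable.mono' h1 (hmeas _) ?_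
    refine (ae_restrict_iff' measurableSet_Ioi).mpr (Eventually.of_forall fun u hu => ?_)
    exact hs2 u (lt_trans zero_lt_one hu)

private theorem kapG_pos {f : ℝ → ℝ} (hf : IntegrableOn f (Ioi 0)) (hpos : ∀ u : ℝ, 0 < u → 0 < f u) :
    0 < ∫ u in Ioi (0 : ℝ), f u := by
  rw [setIntegral_pos_iff_support_of_nonneg_ae _ hf]
  · have : Function.support f ∩ Ioi 0 = Ioi 0 := by
      apply inter_eq_right.mpr
      intro u hu
      exact (hpos u hu).ne'
    rw [this, Real.volume_Ioi]
    exact ENNReal.zero_lt_top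
  · refine (ae_restrict_iff' measurableSet_Ioi).mpr (Eventually.of_forall fun u hu => ?_)
    exact (hpos u hu).le

private theorem kapG_main {s : ℝ} (h0 : 0 < s) (g : ℝ → ℝ) (g0 : g 0 = 0)
    (hint : IntegrableOn (fun u : ℝ => u ^ (-(s + 1)) * g u) (Ioi 0))
    (hc : (∫ u in Ioi (0 : ℝ), u ^ (-(s + 1)) * g u) ≠ 0)
    (hg : ∀ w b : ℕ → ℝ, ∑ j ∈ Finset.range 7, w j = 0 → ∑ j ∈ Finset.range 7, w j * b j = 0 →
      ∀ u : ℝ, ∑ j ∈ Finset.range 7, w j * Real.exp (-(u * b j)) =
        ∑ j ∈ Finset.range 7, w j * g (u * b j)) : ∃ c : ℝ, c ≠ 0 ∧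
    ∀ w b : ℕ → ℝ, (∀ j, 0 ≤ b j) → ∑ j ∈ Finset.range 7, w j = 0 →
      ∑ j ∈ Finset.range 7, w j * b j = 0 →
      IntegrableOn (fun u : ℝ => u ^ (-(s + 1)) *
        ∑ j ∈ Finset.range 7, w j * Real.exp (-(u * b j))) (Ioi 0) ∧
      ∫ u in Ioi (0 : ℝ), u ^ (-(s + 1)) * ∑ j ∈ Finset.range 7, w j * Real.exp (-(u * b j)) =
        c * ∑ j ∈ Finset.range 7, w j * (b j) ^ s := by
  refine ⟨_, hc, fun w b hb hw hwb => ?_⟩
  have hfun : (fun u : ℝ => u ^ (-(s + 1)) *
        ∑ j ∈ Finset.range 7, w j * Real.exp (-(u * b j))) =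
      fun u : ℝ => ∑ j ∈ Finset.range 7, w j * (u ^ (-(s + 1)) * g (u * b j)) := by
    funext u
    rw [hg w b hw hwb u, Finset.mul_sum]
    refine Finset.sum_congr rfl fun j _ => by ring
  have hi : ∀ j ∈ Finset.range 7, Integrable (fun u : ℝ => w j * (u ^ (-(s + 1)) * g (u * b j)))
      (volume.restrict (Ioi 0)) := fun j _ => ((kapG_scale h0 g g0 hint (b j) (hb j)).1).const_mul _
  rw [hfun]
  constructor
  · exact integrable_finsetSum _ hi
  · rw [integral_finsetSum _ hi, Finset.mul_sum]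
    refine Finset.sum_congr rfl fun j _ => ?_
    rw [integral_const_mul, (kapG_scale h0 g g0 hint (b j) (hb j)).2]
    ring

theorem kapG {s : ℝ} (h0 : 0 < s) (h2 : s < 2) (h1 : s ≠ 1) : ∃ c : ℝ, c ≠ 0 ∧
    ∀ w b : ℕ → ℝ, (∀ j, 0 ≤ b j) → ∑ j ∈ Finset.range 7, w j = 0 →
      ∑ j ∈ Finset.range 7, w j * b j = 0 →
      IntegrableOn (fun u : ℝ => u ^ (-(s + 1)) *
        ∑ j ∈ Finset.range 7, w j * Real.exp (-(u * b j))) (Ioi 0) ∧
      ∫ u in Ioi (0 : ℝ), u ^ (-(s + 1)) * ∑ j ∈ Finset.range 7, w j * Real.exp (-(u * b j)) =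
        c * ∑ j ∈ Finset.range 7, w j * (b j) ^ s := by
  rcases lt_or_gt_of_ne h1 with hs | hs
  · -- `s < 1`
    have hint : IntegrableOn (fun u : ℝ => u ^ (-(s + 1)) * (Real.exp (-u) - 1)) (Ioi 0) := by
      refine kapG_int (s := s) (t := -s) (by linarith)
        (fun u => Real.exp (-u) - 1) (by fun_prop) ?_ ?_ (by linarith)
      · intro u hu
        rw [abs_mul, abs_of_pos (Real.rpow_pos_of_pos hu _)]
        have h3 : |Real.exp (-u) - 1| ≤ u := by
          rw [abs_le]
          constructor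
          · linarith [Real.add_one_le_exp (-u)]
          · have : Real.exp (-u) ≤ 1 := Real.exp_le_one_iff.mpr (by linarith)
            linarith
        calc u ^ (-(s + 1)) * |Real.exp (-u) - 1| ≤ u ^ (-(s + 1)) * u ^ (1 : ℝ) := by
              rw [Real.rpow_one]
              exact mul_le_mul_of_nonneg_left h3 (Real.rpow_pos_of_pos hu _).le
          _ = u ^ (-s) := by
              rw [← Real.rpow_add hu]
              congr 1
              ring
      · intro u hu
        rw [abs_mul, abs_of_pos (Real.rpow_pos_of_pos hu _)]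
        have h3 : |Real.exp (-u) - 1| ≤ 1 := by
          rw [abs_le]
          constructor
          · linarith [Real.exp_pos (-u)]
          · have : Real.exp (-u) ≤ 1 := Real.exp_le_one_iff.mpr (by linarith)
            linarith
        calc u ^ (-(s + 1)) * |Real.exp (-u) - 1| ≤ u ^ (-(s + 1)) * 1 :=
              mul_le_mul_of_nonneg_left h3 (Real.rpow_pos_of_pos hu _).le
          _ = u ^ (-s - 1) := by
              rw [mul_one]
              congr 1
              ring
    refine kapG_main h0 (fun u => Real.exp (-u) - 1) (by simp) hint ?_ ?_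
    · have h3 := kapG_pos (f := fun u : ℝ => -(u ^ (-(s + 1)) * (Real.exp (-u) - 1))) hint.neg
        (fun u hu => by
          have h4 := Real.rpow_pos_of_pos hu (-(s + 1))
          have h5 : Real.exp (-u) < 1 := Real.exp_lt_one_iff.mpr (by linarith)
          have h6 := mul_pos h4 (sub_pos.mpr h5)
          show 0 < -(u ^ (-(s + 1)) * (Real.exp (-u) - 1))
          linarith)
      rw [integral_neg] at h3
      exact (neg_pos.mp h3).ne
    · intro w b hw _ u
      have : ∑ j ∈ Finset.range 7, w j * (Real.exp (-(u * b j)) - 1) =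
          ∑ j ∈ Finset.range 7, w j * Real.exp (-(u * b j)) - ∑ j ∈ Finset.range 7, w j := by
        rw [← Finset.sum_sub_distrib]
        refine Finset.sum_congr rfl fun j _ => by ring
      rw [this, hw, sub_zero]
  · -- `1 < s`
    have hup : ∀ u : ℝ, 0 < u → Real.exp (-u) - 1 + u ≤ u ^ 2 := by
      intro u hu
      have h3 : Real.exp (-u) ≤ (1 + u)⁻¹ := by
        rw [Real.exp_neg]
        exact inv_anti₀ (by linarith) (by linarith [Real.add_one_le_exp u])
      have h4 : (1 + u)⁻¹ - 1 + u = u ^ 2 / (1 + u) := by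
        field_simp
        ring
      have h5 : u ^ 2 / (1 + u) ≤ u ^ 2 := div_le_self (by positivity) (by linarith)
      linarith
    have hlow : ∀ u : ℝ, 0 < u → 0 < Real.exp (-u) - 1 + u := by
      intro u hu
      have := Real.add_one_lt_exp (x := -u) (by linarith)
      linarith
    have hint : IntegrableOn (fun u : ℝ => u ^ (-(s + 1)) * (Real.exp (-u) - 1 + u)) (Ioi 0) := by
      refine kapG_int (s := s) (t := 1 - s) (by linarith)
        (fun u => Real.exp (-u) - 1 + u) (by fun_prop) ?_ ?_ (by linarith)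
      · intro u hu
        rw [abs_mul, abs_of_pos (Real.rpow_pos_of_pos hu _), abs_of_pos (hlow u hu)]
        calc u ^ (-(s + 1)) * (Real.exp (-u) - 1 + u) ≤ u ^ (-(s + 1)) * u ^ (2 : ℝ) := by
              rw [Real.rpow_two]
              exact mul_le_mul_of_nonneg_left (hup u hu) (Real.rpow_pos_of_pos hu _).le
          _ = u ^ (1 - s) := by
              rw [← Real.rpow_add hu]
              congr 1
              ring
      · intro u hu
        rw [abs_mul, abs_of_pos (Real.rpow_pos_of_pos hu _), abs_of_pos (hlow u hu)]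
        have h3 : Real.exp (-u) - 1 + u ≤ u := by
          have : Real.exp (-u) ≤ 1 := Real.exp_le_one_iff.mpr (by linarith)
          linarith
        calc u ^ (-(s + 1)) * (Real.exp (-u) - 1 + u) ≤ u ^ (-(s + 1)) * u ^ (1 : ℝ) := by
              rw [Real.rpow_one]
              exact mul_le_mul_of_nonneg_left h3 (Real.rpow_pos_of_pos hu _).le
          _ = u ^ (1 - s - 1) := by
              rw [← Real.rpow_add hu]
              congr 1
              ring
    refine kapG_main h0 (fun u => Real.exp (-u) - 1 + u) (by simp) hint ?_ ?_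
    · exact (kapG_pos hint (fun u hu => mul_pos (Real.rpow_pos_of_pos hu _) (hlow u hu))).ne'
    · intro w b hw hwb u
      have : ∑ j ∈ Finset.range 7, w j * (Real.exp (-(u * b j)) - 1 + u * b j) =
          ∑ j ∈ Finset.range 7, w j * Real.exp (-(u * b j)) - ∑ j ∈ Finset.range 7, w j +
            u * ∑ j ∈ Finset.range 7, w j * b j := by
        rw [← Finset.sum_sub_distrib, Finset.mul_sum, ← Finset.sum_add_distrib]
        refine Finset.sum_congr rfl fun j _ => by ring
      rw [this, hw, hwb, sub_zero, mul_zero, add_zero]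

end FracScatC

end
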