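import Pool.Agent.Lib.MP_6e2ba5_an.Rx.KapI
import Pool.Agent.Lib.MP_6e2ba5_an.Rx.KapG

/-! # The Fourier transform of `ps6 h · kf s`

`p = 3+2s`. For `x ≠ 0`: `‖x‖^(-p) = c_p ∫_0^∞ t^(p/2-1) exp(-πt‖x‖²) dt` with `c_p = π^(p/2)/Γ(p/2)`
(`Real.integral_rpow_mul_exp_neg_mul_Ioi`). Insert it into `𝓕 (ps6 h · kf s) ξ` and use Fubini: the
absolute double integral is `∫ ‖ps6 h x‖ ‖x‖^(-p) dx / c_p < ∞` (`kap_int`). For fixed `t > 0`,
`ps6 h x = ∑_{j≤6} (-1)^j (6 choose j) efun (j h) x` (binomial theorem, `efun h x ^ j = efun (j h) x`), and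
`𝓕 (exp(-πt‖·‖²)) η = t^(-3/2) exp(-π‖η‖²/t)` (`fourierIntegral_gaussian_innerProductSpace` or
`fourier_gaussian_innerProductSpace`, dimension 3), so that
`∫ ps6 h x exp(-πt‖x‖²) exp(-2πiξ·x) dx = t^(-3/2) ∑ (-1)^j (6 choose j) exp(-π‖ξ-jh‖²/t)`.
Substitute `u = 1/t` in `∫_0^∞ t^(p/2-1-3/2) ∑ (..) exp(-π‖ξ-jh‖²/t) dt` (for instance
`integral_comp_rpow_Ioi` with exponent `-1`): it becomes
`∫_0^∞ u^(-s-1) ∑ (-1)^j (6 choose j) exp(-u b_j) du`, `b_j = π‖ξ-jh‖²`, equal to `c ∑ (-1)^j (6 choose j) b_j^s` by `kapG`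
(`∑ (-1)^j (6 choose j) = 0` and `∑ (-1)^j (6 choose j) b_j = 0`, as `b_j` is a quadratic polynomial in `j`).
`b_j^s = π^s ‖ξ-jh‖^(2s)`, `aS s (ξ-jh) = (2π)^(2s) ‖ξ-jh‖^(2s)`: `γ = c_p c π^s (2π)^(-2s)`. -/

set_option autoImplicit false

open MeasureTheory Filter Topology Set
open scoped FourierTransform SchwartzMap InnerProductSpace ENNReal BoundedContinuousFunction

noncomputable section

namespace FracScatC

open FracScat

/-- the weight `(-1)^j (6 choose j)` -/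
private def kw (j : ℕ) : ℝ := (-1) ^ j * (Nat.choose 6 j : ℝ)

private theorem kw_cast (j : ℕ) : ((kw j : ℝ) : ℂ) = (-1 : ℂ) ^ j * (Nat.choose 6 j : ℂ) := by
  unfold kw
  push_cast
  rfl

private theorem kw_sum : ∑ j ∈ Finset.range 7, kw j = 0 := by
  simp only [kw, Finset.sum_range_succ, Finset.sum_range_zero]
  norm_num [Nat.choose]

private theorem kw_b (h ξ : E3) :
    ∑ j ∈ Finset.range 7, kw j * (Real.pi * ‖ξ - (j : ℝ) • h‖ ^ 2) = 0 := by
  have h1 : ∀ j : ℕ, ‖ξ - (j : ℝ) • h‖ ^ 2 =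
      ‖ξ‖ ^ 2 - 2 * ((j : ℝ) * ⟪ξ, h⟫_ℝ) + (j : ℝ) ^ 2 * ‖h‖ ^ 2 := by
    intro j
    rw [norm_sub_sq_real, real_inner_smul_right, norm_smul, mul_pow, Real.norm_eq_abs, sq_abs]
  simp only [h1, kw, Finset.sum_range_succ, Finset.sum_range_zero]
  norm_num [Nat.choose]
  ring

private theorem efun_nsmul (h x : E3) (j : ℕ) : efun ((j : ℝ) • h) x = efun h x ^ j := by
  unfold efun
  rw [← Complex.exp_nat_mul]
  congr 1
  rw [real_inner_smul_left]
  push_cast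
  ring

private theorem ps6_expand (h x : E3) :
    ps6 h x = ∑ j ∈ Finset.range 7, ((kw j : ℝ) : ℂ) * efun ((j : ℝ) • h) x := by
  simp only [efun_nsmul, kw_cast, ps6, Finset.sum_range_succ, Finset.sum_range_zero]
  norm_num [Nat.choose]
  ring

/-- the Gaussian -/
private def gT (t : ℝ) (x : E3) : ℂ := Complex.exp (-((Real.pi * t : ℝ) : ℂ) * (‖x‖ : ℂ) ^ 2)

private theorem four_gauss {t : ℝ} (ht : 0 < t) (h ξ : E3) :
    ∫ x : E3, (Real.fourierChar (-⟪x, ξ⟫_ℝ) : ℂ) * (ps6 h x * gT t x) =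
      ((t ^ (-(3 / 2 : ℝ)) * ∑ j ∈ Finset.range 7,
        kw j * Real.exp (-(Real.pi * ‖ξ - (j : ℝ) • h‖ ^ 2 / t)) : ℝ) : ℂ) := by
  have hb : 0 < (((Real.pi * t : ℝ) : ℂ)).re := by
    rw [Complex.ofReal_re]
    positivity
  have hterm : ∀ (j : ℕ) (x : E3), efun ((j : ℝ) • h) x * gT t x =
      Complex.exp (-((Real.pi * t : ℝ) : ℂ) * (‖x‖ : ℂ) ^ 2 +
        2 * (Real.pi : ℂ) * Complex.I * ((⟪(j : ℝ) • h, x⟫_ℝ : ℝ) : ℂ)) := by
    intro j x
    unfold efun gT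
    rw [← Complex.exp_add]
    congr 1
    push_cast
    ring
  have hF : ∀ j : ℕ, ∫ x : E3, (Real.fourierChar (-⟪x, ξ⟫_ℝ) : ℂ) *
      (efun ((j : ℝ) • h) x * gT t x) =
      ((t ^ (-(3 / 2 : ℝ)) * Real.exp (-(Real.pi * ‖ξ - (j : ℝ) • h‖ ^ 2 / t)) : ℝ) : ℂ) := by
    intro j
    have h1 := fourier_gaussian_innerProductSpace' hb ((j : ℝ) • h) ξ
    rw [Real.fourier_eq] at h1
    have h2 : (fun x : E3 => (Real.fourierChar (-⟪x, ξ⟫_ℝ) : ℂ) *
        (efun ((j : ℝ) • h) x * gT t x)) = fun x : E3 => Real.fourierChar (-⟪x, ξ⟫_ℝ) •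
        Complex.exp (-((Real.pi * t : ℝ) : ℂ) * (‖x‖ : ℂ) ^ 2 +
        2 * (Real.pi : ℂ) * Complex.I * ((⟪(j : ℝ) • h, x⟫_ℝ : ℝ) : ℂ)) := by
      funext x
      rw [hterm j x, Circle.smul_def, smul_eq_mul]
    rw [h2, h1]
    have h3 : (Module.finrank ℝ E3 : ℂ) = 3 := by
      rw [finrank_euclideanSpace_fin]
      norm_num
    rw [h3]
    have h4 : (Real.pi : ℂ) / ((Real.pi * t : ℝ) : ℂ) = ((t⁻¹ : ℝ) : ℂ) := by
      have hpi : (Real.pi : ℂ) ≠ 0 := Complex.ofReal_ne_zero.mpr Real.pi_ne_zero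
      have ht' : (t : ℂ) ≠ 0 := Complex.ofReal_ne_zero.mpr ht.ne'
      push_cast
      field_simp
    rw [h4]
    have h5 : ((t⁻¹ : ℝ) : ℂ) ^ (3 / 2 : ℂ) = ((t ^ (-(3 / 2 : ℝ)) : ℝ) : ℂ) := by
      have : (3 / 2 : ℂ) = ((3 / 2 : ℝ) : ℂ) := by push_cast; rfl
      rw [this, ← Complex.ofReal_cpow (inv_nonneg.mpr ht.le), Real.inv_rpow ht.le,
        Real.rpow_neg ht.le]
    rw [h5]
    have h6 : -(Real.pi : ℂ) ^ 2 * (‖(j : ℝ) • h - ξ‖ : ℂ) ^ 2 / ((Real.pi * t : ℝ) : ℂ) =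
        ((-(Real.pi * ‖ξ - (j : ℝ) • h‖ ^ 2 / t) : ℝ) : ℂ) := by
      have hpi : (Real.pi : ℂ) ≠ 0 := Complex.ofReal_ne_zero.mpr Real.pi_ne_zero
      have ht' : (t : ℂ) ≠ 0 := Complex.ofReal_ne_zero.mpr ht.ne'
      rw [norm_sub_rev]
      push_cast
      field_simp
    rw [h6, ← Complex.ofReal_exp, ← Complex.ofReal_mul]
  have hint : ∀ j : ℕ, Integrable (fun x : E3 => (Real.fourierChar (-⟪x, ξ⟫_ℝ) : ℂ) *
      (efun ((j : ℝ) • h) x * gT t x)) := by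
    intro j
    have h1 := GaussianFourier.integrable_cexp_neg_mul_sq_norm_add hb
      (2 * (Real.pi : ℂ) * Complex.I) ((j : ℝ) • h)
    have h2 : (fun x : E3 => Complex.exp (-((Real.pi * t : ℝ) : ℂ) * (‖x‖ : ℂ) ^ 2 +
        2 * (Real.pi : ℂ) * Complex.I * ((⟪(j : ℝ) • h, x⟫_ℝ : ℝ) : ℂ))) =
        fun x : E3 => efun ((j : ℝ) • h) x * gT t x := by
      funext x
      rw [hterm j x]
    rw [h2] at h1
    refine Integrable.bdd_mul (c := 1) h1 ?_ ?_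
    · refine Continuous.aestronglyMeasurable ?_
      exact continuous_subtype_val.comp (Real.continuous_fourierChar.comp (by fun_prop))
    · refine Eventually.of_forall fun x => ?_
      rw [Circle.norm_coe]
  have hsum : (fun x : E3 => (Real.fourierChar (-⟪x, ξ⟫_ℝ) : ℂ) * (ps6 h x * gT t x)) =
      fun x : E3 => ∑ j ∈ Finset.range 7, ((kw j : ℝ) : ℂ) *
        ((Real.fourierChar (-⟪x, ξ⟫_ℝ) : ℂ) * (efun ((j : ℝ) • h) x * gT t x)) := by
    funext x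
    rw [ps6_expand, Finset.sum_mul, Finset.mul_sum]
    refine Finset.sum_congr rfl fun j _ => by ring
  rw [hsum, integral_finsetSum _ fun j _ => (hint j).const_mul _]
  simp only [integral_const_mul, hF]
  push_cast
  rw [Finset.mul_sum]
  refine Finset.sum_congr rfl fun j _ => by ring

private theorem subst_inv {s : ℝ} (w b : ℕ → ℝ) :
    ∫ t in Ioi (0 : ℝ), t ^ (s - 1) * ∑ j ∈ Finset.range 7, w j * Real.exp (-(b j / t)) =
      ∫ u in Ioi (0 : ℝ), u ^ (-(s + 1)) *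
        ∑ j ∈ Finset.range 7, w j * Real.exp (-(u * b j)) := by
  rw [← integral_comp_rpow_Ioi (fun t : ℝ => t ^ (s - 1) *
    ∑ j ∈ Finset.range 7, w j * Real.exp (-(b j / t))) (p := -1) (by norm_num)]
  refine setIntegral_congr_fun measurableSet_Ioi fun u hu => ?_
  have hu0 : 0 < u := hu
  have h1 : u ^ (-1 : ℝ) = u⁻¹ := Real.rpow_neg_one u
  show (|(-1 : ℝ)| * u ^ ((-1 : ℝ) - 1)) • ((u ^ (-1 : ℝ)) ^ (s - 1) *
    ∑ j ∈ Finset.range 7, w j * Real.exp (-(b j / u ^ (-1 : ℝ)))) = _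
  have h2 : (u ^ (-1 : ℝ)) ^ (s - 1) = u ^ (1 - s) := by
    rw [← Real.rpow_mul hu0.le]
    congr 1
    ring
  rw [h2, h1, smul_eq_mul, abs_neg, abs_one, one_mul, ← mul_assoc, ← Real.rpow_add hu0]
  have h3 : (-1 : ℝ) - 1 + (1 - s) = -(s + 1) := by ring
  rw [h3]
  congr 1
  refine Finset.sum_congr rfl fun j _ => ?_
  rw [div_inv_eq_mul, mul_comm (b j) u]

/-- the real integrand of the subordination formula -/
private def rr (q : ℝ) (x : E3) (t : ℝ) : ℝ := t ^ (q - 1) * Real.exp (-(Real.pi * ‖x‖ ^ 2 * t))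

private theorem rr_int {s : ℝ} (h0 : 0 < s) {x : E3} (hx : x ≠ 0) :
    Real.pi ^ (s + 3 / 2) / Real.Gamma (s + 3 / 2) *
      ∫ t in Ioi (0 : ℝ), rr (s + 3 / 2) x t = ‖x‖ ^ (-(3 + 2 * s)) := by
  have hn : 0 < ‖x‖ := norm_pos_iff.mpr hx
  have hr : 0 < Real.pi * ‖x‖ ^ 2 := by positivity
  have hq : 0 < s + 3 / 2 := by linarith
  have hG : Real.Gamma (s + 3 / 2) ≠ 0 := (Real.Gamma_pos_of_pos hq).ne'
  have hpi : Real.pi ^ (s + 3 / 2) ≠ 0 := (Real.rpow_pos_of_pos Real.pi_pos _).ne'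
  unfold rr
  rw [Real.integral_rpow_mul_exp_neg_mul_Ioi hq hr, one_div, Real.inv_rpow hr.le,
    Real.mul_rpow Real.pi_pos.le (by positivity), ← Real.rpow_natCast ‖x‖ 2,
    ← Real.rpow_mul hn.le, Real.rpow_neg hn.le]
  have h1 : ((2 : ℕ) : ℝ) * (s + 3 / 2) = 3 + 2 * s := by push_cast; ring
  rw [h1]
  field_simp

private theorem rr_integrable {s : ℝ} (h0 : 0 < s) {x : E3} (hx : x ≠ 0) :
    IntegrableOn (rr (s + 3 / 2) x) (Ioi 0) := by
  have h1 := rr_int h0 hx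
  by_contra hcon
  rw [integral_undef hcon, mul_zero] at h1
  exact (Real.rpow_pos_of_pos (norm_pos_iff.mpr hx) _).ne h1

private theorem rr_nonneg (q : ℝ) (x : E3) {t : ℝ} (ht : 0 ≤ t) : 0 ≤ rr q x t :=
  mul_nonneg (Real.rpow_nonneg ht _) (Real.exp_pos _).le

private theorem rr_eq (q : ℝ) (x : E3) (t : ℝ) :
    ((rr q x t : ℝ) : ℂ) = ((t ^ (q - 1) : ℝ) : ℂ) * gT t x := by
  unfold rr gT
  rw [Complex.ofReal_mul, Complex.ofReal_exp]
  congr 2
  push_cast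
  ring

theorem kapF {s : ℝ} (h0 : 0 < s) (h2 : s < 2) (h1 : s ≠ 1) : ∃ γ : ℝ, γ ≠ 0 ∧ ∀ h ξ : E3,
    𝓕 (fun x => ps6 h x * kf s x) ξ = (γ : ℂ) * D6 (aS s) h ξ := by
  obtain ⟨c, hc, hK⟩ := kapG h0 h2 h1
  have hq : 0 < s + 3 / 2 := by linarith
  set C : ℝ := Real.pi ^ (s + 3 / 2) / Real.Gamma (s + 3 / 2) with hCdef
  have hC : 0 < C := div_pos (Real.rpow_pos_of_pos Real.pi_pos _) (Real.Gamma_pos_of_pos hq)
  have hp1 : 0 < Real.pi ^ s := Real.rpow_pos_of_pos Real.pi_pos _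
  have hp2 : 0 < (2 * Real.pi) ^ (2 * s) := Real.rpow_pos_of_pos (by positivity) _
  refine ⟨C * c * (Real.pi ^ s / (2 * Real.pi) ^ (2 * s)), ?_, fun h ξ => ?_⟩
  · exact mul_ne_zero (mul_ne_zero hC.ne' hc) (div_pos hp1 hp2).ne'
  -- the integrand
  set G : E3 → ℝ → ℂ := fun x t => (Real.fourierChar (-⟪x, ξ⟫_ℝ) : ℂ) * ps6 h x *
    ((C * rr (s + 3 / 2) x t : ℝ) : ℂ) with hG
  have hne : ∀ᵐ x : E3, x ≠ 0 := by
    have := (measure_singleton (μ := (volume : Measure E3)) (0 : E3))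
    rw [ae_iff]
    simpa using this
  have hGx : ∀ x : E3, x ≠ 0 → ∫ t in Ioi (0 : ℝ), G x t =
      (Real.fourierChar (-⟪x, ξ⟫_ℝ) : ℂ) * (ps6 h x * kf s x) := by
    intro x hx
    simp only [hG]
    rw [integral_const_mul, integral_complex_ofReal, integral_const_mul, hCdef, rr_int h0 hx, kf,
      mul_assoc]
  have hnorm : ∀ x : E3, ∀ t : ℝ, 0 < t → ‖G x t‖ = ‖ps6 h x‖ * (C * rr (s + 3 / 2) x t) := by
    intro x t ht
    simp only [hG]
    rw [norm_mul, norm_mul, Circle.norm_coe, one_mul, Complex.norm_real, Real.norm_eq_abs,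
      abs_of_nonneg (mul_nonneg hC.le (rr_nonneg _ _ ht.le))]
  have hGn : ∀ x : E3, x ≠ 0 → ∫ t in Ioi (0 : ℝ), ‖G x t‖ = ‖ps6 h x * kf s x‖ := by
    intro x hx
    rw [setIntegral_congr_fun measurableSet_Ioi (fun t ht => hnorm x t ht), integral_const_mul,
      integral_const_mul, hCdef, rr_int h0 hx, norm_mul, kf, Complex.norm_real, Real.norm_eq_abs,
      abs_of_nonneg (Real.rpow_nonneg (norm_nonneg _) _)]
  have hmeas : Measurable (Function.uncurry G) := by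
    have m1 : Measurable (fun z : E3 × ℝ => (Real.fourierChar (-⟪z.1, ξ⟫_ℝ) : ℂ)) := by
      have : Continuous (fun z : E3 × ℝ => (Real.fourierChar (-⟪z.1, ξ⟫_ℝ) : ℂ)) :=
        continuous_subtype_val.comp (Real.continuous_fourierChar.comp (by fun_prop))
      exact this.measurable
    have m2 : Measurable (fun z : E3 × ℝ => ps6 h z.1) :=
      ((ps6_continuous h).comp continuous_fst).measurable
    have m3 : Measurable (fun z : E3 × ℝ => rr (s + 3 / 2) z.1 z.2) := by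
      unfold rr
      have a1 : Measurable (fun z : E3 × ℝ => z.2 ^ (s + 3 / 2 - 1)) :=
        measurable_snd.pow_const _
      have a2 : Measurable (fun z : E3 × ℝ => Real.exp (-(Real.pi * ‖z.1‖ ^ 2 * z.2))) := by
        have : Continuous (fun z : E3 × ℝ => Real.exp (-(Real.pi * ‖z.1‖ ^ 2 * z.2))) := by
          fun_prop
        exact this.measurable
      exact a1.mul a2
    exact (m1.mul m2).mul (Complex.measurable_ofReal.comp (m3.const_mul C))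
  have hint : Integrable (Function.uncurry G)
      ((volume : Measure E3).prod ((volume : Measure ℝ).restrict (Ioi 0))) := by
    rw [integrable_prod_iff hmeas.aestronglyMeasurable]
    constructor
    · filter_upwards [hne] with x hx
      have : (fun t : ℝ => Function.uncurry G (x, t)) = fun t : ℝ =>
          (Real.fourierChar (-⟪x, ξ⟫_ℝ) : ℂ) * ps6 h x *
            ((C * rr (s + 3 / 2) x t : ℝ) : ℂ) := rfl
      rw [this]
      exact (((rr_integrable h0 hx).const_mul C).ofReal).const_mul _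
    · refine (kap_int h0 h2 h).norm.congr ?_
      filter_upwards [hne] with x hx
      exact (hGn x hx).symm
  have hswap := integral_integral_swap hint
  -- left hand side
  have hL : 𝓕 (fun x => ps6 h x * kf s x) ξ = ∫ x : E3, ∫ t in Ioi (0 : ℝ), G x t := by
    rw [Real.fourier_eq]
    refine integral_congr_ae ?_
    filter_upwards [hne] with x hx
    rw [hGx x hx, Circle.smul_def, smul_eq_mul]
  -- right hand side
  have hR : ∫ t in Ioi (0 : ℝ), ∫ x : E3, G x t = ((C * (c * ∑ j ∈ Finset.range 7,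
      kw j * (Real.pi * ‖ξ - (j : ℝ) • h‖ ^ 2) ^ s) : ℝ) : ℂ) := by
    have e1 : ∀ t ∈ Ioi (0 : ℝ), ∫ x : E3, G x t =
        ((C * (t ^ (s - 1) * ∑ j ∈ Finset.range 7,
          kw j * Real.exp (-(Real.pi * ‖ξ - (j : ℝ) • h‖ ^ 2 / t))) : ℝ) : ℂ) := by
      intro t ht
      have ht0 : 0 < t := ht
      have e2 : (fun x : E3 => G x t) = fun x : E3 => ((C * t ^ (s + 3 / 2 - 1) : ℝ) : ℂ) *
          ((Real.fourierChar (-⟪x, ξ⟫_ℝ) : ℂ) * (ps6 h x * gT t x)) := by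
        funext x
        simp only [hG]
        rw [Complex.ofReal_mul, rr_eq, Complex.ofReal_mul]
        ring
      rw [e2, integral_const_mul, four_gauss ht0 h ξ, ← Complex.ofReal_mul]
      congr 1
      have e3 : t ^ (s + 3 / 2 - 1) * t ^ (-(3 / 2 : ℝ)) = t ^ (s - 1) := by
        rw [← Real.rpow_add ht0]
        congr 1
        ring
      rw [← e3]
      ring
    rw [setIntegral_congr_fun measurableSet_Ioi e1, integral_complex_ofReal, integral_const_mul,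
      subst_inv kw (fun j => Real.pi * ‖ξ - (j : ℝ) • h‖ ^ 2),
      (hK kw (fun j => Real.pi * ‖ξ - (j : ℝ) • h‖ ^ 2) (fun j => by positivity) kw_sum
        (kw_b h ξ)).2]
  rw [hL, hswap, hR]
  unfold D6
  rw [Finset.mul_sum]
  push_cast
  rw [Finset.mul_sum, Finset.mul_sum]
  refine Finset.sum_congr rfl fun j _ => ?_
  have e4 : (Real.pi * ‖ξ - (j : ℝ) • h‖ ^ 2) ^ s =
      Real.pi ^ s / (2 * Real.pi) ^ (2 * s) * (2 * Real.pi * ‖ξ - (j : ℝ) • h‖) ^ (2 * s) := by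
    rw [Real.mul_rpow Real.pi_pos.le (by positivity),
      Real.mul_rpow (by positivity : (0 : ℝ) ≤ 2 * Real.pi) (norm_nonneg _),
      ← Real.rpow_natCast ‖ξ - (j : ℝ) • h‖ 2, ← Real.rpow_mul (norm_nonneg _)]
    push_cast
    field_simp
  have e5 : (((Real.pi * ‖ξ - (j : ℝ) • h‖ ^ 2) ^ s : ℝ) : ℂ) =
      ((Real.pi ^ s / (2 * Real.pi) ^ (2 * s) : ℝ) : ℂ) * aS s (ξ - (j : ℝ) • h) := by
    rw [e4, aS, Complex.ofReal_mul]
  rw [e5, kw_cast]
  push_cast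
  ring

end FracScatC

end
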