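import Pool.Agent.Lib.MP_6e2ba5_an.Rx.MzE
import Pool.Agent.Lib.MP_6e2ba5_an.Rx.FD6

/-! # The sixth difference of `MI`

Fix `h` and `ε` from `mz_ext`. If `h = 0` the sum is `MI(ξ) ∑ (-1)^j (6 choose j) = 0`.
Case `12‖h‖ ≤ ε‖ξ‖`: apply `fd6` with `R = ε‖ξ‖/‖h‖` to the function of `mz_ext`:
`‖D6 MI‖ ≤ C (‖h‖/(ε‖ξ‖))^6 ‖ξ‖^(4s)/(‖ξ‖^(2s)+τ^(2s)) ≤ C_h ‖ξ‖^(2s-6) (‖ξ‖/τ)^(1/4)`, since
`‖ξ‖^(2s)/(‖ξ‖^(2s)+τ^(2s)) ≤ min(1,(‖ξ‖/τ)^(2s)) ≤ (‖ξ‖/τ)^(1/4)`. Here `‖ξ‖ ≥ 12‖h‖/ε`, and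
`2s-6+1/4 ≤ -7/4`, so this is `≤ C_h' τ^(-1/4) (1+‖ξ‖)^(-7/4)`.
Case `ε‖ξ‖ < 12‖h‖`: each term is `≤ C |a|²/(|a|+τ^(2s)) ≤ C_h τ^(-2s) ≤ C_h τ^(-1/4)` (`symI`), `τ ≥ 1`, and
`(1+‖ξ‖)^(-7/4)` is bounded below. -/

set_option autoImplicit false

open MeasureTheory Filter Topology Set
open scoped FourierTransform SchwartzMap InnerProductSpace ENNReal BoundedContinuousFunction

noncomputable section

namespace FracScatC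

open FracScat

private theorem mzd_quot {s : ℝ} (h0 : 3 / 4 < s) {x τ : ℝ} (hx : 0 < x) (hτ : 0 < τ) :
    x ^ (4 * s) / (x ^ (2 * s) + τ ^ (2 * s)) / x ^ 6
      ≤ x ^ (2 * s - 23 / 4) * τ ^ (-(1 / 4 : ℝ)) := by
  have hxs : 0 < x ^ (2 * s) := Real.rpow_pos_of_pos hx _
  have hts : 0 < τ ^ (2 * s) := Real.rpow_pos_of_pos hτ _
  have hq : x ^ (2 * s) / (x ^ (2 * s) + τ ^ (2 * s)) ≤ x ^ (1 / 4 : ℝ) * τ ^ (-(1 / 4 : ℝ)) := by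
    have hre : x ^ (1 / 4 : ℝ) * τ ^ (-(1 / 4 : ℝ)) = (x / τ) ^ (1 / 4 : ℝ) := by
      rw [Real.div_rpow hx.le hτ.le, Real.rpow_neg hτ.le]
      exact (div_eq_mul_inv _ _).symm
    rw [hre]
    rcases le_total x τ with hle | hle
    · have h1 : x ^ (2 * s) / (x ^ (2 * s) + τ ^ (2 * s)) ≤ (x / τ) ^ (2 * s) := by
        rw [Real.div_rpow hx.le hτ.le]
        exact div_le_div_of_nonneg_left hxs.le hts (by linarith)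
      refine h1.trans ?_
      exact Real.rpow_le_rpow_of_exponent_ge (div_pos hx hτ) ((div_le_one hτ).2 hle) (by linarith)
    · have h1 : x ^ (2 * s) / (x ^ (2 * s) + τ ^ (2 * s)) ≤ 1 :=
        (div_le_one (by positivity)).2 (by linarith)
      refine h1.trans ?_
      exact Real.one_le_rpow ((one_le_div hτ).2 hle) (by norm_num)
  have e1 : x ^ (4 * s) = x ^ (2 * s) * x ^ (2 * s) := by
    rw [← Real.rpow_add hx]; congr 1; ring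
  have e2 : x ^ (2 * s - 23 / 4) = x ^ (2 * s) * x ^ (1 / 4 : ℝ) / x ^ 6 := by
    rw [← Real.rpow_natCast x 6, ← Real.rpow_add hx, ← Real.rpow_sub hx]
    congr 1
    push_cast
    ring
  rw [e1, e2]
  have hx6 : 0 < x ^ 6 := by positivity
  calc x ^ (2 * s) * x ^ (2 * s) / (x ^ (2 * s) + τ ^ (2 * s)) / x ^ 6
      = x ^ (2 * s) / x ^ 6 * (x ^ (2 * s) / (x ^ (2 * s) + τ ^ (2 * s))) := by
        field_simp
    _ ≤ x ^ (2 * s) / x ^ 6 * (x ^ (1 / 4 : ℝ) * τ ^ (-(1 / 4 : ℝ))) :=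
        mul_le_mul_of_nonneg_left hq (by positivity)
    _ = x ^ (2 * s) * x ^ (1 / 4 : ℝ) / x ^ 6 * τ ^ (-(1 / 4 : ℝ)) := by
        ring

private theorem mzd_tail {s ρ x : ℝ} (h2 : s < 2) (hρ : 0 < ρ) (hx : ρ ≤ x) :
    x ^ (2 * s - 23 / 4) ≤
      ρ ^ (2 * s - 4) * (ρ / (1 + ρ)) ^ (-(7 / 4 : ℝ)) * (1 + x) ^ (-(7 / 4 : ℝ)) := by
  have hx0 : 0 < x := hρ.trans_le hx
  have e : x ^ (2 * s - 23 / 4) = x ^ (2 * s - 4) * x ^ (-(7 / 4 : ℝ)) := by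
    rw [← Real.rpow_add hx0]; congr 1; ring
  have h1 : x ^ (2 * s - 4) ≤ ρ ^ (2 * s - 4) :=
    Real.rpow_le_rpow_of_nonpos hρ hx (by linarith)
  have hc : ρ / (1 + ρ) * (1 + x) ≤ x := by
    rw [div_mul_eq_mul_div, div_le_iff₀ (by positivity)]
    nlinarith
  have h3 : x ^ (-(7 / 4 : ℝ)) ≤ (ρ / (1 + ρ) * (1 + x)) ^ (-(7 / 4 : ℝ)) :=
    Real.rpow_le_rpow_of_nonpos (by positivity) hc (by norm_num)
  rw [Real.mul_rpow (by positivity) (by positivity)] at h3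
  rw [e, mul_assoc]
  exact mul_le_mul h1 h3 (by positivity) (by positivity)

private theorem mzd_near {s : ℝ} (h0 : 3 / 4 < s) {c : ℝ} (hc : 0 < c)
    (hsym : ∀ τ : ℝ, 0 < τ → ∀ a : ℝ, 0 ≤ a → c * (a + τ ^ (2 * s)) ≤ ‖(a : ℂ) - zt s τ‖)
    {τ : ℝ} (hτ : 1 ≤ τ) {B : ℝ} {η : E3} (hη : ‖η‖ ≤ B) :
    ‖MI s τ η‖ ≤ ((2 * Real.pi * B) ^ (2 * s)) ^ 2 / c * τ ^ (-(1 / 4 : ℝ)) := by
  have hτ0 : 0 < τ := by linarith
  have hπ : 0 < 2 * Real.pi := by positivity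
  set a : ℝ := (2 * Real.pi * ‖η‖) ^ (2 * s) with ha
  have ha0 : 0 ≤ a := by positivity
  have haB : a ≤ (2 * Real.pi * B) ^ (2 * s) :=
    Real.rpow_le_rpow (by positivity) (mul_le_mul_of_nonneg_left hη hπ.le) (by linarith)
  have hts : 0 < τ ^ (2 * s) := Real.rpow_pos_of_pos hτ0 _
  have hden := hsym τ hτ0 a ha0
  have hden' : c * τ ^ (2 * s) ≤ ‖(a : ℂ) - zt s τ‖ :=
    (mul_le_mul_of_nonneg_left (by linarith) hc.le).trans hden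
  have hpos : 0 < c * τ ^ (2 * s) := by positivity
  have hMI : ‖MI s τ η‖ = a ^ 2 / ‖(a : ℂ) - zt s τ‖ := by
    rw [MI, norm_div, norm_pow]
    rw [show aS s η = (a : ℂ) from rfl, Complex.norm_real, Real.norm_of_nonneg ha0]
  rw [hMI]
  calc a ^ 2 / ‖(a : ℂ) - zt s τ‖ ≤ ((2 * Real.pi * B) ^ (2 * s)) ^ 2 / (c * τ ^ (2 * s)) :=
        div_le_div₀ (by positivity) (pow_le_pow_left₀ ha0 haB 2) hpos hden'
    _ = ((2 * Real.pi * B) ^ (2 * s)) ^ 2 / c * τ ^ (-(2 * s)) := by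
        rw [Real.rpow_neg hτ0.le]
        field_simp
    _ ≤ ((2 * Real.pi * B) ^ (2 * s)) ^ 2 / c * τ ^ (-(1 / 4 : ℝ)) := by
        refine mul_le_mul_of_nonneg_left ?_ (by positivity)
        exact Real.rpow_le_rpow_of_exponent_le hτ (by linarith)

theorem mzd {s : ℝ} (h0 : 3 / 4 < s) (h2 : s < 2) (h1 : s ≠ 1) (h : E3) :
    ∃ C : ℝ, 0 ≤ C ∧ ∀ τ : ℝ, 1 ≤ τ → ∀ ξ : E3,
      ‖D6 (MI s τ) h ξ‖ ≤ C * τ ^ (-(1 / 4 : ℝ)) * (1 + ‖ξ‖) ^ (-(7 / 4 : ℝ)) := by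
  have hs0 : 0 < s := by linarith
  by_cases hh : h = 0
  · refine ⟨0, le_rfl, fun τ _ ξ => ?_⟩
    have : D6 (MI s τ) h ξ = 0 := by
      rw [D6, hh]
      simp only [smul_zero, sub_zero]
      rw [← Finset.sum_mul]
      have : ∑ j ∈ Finset.range 7, (-1 : ℂ) ^ j * (Nat.choose 6 j : ℂ) = 0 := by
        simp [Finset.sum_range_succ, Nat.choose]
        norm_num
      rw [this, zero_mul]
    rw [this]
    simp
  have hhn : 0 < ‖h‖ := norm_pos_iff.2 hh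
  obtain ⟨ε, C₁, hε, hC₁, hext⟩ := mz_ext hs0 h2 h1
  obtain ⟨C₂, hC₂, hfd⟩ := fd6
  obtain ⟨c, hc, hsym⟩ := symI hs0 h2 h1
  set ρ : ℝ := 12 * ‖h‖ / ε with hρ
  have hρ0 : 0 < ρ := by positivity
  set A₁ : ℝ := C₂ * C₁ * (‖h‖ / ε) ^ 6 *
    (ρ ^ (2 * s - 4) * (ρ / (1 + ρ)) ^ (-(7 / 4 : ℝ))) with hA₁
  set A₂ : ℝ := 64 * (((2 * Real.pi * (ρ + 6 * ‖h‖)) ^ (2 * s)) ^ 2 / c) * (1 + ρ) ^ (7 / 4 : ℝ)
    with hA₂
  have hA₁0 : 0 ≤ A₁ := by positivity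
  have hA₂0 : 0 ≤ A₂ := by positivity
  refine ⟨A₁ + A₂, by positivity, fun τ hτ ξ => ?_⟩
  have hτ0 : 0 < τ := by linarith
  have ht : 0 < τ ^ (-(1 / 4 : ℝ)) := Real.rpow_pos_of_pos hτ0 _
  have hξ1 : 0 < (1 + ‖ξ‖) ^ (-(7 / 4 : ℝ)) := Real.rpow_pos_of_pos (by positivity) _
  rcases le_or_gt (12 * ‖h‖) (ε * ‖ξ‖) with hcase | hcase
  · -- the main case
    have hξ0 : 0 < ‖ξ‖ := by
      by_contra hcon
      have : ‖ξ‖ = 0 := le_antisymm (not_lt.1 hcon) (norm_nonneg _)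
      rw [this] at hcase
      linarith
    have hξne : ξ ≠ 0 := norm_pos_iff.1 hξ0
    have hR0 : 0 < ε * ‖ξ‖ / ‖h‖ := by positivity
    have hR12 : 12 ≤ ε * ‖ξ‖ / ‖h‖ := by
      rw [le_div_iff₀ hhn]
      exact hcase
    have hRh : ε * ‖ξ‖ / ‖h‖ * ‖h‖ ≤ ε * ‖ξ‖ := by
      rw [div_mul_cancel₀ _ hhn.ne']
    obtain ⟨M, hMd, hMr, hMb⟩ := hext τ hτ0 ξ h hξne _ hR0 hRh
    have hS := hfd _ _ M hR12 hMd (fun z hz => hMb z (Metric.sphere_subset_closedBall hz))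
    have hD : D6 (MI s τ) h ξ =
        ∑ j ∈ Finset.range 7, (-1 : ℂ) ^ j * (Nat.choose 6 j : ℂ) * M (j : ℂ) := by
      rw [D6]
      refine Finset.sum_congr rfl fun j hj => ?_
      have hj' : j < 7 := Finset.mem_range.1 hj
      have hjR : |(j : ℝ)| ≤ ε * ‖ξ‖ / ‖h‖ := by
        rw [abs_of_nonneg (Nat.cast_nonneg j)]
        have : (j : ℝ) ≤ 6 := by exact_mod_cast Nat.lt_succ_iff.1 hj'
        linarith
      rw [← hMr (j : ℝ) hjR, Complex.ofReal_natCast]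
    rw [hD]
    refine hS.trans ?_
    have hx : ρ ≤ ‖ξ‖ := by
      rw [hρ, div_le_iff₀ hε]
      linarith
    have hq := mzd_quot h0 hξ0 hτ0
    have htl := mzd_tail h2 hρ0 hx
    have hre : C₂ * (C₁ * (‖ξ‖ ^ (4 * s) / (‖ξ‖ ^ (2 * s) + τ ^ (2 * s)))) / (ε * ‖ξ‖ / ‖h‖) ^ 6
        = C₂ * C₁ * (‖h‖ / ε) ^ 6 *
          (‖ξ‖ ^ (4 * s) / (‖ξ‖ ^ (2 * s) + τ ^ (2 * s)) / ‖ξ‖ ^ 6) := by
      rw [div_pow, mul_pow, div_pow]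
      field_simp
    rw [hre]
    calc C₂ * C₁ * (‖h‖ / ε) ^ 6 *
          (‖ξ‖ ^ (4 * s) / (‖ξ‖ ^ (2 * s) + τ ^ (2 * s)) / ‖ξ‖ ^ 6)
        ≤ C₂ * C₁ * (‖h‖ / ε) ^ 6 * (‖ξ‖ ^ (2 * s - 23 / 4) * τ ^ (-(1 / 4 : ℝ))) :=
          mul_le_mul_of_nonneg_left hq (by positivity)
      _ ≤ C₂ * C₁ * (‖h‖ / ε) ^ 6 *
          ((ρ ^ (2 * s - 4) * (ρ / (1 + ρ)) ^ (-(7 / 4 : ℝ)) * (1 + ‖ξ‖) ^ (-(7 / 4 : ℝ)))
            * τ ^ (-(1 / 4 : ℝ))) := by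
          refine mul_le_mul_of_nonneg_left ?_ (by positivity)
          exact mul_le_mul_of_nonneg_right htl ht.le
      _ = A₁ * τ ^ (-(1 / 4 : ℝ)) * (1 + ‖ξ‖) ^ (-(7 / 4 : ℝ)) := by
          rw [hA₁]
          ring
      _ ≤ (A₁ + A₂) * τ ^ (-(1 / 4 : ℝ)) * (1 + ‖ξ‖) ^ (-(7 / 4 : ℝ)) := by
          refine mul_le_mul_of_nonneg_right ?_ hξ1.le
          exact mul_le_mul_of_nonneg_right (by linarith) ht.le
  · -- small `ξ`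
    have hx : ‖ξ‖ ≤ ρ := by
      rw [hρ, le_div_iff₀ hε]
      linarith
    set K : ℝ := ((2 * Real.pi * (ρ + 6 * ‖h‖)) ^ (2 * s)) ^ 2 / c with hK
    have hK0 : 0 ≤ K := by positivity
    have hterm : ∀ j ∈ Finset.range 7,
        ‖(-1 : ℂ) ^ j * (Nat.choose 6 j : ℂ) * MI s τ (ξ - (j : ℝ) • h)‖
          ≤ (Nat.choose 6 j : ℝ) * (K * τ ^ (-(1 / 4 : ℝ))) := by
      intro j hj
      have hj' : (j : ℝ) ≤ 6 := by exact_mod_cast Nat.lt_succ_iff.1 (Finset.mem_range.1 hj)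
      have hη : ‖ξ - (j : ℝ) • h‖ ≤ ρ + 6 * ‖h‖ := by
        refine (norm_sub_le _ _).trans ?_
        rw [norm_smul, Real.norm_of_nonneg (Nat.cast_nonneg j)]
        exact add_le_add hx (mul_le_mul_of_nonneg_right hj' hhn.le)
      have := mzd_near h0 hc hsym hτ hη
      rw [norm_mul, norm_mul, norm_pow, norm_neg, norm_one, one_pow, one_mul, Complex.norm_natCast]
      exact mul_le_mul_of_nonneg_left this (Nat.cast_nonneg _)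
    have hsum : ‖D6 (MI s τ) h ξ‖ ≤ 64 * (K * τ ^ (-(1 / 4 : ℝ))) := by
      rw [D6]
      refine (norm_sum_le_of_le _ hterm).trans (le_of_eq ?_)
      rw [← Finset.sum_mul]
      congr 1
      have : ∑ j ∈ Finset.range 7, Nat.choose 6 j = 64 := by decide
      exact_mod_cast this
    have hlow : 1 ≤ (1 + ρ) ^ (7 / 4 : ℝ) * (1 + ‖ξ‖) ^ (-(7 / 4 : ℝ)) := by
      have hle : (1 + ρ) ^ (-(7 / 4 : ℝ)) ≤ (1 + ‖ξ‖) ^ (-(7 / 4 : ℝ)) :=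
        Real.rpow_le_rpow_of_nonpos (by positivity) (by linarith) (by norm_num)
      have h1ρ : 0 < (1 + ρ) ^ (7 / 4 : ℝ) := Real.rpow_pos_of_pos (by positivity) _
      calc (1 : ℝ) = (1 + ρ) ^ (7 / 4 : ℝ) * (1 + ρ) ^ (-(7 / 4 : ℝ)) := by
            rw [Real.rpow_neg (by positivity), mul_inv_cancel₀ h1ρ.ne']
        _ ≤ _ := mul_le_mul_of_nonneg_left hle h1ρ.le
    calc ‖D6 (MI s τ) h ξ‖ ≤ 64 * (K * τ ^ (-(1 / 4 : ℝ))) := hsum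
      _ = 64 * (K * τ ^ (-(1 / 4 : ℝ))) * 1 := (mul_one _).symm
      _ ≤ 64 * (K * τ ^ (-(1 / 4 : ℝ))) *
          ((1 + ρ) ^ (7 / 4 : ℝ) * (1 + ‖ξ‖) ^ (-(7 / 4 : ℝ))) :=
          mul_le_mul_of_nonneg_left hlow (by positivity)
      _ = A₂ * τ ^ (-(1 / 4 : ℝ)) * (1 + ‖ξ‖) ^ (-(7 / 4 : ℝ)) := by
          rw [hA₂]
          ring
      _ ≤ (A₁ + A₂) * τ ^ (-(1 / 4 : ℝ)) * (1 + ‖ξ‖) ^ (-(7 / 4 : ℝ)) := by
          refine mul_le_mul_of_nonneg_right ?_ hξ1.le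
          exact mul_le_mul_of_nonneg_right (by linarith) ht.le

end FracScatC

end
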