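import Pool.Agent.Lib.MP_6e2ba5_an.Rx.SymI

/-! # Holomorphic extension of `t ↦ MI s τ (ξ - t h)`

Put `b(t) = ‖ξ‖² - 2t⟪ξ,h⟫ + t²‖h‖²` for complex `t` (for real `t` this is `‖ξ-th‖²`), and
`α(t) = (4π² b(t))^s` (complex power, principal branch), `M(t) = α² / (α - z)`, `z = zt s τ`. If `|t| ‖h‖ ≤ ε ‖ξ‖` then
`|b(t) - ‖ξ‖²| ≤ (2ε+ε²)‖ξ‖² ≤ 3ε‖ξ‖²`, so `b(t)` is in the right half plane, `(1-3ε)‖ξ‖² ≤ |b| ≤ 2‖ξ‖²`,
`|arg b| ≤ 6ε` (`Complex.abs_arg...`, or `|arg w| ≤ π/2 · |sin arg w|` for `Re w > 0`), hence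
`|α| = (4π²|b|)^s` is comparable with `‖ξ‖^(2s)` and `|arg α| ≤ 6εs` (`Complex.cpow_def`,
`Complex.norm_cpow_...`). Write `α = |α| exp(iφ)`, `|φ| ≤ 6εs ≤ 12ε`. Then
`|α - z| ≥ ||α| - z| - |α| |exp(iφ)-1| ≥ c(|α|+τ^(2s)) - 12ε|α| ≥ (c/2)(|α|+τ^(2s))` with `c` from `symI`, if
`12ε ≤ c/2`. So the denominator does not vanish, `M` is holomorphic on the open set `|t|‖h‖ < 2ε‖ξ‖` (use the
argument with `2ε`), which gives `DiffContOnCl` (`DifferentiableOn.diffContOnCl` on the closed ball), and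
`|M| ≤ C ‖ξ‖^(4s)/(‖ξ‖^(2s)+τ^(2s))`. For real `t`, `α(t) = aS s (ξ - t h)` (`Complex.ofReal_cpow`,
`((2π‖x‖)^(2s)) = ((2π)²‖x‖²)^s`). If `h = 0`, everything is constant in `t`. -/

set_option autoImplicit false

open MeasureTheory Filter Topology Set
open scoped FourierTransform SchwartzMap InnerProductSpace ENNReal BoundedContinuousFunction

noncomputable section

namespace FracScatC

open FracScat

/-- The relative deviation of `‖ξ - t h‖²`. -/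
private def MzE_w (ξ h : E3) (t : ℂ) : ℂ :=
  t ^ 2 * ((‖h‖ ^ 2 / ‖ξ‖ ^ 2 : ℝ) : ℂ) - 2 * t * ((⟪ξ, h⟫_ℝ / ‖ξ‖ ^ 2 : ℝ) : ℂ)

private theorem MzE_w_diff (ξ h : E3) : Differentiable ℂ (MzE_w ξ h) := by
  unfold MzE_w
  fun_prop

private theorem MzE_w_norm {ξ h : E3} (hξ : ξ ≠ 0) {ε : ℝ} (h0 : 0 < ε) (h1 : ε ≤ 1) {t : ℂ}
    (ht : ‖t‖ * ‖h‖ ≤ ε * ‖ξ‖) : ‖MzE_w ξ h t‖ ≤ 3 * ε := by
  have hn : 0 < ‖ξ‖ := norm_pos_iff.2 hξ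
  have hq : ‖t‖ * ‖h‖ / ‖ξ‖ ≤ ε := by
    rw [div_le_iff₀ hn]
    exact ht
  have hq0 : 0 ≤ ‖t‖ * ‖h‖ / ‖ξ‖ := by positivity
  unfold MzE_w
  refine (norm_sub_le _ _).trans ?_
  have e1 : ‖t ^ 2 * ((‖h‖ ^ 2 / ‖ξ‖ ^ 2 : ℝ) : ℂ)‖ = (‖t‖ * ‖h‖ / ‖ξ‖) ^ 2 := by
    rw [norm_mul, norm_pow, Complex.norm_real, Real.norm_of_nonneg (by positivity)]
    ring
  have e2 : ‖2 * t * ((⟪ξ, h⟫_ℝ / ‖ξ‖ ^ 2 : ℝ) : ℂ)‖ ≤ 2 * (‖t‖ * ‖h‖ / ‖ξ‖) := by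
    rw [norm_mul, norm_mul, Complex.norm_real, Complex.norm_two, norm_div, norm_pow, norm_norm]
    have h3 : ‖⟪ξ, h⟫_ℝ‖ ≤ ‖ξ‖ * ‖h‖ := norm_inner_le_norm _ _
    calc 2 * ‖t‖ * (‖⟪ξ, h⟫_ℝ‖ / ‖ξ‖ ^ 2) ≤ 2 * ‖t‖ * ((‖ξ‖ * ‖h‖) / ‖ξ‖ ^ 2) := by gcongr
      _ = 2 * (‖t‖ * ‖h‖ / ‖ξ‖) := by
        field_simp
  rw [e1]
  nlinarith

private theorem MzE_real {ξ h : E3} (hξ : ξ ≠ 0) (t : ℝ) :
    MzE_w ξ h (t : ℂ) = ((‖ξ - t • h‖ ^ 2 / ‖ξ‖ ^ 2 - 1 : ℝ) : ℂ) := by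
  have hn : 0 < ‖ξ‖ := norm_pos_iff.2 hξ
  have e : ‖ξ - t • h‖ ^ 2 = ‖ξ‖ ^ 2 - 2 * t * ⟪ξ, h⟫_ℝ + t ^ 2 * ‖h‖ ^ 2 := by
    rw [norm_sub_sq_real, real_inner_smul_right, norm_smul, mul_pow, Real.norm_eq_abs, sq_abs]
    ring
  unfold MzE_w
  rw [e, ← Complex.ofReal_pow, ← Complex.ofReal_mul]
  have e2 : (2 * (t : ℂ)) = ((2 * t : ℝ) : ℂ) := by push_cast; ring
  rw [e2, ← Complex.ofReal_mul, ← Complex.ofReal_sub]
  congr 1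
  field_simp
  ring

private theorem MzE_aS {s : ℝ} {ξ h : E3} (hξ : ξ ≠ 0) (t : ℝ) :
    aS s (ξ - t • h) = (((2 * Real.pi * ‖ξ‖) ^ (2 * s) : ℝ) : ℂ) *
      (1 + MzE_w ξ h (t : ℂ)) ^ (s : ℂ) := by
  have hn : 0 < ‖ξ‖ := norm_pos_iff.2 hξ
  have hp := Real.pi_pos
  have hw : (1 : ℂ) + MzE_w ξ h (t : ℂ) = ((‖ξ - t • h‖ ^ 2 / ‖ξ‖ ^ 2 : ℝ) : ℂ) := by
    rw [MzE_real hξ]
    push_cast
    ring
  rw [hw, ← Complex.ofReal_cpow (by positivity), ← Complex.ofReal_mul]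
  unfold aS
  congr 1
  have e1 : (2 * Real.pi * ‖ξ - t • h‖) ^ (2 * s) = ((2 * Real.pi * ‖ξ - t • h‖) ^ (2 : ℝ)) ^ s :=
    Real.rpow_mul (by positivity) _ _
  have e2 : (2 * Real.pi * ‖ξ‖) ^ (2 * s) = ((2 * Real.pi * ‖ξ‖) ^ (2 : ℝ)) ^ s :=
    Real.rpow_mul (by positivity) _ _
  rw [e1, e2, ← Real.mul_rpow (by positivity) (by positivity), Real.rpow_two, Real.rpow_two]
  congr 1
  field_simp

theorem mz_ext {s : ℝ} (h0 : 0 < s) (h2 : s < 2) (h1 : s ≠ 1) :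
    ∃ ε C : ℝ, 0 < ε ∧ 0 ≤ C ∧ ∀ τ : ℝ, 0 < τ → ∀ ξ h : E3, ξ ≠ 0 → ∀ R : ℝ, 0 < R →
      R * ‖h‖ ≤ ε * ‖ξ‖ → ∃ M : ℂ → ℂ, DiffContOnCl ℂ M (Metric.ball 0 R) ∧
        (∀ t : ℝ, |t| ≤ R → M (t : ℂ) = MI s τ (ξ - t • h)) ∧
        ∀ z ∈ Metric.closedBall (0 : ℂ) R,
          ‖M z‖ ≤ C * (‖ξ‖ ^ (4 * s) / (‖ξ‖ ^ (2 * s) + τ ^ (2 * s))) := by
  obtain ⟨c, hc, H⟩ := symI h0 h2 h1
  have hp := Real.pi_pos
  -- continuity of `(1 + w)^s` at `0`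
  have hcont : ContinuousAt (fun w : ℂ => (1 + w) ^ (s : ℂ)) 0 := by
    refine ContinuousAt.cpow (continuousAt_const.add continuousAt_id) continuousAt_const ?_
    simp
  have hk : 0 < min (1 / 2 : ℝ) (c / 2) := lt_min (by norm_num) (by linarith)
  obtain ⟨δ, hδ, Hδ⟩ := Metric.continuousAt_iff.1 hcont _ hk
  set δ' : ℝ := min δ (1 / 2) with hδ'
  have hδ0 : 0 < δ' := lt_min hδ (by norm_num)
  have hδh : δ' ≤ 1 / 2 := min_le_right _ _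
  have key : ∀ w : ℂ, ‖w‖ < δ' → ‖(1 + w) ^ (s : ℂ) - 1‖ < 1 / 2 ∧
      ‖(1 + w) ^ (s : ℂ) - 1‖ < c / 2 := by
    intro w hw
    have h3 := Hδ (x := w) (by rw [dist_zero_right]; exact hw.trans_le (min_le_left _ _))
    rw [dist_eq_norm, add_zero, Complex.one_cpow] at h3
    exact ⟨h3.trans_le (min_le_left _ _), h3.trans_le (min_le_right _ _)⟩
  set ε : ℝ := δ' / 4 with hε
  have hε0 : 0 < ε := by positivity
  have hε1 : ε ≤ 1 := by linarith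
  refine ⟨ε, 8 / c * (2 * Real.pi) ^ (4 * s), hε0, by positivity, ?_⟩
  intro τ hτ ξ h hξ R hR hRh
  have hn : 0 < ‖ξ‖ := norm_pos_iff.2 hξ
  set A : ℝ := (2 * Real.pi * ‖ξ‖) ^ (2 * s) with hA
  have hA0 : 0 < A := by positivity
  have hτ0 : 0 < τ ^ (2 * s) := by positivity
  have hw : ∀ z ∈ Metric.closedBall (0 : ℂ) R, ‖MzE_w ξ h z‖ < δ' := by
    intro z hz
    rw [mem_closedBall_zero_iff] at hz
    have h3 : ‖z‖ * ‖h‖ ≤ ε * ‖ξ‖ := (mul_le_mul_of_nonneg_right hz (norm_nonneg _)).trans hRh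
    have h4 := MzE_w_norm hξ hε0 hε1 h3
    linarith
  have hden : ∀ z ∈ Metric.closedBall (0 : ℂ) R,
      c / 2 * (A + τ ^ (2 * s)) ≤ ‖(A : ℂ) * (1 + MzE_w ξ h z) ^ (s : ℂ) - zt s τ‖ := by
    intro z hz
    have h3 := (key _ (hw z hz)).2
    have h4 := H τ hτ A hA0.le
    have h5 : (A : ℂ) - zt s τ = ((A : ℂ) * (1 + MzE_w ξ h z) ^ (s : ℂ) - zt s τ) -
        (A : ℂ) * ((1 + MzE_w ξ h z) ^ (s : ℂ) - 1) := by ring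
    have h6 : ‖(A : ℂ) * ((1 + MzE_w ξ h z) ^ (s : ℂ) - 1)‖ ≤ A * (c / 2) := by
      rw [norm_mul, Complex.norm_real, Real.norm_of_nonneg hA0.le]
      exact mul_le_mul_of_nonneg_left h3.le hA0.le
    rw [h5] at h4
    have h7 := h4.trans (norm_sub_le _ _)
    have h8 : 0 < c * τ ^ (2 * s) := by positivity
    nlinarith
  have hden0 : ∀ z ∈ Metric.closedBall (0 : ℂ) R,
      (A : ℂ) * (1 + MzE_w ξ h z) ^ (s : ℂ) - zt s τ ≠ 0 := by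
    intro z hz h3
    have h4 := hden z hz
    rw [h3, norm_zero] at h4
    have : 0 < c / 2 * (A + τ ^ (2 * s)) := by positivity
    linarith
  refine ⟨fun z => ((A : ℂ) * (1 + MzE_w ξ h z) ^ (s : ℂ)) ^ 2 /
    ((A : ℂ) * (1 + MzE_w ξ h z) ^ (s : ℂ) - zt s τ), ?_, ?_, ?_⟩
  · refine DifferentiableOn.diffContOnCl ?_
    intro z hz
    have hz' : z ∈ Metric.closedBall (0 : ℂ) R := Metric.closure_ball_subset_closedBall hz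
    refine DifferentiableAt.differentiableWithinAt ?_
    have hsl : 1 + MzE_w ξ h z ∈ Complex.slitPlane := by
      refine Or.inl ?_
      have h3 := hw z hz'
      have h4 := Complex.abs_re_le_norm (MzE_w ξ h z)
      have h5 := abs_le.1 (h4.trans h3.le)
      rw [Complex.add_re, Complex.one_re]
      linarith [h5.1]
    have hd : DifferentiableAt ℂ (fun z => (A : ℂ) * (1 + MzE_w ξ h z) ^ (s : ℂ)) z := by
      refine DifferentiableAt.const_mul ?_ _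
      exact DifferentiableAt.cpow_const ((MzE_w_diff ξ h z).const_add 1) hsl
    exact (hd.pow 2).div (hd.sub_const _) (hden0 z hz')
  · intro t ht
    show ((A : ℂ) * (1 + MzE_w ξ h (t : ℂ)) ^ (s : ℂ)) ^ 2 /
      ((A : ℂ) * (1 + MzE_w ξ h (t : ℂ)) ^ (s : ℂ) - zt s τ) = _
    unfold MI
    rw [MzE_aS hξ]
  · intro z hz
    show ‖((A : ℂ) * (1 + MzE_w ξ h z) ^ (s : ℂ)) ^ 2 /
      ((A : ℂ) * (1 + MzE_w ξ h z) ^ (s : ℂ) - zt s τ)‖ ≤ _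
    have h3 := (key _ (hw z hz)).1
    have h4 : ‖(1 + MzE_w ξ h z) ^ (s : ℂ)‖ ≤ 2 := by
      have h5 : (1 + MzE_w ξ h z) ^ (s : ℂ) = ((1 + MzE_w ξ h z) ^ (s : ℂ) - 1) + 1 := by ring
      rw [h5]
      refine (norm_add_le _ _).trans ?_
      rw [norm_one]
      linarith
    have h5 : ‖((A : ℂ) * (1 + MzE_w ξ h z) ^ (s : ℂ)) ^ 2‖ ≤ 4 * A ^ 2 := by
      rw [norm_pow, norm_mul, Complex.norm_real, Real.norm_of_nonneg hA0.le]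
      calc (A * ‖(1 + MzE_w ξ h z) ^ (s : ℂ)‖) ^ 2 ≤ (A * 2) ^ 2 := by gcongr
        _ = 4 * A ^ 2 := by ring
    have hX0 : 0 < ‖ξ‖ ^ (2 * s) := by positivity
    have hA1 : ‖ξ‖ ^ (2 * s) ≤ A := by
      rw [hA]
      refine Real.rpow_le_rpow hn.le ?_ (by linarith)
      have : 1 ≤ 2 * Real.pi := by linarith [Real.pi_gt_three]
      nlinarith
    have hA2 : A ^ 2 = (2 * Real.pi) ^ (4 * s) * ‖ξ‖ ^ (4 * s) := by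
      rw [hA, ← Real.mul_rpow (by positivity) hn.le, ← Real.rpow_two, ← Real.rpow_mul (by positivity)]
      congr 1
      ring
    rw [norm_div]
    calc ‖((A : ℂ) * (1 + MzE_w ξ h z) ^ (s : ℂ)) ^ 2‖ /
          ‖(A : ℂ) * (1 + MzE_w ξ h z) ^ (s : ℂ) - zt s τ‖
        ≤ 4 * A ^ 2 / (c / 2 * (A + τ ^ (2 * s))) :=
          div_le_div₀ (by positivity) h5 (by positivity) (hden z hz)
      _ ≤ 4 * A ^ 2 / (c / 2 * (‖ξ‖ ^ (2 * s) + τ ^ (2 * s))) := by gcongr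
      _ = 8 / c * (2 * Real.pi) ^ (4 * s) *
          (‖ξ‖ ^ (4 * s) / (‖ξ‖ ^ (2 * s) + τ ^ (2 * s))) := by
        rw [hA2]
        field_simp
        ring

end FracScatC

end
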