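import Pool.Agent.Lib.MP_6e2ba5_an.Rx.MzD
import Pool.Agent.Lib.MP_6e2ba5_an.Rx.KapF

/-! # The far field of the resolvent kernel, weighted form

`κ = -1/γ` (`kapF`). The function `F = ps6 h · (z² G - κ kf)` is in `L²`: `G = GI s τ ∈ L²`, `ps6 h` bounded,
`kap_memLp`. Its Fourier transform: `FT (mulL (ps6 h) G) = ∑ (-1)^j (6 choose j) (FT G)(· - j h)` (expand `ps6`, use
`FT_efun_all` of `../Ex/ModulN.lean` and `FT_GI`, `mI_memLp`) `= D6 (mI s τ) h` a.e.; the `L²` element given by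
`ps6 h · kf` is integrable (`kap_int`), so its `FT` is `𝓕 (ps6 h · kf) = γ D6 (aS s) h`
(`FT_coe_of_integrable` in `../FTfacts.lean`). As `z²/(a-z) = -z - a + a²/(a-z)` (`mI_eq`, the denominator
is not zero by `symI`) and `D6 const = 0`: `FT F = z² D6 mI - κ γ D6 aS = D6 (MI s τ) h`. `FT` is an
isometry, so `∫⁻ ‖F‖² = ∫⁻ ‖D6 (MI s τ) h‖² ≤ C² τ^(-1/2) ∫ (1+‖ξ‖)^(-7/2) dξ → 0` (`mzd`, `7/2 > 3`,
`integrable_one_add_norm`). -/

set_option autoImplicit false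

open MeasureTheory Filter Topology Set
open scoped FourierTransform SchwartzMap InnerProductSpace ENNReal BoundedContinuousFunction

noncomputable section

namespace FracScatC

open FracScat

private theorem lint_sq (f : HS) : ∫⁻ x, ‖(f : E3 → ℂ) x‖ₑ ^ 2 = ‖f‖ₑ ^ 2 := by
  have h := eLpNorm_nnreal_pow_eq_lintegral (p := 2) (f := (f : E3 → ℂ))
    (μ := (volume : Measure E3)) (by norm_num)
  rw [Lp.enorm_def]
  norm_num at h
  rw [← h]

private theorem ps6_sum (h x : E3) : ps6 h x =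
    ∑ j ∈ Finset.range 7, ((-1 : ℂ) ^ j * (Nat.choose 6 j : ℂ)) * efun ((j : ℝ) • h) x := by
  have he : ∀ j : ℕ, efun ((j : ℝ) • h) x = efun h x ^ j := by
    intro j
    rw [efun, efun, ← Complex.exp_nat_mul]
    congr 1
    rw [real_inner_smul_left]
    push_cast
    ring
  simp only [he]
  rw [ps6]
  simp only [Finset.sum_range_succ, Finset.sum_range_zero]
  norm_num [Nat.choose]
  ring

private theorem mulL_ps6 (h : E3) (g : HS) : mulL (ps6 h) g =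
    ∑ j ∈ Finset.range 7, ((-1 : ℂ) ^ j * (Nat.choose 6 j : ℂ)) • mulL (efun ((j : ℝ) • h)) g := by
  have hB : BM (ps6 h) := by
    refine ⟨(ps6_continuous h).aestronglyMeasurable, 64, Eventually.of_forall fun x => ?_⟩
    rw [ps6, norm_pow]
    have h1 : ‖efun h x - 1‖ ≤ 2 := by
      refine (norm_sub_le _ _).trans ?_
      rw [norm_efun, norm_one]
      norm_num
    calc ‖efun h x - 1‖ ^ 6 ≤ 2 ^ 6 := pow_le_pow_left₀ (norm_nonneg _) h1 6
      _ = 64 := by norm_num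
  apply Lp.ext
  have h1 : ∀ᵐ x ∂(volume : Measure E3), ∀ j ∈ Finset.range 7,
      ((((-1 : ℂ) ^ j * (Nat.choose 6 j : ℂ)) • mulL (efun ((j : ℝ) • h)) g : HS) : E3 → ℂ) x =
      ((-1 : ℂ) ^ j * (Nat.choose 6 j : ℂ)) * (efun ((j : ℝ) • h) x * (g : E3 → ℂ) x) := by
    rw [Finset.eventually_all]
    intro j _
    filter_upwards [Lp.coeFn_smul ((-1 : ℂ) ^ j * (Nat.choose 6 j : ℂ)) (mulL (efun ((j : ℝ) • h)) g),
      mulL_coe (efun_BM ((j : ℝ) • h)) g] with x a b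
    rw [a, Pi.smul_apply, b, smul_eq_mul]
  filter_upwards [mulL_coe hB g, h1, Lp.coeFn_fun_finsetSum (Finset.range 7) (fun j : ℕ =>
    ((-1 : ℂ) ^ j * (Nat.choose 6 j : ℂ)) • mulL (efun ((j : ℝ) • h)) g)] with x a b c
  rw [a, c, Finset.sum_congr rfl b, ps6_sum, Finset.sum_mul]
  exact Finset.sum_congr rfl fun j _ => by ring

private theorem FT_ps6 (h : E3) (g : HS) :
    (FT (mulL (ps6 h) g) : E3 → ℂ) =ᵐ[volume] D6 (FT g : E3 → ℂ) h := by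
  rw [mulL_ps6, map_sum]
  have h1 : ∀ᵐ ξ ∂(volume : Measure E3), ∀ j ∈ Finset.range 7,
      ((FT (((-1 : ℂ) ^ j * (Nat.choose 6 j : ℂ)) • mulL (efun ((j : ℝ) • h)) g) : HS) : E3 → ℂ) ξ =
      (-1 : ℂ) ^ j * (Nat.choose 6 j : ℂ) * (FT g : E3 → ℂ) (ξ - (j : ℝ) • h) := by
    rw [Finset.eventually_all]
    intro j _
    rw [map_smul]
    filter_upwards [Lp.coeFn_smul ((-1 : ℂ) ^ j * (Nat.choose 6 j : ℂ))
      (FT (mulL (efun ((j : ℝ) • h)) g)), FT_efun_all ((j : ℝ) • h) g] with x a b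
    rw [a, Pi.smul_apply, b, smul_eq_mul]
  filter_upwards [h1, Lp.coeFn_fun_finsetSum (Finset.range 7) (fun j : ℕ =>
    FT (((-1 : ℂ) ^ j * (Nat.choose 6 j : ℂ)) • mulL (efun ((j : ℝ) • h)) g))] with ξ b c
  rw [c, Finset.sum_congr rfl b, D6]

private theorem D6_congr_ae {F F' : E3 → ℂ} (hF : F =ᵐ[volume] F') (h : E3) :
    D6 F h =ᵐ[volume] D6 F' h := by
  have h1 : ∀ᵐ ξ ∂(volume : Measure E3), ∀ j ∈ Finset.range 7,
      F (ξ - (j : ℝ) • h) = F' (ξ - (j : ℝ) • h) := by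
    rw [Finset.eventually_all]
    intro j _
    exact (measurePreserving_sub_right volume ((j : ℝ) • h)).quasiMeasurePreserving.ae hF
  filter_upwards [h1] with ξ a
  rw [D6, D6]
  exact Finset.sum_congr rfl fun j hj => by rw [a j hj]

theorem offD {s : ℝ} (h0 : 3 / 4 < s) (h2 : s < 2) (h1 : s ≠ 1) : ∃ κ : ℂ, κ ≠ 0 ∧ ∀ h : E3,
    Tendsto (fun τ : ℝ => ∫⁻ x : E3,
      ‖ps6 h x * (zt s τ ^ 2 * (GI s τ : E3 → ℂ) x - κ * kf s x)‖ₑ ^ 2) atTop (𝓝 0) := by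
  have h00 : 0 < s := by linarith
  obtain ⟨γ, hγ, hF⟩ := kapF h00 h2 h1
  have hγ' : (γ : ℂ) ≠ 0 := Complex.ofReal_ne_zero.2 hγ
  refine ⟨-1 / (γ : ℂ), by simp [hγ], fun h => ?_⟩
  obtain ⟨C, hC0, hC⟩ := mzd h0 h2 h1 h
  obtain ⟨c, hc0, hc⟩ := symI h00 h2 h1
  set I : ℝ≥0∞ := ∫⁻ ξ : E3, ENNReal.ofReal ((1 + ‖ξ‖) ^ (-(7 / 2 : ℝ))) with hI
  have hItop : I < ∞ := finite_integral_one_add_norm (μ := (volume : Measure E3)) (by
    simp only [finrank_euclideanSpace, Fintype.card_fin]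
    norm_num)
  have hbd : ∀ τ : ℝ, 1 ≤ τ → ∫⁻ x : E3,
      ‖ps6 h x * (zt s τ ^ 2 * (GI s τ : E3 → ℂ) x - -1 / (γ : ℂ) * kf s x)‖ₑ ^ 2 ≤
      ENNReal.ofReal (C ^ 2 * τ ^ (-(1 / 2 : ℝ))) * I := by
    intro τ hτ
    have hτ0 : 0 < τ := lt_of_lt_of_le one_pos hτ
    set G := GI s τ with hG
    set K : HS := (kap_memLp h00 h2 h).toLp _ with hK
    have hKc : (K : E3 → ℂ) =ᵐ[volume] fun x => ps6 h x * kf s x := (kap_memLp h00 h2 h).coeFn_toLp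
    have hB : BM (ps6 h) := by
      refine ⟨(ps6_continuous h).aestronglyMeasurable, 64, Eventually.of_forall fun x => ?_⟩
      rw [ps6, norm_pow]
      have h1 : ‖efun h x - 1‖ ≤ 2 := by
        refine (norm_sub_le _ _).trans ?_
        rw [norm_efun, norm_one]
        norm_num
      calc ‖efun h x - 1‖ ^ 6 ≤ 2 ^ 6 := pow_le_pow_left₀ (norm_nonneg _) h1 6
        _ = 64 := by norm_num
    set F : HS := (zt s τ ^ 2) • mulL (ps6 h) G - (-1 / (γ : ℂ)) • K with hFdef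
    have hFc : (F : E3 → ℂ) =ᵐ[volume] fun x =>
        ps6 h x * (zt s τ ^ 2 * (G : E3 → ℂ) x - -1 / (γ : ℂ) * kf s x) := by
      filter_upwards [Lp.coeFn_sub ((zt s τ ^ 2) • mulL (ps6 h) G) ((-1 / (γ : ℂ)) • K),
        Lp.coeFn_smul (zt s τ ^ 2) (mulL (ps6 h) G), Lp.coeFn_smul (-1 / (γ : ℂ)) K,
        mulL_coe hB G, hKc] with x a1 a2 a3 a4 a5
      rw [hFdef, a1, Pi.sub_apply, a2, a3, Pi.smul_apply, Pi.smul_apply, a4, a5, smul_eq_mul,
        smul_eq_mul]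
      ring
    have hKi : Integrable (K : E3 → ℂ) := (kap_int h00 h2 h).congr hKc.symm
    have hKF : 𝓕 (K : E3 → ℂ) = fun ξ => (γ : ℂ) * D6 (aS s) h ξ := by
      funext ξ
      rw [← hF h ξ, Real.fourier_eq', Real.fourier_eq']
      refine integral_congr_ae ?_
      filter_upwards [hKc] with x a
      rw [a]
    have hden : ∀ ξ : E3, aS s ξ - zt s τ ≠ 0 := by
      intro ξ h3
      have ha : 0 ≤ (2 * Real.pi * ‖ξ‖) ^ (2 * s) := by positivity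
      have h4 := hc τ hτ0 _ ha
      have h5 : (((2 * Real.pi * ‖ξ‖) ^ (2 * s) : ℝ) : ℂ) - zt s τ = 0 := h3
      rw [h5, norm_zero] at h4
      have h6 : 0 < τ ^ (2 * s) := Real.rpow_pos_of_pos hτ0 _
      have : 0 < c * ((2 * Real.pi * ‖ξ‖) ^ (2 * s) + τ ^ (2 * s)) := by positivity
      linarith
    have hsym : ∀ ξ : E3, zt s τ ^ 2 * mI s τ ξ + aS s ξ = MI s τ ξ - zt s τ := by
      intro ξ
      rw [mI_eq, MI]
      have := hden ξ
      field_simp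
      ring
    have hFT : (FT F : E3 → ℂ) =ᵐ[volume] D6 (MI s τ) h := by
      have e1 : FT F = (zt s τ ^ 2) • FT (mulL (ps6 h) G) - (-1 / (γ : ℂ)) • FT K := by
        rw [hFdef, map_sub, map_smul, map_smul]
      rw [e1]
      filter_upwards [Lp.coeFn_sub ((zt s τ ^ 2) • FT (mulL (ps6 h) G)) ((-1 / (γ : ℂ)) • FT K),
        Lp.coeFn_smul (zt s τ ^ 2) (FT (mulL (ps6 h) G)), Lp.coeFn_smul (-1 / (γ : ℂ)) (FT K),
        FT_ps6 h G, D6_congr_ae (FT_GI (mI_memLp h0 h2 h1 hτ0)) h,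
        FT_coe_of_integrable K hKi] with ξ a1 a2 a3 a4 a5 a6
      rw [a1, Pi.sub_apply, a2, a3, Pi.smul_apply, Pi.smul_apply, a4, hG, a5, a6, hKF]
      simp only [smul_eq_mul]
      have e2 : zt s τ ^ 2 * D6 (mI s τ) h ξ - -1 / (γ : ℂ) * ((γ : ℂ) * D6 (aS s) h ξ) =
          zt s τ ^ 2 * D6 (mI s τ) h ξ + D6 (aS s) h ξ := by
        field_simp
        ring
      rw [e2]
      have e3 : D6 (MI s τ) h ξ = zt s τ ^ 2 * D6 (mI s τ) h ξ + D6 (aS s) h ξ +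
          zt s τ * ∑ j ∈ Finset.range 7, (-1 : ℂ) ^ j * (Nat.choose 6 j : ℂ) := by
        simp only [D6]
        rw [Finset.mul_sum, Finset.mul_sum, ← Finset.sum_add_distrib, ← Finset.sum_add_distrib]
        refine Finset.sum_congr rfl fun j _ => ?_
        have := hsym (ξ - (j : ℝ) • h)
        linear_combination (-((-1 : ℂ) ^ j * (Nat.choose 6 j : ℂ))) * this
      have e4 : ∑ j ∈ Finset.range 7, (-1 : ℂ) ^ j * (Nat.choose 6 j : ℂ) = 0 := by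
        simp only [Finset.sum_range_succ, Finset.sum_range_zero]
        norm_num [Nat.choose]
      rw [e3, e4, mul_zero, add_zero]
    have e5 : ∫⁻ x : E3,
        ‖ps6 h x * (zt s τ ^ 2 * (G : E3 → ℂ) x - -1 / (γ : ℂ) * kf s x)‖ₑ ^ 2 =
        ∫⁻ ξ : E3, ‖D6 (MI s τ) h ξ‖ₑ ^ 2 := by
      have e6 : ∫⁻ x : E3,
          ‖ps6 h x * (zt s τ ^ 2 * (G : E3 → ℂ) x - -1 / (γ : ℂ) * kf s x)‖ₑ ^ 2 =
          ∫⁻ x : E3, ‖(F : E3 → ℂ) x‖ₑ ^ 2 := by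
        refine lintegral_congr_ae ?_
        filter_upwards [hFc] with x a
        rw [a]
      have e7 : ∫⁻ ξ : E3, ‖D6 (MI s τ) h ξ‖ₑ ^ 2 = ∫⁻ x : E3, ‖(FT F : E3 → ℂ) x‖ₑ ^ 2 := by
        refine lintegral_congr_ae ?_
        filter_upwards [hFT] with x a
        rw [a]
      have e8 : ‖FT F‖ₑ = ‖F‖ₑ := by
        rw [← ofReal_norm, ← ofReal_norm, LinearIsometryEquiv.norm_map]
      rw [e6, e7, lint_sq, lint_sq, e8]
    rw [e5, hI, ← lintegral_const_mul' _ _ ENNReal.ofReal_ne_top]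
    refine lintegral_mono fun ξ => ?_
    have hb := hC τ hτ ξ
    have hp : (0 : ℝ) < 1 + ‖ξ‖ := by positivity
    rw [← ofReal_norm, ← ENNReal.ofReal_pow (norm_nonneg _),
      ← ENNReal.ofReal_mul (by positivity)]
    refine ENNReal.ofReal_le_ofReal ?_
    calc ‖D6 (MI s τ) h ξ‖ ^ 2
        ≤ (C * τ ^ (-(1 / 4 : ℝ)) * (1 + ‖ξ‖) ^ (-(7 / 4 : ℝ))) ^ 2 :=
          pow_le_pow_left₀ (norm_nonneg _) hb 2
      _ = C ^ 2 * (τ ^ (-(1 / 4 : ℝ))) ^ 2 * ((1 + ‖ξ‖) ^ (-(7 / 4 : ℝ))) ^ 2 := by ring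
      _ = C ^ 2 * τ ^ (-(1 / 2 : ℝ)) * (1 + ‖ξ‖) ^ (-(7 / 2 : ℝ)) := by
          rw [← Real.rpow_natCast, ← Real.rpow_natCast ((1 + ‖ξ‖) ^ (-(7 / 4 : ℝ))),
            ← Real.rpow_natCast (τ ^ (-(1 / 4 : ℝ))), ← Real.rpow_mul hτ0.le,
            ← Real.rpow_mul hp.le]
          norm_num
  have hlim : Tendsto (fun τ : ℝ => ENNReal.ofReal (C ^ 2 * τ ^ (-(1 / 2 : ℝ))) * I) atTop (𝓝 0) := by
    have t1 : Tendsto (fun τ : ℝ => C ^ 2 * τ ^ (-(1 / 2 : ℝ))) atTop (𝓝 0) := by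
      have := (tendsto_rpow_neg_atTop (y := (1 / 2 : ℝ)) (by norm_num)).const_mul (C ^ 2)
      rwa [mul_zero] at this
    have t2 := ENNReal.tendsto_ofReal t1
    rw [ENNReal.ofReal_zero] at t2
    have t3 := ENNReal.Tendsto.mul_const (b := I) t2 (Or.inr hItop.ne)
    rwa [zero_mul] at t3
  refine tendsto_of_tendsto_of_tendsto_of_le_of_le' tendsto_const_nhds hlim
    (Eventually.of_forall fun _ => zero_le) ?_
  filter_upwards [eventually_ge_atTop (1 : ℝ)] with τ hτ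
  exact hbd τ hτ

end FracScatC

end
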