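import Pool.Agent.Lib.MP_6e2ba5_an.Rx.OffD

/-! # The far field of the resolvent kernel on annuli

Let `R ≥ δ` (otherwise the set is empty), `h_i = (1/(4R)) e_i`, `e_i` the standard basis (`EuclideanSpace.single i 1`). For
`‖x‖ ≤ R`: `|exp(2πi h_i·x) - 1| = 2|sin(π x_i/(4R))| ≥ |x_i|/R` (as `|sin t| ≥ (2/π)|t|` for `|t| ≤ π/2`,
`Real.mul_abs_le_abs_sin`), and some `|x_i| ≥ ‖x‖/√3 ≥ δ/√3` (`‖x‖² = ∑ x_i²`). So
`∑_i ‖ps6 h_i x‖² ≥ c > 0` on the annulus and `∫⁻_annulus ‖F‖² ≤ c⁻¹ ∑_i ∫⁻ ‖ps6 h_i F‖² → 0`,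
`F = z² G - κ kf` (`offD` for the three vectors `h_i`; the same `κ`). `offE2`: on the annulus
`‖z²G‖² ≤ 2‖F‖² + 2‖κ kf‖²`, `kf` is bounded there (`kf_bound`), the annulus has finite measure, and
`‖zt s τ‖ = τ^(2s)`. -/

set_option autoImplicit false

open MeasureTheory Filter Topology Set
open scoped FourierTransform SchwartzMap InnerProductSpace ENNReal BoundedContinuousFunction

noncomputable section

namespace FracScatC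

open FracScat

private theorem OffE_pt {R : ℝ} (hR : 0 < R) {x : E3} (hx : ‖x‖ ≤ R) (i : Fin 3) :
    |x i| / R ≤ ‖efun ((4 * R)⁻¹ • EuclideanSpace.single i (1 : ℝ)) x - 1‖ := by
  have hpi := Real.pi_pos
  have hxi : |x i| ≤ R := by
    refine le_trans ?_ hx
    have := PiLp.norm_apply_le x i
    rwa [Real.norm_eq_abs] at this
  have hin : ⟪(4 * R)⁻¹ • EuclideanSpace.single i (1 : ℝ), x⟫_ℝ = (4 * R)⁻¹ * x i := by
    rw [inner_smul_left, EuclideanSpace.inner_single_left]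
    simp
  have e1 : ‖efun ((4 * R)⁻¹ • EuclideanSpace.single i (1 : ℝ)) x - 1‖ =
      2 * |Real.sin (Real.pi * ((4 * R)⁻¹ * x i))| := by
    unfold efun
    rw [hin, mul_comm, Complex.norm_exp_I_mul_ofReal_sub_one]
    rw [norm_mul, Real.norm_eq_abs, Real.norm_eq_abs, abs_of_pos (by norm_num : (0 : ℝ) < 2)]
    congr 3
    ring
  have ht : |(4 * R)⁻¹ * x i| ≤ 1 / 4 := by
    rw [abs_mul, abs_of_pos (by positivity : 0 < (4 * R)⁻¹), inv_mul_le_iff₀ (by positivity)]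
    linarith
  have e2 : 2 / Real.pi * |Real.pi * ((4 * R)⁻¹ * x i)| ≤
      |Real.sin (Real.pi * ((4 * R)⁻¹ * x i))| := by
    apply Real.mul_abs_le_abs_sin
    rw [abs_mul, abs_of_pos hpi]
    nlinarith
  have e3 : 2 / Real.pi * |Real.pi * ((4 * R)⁻¹ * x i)| = |x i| / R / 2 := by
    rw [abs_mul, abs_of_pos hpi, abs_mul, abs_of_pos (by positivity : 0 < (4 * R)⁻¹)]
    field_simp
    ring
  rw [e3] at e2
  rw [e1]
  linarith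

private theorem OffE_sum {δ R : ℝ} (hδ : 0 < δ) (hR : 0 < R) {x : E3} (h1 : δ ≤ ‖x‖) (hx : ‖x‖ ≤ R) :
    (δ ^ 2 / (3 * R ^ 2)) ^ 6 ≤
      ∑ i : Fin 3, ‖ps6 ((4 * R)⁻¹ • EuclideanSpace.single i (1 : ℝ)) x‖ ^ 2 := by
  have hex : ∃ i : Fin 3, δ ^ 2 / 3 ≤ x i ^ 2 := by
    by_contra hcon
    push Not at hcon
    have e1 : ‖x‖ ^ 2 = ∑ i : Fin 3, x i ^ 2 := by
      rw [EuclideanSpace.norm_sq_eq]
      apply Finset.sum_congr rfl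
      intro i _
      rw [Real.norm_eq_abs, sq_abs]
    have e2 : δ ^ 2 ≤ ‖x‖ ^ 2 := pow_le_pow_left₀ hδ.le h1 2
    rw [e1, Fin.sum_univ_three] at e2
    have a0 := hcon 0
    have a1 := hcon 1
    have a2 := hcon 2
    linarith
  obtain ⟨i, hi⟩ := hex
  have h2 : δ ^ 2 / (3 * R ^ 2) ≤
      ‖efun ((4 * R)⁻¹ • EuclideanSpace.single i (1 : ℝ)) x - 1‖ ^ 2 := by
    have h3 := OffE_pt hR hx i
    have h4 : (|x i| / R) ^ 2 ≤
        ‖efun ((4 * R)⁻¹ • EuclideanSpace.single i (1 : ℝ)) x - 1‖ ^ 2 :=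
      pow_le_pow_left₀ (by positivity) h3 2
    refine le_trans ?_ h4
    rw [div_pow, sq_abs, ← div_div]
    exact div_le_div_of_nonneg_right hi (by positivity)
  have h5 : (δ ^ 2 / (3 * R ^ 2)) ^ 6 ≤
      ‖ps6 ((4 * R)⁻¹ • EuclideanSpace.single i (1 : ℝ)) x‖ ^ 2 := by
    unfold ps6
    rw [norm_pow, ← pow_mul, mul_comm 6 2, pow_mul]
    exact pow_le_pow_left₀ (by positivity) h2 6
  refine h5.trans ?_
  exact Finset.single_le_sum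
    (f := fun i : Fin 3 => ‖ps6 ((4 * R)⁻¹ • EuclideanSpace.single i (1 : ℝ)) x‖ ^ 2)
    (fun j _ => sq_nonneg _) (Finset.mem_univ i)

private theorem OffE_ann {δ R : ℝ} : MeasurableSet {x : E3 | δ ≤ ‖x‖ ∧ ‖x‖ ≤ R} :=
  (measurableSet_le measurable_const measurable_norm).inter
    (measurableSet_le measurable_norm measurable_const)

private theorem OffE_int {δ R : ℝ} (hδ : 0 < δ) (hR : 0 < R) {F : E3 → ℂ}
    (hF : AEStronglyMeasurable F volume) :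
    ∫⁻ x in {x : E3 | δ ≤ ‖x‖ ∧ ‖x‖ ≤ R}, ‖F x‖ₑ ^ 2 ≤
      ENNReal.ofReal (((δ ^ 2 / (3 * R ^ 2)) ^ 6)⁻¹) * ∑ i : Fin 3,
        ∫⁻ x, ‖ps6 ((4 * R)⁻¹ • EuclideanSpace.single i (1 : ℝ)) x * F x‖ₑ ^ 2 := by
  set c : ℝ := (δ ^ 2 / (3 * R ^ 2)) ^ 6 with hc
  have hc0 : 0 < c := by positivity
  have hpt : ∀ x ∈ {x : E3 | δ ≤ ‖x‖ ∧ ‖x‖ ≤ R}, ‖F x‖ₑ ^ 2 ≤
      ENNReal.ofReal c⁻¹ * ∑ i : Fin 3,
        ‖ps6 ((4 * R)⁻¹ • EuclideanSpace.single i (1 : ℝ)) x * F x‖ₑ ^ 2 := by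
    intro x hx
    have h1 := OffE_sum hδ hR hx.1 hx.2
    rw [← hc] at h1
    have h2 : ‖F x‖ ^ 2 ≤ c⁻¹ * ∑ i : Fin 3,
        ‖ps6 ((4 * R)⁻¹ • EuclideanSpace.single i (1 : ℝ)) x * F x‖ ^ 2 := by
      simp_rw [norm_mul, mul_pow]
      rw [← Finset.sum_mul, ← mul_assoc]
      have : 1 ≤ c⁻¹ * ∑ i : Fin 3,
          ‖ps6 ((4 * R)⁻¹ • EuclideanSpace.single i (1 : ℝ)) x‖ ^ 2 := by
        rw [← div_eq_inv_mul, le_div_iff₀ hc0, one_mul]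
        exact h1
      nlinarith [sq_nonneg ‖F x‖]
    have h3 := ENNReal.ofReal_le_ofReal h2
    rw [ENNReal.ofReal_mul (by positivity),
      ENNReal.ofReal_sum_of_nonneg (fun i _ => by positivity)] at h3
    simp_rw [ENNReal.ofReal_pow (norm_nonneg _), ofReal_norm_eq_enorm] at h3
    exact h3
  calc ∫⁻ x in {x : E3 | δ ≤ ‖x‖ ∧ ‖x‖ ≤ R}, ‖F x‖ₑ ^ 2
      ≤ ∫⁻ x in {x : E3 | δ ≤ ‖x‖ ∧ ‖x‖ ≤ R}, ENNReal.ofReal c⁻¹ * ∑ i : Fin 3,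
        ‖ps6 ((4 * R)⁻¹ • EuclideanSpace.single i (1 : ℝ)) x * F x‖ₑ ^ 2 :=
        setLIntegral_mono' OffE_ann hpt
    _ ≤ ∫⁻ x, ENNReal.ofReal c⁻¹ * ∑ i : Fin 3,
        ‖ps6 ((4 * R)⁻¹ • EuclideanSpace.single i (1 : ℝ)) x * F x‖ₑ ^ 2 :=
        setLIntegral_le_lintegral _ _
    _ = _ := by
        rw [lintegral_const_mul' _ _ ENNReal.ofReal_ne_top, lintegral_finsetSum']
        intro i _
        exact (((ps6_continuous _).aestronglyMeasurable.mul hF).enorm).pow_const 2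

private theorem OffE_meas (s τ : ℝ) (κ : ℂ) : AEStronglyMeasurable
    (fun x : E3 => zt s τ ^ 2 * (GI s τ : E3 → ℂ) x - κ * kf s x) volume :=
  ((Lp.aestronglyMeasurable (GI s τ)).const_mul _).sub
    ((kf_measurable s).aestronglyMeasurable.const_mul _)

theorem offE {s : ℝ} (h0 : 3 / 4 < s) (h2 : s < 2) (h1 : s ≠ 1) : ∃ κ : ℂ, κ ≠ 0 ∧
    ∀ δ R : ℝ, 0 < δ → Tendsto (fun τ : ℝ => ∫⁻ x in {x : E3 | δ ≤ ‖x‖ ∧ ‖x‖ ≤ R},
      ‖zt s τ ^ 2 * (GI s τ : E3 → ℂ) x - κ * kf s x‖ₑ ^ 2) atTop (𝓝 0) := by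
  obtain ⟨κ, hκ, h⟩ := offD h0 h2 h1
  refine ⟨κ, hκ, fun δ R hδ => ?_⟩
  set S : ℝ := max R δ with hS
  have hS0 : 0 < S := lt_of_lt_of_le hδ (le_max_right _ _)
  have hsum : Tendsto (fun τ : ℝ => ENNReal.ofReal (((δ ^ 2 / (3 * S ^ 2)) ^ 6)⁻¹) *
      ∑ i : Fin 3, ∫⁻ x, ‖ps6 ((4 * S)⁻¹ • EuclideanSpace.single i (1 : ℝ)) x *
        (zt s τ ^ 2 * (GI s τ : E3 → ℂ) x - κ * kf s x)‖ₑ ^ 2) atTop (𝓝 0) := by
    have e1 : Tendsto (fun τ : ℝ => ∑ i : Fin 3, ∫⁻ x,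
        ‖ps6 ((4 * S)⁻¹ • EuclideanSpace.single i (1 : ℝ)) x *
        (zt s τ ^ 2 * (GI s τ : E3 → ℂ) x - κ * kf s x)‖ₑ ^ 2) atTop (𝓝 0) := by
      have := tendsto_finsetSum (Finset.univ : Finset (Fin 3)) (fun i _ =>
        h ((4 * S)⁻¹ • EuclideanSpace.single i (1 : ℝ)))
      simpa using this
    have e2 := ENNReal.Tendsto.const_mul (a := ENNReal.ofReal (((δ ^ 2 / (3 * S ^ 2)) ^ 6)⁻¹)) e1
      (Or.inr ENNReal.ofReal_ne_top)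
    simpa using e2
  refine tendsto_of_tendsto_of_tendsto_of_le_of_le tendsto_const_nhds hsum
    (fun τ => zero_le) (fun τ => ?_)
  refine le_trans ?_ (OffE_int hδ hS0 (OffE_meas s τ κ))
  refine lintegral_mono_set ?_
  rintro x ⟨hx1, hx2⟩
  exact ⟨hx1, hx2.trans (le_max_left _ _)⟩

theorem offE2 {s : ℝ} (h0 : 3 / 4 < s) (h2 : s < 2) (h1 : s ≠ 1) (δ R : ℝ) (hδ : 0 < δ) :
    ∃ C K : ℝ, 0 ≤ C ∧ 1 ≤ K ∧ ∀ τ : ℝ, K ≤ τ →
      ∫⁻ x in {x : E3 | δ ≤ ‖x‖ ∧ ‖x‖ ≤ R}, ‖(GI s τ : E3 → ℂ) x‖ₑ ^ 2 ≤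
        ENNReal.ofReal (C * τ ^ (-(8 * s))) := by
  obtain ⟨κ, hκ, h⟩ := offE h0 h2 h1
  have hev : ∀ᶠ τ : ℝ in atTop, ∫⁻ x in {x : E3 | δ ≤ ‖x‖ ∧ ‖x‖ ≤ R},
      ‖zt s τ ^ 2 * (GI s τ : E3 → ℂ) x - κ * kf s x‖ₑ ^ 2 < 1 :=
    (h δ R hδ).eventually_lt_const zero_lt_one
  obtain ⟨K0, hK0⟩ := eventually_atTop.1 hev
  set A : Set E3 := {x : E3 | δ ≤ ‖x‖ ∧ ‖x‖ ≤ R} with hA
  have hvol : volume A < ⊤ := by
    refine lt_of_le_of_lt (measure_mono ?_) (measure_closedBall_lt_top (x := (0 : E3)) (r := R))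
    rintro x ⟨-, hx⟩
    simpa using hx
  set B : ℝ := ‖κ‖ * δ ^ (-(3 + 2 * s)) with hB
  have hB0 : 0 ≤ B := by positivity
  set v : ℝ := (volume A).toReal with hv
  have hv0 : 0 ≤ v := ENNReal.toReal_nonneg
  have hvE : volume A = ENNReal.ofReal v := (ENNReal.ofReal_toReal hvol.ne).symm
  refine ⟨2 + 2 * B ^ 2 * v, max K0 1, by positivity, le_max_right _ _, fun τ hτ => ?_⟩
  have hτ1 : 1 ≤ τ := (le_max_right _ _).trans hτ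
  have hτ0 : 0 < τ := by linarith
  have hz : ‖zt s τ‖ = τ ^ (2 * s) := zt_norm hτ0
  have hI := (hK0 τ ((le_max_left _ _).trans hτ)).le
  have hpt : ∀ x ∈ A, ENNReal.ofReal (τ ^ (8 * s)) * ‖(GI s τ : E3 → ℂ) x‖ₑ ^ 2 ≤
      2 * ‖zt s τ ^ 2 * (GI s τ : E3 → ℂ) x - κ * kf s x‖ₑ ^ 2 + ENNReal.ofReal (2 * B ^ 2) := by
    intro x hx
    have a1 : ‖κ * kf s x‖ ≤ B := by
      rw [norm_mul, hB]
      exact mul_le_mul_of_nonneg_left (kf_bound (by linarith) hδ hx.1) (norm_nonneg _)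
    have a2 : ‖zt s τ ^ 2 * (GI s τ : E3 → ℂ) x‖ ≤
        ‖zt s τ ^ 2 * (GI s τ : E3 → ℂ) x - κ * kf s x‖ + B := by
      have := norm_add_le (zt s τ ^ 2 * (GI s τ : E3 → ℂ) x - κ * kf s x) (κ * kf s x)
      rw [sub_add_cancel] at this
      linarith
    have a3 : τ ^ (8 * s) * ‖(GI s τ : E3 → ℂ) x‖ ^ 2 ≤
        2 * ‖zt s τ ^ 2 * (GI s τ : E3 → ℂ) x - κ * kf s x‖ ^ 2 + 2 * B ^ 2 := by
      have e : τ ^ (8 * s) * ‖(GI s τ : E3 → ℂ) x‖ ^ 2 =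
          ‖zt s τ ^ 2 * (GI s τ : E3 → ℂ) x‖ ^ 2 := by
        rw [norm_mul, norm_pow, hz, mul_pow, ← pow_mul, ← Real.rpow_natCast (τ ^ (2 * s)),
          ← Real.rpow_mul hτ0.le]
        congr 2
        push_cast
        ring
      rw [e]
      have n1 := norm_nonneg (zt s τ ^ 2 * (GI s τ : E3 → ℂ) x)
      have n2 := norm_nonneg (zt s τ ^ 2 * (GI s τ : E3 → ℂ) x - κ * kf s x)
      nlinarith [sq_nonneg (‖zt s τ ^ 2 * (GI s τ : E3 → ℂ) x - κ * kf s x‖ - B),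
        pow_le_pow_left₀ n1 a2 2]
    have a4 := ENNReal.ofReal_le_ofReal a3
    rw [ENNReal.ofReal_mul (by positivity), ENNReal.ofReal_add (by positivity) (by positivity),
      ENNReal.ofReal_mul (by norm_num), ENNReal.ofReal_pow (norm_nonneg _),
      ENNReal.ofReal_pow (norm_nonneg _), ofReal_norm_eq_enorm, ofReal_norm_eq_enorm] at a4
    simpa using a4
  have hint : ENNReal.ofReal (τ ^ (8 * s)) * ∫⁻ x in A, ‖(GI s τ : E3 → ℂ) x‖ₑ ^ 2 ≤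
      ENNReal.ofReal (2 + 2 * B ^ 2 * v) := by
    calc ENNReal.ofReal (τ ^ (8 * s)) * ∫⁻ x in A, ‖(GI s τ : E3 → ℂ) x‖ₑ ^ 2
        = ∫⁻ x in A, ENNReal.ofReal (τ ^ (8 * s)) * ‖(GI s τ : E3 → ℂ) x‖ₑ ^ 2 := by
          rw [lintegral_const_mul' _ _ ENNReal.ofReal_ne_top]
      _ ≤ ∫⁻ x in A, (2 * ‖zt s τ ^ 2 * (GI s τ : E3 → ℂ) x - κ * kf s x‖ₑ ^ 2 +
            ENNReal.ofReal (2 * B ^ 2)) := setLIntegral_mono' OffE_ann hpt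
      _ = 2 * (∫⁻ x in A, ‖zt s τ ^ 2 * (GI s τ : E3 → ℂ) x - κ * kf s x‖ₑ ^ 2) +
            ENNReal.ofReal (2 * B ^ 2) * volume A := by
          rw [lintegral_add_right' _ aemeasurable_const, lintegral_const_mul' _ _ (by simp),
            setLIntegral_const]
      _ ≤ 2 * 1 + ENNReal.ofReal (2 * B ^ 2) * volume A := by gcongr
      _ = ENNReal.ofReal (2 + 2 * B ^ 2 * v) := by
          rw [hvE, ← ENNReal.ofReal_mul (by positivity), mul_one,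
            ENNReal.ofReal_add (by norm_num) (by positivity)]
          simp
  have ht : 0 < τ ^ (8 * s) := Real.rpow_pos_of_pos hτ0 _
  calc ∫⁻ x in A, ‖(GI s τ : E3 → ℂ) x‖ₑ ^ 2
      = ENNReal.ofReal (τ ^ (-(8 * s))) * (ENNReal.ofReal (τ ^ (8 * s)) *
          ∫⁻ x in A, ‖(GI s τ : E3 → ℂ) x‖ₑ ^ 2) := by
        rw [← mul_assoc, ← ENNReal.ofReal_mul (by positivity), ← Real.rpow_add hτ0]
        simp
    _ ≤ ENNReal.ofReal (τ ^ (-(8 * s))) * ENNReal.ofReal (2 + 2 * B ^ 2 * v) := by gcongr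
    _ = ENNReal.ofReal ((2 + 2 * B ^ 2 * v) * τ ^ (-(8 * s))) := by
        rw [← ENNReal.ofReal_mul (by positivity), mul_comm]

end FracScatC

end
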