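import Pool.Agent.Lib.MP_6e2ba5_an.Rx.UDefs

/-! # From the exponent `b` to `b + 2`

Fix `y` with `‖y-y₀‖ < ρ`, `δ = ρ - ‖y-y₀‖`: `‖x-y‖ ≥ δ` for a.e. `x` with `W x ≠ 0`, and `‖x-y'‖ ≥ δ/2` for `‖y'-y‖ ≤ δ/2`. For
`0 < t < δ/2` the sum over the three coordinate directions `e_i`
`0 = ∑_i (UW b W (y+te_i) + UW b W (y-te_i) - 2 UW b W y)/t² = ∫ W(x) Q_t(x) dx`,
`Q_t(x) = ∑_i (φ(y+te_i) + φ(y-te_i) - 2φ(y))/t²`, `φ(y) = ‖x-y‖^(-b)`. `sph_point`: for fixed `x ≠ y`, `Q_t(x) → Δφ(y) =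
b(b-1)‖x-y‖^(-b-2)` as `t → 0` (in dimension 3: `∑ ∂_i² (‖v‖²)^(-b/2)
= (b(b+2) - 3b) ‖v‖^(-b-2)`), and `|Q_t(x)| ≤ C(δ)` when `‖x-y‖ ≥ δ` and `t ≤ δ/2` (second derivatives of
`g(t) = ((a+ct+t²))^(-b/2)` along each direction, `a = ‖x-y‖²`, `|c| ≤ 2‖x-y‖`; the mean value theorem, or the
integral form of the Taylor formula). Dominated convergence: `b(b-1) UW (b+2) W y = 0`. -/

set_option autoImplicit false

open MeasureTheory Filter Topology Set
open scoped FourierTransform SchwartzMap InnerProductSpace ENNReal BoundedContinuousFunction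

noncomputable section

namespace FracScat

private theorem sd_bound {g g' g'' : ℝ → ℝ} {T K : ℝ} (h1 : ∀ t, |t| ≤ T → HasDerivAt g (g' t) t)
    (h2 : ∀ t, |t| ≤ T → HasDerivAt g' (g'' t) t) (hK : ∀ t, |t| ≤ T → |g'' t| ≤ K) {t : ℝ}
    (ht : 0 ≤ t) (htT : t ≤ T) : |g t + g (-t) - 2 * g 0| ≤ K * t ^ 2 := by
  have hd : ∀ s, 0 ≤ s → s ≤ T → |g' s - g' (-s)| ≤ 2 * K * s := by
    intro s hs hsT
    have hconv : Convex ℝ (Icc (-T) T) := convex_Icc _ _
    have := hconv.norm_image_sub_le_of_norm_hasDerivWithin_le (f := g') (f' := g'') (C := K)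
      (x := -s) (y := s)
      (fun x hx => (h2 x (abs_le.2 ⟨hx.1, hx.2⟩)).hasDerivWithinAt)
      (fun x hx => by simpa using hK x (abs_le.2 ⟨hx.1, hx.2⟩))
      ⟨by linarith, by linarith⟩ ⟨by linarith, by linarith⟩
    rw [Real.norm_eq_abs, Real.norm_eq_abs, sub_neg_eq_add,
      abs_of_nonneg (by linarith : 0 ≤ s + s)] at this
    linarith
  have key : ∀ s, 0 ≤ s → s ≤ T → HasDerivAt (fun s => g s + g (-s) - 2 * g 0)
      (g' s - g' (-s)) s := by
    intro s hs hsT
    have a1 := h1 s (abs_le.2 ⟨by linarith, hsT⟩)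
    have a2 : HasDerivAt (fun s => g (-s)) (-(g' (-s))) s := by
      have := (h1 (-s) (abs_le.2 ⟨by linarith, by linarith⟩)).comp s (hasDerivAt_neg s)
      simpa [Function.comp_def] using this
    have := (a1.add a2).sub_const (2 * g 0)
    simpa [sub_eq_add_neg] using this
  have mono : ∀ σ : ℝ, (σ = 1 ∨ σ = -1) → 0 ≤ K * t ^ 2 - σ * (g t + g (-t) - 2 * g 0) := by
    intro σ hσ
    have hm : MonotoneOn (fun s => K * s ^ 2 - σ * (g s + g (-s) - 2 * g 0)) (Icc 0 T) := by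
      apply monotoneOn_of_hasDerivWithinAt_nonneg (convex_Icc _ _)
        (f' := fun s => K * (2 * s) - σ * (g' s - g' (-s)))
      · intro s hs
        have := (((hasDerivAt_pow 2 s).const_mul K).sub ((key s hs.1 hs.2).const_mul σ))
        exact this.continuousAt.continuousWithinAt
      · intro s hs
        rw [interior_Icc] at hs
        have := (((hasDerivAt_pow 2 s).const_mul K).sub ((key s hs.1.le hs.2.le).const_mul σ))
        have h3 : HasDerivAt (fun s => K * s ^ 2 - σ * (g s + g (-s) - 2 * g 0))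
            (K * (2 * s) - σ * (g' s - g' (-s))) s := by
          refine this.congr_deriv ?_
          simp
        exact h3.hasDerivWithinAt
      · intro s hs
        rw [interior_Icc] at hs
        have h3 := abs_le.1 (hd s hs.1.le hs.2.le)
        rcases hσ with h | h <;> subst h <;> linarith [h3.1, h3.2]
    have h0 : (0 : ℝ) ∈ Icc 0 T := ⟨le_rfl, ht.trans htT⟩
    have ht' : t ∈ Icc 0 T := ⟨ht, htT⟩
    have := hm h0 ht' ht
    simp only [neg_zero] at this
    nlinarith [this]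
  rw [abs_le]
  constructor
  · linarith [mono (-1) (Or.inr rfl)]
  · linarith [mono 1 (Or.inl rfl)]

private theorem sd_lim {g g' : ℝ → ℝ} {T A : ℝ} (hT : 0 < T)
    (h1 : ∀ t, |t| ≤ T → HasDerivAt g (g' t) t) (h2 : HasDerivAt g' A 0) :
    Tendsto (fun t => (g t + g (-t) - 2 * g 0) / t ^ 2) (𝓝[>] 0) (𝓝 A) := by
  have hmem : ∀ᶠ t in 𝓝[>] (0 : ℝ), 0 < t ∧ t < T := by
    have := Ioo_mem_nhdsGT hT
    filter_upwards [this] with t ht using ht
  have hz : Tendsto (fun t : ℝ => t) (𝓝[>] 0) (𝓝 0) := tendsto_nhdsWithin_of_tendsto_nhds tendsto_id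
  have hg0 : ContinuousAt g 0 := (h1 0 (by simpa using hT.le)).continuousAt
  refine HasDerivAt.lhopital_zero_nhdsGT (f' := fun t => g' t - g' (-t)) (g' := fun t => 2 * t)
    ?_ ?_ ?_ ?_ ?_ ?_
  · filter_upwards [hmem] with s hs
    have a1 := h1 s (abs_le.2 ⟨by linarith, hs.2.le⟩)
    have a2 : HasDerivAt (fun s => g (-s)) (-(g' (-s))) s := by
      have := (h1 (-s) (abs_le.2 ⟨by linarith, by linarith⟩)).comp s (hasDerivAt_neg s)
      simpa [Function.comp_def] using this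
    have := (a1.add a2).sub_const (2 * g 0)
    simpa [sub_eq_add_neg] using this
  · filter_upwards with s
    simpa using hasDerivAt_pow 2 s
  · filter_upwards [hmem] with s hs
    have := hs.1
    positivity
  · have e1 : Tendsto (fun t => g t) (𝓝[>] 0) (𝓝 (g 0)) := tendsto_nhdsWithin_of_tendsto_nhds hg0
    have e2 : Tendsto (fun t => g (-t)) (𝓝[>] 0) (𝓝 (g 0)) := by
      have : Tendsto (fun t : ℝ => -t) (𝓝[>] 0) (𝓝 0) := by simpa using hz.neg
      exact hg0.tendsto.comp this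
    have := (e1.add e2).sub_const (2 * g 0)
    have e3 : g 0 + g 0 - 2 * g 0 = 0 := by ring
    rw [e3] at this
    exact this
  · have := hz.pow 2
    simpa using this
  · have s1 : Tendsto (fun t => (g' t - g' 0) / t) (𝓝[>] 0) (𝓝 A) := by
      have := h2.tendsto_slope
      have h4 : Tendsto (slope g' 0) (𝓝[>] 0) (𝓝 A) := this.mono_left
        (nhdsWithin_mono _ (fun x hx => (ne_of_gt hx)))
      refine h4.congr fun t => ?_
      rw [slope_def_field, sub_zero]
    have s2 : Tendsto (fun t => (g' (-t) - g' 0) / (-t)) (𝓝[>] 0) (𝓝 A) := by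
      have := h2.tendsto_slope
      have h5 : Tendsto (fun t : ℝ => -t) (𝓝[>] 0) (𝓝[≠] 0) := by
        apply tendsto_nhdsWithin_of_tendsto_nhds_of_eventually_within
        · simpa using hz.neg
        · filter_upwards [hmem] with t ht h0
          have h1 : -t = 0 := h0
          linarith [ht.1]
      refine (this.comp h5).congr fun t => ?_
      simp only [Function.comp_apply]
      rw [slope_def_field, sub_zero]
    have := (s1.add s2).div_const 2
    have e : (A + A) / 2 = A := by ring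
    rw [e] at this
    refine this.congr' ?_
    filter_upwards [hmem] with t ht
    have : t ≠ 0 := ne_of_gt ht.1
    field_simp
    ring

theorem sph_point {b : ℝ} (hb : 1 < b) {δ : ℝ} (hδ : 0 < δ) : ∃ C : ℝ, 0 ≤ C ∧ ∀ v : E3, δ ≤ ‖v‖ →
    (∀ t : ℝ, 0 < t → t ≤ δ / 2 →
      |∑ i : Fin 3, (‖v + t • EuclideanSpace.single i (1 : ℝ)‖ ^ (-b) +
        ‖v - t • EuclideanSpace.single i (1 : ℝ)‖ ^ (-b) - 2 * ‖v‖ ^ (-b)) / t ^ 2| ≤ C) ∧
    Tendsto (fun t : ℝ => ∑ i : Fin 3, (‖v + t • EuclideanSpace.single i (1 : ℝ)‖ ^ (-b) +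
        ‖v - t • EuclideanSpace.single i (1 : ℝ)‖ ^ (-b) - 2 * ‖v‖ ^ (-b)) / t ^ 2)
      (𝓝[>] 0) (𝓝 (b * (b - 1) * ‖v‖ ^ (-(b + 2)))) := by
  set K : ℝ := b * (b + 3) * (δ / 2) ^ (-(b + 2)) with hKdef
  have hKpos : 0 ≤ K := by
    have : 0 < (δ / 2) ^ (-(b + 2)) := Real.rpow_pos_of_pos (by linarith) _
    have : 0 < b * (b + 3) := by nlinarith
    positivity
  refine ⟨3 * K, by positivity, fun v hv => ?_⟩
  have hv0 : 0 < ‖v‖ := hδ.trans_le hv
  -- the square of the norm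
  have hsq : ∀ (i : Fin 3) (t : ℝ), ‖v + t • EuclideanSpace.single i (1 : ℝ)‖ ^ 2 =
      ‖v‖ ^ 2 + 2 * v i * t + t ^ 2 := by
    intro i t
    rw [@norm_add_sq ℝ, inner_smul_right, EuclideanSpace.inner_single_right, norm_smul,
      EuclideanSpace.norm_single]
    simp
    ring
  have hnorm : ∀ (i : Fin 3) (t : ℝ), |t| ≤ δ / 2 → δ / 2 ≤ ‖v + t • EuclideanSpace.single i (1 : ℝ)‖ := by
    intro i t ht
    have h1 : ‖t • (EuclideanSpace.single i (1 : ℝ) : E3)‖ ≤ δ / 2 := by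
      rw [norm_smul, EuclideanSpace.norm_single]; simpa using ht
    have h2 := norm_sub_norm_le v (-(t • (EuclideanSpace.single i (1 : ℝ) : E3)))
    rw [norm_neg, sub_neg_eq_add] at h2
    linarith
  have hQ : ∀ (i : Fin 3) (t : ℝ), |t| ≤ δ / 2 → (δ / 2) ^ 2 ≤ ‖v‖ ^ 2 + 2 * v i * t + t ^ 2 := by
    intro i t ht
    rw [← hsq]
    exact pow_le_pow_left₀ (by linarith) (hnorm i t ht) 2
  -- power identity
  have hpw : ∀ (x c : ℝ), 0 ≤ x → (x ^ 2) ^ (c / 2) = x ^ c := by
    intro x c hx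
    rw [← Real.rpow_natCast, ← Real.rpow_mul hx]
    congr 1
    push_cast
    ring
  set g : Fin 3 → ℝ → ℝ := fun i t => (‖v‖ ^ 2 + 2 * v i * t + t ^ 2) ^ (-b / 2) with hg
  set g' : Fin 3 → ℝ → ℝ := fun i t =>
    -b * (v i + t) * (‖v‖ ^ 2 + 2 * v i * t + t ^ 2) ^ (-b / 2 - 1) with hg'
  set g'' : Fin 3 → ℝ → ℝ := fun i t =>
    -b * (‖v‖ ^ 2 + 2 * v i * t + t ^ 2) ^ (-b / 2 - 1) +
      b * (b + 2) * (v i + t) ^ 2 * (‖v‖ ^ 2 + 2 * v i * t + t ^ 2) ^ (-b / 2 - 2) with hg''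
  have hgn : ∀ (i : Fin 3) (t : ℝ), ‖v + t • EuclideanSpace.single i (1 : ℝ)‖ ^ (-b) = g i t := by
    intro i t
    simp only [hg]
    rw [← hsq, hpw _ _ (norm_nonneg _)]
  have hgn' : ∀ (i : Fin 3) (t : ℝ), ‖v - t • EuclideanSpace.single i (1 : ℝ)‖ ^ (-b) = g i (-t) := by
    intro i t
    rw [← hgn, neg_smul, sub_eq_add_neg]
  have hg0 : ∀ i : Fin 3, ‖v‖ ^ (-b) = g i 0 := by
    intro i
    rw [← hgn]; simp
  have hdQ : ∀ (i : Fin 3) (t : ℝ), HasDerivAt (fun t => ‖v‖ ^ 2 + 2 * v i * t + t ^ 2)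
      (2 * v i + 2 * t) t := by
    intro i t
    have h1 := ((hasDerivAt_id t).const_mul (2 * v i)).const_add (‖v‖ ^ 2)
    have h2 := h1.add (hasDerivAt_pow 2 t)
    refine h2.congr_deriv ?_
    simp
  have hQpos : ∀ (i : Fin 3) (t : ℝ), |t| ≤ δ / 2 → 0 < ‖v‖ ^ 2 + 2 * v i * t + t ^ 2 := by
    intro i t ht
    have := hQ i t ht
    have : 0 < (δ / 2) ^ 2 := by positivity
    linarith
  have d1 : ∀ (i : Fin 3) (t : ℝ), |t| ≤ δ / 2 → HasDerivAt (g i) (g' i t) t := by
    intro i t ht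
    have := (hdQ i t).rpow_const (p := -b / 2) (Or.inl (hQpos i t ht).ne')
    refine this.congr_deriv ?_
    simp only [hg']
    ring
  have d2 : ∀ (i : Fin 3) (t : ℝ), |t| ≤ δ / 2 → HasDerivAt (g' i) (g'' i t) t := by
    intro i t ht
    have h1 := (hdQ i t).rpow_const (p := -b / 2 - 1) (Or.inl (hQpos i t ht).ne')
    have h2 : HasDerivAt (fun t => -b * (v i + t)) (-b) t := by
      have := ((hasDerivAt_id t).const_add (v i)).const_mul (-b)
      simpa using this
    have := h2.mul h1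
    refine this.congr_deriv ?_
    simp only [hg'']
    have e : -b / 2 - 1 - 1 = -b / 2 - 2 := by ring
    rw [e]
    ring
  have bd : ∀ (i : Fin 3) (t : ℝ), |t| ≤ δ / 2 → |g'' i t| ≤ K := by
    intro i t ht
    set Q := ‖v‖ ^ 2 + 2 * v i * t + t ^ 2 with hQd
    have hQp := hQpos i t ht
    have hcs : (v i + t) ^ 2 ≤ Q := by
      have h1 : |v i| ≤ ‖v‖ := by
        have := PiLp.norm_apply_le v i
        simpa using this
      have h2 : (v i) ^ 2 ≤ ‖v‖ ^ 2 := by
        rw [← sq_abs (v i)]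
        exact pow_le_pow_left₀ (abs_nonneg _) h1 2
      nlinarith
    have hP1 : 0 < Q ^ (-b / 2 - 1) := Real.rpow_pos_of_pos hQp _
    have hP2 : 0 < Q ^ (-b / 2 - 2) := Real.rpow_pos_of_pos hQp _
    have hPQ : Q * Q ^ (-b / 2 - 2) = Q ^ (-b / 2 - 1) := by
      have : -b / 2 - 1 = 1 + (-b / 2 - 2) := by ring
      rw [this, Real.rpow_add hQp, Real.rpow_one]
    have h3 : (v i + t) ^ 2 * Q ^ (-b / 2 - 2) ≤ Q ^ (-b / 2 - 1) := by
      rw [← hPQ]
      exact mul_le_mul_of_nonneg_right hcs hP2.le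
    have h3' : 0 ≤ (v i + t) ^ 2 * Q ^ (-b / 2 - 2) := by positivity
    have h4 : Q ^ (-b / 2 - 1) ≤ (δ / 2) ^ (-(b + 2)) := by
      have e : (δ / 2) ^ (-(b + 2)) = ((δ / 2) ^ 2) ^ (-b / 2 - 1) := by
        rw [show -b / 2 - 1 = (-(b + 2)) / 2 by ring, hpw _ _ (by linarith)]
      rw [e]
      exact Real.rpow_le_rpow_of_nonpos (by positivity) (hQ i t ht) (by linarith)
    have hb0 : 0 < b := by linarith
    have h5 : |g'' i t| ≤ b * (b + 3) * Q ^ (-b / 2 - 1) := by
      simp only [hg'']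
      rw [abs_le]
      constructor
      · have : 0 ≤ b * (b + 2) * (v i + t) ^ 2 * Q ^ (-b / 2 - 2) := by positivity
        nlinarith [mul_pos hb0 hP1, mul_pos (mul_pos hb0 hb0) hP1]
      · have : b * (b + 2) * (v i + t) ^ 2 * Q ^ (-b / 2 - 2) ≤ b * (b + 2) * Q ^ (-b / 2 - 1) := by
          rw [mul_assoc]
          exact mul_le_mul_of_nonneg_left h3 (by positivity)
        nlinarith [mul_pos hb0 hP1, mul_pos (mul_pos hb0 hb0) hP1]
    refine h5.trans ?_
    rw [hKdef]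
    exact mul_le_mul_of_nonneg_left h4 (by positivity)
  constructor
  · intro t ht0 ht
    have ht2 : 0 < t ^ 2 := by positivity
    have each : ∀ i : Fin 3, |(‖v + t • EuclideanSpace.single i (1 : ℝ)‖ ^ (-b) +
        ‖v - t • EuclideanSpace.single i (1 : ℝ)‖ ^ (-b) - 2 * ‖v‖ ^ (-b)) / t ^ 2| ≤ K := by
      intro i
      rw [hgn, hgn', hg0 i, abs_div, abs_of_pos ht2, div_le_iff₀ ht2]
      exact sd_bound (d1 i) (d2 i) (bd i) ht0.le ht
    refine (Finset.abs_sum_le_sum_abs _ _).trans ?_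
    refine (Finset.sum_le_sum fun i _ => each i).trans ?_
    simp
  · have each : ∀ i : Fin 3, Tendsto (fun t : ℝ => (‖v + t • EuclideanSpace.single i (1 : ℝ)‖ ^ (-b) +
        ‖v - t • EuclideanSpace.single i (1 : ℝ)‖ ^ (-b) - 2 * ‖v‖ ^ (-b)) / t ^ 2) (𝓝[>] 0)
        (𝓝 (g'' i 0)) := by
      intro i
      have := sd_lim (g := g i) (g' := g' i) (T := δ / 2) (by linarith) (d1 i)
        (d2 i 0 (by rw [abs_zero]; linarith))
      refine this.congr fun t => ?_
      rw [hgn, hgn', hg0 i]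
    have := tendsto_finsetSum (Finset.univ : Finset (Fin 3)) (fun i _ => each i)
    have e : ∑ i : Fin 3, g'' i 0 = b * (b - 1) * ‖v‖ ^ (-(b + 2)) := by
      have hv2 : 0 < ‖v‖ ^ 2 := by positivity
      have hsum : ∑ i : Fin 3, (v i) ^ 2 = ‖v‖ ^ 2 := by
        rw [EuclideanSpace.norm_sq_eq]
        simp
      have hPQ : ‖v‖ ^ 2 * (‖v‖ ^ 2) ^ (-b / 2 - 2) = (‖v‖ ^ 2) ^ (-b / 2 - 1) := by
        have : -b / 2 - 1 = 1 + (-b / 2 - 2) := by ring
        rw [this, Real.rpow_add hv2, Real.rpow_one]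
      have hlast : (‖v‖ ^ 2) ^ (-b / 2 - 1) = ‖v‖ ^ (-(b + 2)) := by
        rw [show -b / 2 - 1 = (-(b + 2)) / 2 by ring, hpw _ _ (norm_nonneg _)]
      have hi : ∀ i : Fin 3, g'' i 0 = -b * (‖v‖ ^ 2) ^ (-b / 2 - 1) +
          b * (b + 2) * (‖v‖ ^ 2) ^ (-b / 2 - 2) * (v i) ^ 2 := by
        intro i
        simp only [hg'']
        have e1 : ‖v‖ ^ 2 + 2 * v i * 0 + 0 ^ 2 = ‖v‖ ^ 2 := by ring
        rw [e1]
        ring
      simp_rw [hi]
      rw [Finset.sum_add_distrib, ← Finset.mul_sum (Finset.univ) (fun i => (v i) ^ 2), hsum]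
      simp only [Finset.sum_const, Finset.card_univ, Fintype.card_fin, nsmul_eq_mul]
      rw [← hlast]
      push_cast
      linear_combination (b * (b + 2)) * hPQ
    rw [← e]
    exact this

private theorem W_ae {r M ρ : ℝ} {W : E3 → ℝ} {y₀ : E3} (hW : IsW r M W y₀ ρ) {y : E3} :
    ∀ᵐ x ∂(volume : Measure E3), W x = 0 ∨ (‖x‖ < r ∧ ρ - ‖y - y₀‖ ≤ ‖x - y‖) := by
  filter_upwards [hW.zero] with x hx
  by_cases h0 : W x = 0
  · exact Or.inl h0
  · right
    constructor
    · by_contra h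
      exact h0 (hW.vanish x (not_lt.1 h))
    · have h1 : ρ ≤ ‖x - y₀‖ := by
        by_contra h
        exact h0 (hx (not_le.1 h))
      have h2 : ‖x - y₀‖ ≤ ‖x - y‖ + ‖y - y₀‖ := by
        have := norm_add_le (x - y) (y - y₀)
        rwa [sub_add_sub_cancel] at this
      linarith

theorem UW_integrable {r M ρ : ℝ} {W : E3 → ℝ} {y₀ : E3} (hW : IsW r M W y₀ ρ) (b : ℝ) {y : E3}
    (hy : ‖y - y₀‖ < ρ) : Integrable (fun x => W x * ‖x - y‖ ^ (-b)) := by
  set δ := ρ - ‖y - y₀‖ with hδd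
  have hδ : 0 < δ := by rw [hδd]; linarith
  have hM : 0 ≤ M := (abs_nonneg _).trans (hW.bounded 0)
  set K : ℝ := M * (δ ^ (-b) + (|r| + ‖y‖ + δ) ^ (-b)) with hK
  have hint : Integrable ((Metric.ball (0 : E3) r).indicator (fun _ => K)) := by
    rw [integrable_indicator_iff measurableSet_ball]
    exact integrableOn_const (by exact (measure_ball_lt_top).ne)
  have hmeas : Measurable (fun x : E3 => W x * ‖x - y‖ ^ (-b)) := by
    apply hW.measurable.mul
    exact ((measurable_id.sub_const y).norm).pow_const _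
  refine hint.mono' hmeas.aestronglyMeasurable ?_
  filter_upwards [W_ae hW (y := y)] with x hx
  rcases hx with h0 | ⟨hr, hd⟩
  · rw [h0, zero_mul, norm_zero]
    apply indicator_nonneg
    intro _ _
    rw [hK]
    have : 0 < δ ^ (-b) := Real.rpow_pos_of_pos hδ _
    have : 0 < (|r| + ‖y‖ + δ) ^ (-b) := Real.rpow_pos_of_pos (by positivity) _
    positivity
  · rw [indicator_of_mem (by simpa using hr), norm_mul, Real.norm_eq_abs, hK]
    have hd' : δ ≤ ‖x - y‖ := hd
    have hpos : 0 < ‖x - y‖ := hδ.trans_le hd'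
    have h1 : 0 < ‖x - y‖ ^ (-b) := Real.rpow_pos_of_pos hpos _
    have h2 : ‖x - y‖ ^ (-b) ≤ δ ^ (-b) + (|r| + ‖y‖ + δ) ^ (-b) := by
      have p1 : 0 < δ ^ (-b) := Real.rpow_pos_of_pos hδ _
      have p2 : 0 < (|r| + ‖y‖ + δ) ^ (-b) := Real.rpow_pos_of_pos (by positivity) _
      rcases le_total 0 b with hb | hb
      · have : ‖x - y‖ ^ (-b) ≤ δ ^ (-b) :=
          Real.rpow_le_rpow_of_nonpos hδ hd' (by linarith)
        linarith
      · have h3 : ‖x - y‖ ≤ |r| + ‖y‖ + δ := by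
          have := norm_sub_le x y
          have := le_abs_self r
          linarith
        have : ‖x - y‖ ^ (-b) ≤ (|r| + ‖y‖ + δ) ^ (-b) :=
          Real.rpow_le_rpow hpos.le h3 (by linarith)
        linarith
    rw [Real.norm_eq_abs, abs_of_pos h1]
    exact mul_le_mul (hW.bounded x) h2 h1.le hM

theorem sphA {r M ρ : ℝ} {W : E3 → ℝ} {y₀ : E3} (hW : IsW r M W y₀ ρ) {b : ℝ} (hb : 1 < b)
    (h : ∀ y : E3, ‖y - y₀‖ < ρ → UW b W y = 0) (y : E3) (hy : ‖y - y₀‖ < ρ) :
    UW (b + 2) W y = 0 := by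
  set δ := ρ - ‖y - y₀‖ with hδd
  have hδ : 0 < δ := by rw [hδd]; linarith
  have hM : 0 ≤ M := (abs_nonneg _).trans (hW.bounded 0)
  obtain ⟨C, hC0, hC⟩ := sph_point hb hδ
  set Q : ℝ → E3 → ℝ := fun t x => ∑ i : Fin 3,
    (‖(x - y) + t • EuclideanSpace.single i (1 : ℝ)‖ ^ (-b) +
      ‖(x - y) - t • EuclideanSpace.single i (1 : ℝ)‖ ^ (-b) - 2 * ‖x - y‖ ^ (-b)) / t ^ 2 with hQ
  have hmeasQ : ∀ t, Measurable (fun x => W x * Q t x) := by
    intro t
    apply hW.measurable.mul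
    simp only [hQ]
    apply Finset.measurable_sum
    intro i _
    have m1 : Measurable (fun x : E3 => ‖(x - y) + t • EuclideanSpace.single i (1 : ℝ)‖ ^ (-b)) :=
      (((measurable_id.sub_const y).add_const _).norm).pow_const _
    have m2 : Measurable (fun x : E3 => ‖(x - y) - t • EuclideanSpace.single i (1 : ℝ)‖ ^ (-b)) :=
      (((measurable_id.sub_const y).sub_const _).norm).pow_const _
    have m3 : Measurable (fun x : E3 => ‖x - y‖ ^ (-b)) :=
      ((measurable_id.sub_const y).norm).pow_const _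
    exact ((m1.add m2).sub (m3.const_mul 2)).div_const _
  have hmem : ∀ᶠ t in 𝓝[>] (0 : ℝ), 0 < t ∧ t < δ / 2 := by
    have := Ioo_mem_nhdsGT (show (0 : ℝ) < δ / 2 by linarith)
    filter_upwards [this] with t ht using ht
  have hint : Integrable ((Metric.ball (0 : E3) r).indicator (fun _ => M * C)) := by
    rw [integrable_indicator_iff measurableSet_ball]
    exact integrableOn_const (by exact (measure_ball_lt_top).ne)
  have hlim : Tendsto (fun t => ∫ x, W x * Q t x) (𝓝[>] 0)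
      (𝓝 (∫ x, W x * (b * (b - 1) * ‖x - y‖ ^ (-(b + 2))))) := by
    refine tendsto_integral_filter_of_dominated_convergence
      ((Metric.ball (0 : E3) r).indicator (fun _ => M * C)) ?_ ?_ hint ?_
    · filter_upwards with t using (hmeasQ t).aestronglyMeasurable
    · filter_upwards [hmem] with t ht
      filter_upwards [W_ae hW (y := y)] with x hx
      rcases hx with h0 | ⟨hr, hd⟩
      · rw [h0, zero_mul, norm_zero]
        apply indicator_nonneg
        intro _ _
        positivity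
      · rw [indicator_of_mem (by simpa using hr), norm_mul, Real.norm_eq_abs, Real.norm_eq_abs]
        exact mul_le_mul (hW.bounded x) ((hC (x - y) hd).1 t ht.1 ht.2.le) (abs_nonneg _) hM
    · filter_upwards [W_ae hW (y := y)] with x hx
      rcases hx with h0 | ⟨hr, hd⟩
      · simp only [h0, zero_mul]
        exact tendsto_const_nhds
      · exact ((hC (x - y) hd).2).const_mul (W x)
  have hzero : ∀ᶠ t in 𝓝[>] (0 : ℝ), ∫ x, W x * Q t x = 0 := by
    filter_upwards [hmem] with t ht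
    have hnear : ∀ (i : Fin 3) (σ : ℝ), |σ| = t →
        ‖(y + σ • EuclideanSpace.single i (1 : ℝ)) - y₀‖ < ρ := by
      intro i σ hσ
      have h1 : ‖σ • (EuclideanSpace.single i (1 : ℝ) : E3)‖ = t := by
        rw [norm_smul, EuclideanSpace.norm_single]; simpa using hσ
      have h2 := norm_add_le (y - y₀) (σ • (EuclideanSpace.single i (1 : ℝ) : E3))
      have h3 : (y + σ • EuclideanSpace.single i (1 : ℝ)) - y₀ =
          (y - y₀) + σ • (EuclideanSpace.single i (1 : ℝ) : E3) := by abel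
      rw [h3]
      rw [h1] at h2
      have := ht.2
      linarith
    have i0 := UW_integrable hW b hy
    have e0 : ∫ x, W x * ‖x - y‖ ^ (-b) = 0 := h y hy
    have ip : ∀ i : Fin 3, Integrable (fun x => W x *
        ‖(x - y) - t • EuclideanSpace.single i (1 : ℝ)‖ ^ (-b)) ∧
        ∫ x, W x * ‖(x - y) - t • EuclideanSpace.single i (1 : ℝ)‖ ^ (-b) = 0 := by
      intro i
      have hn := hnear i t (abs_of_pos ht.1)
      have e : ∀ x : E3, (x - y) - t • EuclideanSpace.single i (1 : ℝ) =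
          x - (y + t • EuclideanSpace.single i (1 : ℝ)) := fun x => by abel
      simp_rw [e]
      exact ⟨UW_integrable hW b hn, h _ hn⟩
    have im : ∀ i : Fin 3, Integrable (fun x => W x *
        ‖(x - y) + t • EuclideanSpace.single i (1 : ℝ)‖ ^ (-b)) ∧
        ∫ x, W x * ‖(x - y) + t • EuclideanSpace.single i (1 : ℝ)‖ ^ (-b) = 0 := by
      intro i
      have hn := hnear i (-t) (by rw [abs_neg, abs_of_pos ht.1])
      have e : ∀ x : E3, (x - y) + t • EuclideanSpace.single i (1 : ℝ) =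
          x - (y + (-t) • EuclideanSpace.single i (1 : ℝ)) := fun x => by
        rw [neg_smul]; abel
      simp_rw [e]
      exact ⟨UW_integrable hW b hn, h _ hn⟩
    have eQ : ∀ x, W x * Q t x = ∑ i : Fin 3,
        ((W x * ‖(x - y) + t • EuclideanSpace.single i (1 : ℝ)‖ ^ (-b) +
          W x * ‖(x - y) - t • EuclideanSpace.single i (1 : ℝ)‖ ^ (-b)) -
          2 * (W x * ‖x - y‖ ^ (-b))) / t ^ 2 := by
      intro x
      simp only [hQ]
      rw [Finset.mul_sum]
      refine Finset.sum_congr rfl fun i _ => ?_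
      ring
    simp_rw [eQ]
    rw [integral_finset_sum]
    · refine Finset.sum_eq_zero fun i _ => ?_
      rw [integral_div]
      have s1 := integral_sub ((im i).1.add (ip i).1) (i0.const_mul 2)
      simp only [Pi.add_apply] at s1
      rw [s1, integral_add (im i).1 (ip i).1, integral_const_mul, (im i).2, (ip i).2, e0]
      simp
    · intro i _
      exact (((im i).1.add (ip i).1).sub (i0.const_mul 2)).div_const _
  have h0 : ∫ x, W x * (b * (b - 1) * ‖x - y‖ ^ (-(b + 2))) = 0 := by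
    refine tendsto_nhds_unique hlim ?_
    refine Tendsto.congr' (f₁ := fun _ => (0 : ℝ)) ?_ tendsto_const_nhds
    filter_upwards [hzero] with t ht using ht.symm
  have e : (fun x => W x * (b * (b - 1) * ‖x - y‖ ^ (-(b + 2)))) =
      fun x => (b * (b - 1)) * (W x * ‖x - y‖ ^ (-(b + 2))) := by
    funext x; ring
  rw [e, integral_const_mul] at h0
  have hb1 : b * (b - 1) ≠ 0 := by
    have : 0 < b * (b - 1) := by nlinarith
    exact this.ne'
  exact (mul_eq_zero.1 h0).resolve_left hb1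

end FracScat

end
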