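import Pool.Agent.Lib.MP_6e2ba5_an.Rx.SphA

/-! # All radial averages vanish

By induction (`sphA`) `UW (b+2m) W y = 0` for all `m` and all `y` in the ball. Fix `y`, `δ = ρ - ‖y-y₀‖`, `R = r + ‖y‖ + 1`
(`δ ≤ R` can be assumed by increasing `R`): where
`W x ≠ 0`, `δ ≤ ‖x-y‖ ≤ R` almost everywhere. Given the continuous `F`, the function
`G(u) = F(u^(-1/2)) u^(-b/2)` is continuous on `[R^(-2), δ^(-2)]`; by Weierstrass
(`exists_polynomial_near_continuousMap` or `polynomialFunctions_closure_eq_top`) choose polynomials `P` with `|G - P| ≤ ε`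
there. With `u = ‖x-y‖^(-2)`: `F(‖x-y‖) = G(u) ‖x-y‖^(-b)` and `‖x-y‖^(-b) P(u) = ∑ p_m ‖x-y‖^(-b-2m)` has integral zero against `W`, so
`|∫ W F(‖x-y‖)| ≤ ε ∫ |W| ‖x-y‖^(-b)`. -/

set_option autoImplicit false

open MeasureTheory Filter Topology Set
open scoped FourierTransform SchwartzMap InnerProductSpace ENNReal BoundedContinuousFunction

noncomputable section

namespace FracScat

private theorem sphB_all {r M ρ : ℝ} {W : E3 → ℝ} {y₀ : E3} (hW : IsW r M W y₀ ρ) {b : ℝ}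
    (hb : 1 < b) (h : ∀ y : E3, ‖y - y₀‖ < ρ → UW b W y = 0) (m : ℕ) :
    ∀ y : E3, ‖y - y₀‖ < ρ → UW (b + 2 * m) W y = 0 := by
  induction m with
  | zero =>
    intro z hz
    simpa using h z hz
  | succ m ih =>
    intro z hz
    have hm : (0 : ℝ) ≤ m := Nat.cast_nonneg m
    have h1 := sphA hW (b := b + 2 * m) (by linarith) ih z hz
    rw [show b + 2 * ((m + 1 : ℕ) : ℝ) = b + 2 * m + 2 by push_cast; ring]
    exact h1

private theorem sphB_poly {r M ρ : ℝ} {W : E3 → ℝ} {y₀ : E3} (hW : IsW r M W y₀ ρ) {b : ℝ}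
    (hb : 1 < b) (h : ∀ y : E3, ‖y - y₀‖ < ρ → UW b W y = 0) (P : Polynomial ℝ) (y : E3)
    (hy : ‖y - y₀‖ < ρ) :
    Integrable (fun x => W x * ‖x - y‖ ^ (-b) * P.eval (‖x - y‖ ^ (-2 : ℝ))) ∧
      ∫ x, W x * ‖x - y‖ ^ (-b) * P.eval (‖x - y‖ ^ (-2 : ℝ)) = 0 := by
  have hpow : ∀ (i : ℕ) (t : ℝ), 0 ≤ t → t ^ (-b) * (t ^ (-2 : ℝ)) ^ i = t ^ (-(b + 2 * i)) := by
    intro i t ht
    rcases ht.eq_or_lt with h0 | h0
    · subst h0
      have hi : (0 : ℝ) ≤ i := Nat.cast_nonneg i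
      rw [Real.zero_rpow (by linarith : -b ≠ 0), Real.zero_rpow (by linarith : -(b + 2 * (i : ℝ)) ≠ 0),
        zero_mul]
    · rw [← Real.rpow_natCast, ← Real.rpow_mul h0.le, ← Real.rpow_add h0]
      congr 1
      ring
  have hrw : ∀ x : E3, W x * ‖x - y‖ ^ (-b) * P.eval (‖x - y‖ ^ (-2 : ℝ)) =
      ∑ i ∈ Finset.range (P.natDegree + 1), P.coeff i * (W x * ‖x - y‖ ^ (-(b + 2 * i))) := by
    intro x
    rw [Polynomial.eval_eq_sum_range, Finset.mul_sum]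
    refine Finset.sum_congr rfl fun i _ => ?_
    rw [← hpow i _ (norm_nonneg _)]
    ring
  have hI : ∀ i : ℕ, Integrable (fun x => P.coeff i * (W x * ‖x - y‖ ^ (-(b + 2 * i)))) :=
    fun i => (UW_integrable hW (b + 2 * i) hy).const_mul _
  simp only [hrw]
  refine ⟨integrable_finsetSum _ fun i _ => hI i, ?_⟩
  rw [integral_finsetSum _ fun i _ => hI i]
  refine Finset.sum_eq_zero fun i _ => ?_
  rw [integral_const_mul]
  have := sphB_all hW hb h i y hy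
  rw [UW] at this
  rw [this, mul_zero]

theorem sphB {r M ρ : ℝ} {W : E3 → ℝ} {y₀ : E3} (hW : IsW r M W y₀ ρ) {b : ℝ} (hb : 1 < b)
    (h : ∀ y : E3, ‖y - y₀‖ < ρ → UW b W y = 0) {F : ℝ → ℝ} (hF : Continuous F) (y : E3)
    (hy : ‖y - y₀‖ < ρ) : ∫ x, W x * F ‖x - y‖ = 0 := by
  by_cases hint : Integrable (fun x => W x * F ‖x - y‖)
  swap
  · exact integral_undef hint
  obtain ⟨δ, hδd⟩ : ∃ δ : ℝ, δ = ρ - ‖y - y₀‖ := ⟨_, rfl⟩
  obtain ⟨R, hRd⟩ : ∃ R : ℝ, R = |r| + ‖y‖ + 1 := ⟨_, rfl⟩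
  have hδ : 0 < δ := by rw [hδd]; linarith
  have hR : 0 < R := by
    have h1 := abs_nonneg r
    have h2 := norm_nonneg y
    rw [hRd]; linarith
  have hae : ∀ᵐ x ∂(volume : Measure E3), W x ≠ 0 → δ ≤ ‖x - y‖ ∧ ‖x - y‖ ≤ R := by
    filter_upwards [hW.zero] with x hx hne
    have h1 : ¬ ‖x - y₀‖ < ρ := fun h => hne (hx h)
    have h2 : ‖x‖ < r := by
      by_contra hc
      exact hne (hW.vanish x (not_lt.1 hc))
    constructor
    · have h3 : ‖x - y₀‖ ≤ ‖x - y‖ + ‖y - y₀‖ := by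
        have := norm_add_le (x - y) (y - y₀)
        simpa using this
      rw [not_lt] at h1
      rw [hδd]; linarith
    · have h3 := norm_sub_le x y
      have h4 := le_abs_self r
      rw [hRd]; linarith
  have hG : ContinuousOn (fun u : ℝ => F (u ^ (-(1 / 2) : ℝ)) * u ^ (-(b / 2)))
      (Set.Icc (R ^ (-2 : ℝ)) (δ ^ (-2 : ℝ))) := by
    have hR2 : 0 < R ^ (-2 : ℝ) := Real.rpow_pos_of_pos hR _
    have hne : ∀ u ∈ Set.Icc (R ^ (-2 : ℝ)) (δ ^ (-2 : ℝ)), u ≠ 0 := fun u hu =>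
      (hR2.trans_le hu.1).ne'
    refine ContinuousOn.mul (hF.comp_continuousOn ?_) ?_
    · exact continuousOn_id.rpow_const fun u hu => Or.inl (hne u hu)
    · exact continuousOn_id.rpow_const fun u hu => Or.inl (hne u hu)
  have key : ∀ ε : ℝ, 0 < ε →
      |∫ x, W x * F ‖x - y‖| ≤ ε * ∫ x, |W x * ‖x - y‖ ^ (-b)| := by
    intro ε hε
    obtain ⟨P, hP⟩ := exists_polynomial_near_of_continuousOn _ _ _ hG ε hε
    obtain ⟨hP1, hP2⟩ := sphB_poly hW hb h P y hy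
    have h1 : ∫ x, W x * F ‖x - y‖ = ∫ x, (W x * F ‖x - y‖ -
        W x * ‖x - y‖ ^ (-b) * P.eval (‖x - y‖ ^ (-2 : ℝ))) := by
      rw [integral_sub hint hP1, hP2, sub_zero]
    rw [h1, ← integral_const_mul]
    refine (abs_integral_le_integral_abs).trans (integral_mono_ae (hint.sub hP1).abs
      ((UW_integrable hW b hy).abs.const_mul _) ?_)
    filter_upwards [hae] with x hx
    by_cases h0 : W x = 0
    · simp [h0]
    · obtain ⟨h2, h3⟩ := hx h0
      have hp : 0 < ‖x - y‖ := hδ.trans_le h2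
      have hu : ‖x - y‖ ^ (-2 : ℝ) ∈ Set.Icc (R ^ (-2 : ℝ)) (δ ^ (-2 : ℝ)) :=
        ⟨Real.rpow_le_rpow_of_nonpos hp h3 (by norm_num),
          Real.rpow_le_rpow_of_nonpos hδ h2 (by norm_num)⟩
      have h4 := (hP _ hu).le
      have h5 : (‖x - y‖ ^ (-2 : ℝ)) ^ (-(1 / 2) : ℝ) = ‖x - y‖ := by
        rw [← Real.rpow_mul hp.le]
        norm_num
      have h6 : (‖x - y‖ ^ (-2 : ℝ)) ^ (-(b / 2)) = ‖x - y‖ ^ b := by
        rw [← Real.rpow_mul hp.le]
        congr 1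
        ring
      have h7 : ‖x - y‖ ^ b * ‖x - y‖ ^ (-b) = 1 := by
        rw [← Real.rpow_add hp]
        simp
      simp only [h5, h6] at h4
      have h8 : W x * F ‖x - y‖ - W x * ‖x - y‖ ^ (-b) * P.eval (‖x - y‖ ^ (-2 : ℝ)) =
          -((P.eval (‖x - y‖ ^ (-2 : ℝ)) - F ‖x - y‖ * ‖x - y‖ ^ b) *
            (W x * ‖x - y‖ ^ (-b))) := by
        have : W x * F ‖x - y‖ = W x * F ‖x - y‖ * (‖x - y‖ ^ b * ‖x - y‖ ^ (-b)) := by
          rw [h7, mul_one]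
        rw [this]
        ring
      simp only [h8, abs_neg, abs_mul]
      exact mul_le_mul_of_nonneg_right h4 (by positivity)
  have hnn : 0 ≤ ∫ x, |W x * ‖x - y‖ ^ (-b)| := integral_nonneg fun x => abs_nonneg _
  have h9 : |∫ x, W x * F ‖x - y‖| ≤ 0 := by
    refine le_of_forall_pos_le_add fun η hη => ?_
    have := key (η / ((∫ x, |W x * ‖x - y‖ ^ (-b)|) + 1)) (by positivity)
    refine this.trans ?_
    rw [zero_add, div_mul_eq_mul_div, div_le_iff₀ (by positivity)]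
    nlinarith
  exact abs_eq_zero.1 (le_antisymm h9 (abs_nonneg _))

end FracScat

end
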