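import Pool.Agent.Lib.MP_6e2ba5_an.Rx.SymI
import Pool.Agent.Lib.MP_6e2ba5_an.Cx.Ident

/-! # The equation for the field at `k = iτ`

`Iτ ∈ Quad` with positive imaginary part, `Mop_eq_Kop` (`../Ex/MopB.lean`): `Kop s r (Iτ) = Mop s r (Iτ)
= 1_B multL (mI s τ) 1_B`. `uk_eq` (`../Cx/UeqA.lean`): `uk = ev + Kop (V uk)`; multiply by `exp(τ θ·y)`:
`ev r θ (Iτ) = indB · planeWave (Iτ) θ`, `planeWave_I` gives `pe τ θ x`, and `exp(τθ·y) pe τ θ x = wE τ θ y x`. As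
`V` vanishes outside the ball, `1_B fI = fI`. `fI_eq`: `V · indB = V`.
`uI_J`: as `ident` in `../Cx/Ident.lean`: with `e = ev`, `u_j = uk V_j`, `N = Mop`, `u_j = e + N(V_j u_j)`,
`∫ e V₁u₁ = ∫ (u₂ - N(V₂u₂)) V₁u₁`, `∫ e V₂u₂ = ∫ (u₁ - N(V₁u₁)) V₂u₂`, and the symmetry of `N`
(`Mop_symm`, `mI_BM`: `mI s τ` is `rsE s (Iτ)` by definition) gives
`Ffun V₁ - Ffun V₂ = ∫ (V₁-V₂) u₁ u₂`; then multiply by `exp(2τ θ·y)`. -/

set_option autoImplicit false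

open MeasureTheory Filter Topology Set
open scoped FourierTransform SchwartzMap InnerProductSpace ENNReal BoundedContinuousFunction

noncomputable section

namespace FracScatC

open FracScat

private theorem UIa_quad {τ : ℝ} (hτ : 0 < τ) : (Complex.I * τ : ℂ) ∈ Quad ∧
    0 < (Complex.I * τ : ℂ).im := by
  have h1 : (Complex.I * τ : ℂ).re = 0 := by simp
  have h2 : (Complex.I * τ : ℂ).im = τ := by simp
  refine ⟨⟨h1.ge, ?_, ?_⟩, ?_⟩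
  · rw [h2]
    exact hτ.le
  · exact mul_ne_zero Complex.I_ne_zero (Complex.ofReal_ne_zero.2 hτ.ne')
  · rw [h2]
    exact hτ

private theorem UIa_V {r M : ℝ} {V : E3 → ℂ} (hV : IsPot r M V) (x : E3) :
    V x * indB r x = V x := by
  unfold indB
  split_ifs with h
  · rw [mul_one]
  · rw [hV.vanish x (not_lt.1 h), zero_mul]

private theorem UIa_cut {r M : ℝ} {V : E3 → ℂ} (hV : IsPot r M V) (f : HS) :
    mulL (indB r) (mulL V f) = mulL V f := by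
  rw [mulL_mulL (indB_BM r) hV.BM]
  have h : (fun x : E3 => indB r x * V x) = V := by
    funext x
    rw [mul_comm]
    exact UIa_V hV x
  rw [h]

private theorem UIa_fix {s : ℝ} (h0 : 0 < s) (h2 : s < 2) {r : ℝ} (hr : 0 < r)
    {V : E3 → ℂ} (θ y : E3) {τ : ℝ} (hτ : 0 < τ)
    (hT : ‖Tk s r V (Complex.I * τ)‖ ≤ 1 / 2) :
    uI s r V θ y τ = ((Real.exp (τ * ⟪θ, y⟫_ℝ) : ℝ) : ℂ) • ev r θ (Complex.I * τ) +
      Mop s r (Complex.I * τ) (fI s r V θ y τ) := by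
  have h := uk_eq (θ := θ) hT
  rw [Mop_eq_Kop h0 h2 hr.le (UIa_quad hτ).1 (UIa_quad hτ).2]
  unfold fI uI
  rw [map_smul, map_smul, ← smul_add, ← h]

theorem fI_coe {s r M : ℝ} {V : E3 → ℂ} (hV : IsPot r M V) (θ y : E3) (τ : ℝ) :
    (fI s r V θ y τ : E3 → ℂ) =ᵐ[volume] fun x => V x * (uI s r V θ y τ : E3 → ℂ) x :=
  mulL_coe hV.BM _

theorem uI_fix {s : ℝ} (h0 : 0 < s) (h2 : s < 2) (h1 : s ≠ 1) {r M : ℝ} (hr : 0 < r)
    {V : E3 → ℂ} (hV : IsPot r M V) (θ y : E3) {τ : ℝ} (hτ : 0 < τ)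
    (hT : ‖Tk s r V (Complex.I * τ)‖ ≤ 1 / 2) :
    (uI s r V θ y τ : E3 → ℂ) =ᵐ[volume] fun x => indB r x * ((wE τ θ y x : ℝ) : ℂ) +
      indB r x * (multL (mI s τ) (fI s r V θ y τ) : E3 → ℂ) x := by
  have e1 : Mop s r (Complex.I * τ) (fI s r V θ y τ) =
      mulL (indB r) (multL (mI s τ) (fI s r V θ y τ)) := by
    show mulL (indB r) (multL (rsE s (Complex.I * τ)) (mulL (indB r) (mulL V _))) = _
    rw [UIa_cut hV]
    rfl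
  have e2 := UIa_fix h0 h2 hr θ y hτ hT
  rw [e1] at e2
  have e3 := Lp.coeFn_add (((Real.exp (τ * ⟪θ, y⟫_ℝ) : ℝ) : ℂ) • ev r θ (Complex.I * τ))
    (mulL (indB r) (multL (mI s τ) (fI s r V θ y τ)))
  rw [← e2] at e3
  filter_upwards [e3, Lp.coeFn_smul (((Real.exp (τ * ⟪θ, y⟫_ℝ) : ℝ) : ℂ)) (ev r θ (Complex.I * τ)),
    ev_coe r θ (Complex.I * τ), mulL_coe (indB_BM r) (multL (mI s τ) (fI s r V θ y τ))]
    with x a b c d
  rw [a, Pi.add_apply, b, Pi.smul_apply, c, d, planeWave_I, smul_eq_mul]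
  congr 1
  have : wE τ θ y x = Real.exp (τ * ⟪θ, y⟫_ℝ) * pe τ θ x := by
    unfold wE pe
    rw [← Real.exp_add, inner_sub_right]
    congr 1
    ring
  rw [this]
  push_cast
  ring

theorem fI_eq {s : ℝ} (h0 : 0 < s) (h2 : s < 2) (h1 : s ≠ 1) {r M : ℝ} (hr : 0 < r)
    {V : E3 → ℂ} (hV : IsPot r M V) (θ y : E3) {τ : ℝ} (hτ : 0 < τ)
    (hT : ‖Tk s r V (Complex.I * τ)‖ ≤ 1 / 2) :
    (fI s r V θ y τ : E3 → ℂ) =ᵐ[volume] fun x => V x * ((wE τ θ y x : ℝ) : ℂ) +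
      V x * (multL (mI s τ) (fI s r V θ y τ) : E3 → ℂ) x := by
  filter_upwards [fI_coe hV θ y τ, uI_fix h0 h2 h1 hr hV θ y hτ hT] with x a b
  rw [a, b]
  have h := UIa_V hV x
  calc V x * (indB r x * ((wE τ θ y x : ℝ) : ℂ) +
      indB r x * (multL (mI s τ) (fI s r V θ y τ) : E3 → ℂ) x)
      = (V x * indB r x) * ((wE τ θ y x : ℝ) : ℂ) +
        (V x * indB r x) * (multL (mI s τ) (fI s r V θ y τ) : E3 → ℂ) x := by ring
    _ = _ := by rw [h]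

theorem fI_integrable {s r M : ℝ} {V : E3 → ℂ} (hV : IsPot r M V) (θ y : E3) (τ : ℝ) :
    Integrable (fI s r V θ y τ : E3 → ℂ) :=
  integrable_of_indB (r := r) (UIa_cut hV _)

private theorem UIa_add (f f' g : HS) :
    ∫ x, ((f + f' : HS) : E3 → ℂ) x * (g : E3 → ℂ) x =
      (∫ x, (f : E3 → ℂ) x * (g : E3 → ℂ) x) + ∫ x, (f' : E3 → ℂ) x * (g : E3 → ℂ) x := by
  rw [← integral_add (integrable_mul f g) (integrable_mul f' g)]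
  refine integral_congr_ae ?_
  filter_upwards [Lp.coeFn_add f f'] with x hx
  rw [hx, Pi.add_apply]
  ring

private theorem UIa_comm (f g : HS) :
    ∫ x, (f : E3 → ℂ) x * (g : E3 → ℂ) x = ∫ x, (g : E3 → ℂ) x * (f : E3 → ℂ) x := by
  refine integral_congr_ae (Eventually.of_forall fun x => ?_)
  exact mul_comm _ _

private theorem UIa_F {s r : ℝ} {V : E3 → ℂ} (θ y : E3) (τ : ℝ) :
    (∫ x, ((((Real.exp (τ * ⟪θ, y⟫_ℝ) : ℝ) : ℂ) • ev r θ (Complex.I * τ) : HS) : E3 → ℂ) x *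
      (fI s r V θ y τ : E3 → ℂ) x) =
      ((Real.exp (τ * ⟪θ, y⟫_ℝ) : ℝ) : ℂ) ^ 2 * Ffun s r V θ (Complex.I * τ) := by
  unfold Ffun
  rw [← integral_const_mul]
  refine integral_congr_ae ?_
  have e : fI s r V θ y τ = ((Real.exp (τ * ⟪θ, y⟫_ℝ) : ℝ) : ℂ) •
      mulL V (uk s r V θ (Complex.I * τ)) := by
    unfold fI uI
    rw [map_smul]
  rw [e]
  filter_upwards [Lp.coeFn_smul (((Real.exp (τ * ⟪θ, y⟫_ℝ) : ℝ) : ℂ)) (ev r θ (Complex.I * τ)),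
    Lp.coeFn_smul (((Real.exp (τ * ⟪θ, y⟫_ℝ) : ℝ) : ℂ)) (mulL V (uk s r V θ (Complex.I * τ)))]
    with x a b
  rw [a, b, Pi.smul_apply, Pi.smul_apply, smul_eq_mul, smul_eq_mul]
  ring

theorem uI_J {s : ℝ} (h0 : 0 < s) (h2 : s < 2) (h1 : s ≠ 1) {r M : ℝ} (hr : 0 < r)
    {V₁ V₂ : E3 → ℂ} (hV₁ : IsPot r M V₁) (hV₂ : IsPot r M V₂) (θ y : E3) {τ : ℝ} (hτ : 0 < τ)
    (hT₁ : ‖Tk s r V₁ (Complex.I * τ)‖ ≤ 1 / 2) (hT₂ : ‖Tk s r V₂ (Complex.I * τ)‖ ≤ 1 / 2)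
    (hF : Ffun s r V₁ θ (Complex.I * τ) = Ffun s r V₂ θ (Complex.I * τ)) :
    ∫ x, (V₁ x - V₂ x) * ((uI s r V₁ θ y τ : E3 → ℂ) x * (uI s r V₂ θ y τ : E3 → ℂ) x) = 0 := by
  have g1 := UIa_add (((Real.exp (τ * ⟪θ, y⟫_ℝ) : ℝ) : ℂ) • ev r θ (Complex.I * τ))
    (Mop s r (Complex.I * τ) (fI s r V₂ θ y τ)) (fI s r V₁ θ y τ)
  rw [← UIa_fix h0 h2 hr θ y hτ hT₂, UIa_F] at g1
  have g2 := UIa_add (((Real.exp (τ * ⟪θ, y⟫_ℝ) : ℝ) : ℂ) • ev r θ (Complex.I * τ))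
    (Mop s r (Complex.I * τ) (fI s r V₁ θ y τ)) (fI s r V₂ θ y τ)
  rw [← UIa_fix h0 h2 hr θ y hτ hT₁, UIa_F] at g2
  have g3 : (∫ x, (Mop s r (Complex.I * τ) (fI s r V₂ θ y τ) : E3 → ℂ) x *
      (fI s r V₁ θ y τ : E3 → ℂ) x) =
      ∫ x, (Mop s r (Complex.I * τ) (fI s r V₁ θ y τ) : E3 → ℂ) x *
      (fI s r V₂ θ y τ : E3 → ℂ) x := by
    rw [Mop_symm r (mI_BM h0 h2 h1 hτ), UIa_comm]
  have g4 : ∫ x, (V₁ x - V₂ x) *
      ((uI s r V₁ θ y τ : E3 → ℂ) x * (uI s r V₂ θ y τ : E3 → ℂ) x) =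
      (∫ x, (uI s r V₂ θ y τ : E3 → ℂ) x * (fI s r V₁ θ y τ : E3 → ℂ) x) -
      ∫ x, (uI s r V₁ θ y τ : E3 → ℂ) x * (fI s r V₂ θ y τ : E3 → ℂ) x := by
    rw [← integral_sub (integrable_mul _ _) (integrable_mul _ _)]
    refine integral_congr_ae ?_
    filter_upwards [fI_coe hV₁ θ y τ, fI_coe hV₂ θ y τ] with x b c
    rw [b, c]
    ring
  rw [g4, g1, g2, g3, hF]
  ring

end FracScatC

end
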